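import Pool.Agent.Lib.MP_4a593f_gt.P3.Curv

namespace Pool.Hopf3

open Finset

/-- Transfer of a 3-form from `Fin n`, `n = 6 + d`, to `Idx d`. -/
theorem cert_transfer {n d : ℕ} (e : Idx d ≃ Fin n) {ψ : Fin n → Fin n → Fin n → ℝ}
    (hψ : Form3 ψ) (h1 : ip3 ψ ψ = 1)
    (hcert : ∀ χ : Idx d → Idx d → Idx d → ℝ, Form3 χ → ip3 χ χ = 1 →
      ∃ Q : Idx d → Idx d → Idx d → Idx d → ℝ, Form4 Q ∧ ∀ L : Idx d → Idx d → ℝ, Skew L →
        0 ≤ ip3 (rho L χ) (rho L χ) - quad4 Q L ∧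
        ip3 (rho L χ) (rho L χ) - quad4 Q L ≤ 5 / 2 * ip2 L L) :
    ∃ Q : Fin n → Fin n → Fin n → Fin n → ℝ, Form4 Q ∧ ∀ L : Fin n → Fin n → ℝ, Skew L →
      0 ≤ ip3 (rho L ψ) (rho L ψ) - quad4 Q L ∧
      ip3 (rho L ψ) (rho L ψ) - quad4 Q L ≤ 5 / 2 * ip2 L L := by
  -- sums over `Idx d` and over `Fin n`
  have s3 : ∀ F : Fin n → Fin n → Fin n → ℝ,
      ∑ i : Idx d, ∑ j : Idx d, ∑ k : Idx d, F (e i) (e j) (e k) = ∑ i, ∑ j, ∑ k, F i j k := by
    intro F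
    rw [← Equiv.sum_comp e (fun i => ∑ j, ∑ k, F i j k)]
    refine Finset.sum_congr rfl fun i _ => ?_
    rw [← Equiv.sum_comp e (fun j => ∑ k, F (e i) j k)]
    refine Finset.sum_congr rfl fun j _ => ?_
    rw [← Equiv.sum_comp e (fun k => F (e i) (e j) k)]
  have s2 : ∀ F : Fin n → Fin n → ℝ,
      ∑ i : Idx d, ∑ j : Idx d, F (e i) (e j) = ∑ i, ∑ j, F i j := by
    intro F
    rw [← Equiv.sum_comp e (fun i => ∑ j, F i j)]
    refine Finset.sum_congr rfl fun i _ => ?_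
    rw [← Equiv.sum_comp e (fun j => F (e i) j)]
  have s4 : ∀ F : Fin n → Fin n → Fin n → Fin n → ℝ,
      ∑ i : Idx d, ∑ j : Idx d, ∑ k : Idx d, ∑ l : Idx d, F (e i) (e j) (e k) (e l)
        = ∑ i, ∑ j, ∑ k, ∑ l, F i j k l := by
    intro F
    rw [← s2 (fun i j => ∑ k, ∑ l, F i j k l)]
    refine Finset.sum_congr rfl fun i _ => Finset.sum_congr rfl fun j _ => ?_
    rw [← s2 (fun k l => F (e i) (e j) k l)]
  set χ : Idx d → Idx d → Idx d → ℝ := fun i j k => ψ (e i) (e j) (e k) with hχ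
  have hχf : Form3 χ := ⟨fun i j k => hψ.s12 _ _ _, fun i j k => hψ.s23 _ _ _⟩
  have hχ1 : ip3 χ χ = 1 := by
    rw [← h1]
    unfold ip3
    rw [← s3 (fun i j k => ψ i j k * ψ i j k)]
  obtain ⟨Q, hQ, hL⟩ := hcert χ hχf hχ1
  refine ⟨fun i j k l => Q (e.symm i) (e.symm j) (e.symm k) (e.symm l),
    ⟨fun i j k l => hQ.s12 _ _ _ _, fun i j k l => hQ.s23 _ _ _ _, fun i j k l => hQ.s34 _ _ _ _⟩,
    ?_⟩
  intro L hLs
  have h := hL (fun i j => L (e i) (e j)) (fun i j => hLs _ _)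
  have hrho : ∀ i j k, rho (fun i j => L (e i) (e j)) χ i j k = rho L ψ (e i) (e j) (e k) := by
    intro i j k
    unfold rho
    rw [← Equiv.sum_comp e (fun t => L (e i) t * ψ t (e j) (e k) + L (e j) t * ψ (e i) t (e k)
      + L (e k) t * ψ (e i) (e j) t)]
  have e1 : ip3 (rho (fun i j => L (e i) (e j)) χ) (rho (fun i j => L (e i) (e j)) χ)
      = ip3 (rho L ψ) (rho L ψ) := by
    unfold ip3
    simp only [hrho]
    rw [s3 (fun i j k => rho L ψ i j k * rho L ψ i j k)]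
  have e2 : quad4 Q (fun i j => L (e i) (e j))
      = quad4 (fun i j k l => Q (e.symm i) (e.symm j) (e.symm k) (e.symm l)) L := by
    unfold quad4
    rw [← s4 (fun i j k l => Q (e.symm i) (e.symm j) (e.symm k) (e.symm l) * L i j * L k l)]
    simp only [Equiv.symm_apply_apply]
  have e3 : ip2 (fun i j => L (e i) (e j)) (fun i j => L (e i) (e j)) = ip2 L L := by
    unfold ip2
    rw [← s2 (fun i j => L i j * L i j)]
  rw [e1, e2, e3] at h
  exact h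

end Pool.Hopf3
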