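import Pool.Agent.Lib.MP_4a593f_gt.P3.Defs

namespace Pool.Hopf3

open Finset

/-- `R` is an algebraic curvature tensor: skew in the first pair, skew in the second pair, first
Bianchi identity (the pair symmetry follows). Convention: `R_{ijij}` is the sectional curvature of
the coordinate plane `i, j`. -/
structure IsCurvature {ι : Type} (R : ι → ι → ι → ι → ℝ) : Prop where
  skew12 : ∀ i j k l, R j i k l = - R i j k l
  skew34 : ∀ i j k l, R i j l k = - R i j k l
  bianchi : ∀ i j k l, R i j k l + R j k i l + R k i j l = 0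

/-- The Bochner-Yano curvature term of the Weitzenböck formula on 3-forms,
`F(R,φ) = ∑ Ric_{ij} φ_{ikl} φ_{jkl} - ∑ R_{ijkl} φ_{ijm} φ_{klm}`, `Ric_{ij} = ∑ R_{iaja}`. -/
def bochner {ι : Type} [Fintype ι] (R : ι → ι → ι → ι → ℝ) (φ : ι → ι → ι → ℝ) : ℝ :=
  (∑ i, ∑ j, (∑ a, R i a j a) * ∑ k, ∑ l, φ i k l * φ j k l)
    - ∑ m, ∑ i, ∑ j, ∑ k, ∑ l, R i j k l * φ i j m * φ k l m

/-- `curvOp R α` is `R(α,α)`, so that its value on `e_i ∧ e_j` is `R_{ijij}`. -/
noncomputable def curvOp {ι : Type} [Fintype ι] (R : ι → ι → ι → ι → ℝ) (α : ι → ι → ℝ) : ℝ :=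
  1 / 4 * ∑ i, ∑ j, ∑ k, ∑ l, R i j k l * α i j * α k l

/-- pairs `i < j` -/
abbrev Pr (n : ℕ) : Type := {p : Fin n × Fin n // p.1 < p.2}

/-- the skew array with given entries above the diagonal -/
def arr {n : ℕ} (v : Pr n → ℝ) (i j : Fin n) : ℝ :=
  if h : i < j then v ⟨(i, j), h⟩ else if h : j < i then - v ⟨(j, i), h⟩ else 0

/-- `e_i ∧ e_j` -/
def el {n : ℕ} (p : Pr n) (i j : Fin n) : ℝ :=
  if i = p.1.1 ∧ j = p.1.2 then 1 else if i = p.1.2 ∧ j = p.1.1 then -1 else 0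

theorem IsCurvature.pair {ι : Type} {R : ι → ι → ι → ι → ℝ} (hR : IsCurvature R) (i j k l : ι) :
    R k l i j = R i j k l := by
  have h1 := hR.bianchi i j k l
  have h2 := hR.bianchi j k l i
  have h3 := hR.bianchi k l i j
  have h4 := hR.bianchi l i j k
  have a1 := hR.skew12
  have a2 := hR.skew34
  linarith [a1 i j k l, a1 i k j l, a1 i l j k, a1 j k i l, a1 j l i k, a1 k l i j,
    a1 i j l k, a1 i k l j, a1 i l k j, a1 j k l i, a1 j l k i, a1 k l j i,
    a2 i j k l, a2 i k j l, a2 i l j k, a2 j k i l, a2 j l i k, a2 k l i j,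
    a2 j i k l, a2 k i j l, a2 l i j k, a2 k j i l, a2 l j i k, a2 l k i j]

end Pool.Hopf3
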