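import Pool.Agent.Lib.MP_4a593f_gt.P3.Basic
import Pool.Agent.Lib.MP_4a593f_gt.P3.Curv

namespace Pool.Hopf3

open Finset

theorem arr_skew {n : ℕ} (v : Pr n → ℝ) : Skew (arr v) := by
  intro i j
  unfold arr
  rcases lt_trichotomy i j with h | h | h
  · rw [dif_neg (not_lt.2 h.le), dif_pos h, dif_pos h]
  · subst h
    rw [dif_neg (lt_irrefl _), dif_neg (lt_irrefl _)]; simp
  · rw [dif_pos h, dif_neg (not_lt.2 h.le), dif_pos h]; simp

/-- a double sum over all pairs as a sum over pairs `i < j` -/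
private theorem TrB_double {n : ℕ} (f : Fin n → Fin n → ℝ) (hs : ∀ i j, f j i = f i j)
    (h0 : ∀ i, f i i = 0) : ∑ i, ∑ j, f i j = 2 * ∑ p : Pr n, f p.1.1 p.1.2 := by
  have h1 : ∑ p : Pr n, f p.1.1 p.1.2
      = ∑ p ∈ (univ : Finset (Fin n × Fin n)).filter (fun p => p.1 < p.2), f p.1 p.2 := by
    symm
    exact Finset.sum_subtype _ (by simp) (fun p : Fin n × Fin n => f p.1 p.2)
  rw [h1, Finset.sum_filter, ← Finset.univ_product_univ, Finset.sum_product, two_mul]
  have h2 : ∑ i : Fin n, ∑ j : Fin n, (if i < j then f i j else 0)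
      = ∑ i : Fin n, ∑ j : Fin n, (if j < i then f i j else 0) := by
    rw [Finset.sum_comm]
    refine Finset.sum_congr rfl fun i _ => Finset.sum_congr rfl fun j _ => ?_
    rw [hs]
  conv_rhs => rw [h2]
  conv_rhs => arg 1; rw [← h2]
  rw [← Finset.sum_add_distrib]
  refine Finset.sum_congr rfl fun i _ => ?_
  rw [← Finset.sum_add_distrib]
  refine Finset.sum_congr rfl fun j _ => ?_
  rcases lt_trichotomy i j with h | h | h
  · simp [h, not_lt.2 h.le]
  · subst h; simp [h0]
  · simp [h, not_lt.2 h.le]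

private theorem TrB_arr_lt {n : ℕ} (v : Pr n → ℝ) (p : Pr n) : arr v p.1.1 p.1.2 = v p := by
  unfold arr
  rw [dif_pos p.2]

private theorem TrB_arr_diag {n : ℕ} (v : Pr n → ℝ) (i : Fin n) : arr v i i = 0 := by
  unfold arr
  rw [dif_neg (lt_irrefl _), dif_neg (lt_irrefl _)]

theorem ip2_arr {n : ℕ} (v w : Pr n → ℝ) : ip2 (arr v) (arr w) = ∑ p, v p * w p := by
  unfold ip2
  rw [TrB_double (fun i j => arr v i j * arr w i j)]
  · simp only [TrB_arr_lt]; ring
  · intro i j
    rw [arr_skew v i j, arr_skew w i j]; ring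
  · intro i
    rw [TrB_arr_diag]; ring

/-- a double sum over pairs `i < j`, `k < l` as a full sum -/
theorem sum_pairs {n : ℕ} (S : Fin n → Fin n → Fin n → Fin n → ℝ)
    (h12 : ∀ i j k l, S j i k l = S i j k l) (h34 : ∀ i j k l, S i j l k = S i j k l)
    (h0 : ∀ i k l, S i i k l = 0) (h0' : ∀ i j k, S i j k k = 0) :
    ∑ p : Pr n, ∑ q : Pr n, S p.1.1 p.1.2 q.1.1 q.1.2 = 1 / 4 * ∑ i, ∑ j, ∑ k, ∑ l, S i j k l := by
  have h1 : ∀ i j, ∑ k, ∑ l, S i j k l = 2 * ∑ q : Pr n, S i j q.1.1 q.1.2 := fun i j =>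
    TrB_double (fun k l => S i j k l) (fun k l => h34 i j k l) (fun k => h0' i j k)
  simp only [h1]
  rw [TrB_double (fun i j => 2 * ∑ q : Pr n, S i j q.1.1 q.1.2)]
  · simp only [← Finset.mul_sum]
    ring
  · intro i j
    simp only [h12]
  · intro i
    simp only [h0, Finset.sum_const_zero, mul_zero]

/-- `rho` of a matrix unit -/
private theorem TrB_rho_unit {n : ℕ} (ψ : Fin n → Fin n → Fin n → ℝ) (i j a b c : Fin n) :
    rho (fun s t => if s = i ∧ t = j then (1 : ℝ) else 0) ψ a b c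
      = (if a = i then ψ j b c else 0) + (if b = i then ψ a j c else 0)
        + (if c = i then ψ a b j else 0) := by
  unfold rho
  rw [Finset.sum_add_distrib, Finset.sum_add_distrib]
  congr 1
  · congr 1
    · by_cases h : a = i <;> simp [h]
    · by_cases h : b = i <;> simp [h]
  · by_cases h : c = i <;> simp [h]

/-- the matrix unit -/
private def TrB_E {n : ℕ} (i j : Fin n) : Fin n → Fin n → ℝ :=
  fun s t => if s = i ∧ t = j then (1 : ℝ) else 0

private theorem TrB_el {n : ℕ} (p : Pr n) : el p = TrB_E p.1.1 p.1.2 - TrB_E p.1.2 p.1.1 := by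
  funext i j
  have hne : p.1.1 ≠ p.1.2 := p.2.ne
  unfold el TrB_E
  simp only [Pi.sub_apply]
  by_cases h1 : i = p.1.1 ∧ j = p.1.2
  · have h2 : ¬ (i = p.1.2 ∧ j = p.1.1) := fun h => hne (h1.1.symm.trans h.1)
    rw [if_pos h1, if_pos h1, if_neg h2]; norm_num
  · by_cases h2 : i = p.1.2 ∧ j = p.1.1
    · simp only [if_neg h1, if_pos h2]; norm_num
    · simp only [if_neg h1, if_neg h2]; norm_num

private theorem TrB_cyc {n : ℕ} (F : Fin n → Fin n → Fin n → ℝ) :
    ∑ i, ∑ j, ∑ k, F j k i = ∑ i, ∑ j, ∑ k, F i j k := by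
  rw [Finset.sum_comm]
  refine Finset.sum_congr rfl fun i _ => ?_
  rw [Finset.sum_comm]

private theorem TrB_D1 {n : ℕ} {ψ : Fin n → Fin n → Fin n → ℝ} (hψ : Form3 ψ) (j l : Fin n) :
    ∑ a, ∑ c, ψ a j c * ψ a l c = ∑ b, ∑ c, ψ j b c * ψ l b c := by
  refine Finset.sum_congr rfl fun a _ => Finset.sum_congr rfl fun c _ => ?_
  rw [hψ.s12 j a c, hψ.s12 l a c]; ring

private theorem TrB_D2 {n : ℕ} {ψ : Fin n → Fin n → Fin n → ℝ} (hψ : Form3 ψ) (j l : Fin n) :
    ∑ a, ∑ b, ψ a b j * ψ a b l = ∑ b, ∑ c, ψ j b c * ψ l b c := by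
  refine Finset.sum_congr rfl fun a _ => Finset.sum_congr rfl fun c _ => ?_
  rw [hψ.s23 a j c, hψ.s23 a l c, hψ.s12 j a c, hψ.s12 l a c]; ring

private theorem TrB_H {n : ℕ} {ψ : Fin n → Fin n → Fin n → ℝ} (hψ : Form3 ψ) (i j k l : Fin n) :
    ip3 (rho (TrB_E i j) ψ) (rho (TrB_E k l) ψ)
      = 1 / 2 * (if i = k then ∑ b, ∑ c, ψ j b c * ψ l b c else 0)
        + ∑ c, ψ j k c * ψ i l c := by
  have key : ∑ a, ∑ b, ∑ c, rho (TrB_E i j) ψ a b c * rho (TrB_E k l) ψ a b c
      = 3 * (if i = k then ∑ b, ∑ c, ψ j b c * ψ l b c else 0) + 6 * ∑ c, ψ j k c * ψ i l c := by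
    have hterm : ∀ a b c, rho (TrB_E i j) ψ a b c * rho (TrB_E k l) ψ a b c
        = (if a = i then (if a = k then ψ j b c * ψ l b c else 0) else 0)
          + (if b = i then (if b = k then ψ a j c * ψ a l c else 0) else 0)
          + (if c = i then (if c = k then ψ a b j * ψ a b l else 0) else 0)
          + (if a = i then (if b = k then ψ j b c * ψ a l c else 0) else 0)
          + (if a = i then (if c = k then ψ j b c * ψ a b l else 0) else 0)
          + (if b = i then (if a = k then ψ a j c * ψ l b c else 0) else 0)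
          + (if b = i then (if c = k then ψ a j c * ψ a b l else 0) else 0)
          + (if c = i then (if a = k then ψ a b j * ψ l b c else 0) else 0)
          + (if c = i then (if b = k then ψ a b j * ψ a l c else 0) else 0) := by
      intro a b c
      unfold TrB_E
      rw [TrB_rho_unit, TrB_rho_unit]
      split_ifs <;> ring
    simp only [hterm, Finset.sum_add_distrib]
    have t1 : ∑ a : Fin n, ∑ b, ∑ c, (if a = i then (if a = k then ψ j b c * ψ l b c else 0) else 0)
        = if i = k then ∑ b, ∑ c, ψ j b c * ψ l b c else 0 := by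
      by_cases h : i = k
      · subst h
        simp
      · rw [if_neg h]
        refine Finset.sum_eq_zero fun a _ => Finset.sum_eq_zero fun b _ =>
          Finset.sum_eq_zero fun c _ => ?_
        split_ifs with h1 h2
        · exact absurd (h1.symm.trans h2) h
        · rfl
        · rfl
    have t2 : ∑ a : Fin n, ∑ b, ∑ c, (if b = i then (if b = k then ψ a j c * ψ a l c else 0) else 0)
        = if i = k then ∑ b, ∑ c, ψ j b c * ψ l b c else 0 := by
      by_cases h : i = k
      · subst h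
        rw [if_pos rfl, ← TrB_D1 hψ]
        refine Finset.sum_congr rfl fun a _ => ?_
        simp
      · rw [if_neg h]
        refine Finset.sum_eq_zero fun a _ => Finset.sum_eq_zero fun b _ =>
          Finset.sum_eq_zero fun c _ => ?_
        split_ifs with h1 h2
        · exact absurd (h1.symm.trans h2) h
        · rfl
        · rfl
    have t3 : ∑ a : Fin n, ∑ b, ∑ c, (if c = i then (if c = k then ψ a b j * ψ a b l else 0) else 0)
        = if i = k then ∑ b, ∑ c, ψ j b c * ψ l b c else 0 := by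
      by_cases h : i = k
      · subst h
        rw [if_pos rfl, ← TrB_D2 hψ]
        refine Finset.sum_congr rfl fun a _ => ?_
        simp
      · rw [if_neg h]
        refine Finset.sum_eq_zero fun a _ => Finset.sum_eq_zero fun b _ =>
          Finset.sum_eq_zero fun c _ => ?_
        split_ifs with h1 h2
        · exact absurd (h1.symm.trans h2) h
        · rfl
        · rfl
    have t4 : ∑ a : Fin n, ∑ b, ∑ c, (if a = i then (if b = k then ψ j b c * ψ a l c else 0) else 0)
        = ∑ c, ψ j k c * ψ i l c := by simp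
    have t5 : ∑ a : Fin n, ∑ b, ∑ c, (if a = i then (if c = k then ψ j b c * ψ a b l else 0) else 0)
        = ∑ c, ψ j k c * ψ i l c := by
      simp
      refine Finset.sum_congr rfl fun c _ => ?_
      rw [hψ.s23 j k c, hψ.s23 i l c]; ring
    have t6 : ∑ a : Fin n, ∑ b, ∑ c, (if b = i then (if a = k then ψ a j c * ψ l b c else 0) else 0)
        = ∑ c, ψ j k c * ψ i l c := by
      simp
      refine Finset.sum_congr rfl fun c _ => ?_
      rw [hψ.s12 j k c, hψ.s12 i l c]; ring
    have t7 : ∑ a : Fin n, ∑ b, ∑ c, (if b = i then (if c = k then ψ a j c * ψ a b l else 0) else 0)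
        = ∑ c, ψ j k c * ψ i l c := by
      simp
      refine Finset.sum_congr rfl fun c _ => ?_
      rw [hψ.s12 j c k, hψ.s23 j k c, hψ.s12 i c l, hψ.s23 i l c]; ring
    have t8 : ∑ a : Fin n, ∑ b, ∑ c, (if c = i then (if a = k then ψ a b j * ψ l b c else 0) else 0)
        = ∑ c, ψ j k c * ψ i l c := by
      simp
      refine Finset.sum_congr rfl fun c _ => ?_
      rw [hψ.s23 k j c, hψ.s12 j k c, hψ.s23 l i c, hψ.s12 i l c]; ring
    have t9 : ∑ a : Fin n, ∑ b, ∑ c, (if c = i then (if b = k then ψ a b j * ψ a l c else 0) else 0)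
        = ∑ c, ψ j k c * ψ i l c := by
      simp
      refine Finset.sum_congr rfl fun c _ => ?_
      rw [hψ.s23 c j k, hψ.s12 j c k, hψ.s23 j k c, hψ.s23 c i l, hψ.s12 i c l, hψ.s23 i l c]
      ring
    rw [t1, t2, t3, t4, t5, t6, t7, t8, t9]
    ring
  unfold ip3
  rw [key]
  ring

/-- the consequence of the Bianchi identity -/
private theorem TrB_bianchi {n : ℕ} {R : Fin n → Fin n → Fin n → Fin n → ℝ} (hR : IsCurvature R)
    {f : Fin n → Fin n → ℝ} (hf : ∀ i j, f j i = - f i j) :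
    ∑ i, ∑ j, ∑ k, ∑ l, R i j k l * f i j * f k l
      = - (2 * ∑ i, ∑ j, ∑ k, ∑ l, R i j k l * f j k * f i l) := by
  have h0 : ∑ i, ∑ j, ∑ k, ∑ l, (R i j k l * f i j * f k l + R j k i l * f i j * f k l
      + R k i j l * f i j * f k l) = 0 := by
    refine Finset.sum_eq_zero fun i _ => Finset.sum_eq_zero fun j _ =>
      Finset.sum_eq_zero fun k _ => Finset.sum_eq_zero fun l _ => ?_
    linear_combination (f i j * f k l) * hR.bianchi i j k l
  have h1 : ∑ i, ∑ j, ∑ k, ∑ l, R j k i l * f i j * f k l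
      = ∑ i, ∑ j, ∑ k, ∑ l, R i j k l * f j k * f i l := by
    have e1 := TrB_cyc (fun j k i => ∑ l, R j k i l * f i j * f k l)
    rw [e1, Finset.sum_comm]
    refine Finset.sum_congr rfl fun i _ => Finset.sum_congr rfl fun j _ =>
      Finset.sum_congr rfl fun k _ => Finset.sum_congr rfl fun l _ => ?_
    rw [hR.skew12 i j k l, hf j k]
    ring
  have h2 : ∑ i, ∑ j, ∑ k, ∑ l, R k i j l * f i j * f k l
      = ∑ i, ∑ j, ∑ k, ∑ l, R i j k l * f j k * f i l := by
    have e1 := TrB_cyc (fun i j k => ∑ l, R i j k l * f j k * f i l)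
    rw [← e1, ← TrB_cyc]
    exact e1.symm
  simp only [Finset.sum_add_distrib] at h0
  rw [h1, h2] at h0
  linarith

/-- `½ bochner` is the pairing of `R` with `L ↦ |rho_L ψ|²`. -/
theorem bochner_eq {n : ℕ} {R : Fin n → Fin n → Fin n → Fin n → ℝ} (hR : IsCurvature R)
    {ψ : Fin n → Fin n → Fin n → ℝ} (hψ : Form3 ψ) :
    ∑ p : Pr n, ∑ q : Pr n, R p.1.1 p.1.2 q.1.1 q.1.2 * ip3 (rho (el p) ψ) (rho (el q) ψ)
      = 1 / 2 * bochner R ψ := by
  set H : Fin n → Fin n → Fin n → Fin n → ℝ := fun i j k l =>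
    ip3 (rho (TrB_E i j) ψ) (rho (TrB_E k l) ψ) with hH
  have hexp : ∀ i j k l, ip3 (rho (TrB_E i j - TrB_E j i) ψ) (rho (TrB_E k l - TrB_E l k) ψ)
      = H i j k l - H j i k l - H i j l k + H j i l k := by
    intro i j k l
    rw [rho_sub_left, rho_sub_left, ip3_sub_left, ip3_sub_right, ip3_sub_right]
    simp only [H]
    ring
  have h1 := sum_pairs (fun i j k l => R i j k l *
    ip3 (rho (TrB_E i j - TrB_E j i) ψ) (rho (TrB_E k l - TrB_E l k) ψ))
    (by
      intro i j k l
      simp only [hexp]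
      rw [hR.skew12 i j k l]; ring)
    (by
      intro i j k l
      simp only [hexp]
      rw [hR.skew34 i j k l]; ring)
    (by
      intro i k l
      simp only [hexp]; ring)
    (by
      intro i j k
      simp only [hexp]; ring)
  have hL : ∑ p : Pr n, ∑ q : Pr n, R p.1.1 p.1.2 q.1.1 q.1.2
        * ip3 (rho (el p) ψ) (rho (el q) ψ)
      = 1 / 4 * ∑ i, ∑ j, ∑ k, ∑ l, R i j k l *
        (H i j k l - H j i k l - H i j l k + H j i l k) := by
    simp only [TrB_el]
    rw [h1]
    simp only [hexp]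
  rw [hL]
  have hsw12 : ∑ i, ∑ j, ∑ k, ∑ l, R i j k l * H j i k l
      = - ∑ i, ∑ j, ∑ k, ∑ l, R i j k l * H i j k l := by
    rw [Finset.sum_comm, ← Finset.sum_neg_distrib]
    refine Finset.sum_congr rfl fun i _ => ?_
    rw [← Finset.sum_neg_distrib]
    refine Finset.sum_congr rfl fun j _ => ?_
    rw [← Finset.sum_neg_distrib]
    refine Finset.sum_congr rfl fun k _ => ?_
    rw [← Finset.sum_neg_distrib]
    refine Finset.sum_congr rfl fun l _ => ?_
    rw [hR.skew12 i j k l]; ring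
  have hsw34 : ∑ i, ∑ j, ∑ k, ∑ l, R i j k l * H i j l k
      = - ∑ i, ∑ j, ∑ k, ∑ l, R i j k l * H i j k l := by
    rw [← Finset.sum_neg_distrib]
    refine Finset.sum_congr rfl fun i _ => ?_
    rw [← Finset.sum_neg_distrib]
    refine Finset.sum_congr rfl fun j _ => ?_
    rw [Finset.sum_comm, ← Finset.sum_neg_distrib]
    refine Finset.sum_congr rfl fun k _ => ?_
    rw [← Finset.sum_neg_distrib]
    refine Finset.sum_congr rfl fun l _ => ?_
    rw [hR.skew34 i j k l]; ring
  have hsw : ∑ i, ∑ j, ∑ k, ∑ l, R i j k l * H j i l k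
      = ∑ i, ∑ j, ∑ k, ∑ l, R i j k l * H i j k l := by
    rw [Finset.sum_comm]
    refine Finset.sum_congr rfl fun i _ => ?_
    refine Finset.sum_congr rfl fun j _ => ?_
    rw [Finset.sum_comm]
    refine Finset.sum_congr rfl fun k _ => ?_
    refine Finset.sum_congr rfl fun l _ => ?_
    rw [hR.skew34 j i k l, hR.skew12 i j k l]; ring
  have htot : ∑ i, ∑ j, ∑ k, ∑ l, R i j k l * (H i j k l - H j i k l - H i j l k + H j i l k)
      = 4 * ∑ i, ∑ j, ∑ k, ∑ l, R i j k l * H i j k l := by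
    simp only [mul_add, mul_sub, Finset.sum_add_distrib, Finset.sum_sub_distrib]
    rw [hsw12, hsw34, hsw]
    ring
  rw [htot]
  have hHval : ∀ i j k l, H i j k l
      = 1 / 2 * (if i = k then ∑ b, ∑ c, ψ j b c * ψ l b c else 0) + ∑ c, ψ j k c * ψ i l c :=
    fun i j k l => TrB_H hψ i j k l
  have hfirst : ∑ i, ∑ j, ∑ k, ∑ l, R i j k l *
      (if i = k then ∑ b, ∑ c, ψ j b c * ψ l b c else 0)
      = ∑ i, ∑ j, (∑ a, R i a j a) * ∑ k, ∑ l, ψ i k l * ψ j k l := by
    calc ∑ i, ∑ j, ∑ k, ∑ l, R i j k l * (if i = k then ∑ b, ∑ c, ψ j b c * ψ l b c else 0)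
        = ∑ i, ∑ j, ∑ l, R i j i l * ∑ b, ∑ c, ψ j b c * ψ l b c := by
          refine Finset.sum_congr rfl fun i _ => Finset.sum_congr rfl fun j _ => ?_
          rw [Finset.sum_comm]
          refine Finset.sum_congr rfl fun l _ => ?_
          simp
      _ = ∑ j, ∑ l, ∑ i, R i j i l * ∑ b, ∑ c, ψ j b c * ψ l b c := by
          rw [Finset.sum_comm]
          refine Finset.sum_congr rfl fun j _ => ?_
          rw [Finset.sum_comm]
      _ = ∑ i, ∑ j, (∑ a, R i a j a) * ∑ k, ∑ l, ψ i k l * ψ j k l := by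
          refine Finset.sum_congr rfl fun j _ => Finset.sum_congr rfl fun l _ => ?_
          rw [Finset.sum_mul]
          refine Finset.sum_congr rfl fun i _ => ?_
          rw [hR.skew12 j i i l, hR.skew34 j i l i]; ring
  have hsecond : ∑ i, ∑ j, ∑ k, ∑ l, R i j k l * ∑ c, ψ j k c * ψ i l c
      = - (1 / 2 * ∑ m, ∑ i, ∑ j, ∑ k, ∑ l, R i j k l * ψ i j m * ψ k l m) := by
    have e1 : ∑ i, ∑ j, ∑ k, ∑ l, R i j k l * ∑ c, ψ j k c * ψ i l c
        = ∑ c, ∑ i, ∑ j, ∑ k, ∑ l, R i j k l * ψ j k c * ψ i l c := by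
      symm
      rw [Finset.sum_comm]
      refine Finset.sum_congr rfl fun i _ => ?_
      rw [Finset.sum_comm]
      refine Finset.sum_congr rfl fun j _ => ?_
      rw [Finset.sum_comm]
      refine Finset.sum_congr rfl fun k _ => ?_
      rw [Finset.sum_comm]
      refine Finset.sum_congr rfl fun l _ => ?_
      rw [Finset.mul_sum]
      exact Finset.sum_congr rfl fun c _ => by ring
    rw [e1, Finset.mul_sum, ← Finset.sum_neg_distrib]
    refine Finset.sum_congr rfl fun c _ => ?_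
    have := TrB_bianchi hR (f := fun i j => ψ i j c) (fun i j => hψ.s12 i j c)
    rw [this]
    ring
  have hsum : ∑ i, ∑ j, ∑ k, ∑ l, R i j k l * H i j k l
      = 1 / 2 * (∑ i, ∑ j, ∑ k, ∑ l, R i j k l *
        (if i = k then ∑ b, ∑ c, ψ j b c * ψ l b c else 0))
        + ∑ i, ∑ j, ∑ k, ∑ l, R i j k l * ∑ c, ψ j k c * ψ i l c := by
    simp only [hHval, Finset.mul_sum, ← Finset.sum_add_distrib]
    refine Finset.sum_congr rfl fun i _ => Finset.sum_congr rfl fun j _ =>
      Finset.sum_congr rfl fun k _ => Finset.sum_congr rfl fun l _ => ?_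
    rw [mul_add, Finset.mul_sum]
    ring
  rw [hsum, hfirst, hsecond]
  unfold bochner
  ring

/-- the curvature tensor of constant curvature one -/
private def TrB_K {n : ℕ} (i j k l : Fin n) : ℝ :=
  (if i = k then 1 else 0) * (if j = l then 1 else 0)
    - (if i = l then 1 else 0) * (if j = k then 1 else 0)

private theorem TrB_K_curv {n : ℕ} : IsCurvature (TrB_K (n := n)) := by
  refine ⟨fun i j k l => ?_, fun i j k l => ?_, fun i j k l => ?_⟩
  · unfold TrB_K; ring
  · unfold TrB_K; ring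
  · unfold TrB_K
    simp only [eq_comm (a := j) (b := i), eq_comm (a := k) (b := i), eq_comm (a := k) (b := j)]
    ring

private theorem TrB_K_pair {n : ℕ} (p q : Pr n) :
    TrB_K p.1.1 p.1.2 q.1.1 q.1.2 = if p = q then 1 else 0 := by
  unfold TrB_K
  have hp := p.2
  have hq := q.2
  by_cases h : p = q
  · subst h
    have hne : p.1.1 ≠ p.1.2 := hp.ne
    simp [hne]
  · rw [if_neg h]
    have h1 : ¬ (p.1.1 = q.1.1 ∧ p.1.2 = q.1.2) := fun h' =>
      h (Subtype.ext (Prod.ext h'.1 h'.2))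
    have h2 : ¬ (p.1.1 = q.1.2 ∧ p.1.2 = q.1.1) := by
      rintro ⟨ha, hb⟩
      rw [ha, hb] at hp
      exact absurd hp (not_lt.2 hq.le)
    by_cases a : p.1.1 = q.1.1
    · have b : ¬ p.1.2 = q.1.2 := fun b => h1 ⟨a, b⟩
      rw [if_neg b]
      by_cases c : p.1.1 = q.1.2
      · have d : ¬ p.1.2 = q.1.1 := fun d => h2 ⟨c, d⟩
        rw [if_neg d]; ring
      · rw [if_neg c]; ring
    · rw [if_neg a]
      by_cases c : p.1.1 = q.1.2
      · have d : ¬ p.1.2 = q.1.1 := fun d => h2 ⟨c, d⟩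
        rw [if_neg d]; ring
      · rw [if_neg c]; ring

/-- The trace of `L ↦ |rho_L ψ|²`. -/
theorem trace_rho {n : ℕ} {ψ : Fin n → Fin n → Fin n → ℝ} (hψ : Form3 ψ) :
    ∑ p : Pr n, ip3 (rho (el p) ψ) (rho (el p) ψ) = 3 * (n - 3) * ip3 ψ ψ := by
  have h := bochner_eq (TrB_K_curv (n := n)) hψ
  simp only [TrB_K_pair] at h
  have hL : ∑ p : Pr n, ∑ q : Pr n, (if p = q then (1 : ℝ) else 0)
      * ip3 (rho (el p) ψ) (rho (el q) ψ) = ∑ p : Pr n, ip3 (rho (el p) ψ) (rho (el p) ψ) := by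
    refine Finset.sum_congr rfl fun p _ => ?_
    simp
  rw [hL] at h
  rw [h]
  have hric : ∀ i j : Fin n, ∑ a, TrB_K i a j a = if i = j then (n : ℝ) - 1 else 0 := by
    intro i j
    unfold TrB_K
    rw [Finset.sum_sub_distrib]
    by_cases hij : i = j
    · subst hij
      simp
    · simp [hij]
  have hA : ∑ i, ∑ j, (∑ a, TrB_K i a j a) * ∑ k, ∑ l, ψ i k l * ψ j k l
      = (n - 1) * (6 * ip3 ψ ψ) := by
    simp only [hric]
    unfold ip3
    simp only [ite_mul, zero_mul, Finset.sum_ite_eq, Finset.mem_univ, if_true]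
    rw [← Finset.mul_sum]
    ring
  have hB : ∑ m, ∑ i, ∑ j, ∑ k, ∑ l, TrB_K i j k l * ψ i j m * ψ k l m
      = 12 * ip3 ψ ψ := by
    have e : ∀ m i j : Fin n, ∑ k, ∑ l, TrB_K i j k l * ψ i j m * ψ k l m
        = 2 * (ψ i j m * ψ i j m) := by
      intro m i j
      unfold TrB_K
      simp only [sub_mul, Finset.sum_sub_distrib, ite_mul, one_mul, zero_mul, mul_ite, mul_one,
        mul_zero]
      simp
      rw [hψ.s12 i j m]; ring
    simp only [e]
    unfold ip3
    have e2 : ∑ m, ∑ i, ∑ j, 2 * (ψ i j m * ψ i j m) = 2 * ∑ i, ∑ j, ∑ m, ψ i j m * ψ i j m := by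
      rw [Finset.sum_comm, Finset.mul_sum]
      refine Finset.sum_congr rfl fun i _ => ?_
      rw [Finset.sum_comm, Finset.mul_sum]
      refine Finset.sum_congr rfl fun j _ => ?_
      rw [Finset.mul_sum]
    rw [e2]
    ring
  unfold bochner
  rw [hA, hB]
  ring

end Pool.Hopf3
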