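import Pool.Agent.Lib.MP_4a593f_gt.P3.Basic
import Pool.Agent.Lib.MP_4a593f_gt.P3.Curv
import Pool.Agent.Lib.MP_4a593f_gt.P3.TrB

namespace Pool.Hopf3

open Finset

private theorem TrC_arr_lt {n : ℕ} (v : Pr n → ℝ) (p : Pr n) : arr v p.1.1 p.1.2 = v p := by
  unfold arr
  rw [dif_pos p.2]

private theorem TrC_arr_diag {n : ℕ} (v : Pr n → ℝ) (i : Fin n) : arr v i i = 0 := by
  unfold arr
  rw [dif_neg (lt_irrefl _), dif_neg (lt_irrefl _)]

/-- a quadratic form in `arr v` as a double sum over pairs -/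
private theorem TrC_quad {n : ℕ} {S : Fin n → Fin n → Fin n → Fin n → ℝ}
    (h12 : ∀ i j k l, S j i k l = - S i j k l) (h34 : ∀ i j k l, S i j l k = - S i j k l)
    (v : Pr n → ℝ) :
    1 / 4 * ∑ i, ∑ j, ∑ k, ∑ l, S i j k l * arr v i j * arr v k l
      = ∑ p : Pr n, ∑ q : Pr n, S p.1.1 p.1.2 q.1.1 q.1.2 * v p * v q := by
  rw [← sum_pairs (fun i j k l => S i j k l * arr v i j * arr v k l)]
  · simp only [TrC_arr_lt]
  · intro i j k l
    rw [h12 i j k l, arr_skew v i j]; ring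
  · intro i j k l
    rw [h34 i j k l, arr_skew v k l]; ring
  · intro i k l
    simp only [TrC_arr_diag]; ring
  · intro i j k
    simp only [TrC_arr_diag]; ring

/-- polar form of `quad4` on basis elements -/
theorem quad4_arr {n : ℕ} {Q : Fin n → Fin n → Fin n → Fin n → ℝ} (hQ : Form4 Q)
    (v : Pr n → ℝ) :
    quad4 Q (arr v) = ∑ p : Pr n, ∑ q : Pr n, Q p.1.1 p.1.2 q.1.1 q.1.2 * v p * v q := by
  unfold quad4
  exact TrC_quad hQ.s12 hQ.s34 v

private theorem TrC_arr_sum {n : ℕ} (v : Pr n → ℝ) : arr v = ∑ p : Pr n, v p • el p := by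
  funext i j
  rw [Finset.sum_apply, Finset.sum_apply]
  simp only [Pi.smul_apply, smul_eq_mul]
  unfold arr el
  rcases lt_trichotomy i j with h | h | h
  · rw [dif_pos h, Finset.sum_eq_single (⟨(i, j), h⟩ : Pr n)]
    · simp
    · intro p _ hp
      have h1 : ¬ (i = p.1.1 ∧ j = p.1.2) := fun h' =>
        hp (Subtype.ext (Prod.ext h'.1.symm h'.2.symm))
      have h2 : ¬ (i = p.1.2 ∧ j = p.1.1) := by
        rintro ⟨ha, hb⟩
        rw [ha, hb] at h
        exact absurd h (not_lt.2 p.2.le)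
      rw [if_neg h1, if_neg h2, mul_zero]
    · intro h'; exact absurd (mem_univ _) h'
  · subst h
    rw [dif_neg (lt_irrefl _), dif_neg (lt_irrefl _)]
    symm
    refine Finset.sum_eq_zero fun p _ => ?_
    have h1 : ¬ (i = p.1.1 ∧ i = p.1.2) := fun h' => p.2.ne (h'.1.symm.trans h'.2)
    have h2 : ¬ (i = p.1.2 ∧ i = p.1.1) := fun h' => p.2.ne (h'.2.symm.trans h'.1)
    rw [if_neg h1, if_neg h2, mul_zero]
  · rw [dif_neg (not_lt.2 h.le), dif_pos h, Finset.sum_eq_single (⟨(j, i), h⟩ : Pr n)]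
    · have h1 : ¬ (i = j ∧ j = i) := fun h' => h.ne h'.2
      simp only
      rw [if_neg h1, if_pos ⟨trivial, trivial⟩]
      ring
    · intro p _ hp
      have h2 : ¬ (i = p.1.2 ∧ j = p.1.1) := fun h' =>
        hp (Subtype.ext (Prod.ext h'.2.symm h'.1.symm))
      have h1 : ¬ (i = p.1.1 ∧ j = p.1.2) := by
        rintro ⟨ha, hb⟩
        rw [ha, hb] at h
        exact absurd h (not_lt.2 p.2.le)
      rw [if_neg h1, if_neg h2, mul_zero]
    · intro h'; exact absurd (mem_univ _) h'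

private theorem TrC_rho_sum {n : ℕ} (ψ : Fin n → Fin n → Fin n → ℝ) (s : Finset (Pr n))
    (v : Pr n → ℝ) :
    rho (∑ p ∈ s, v p • el p) ψ = ∑ p ∈ s, v p • rho (el p) ψ := by
  classical
  induction s using Finset.induction_on with
  | empty =>
    simp only [Finset.sum_empty]
    have := rho_sub_left (0 : Fin n → Fin n → ℝ) 0 ψ
    simpa using this
  | insert a s ha ih =>
    rw [Finset.sum_insert ha, Finset.sum_insert ha, rho_add_left, rho_smul_left, ih]

private theorem TrC_ip3_sum_left {n : ℕ} (s : Finset (Pr n)) (v : Pr n → ℝ)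
    (χ : Pr n → Fin n → Fin n → Fin n → ℝ) (η : Fin n → Fin n → Fin n → ℝ) :
    ip3 (∑ p ∈ s, v p • χ p) η = ∑ p ∈ s, v p * ip3 (χ p) η := by
  classical
  induction s using Finset.induction_on with
  | empty =>
    simp only [Finset.sum_empty]
    have := ip3_sub_left (0 : Fin n → Fin n → Fin n → ℝ) 0 η
    simpa using this
  | insert a s ha ih =>
    rw [Finset.sum_insert ha, Finset.sum_insert ha, ip3_add_left, ip3_smul_left, ih]

/-- polar form of `|rho_L ψ|²` on basis elements -/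
theorem rho_arr {n : ℕ} (ψ : Fin n → Fin n → Fin n → ℝ) (v : Pr n → ℝ) :
    ip3 (rho (arr v) ψ) (rho (arr v) ψ)
      = ∑ p : Pr n, ∑ q : Pr n, ip3 (rho (el p) ψ) (rho (el q) ψ) * v p * v q := by
  rw [TrC_arr_sum, TrC_rho_sum, TrC_ip3_sum_left]
  refine Finset.sum_congr rfl fun p _ => ?_
  rw [ip3_comm, TrC_ip3_sum_left, Finset.mul_sum]
  refine Finset.sum_congr rfl fun q _ => ?_
  rw [ip3_comm]
  ring

theorem curvOp_arr {n : ℕ} {R : Fin n → Fin n → Fin n → Fin n → ℝ} (hR : IsCurvature R)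
    (v : Pr n → ℝ) :
    curvOp R (arr v) = ∑ p : Pr n, ∑ q : Pr n, R p.1.1 p.1.2 q.1.1 q.1.2 * v p * v q := by
  unfold curvOp
  exact TrC_quad hR.skew12 hR.skew34 v

private theorem TrC_cyc {n : ℕ} (F : Fin n → Fin n → Fin n → ℝ) :
    ∑ i, ∑ j, ∑ k, F j k i = ∑ i, ∑ j, ∑ k, F i j k := by
  rw [Finset.sum_comm]
  refine Finset.sum_congr rfl fun i _ => ?_
  rw [Finset.sum_comm]

/-- curvature tensors are orthogonal to 4-forms -/
theorem curv_form4 {n : ℕ} {R : Fin n → Fin n → Fin n → Fin n → ℝ} (hR : IsCurvature R)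
    {Q : Fin n → Fin n → Fin n → Fin n → ℝ} (hQ : Form4 Q) :
    ∑ p : Pr n, ∑ q : Pr n, R p.1.1 p.1.2 q.1.1 q.1.2 * Q p.1.1 p.1.2 q.1.1 q.1.2 = 0 := by
  rw [sum_pairs (fun i j k l => R i j k l * Q i j k l)]
  · have h1 := TrC_cyc (fun i j k => ∑ l, R i j k l * Q i j k l)
    have h2 := TrC_cyc (fun j k i => ∑ l, R j k i l * Q j k i l)
    have h3 := TrC_cyc (fun i j k => ∑ l, R j k i l * Q j k i l)
    have h0 : ∑ i, ∑ j, ∑ k, ∑ l, (R i j k l * Q i j k l + R j k i l * Q j k i l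
        + R k i j l * Q k i j l) = 0 := by
      refine Finset.sum_eq_zero fun i _ => Finset.sum_eq_zero fun j _ =>
        Finset.sum_eq_zero fun k _ => Finset.sum_eq_zero fun l _ => ?_
      have e1 : Q j k i l = Q i j k l := by
        rw [hQ.s23 j i k l, hQ.s12 i j k l]; ring
      have e2 : Q k i j l = Q i j k l := by
        rw [hQ.s12 i k j l, hQ.s23 i j k l]; ring
      rw [e1, e2]
      linear_combination (Q i j k l) * hR.bianchi i j k l
    simp only [Finset.sum_add_distrib] at h0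
    have h4 : ∑ i, ∑ j, ∑ k, ∑ l, R j k i l * Q j k i l
        = ∑ i, ∑ j, ∑ k, ∑ l, R i j k l * Q i j k l := h1
    have h5 : ∑ i, ∑ j, ∑ k, ∑ l, R k i j l * Q k i j l
        = ∑ i, ∑ j, ∑ k, ∑ l, R i j k l * Q i j k l := by
      rw [← h4]
      exact h3
    rw [h4, h5] at h0
    linarith
  · intro i j k l
    rw [hR.skew12 i j k l, hQ.s12 i j k l]; ring
  · intro i j k l
    rw [hR.skew34 i j k l, hQ.s34 i j k l]; ring
  · intro i k l
    have := hR.skew12 i i k l
    have h : R i i k l = 0 := by linarith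
    simp only [h, zero_mul]
  · intro i j k
    have := hR.skew34 i j k k
    have h : R i j k k = 0 := by linarith
    simp only [h, zero_mul]

theorem form4_diag {n : ℕ} {Q : Fin n → Fin n → Fin n → Fin n → ℝ} (hQ : Form4 Q) (p : Pr n) :
    Q p.1.1 p.1.2 p.1.1 p.1.2 = 0 := by
  have h1 := hQ.s23 p.1.1 p.1.1 p.1.2 p.1.2
  have h2 := hQ.s12 p.1.1 p.1.1 p.1.2 p.1.2
  linarith

end Pool.Hopf3
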