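import Pool.Agent.Lib.MP_4a593f_gt.P3.Defs

/-!
Weighted sums and traces with a fractional number of eigenvalues.
-/

namespace Pool.Hopf3

open Finset

/-- Weighted sums of numbers `r` with `r₁ + … + r_m + t r_{m+1} ≥ (m+t) κ` for the lowest ones. -/
theorem weighted_frac {P : Type} [Fintype P] {m : ℕ} {t C κ T : ℝ} (hmt : 0 < m + t)
    (hC : 0 ≤ C) (u r : P → ℝ) (hu0 : ∀ p, 0 ≤ u p) (huC : ∀ p, u p ≤ C) (hT : ∑ p, u p = T)
    (hmT : C * (m + t) ≤ T) (hcard : m + 1 ≤ Fintype.card P)
    (hr : ∀ f : Fin (m + 1) → P, Function.Injective f →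
      (m + t) * κ ≤ ∑ a : Fin m, r (f a.castSucc) + t * r (f (Fin.last m))) :
    κ * T ≤ ∑ p, u p * r p := by
  classical
  -- sort the values of `r`
  obtain ⟨e⟩ : Nonempty (Fin (Fintype.card P) ≃ P) := ⟨(Fintype.equivFin P).symm⟩
  set g : Fin (Fintype.card P) → ℝ := fun i => r (e i) with hg
  set σ := Tuple.sort g with hσ
  have hmono : Monotone (g ∘ σ) := Tuple.monotone_sort g
  set F : Fin (Fintype.card P) ≃ P := σ.trans e with hF
  have hrF : ∀ i j : Fin (Fintype.card P), i ≤ j → r (F i) ≤ r (F j) := fun i j h => hmono h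
  -- the distinguished index
  set q : Fin (Fintype.card P) := ⟨m, hcard⟩ with hq
  set ρ := r (F q) with hρ
  have h1 := hr (fun a => F (Fin.castLE hcard a))
    (F.injective.comp (Fin.castLE_injective hcard))
  have hlast : F (Fin.castLE hcard (Fin.last m)) = F q := by
    congr 1
  rw [hlast, ← hρ] at h1
  -- split the sum over `P` at the `m` lowest
  have hsum : ∑ p, u p * (r p - κ) = ∑ i, u (F i) * (r (F i) - κ) :=
    (Equiv.sum_comp F (fun p => u p * (r p - κ))).symm
  have hsumu : ∑ i, u (F i) = T := by rw [← hT]; exact Equiv.sum_comp F u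
  -- pointwise bound
  have hpt : ∀ i, u (F i) * (ρ - κ) + (if i.val < m then C * (r (F i) - ρ) else 0)
      ≤ u (F i) * (r (F i) - κ) := by
    intro i
    split_ifs with hi
    · have h2 : r (F i) ≤ ρ := hrF _ _ (by rw [Fin.le_def]; exact hi.le)
      nlinarith [huC (F i), hu0 (F i)]
    · have h2 : ρ ≤ r (F i) := hrF _ _ (by rw [Fin.le_def]; exact not_lt.mp hi)
      nlinarith [hu0 (F i)]
  have hA := Finset.sum_le_sum (fun i (_ : i ∈ univ) => hpt i)
  rw [Finset.sum_add_distrib, ← Finset.sum_mul, hsumu] at hA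
  have hB : ∑ i : Fin (Fintype.card P), (if i.val < m then C * (r (F i) - ρ) else 0)
      = ∑ a : Fin m, C * (r (F (Fin.castLE hcard a.castSucc)) - ρ) := by
    rw [← Finset.sum_filter]
    symm
    refine Finset.sum_bij (fun a _ => Fin.castLE hcard a.castSucc) ?_ ?_ ?_ ?_
    · intro a _
      simp
    · intro a _ b _ h
      simpa [Fin.ext_iff] using h
    · intro i hi
      simp only [mem_filter, mem_univ, true_and] at hi
      exact ⟨⟨i.val, hi⟩, mem_univ _, by ext; simp⟩
    · intro a _
      rfl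
  rw [hB, ← Finset.mul_sum, Finset.sum_sub_distrib] at hA
  simp only [Finset.sum_const, Finset.card_univ, Fintype.card_fin, nsmul_eq_mul] at hA
  -- `ρ ≥ κ`
  have hρκ : κ ≤ ρ := by
    have h3 : ∑ a : Fin m, r (F (Fin.castLE hcard a.castSucc)) ≤ ∑ _a : Fin m, ρ :=
      Finset.sum_le_sum fun a _ => hrF _ _ (by
        rw [Fin.le_def]; simp [hq])
    simp only [Finset.sum_const, Finset.card_univ, Fintype.card_fin, nsmul_eq_mul] at h3
    have : (m + t) * κ ≤ (m + t) * ρ := by nlinarith
    exact le_of_mul_le_mul_left this hmt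
  have h4 : C * ((m + t) * κ) ≤ C * (∑ a : Fin m, r (F (Fin.castLE hcard a.castSucc)) + t * ρ) :=
    mul_le_mul_of_nonneg_left h1 hC
  have h5 : (C * (m + t)) * (ρ - κ) ≤ T * (ρ - κ) :=
    mul_le_mul_of_nonneg_right hmT (by linarith)
  have h6 : ∑ p, u p * (r p - κ) = ∑ p, u p * r p - κ * T := by
    rw [← hT, Finset.mul_sum, ← Finset.sum_sub_distrib]
    exact Finset.sum_congr rfl fun p _ => by ring
  rw [← hsum, h6] at hA
  nlinarith

/-- `tr(R U) ≥ κ tr U` if `0 ≤ U ≤ C`, `tr U ≥ C (m + t)` and `λ₁ + … + λ_m + t λ_{m+1} ≥ (m+t) κ`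
for the eigenvalues of `R`. -/
theorem trace_frac {P : Type} [Fintype P] [DecidableEq P] {m : ℕ} {t C κ : ℝ}
    (hmt : 0 < m + t) (hC : 0 ≤ C) (U R : P → P → ℝ) (hU : ∀ p q, U q p = U p q)
    (hU0 : ∀ v : P → ℝ, 0 ≤ ∑ p, ∑ q, U p q * v p * v q)
    (hUC : ∀ v : P → ℝ, ∑ p, ∑ q, U p q * v p * v q ≤ C * ∑ p, v p ^ 2)
    (hmT : C * (m + t) ≤ ∑ p, U p p) (hcard : m + 1 ≤ Fintype.card P)
    (hlow : ∀ v : Fin (m + 1) → P → ℝ,
      (∀ a b, ∑ p, v a p * v b p = if a = b then 1 else 0) →
      (m + t) * κ ≤ ∑ a : Fin m, (∑ p, ∑ q, R p q * v a.castSucc p * v a.castSucc q)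
        + t * ∑ p, ∑ q, R p q * v (Fin.last m) p * v (Fin.last m) q) :
    κ * ∑ p, U p p ≤ ∑ p, ∑ q, R p q * U p q := by
  classical
  set A : Matrix P P ℝ := Matrix.of U with hA
  have hH : A.IsHermitian := by
    ext i j
    simp [hA, hU]
  set V : Matrix P P ℝ := (hH.eigenvectorUnitary : Matrix P P ℝ) with hV
  have hV1 : V * V.transpose = 1 := by
    have := Unitary.coe_mul_star_self hH.eigenvectorUnitary
    simpa [Matrix.star_eq_conjTranspose] using this
  have hV2 : V.transpose * V = 1 := by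
    have := Unitary.coe_star_mul_self hH.eigenvectorUnitary
    simpa [Matrix.star_eq_conjTranspose] using this
  have hspec : A = V * Matrix.diagonal hH.eigenvalues * V.transpose := by
    have h := hH.spectral_theorem
    rw [Unitary.conjStarAlgAut_apply] at h
    simpa [Matrix.star_eq_conjTranspose, Function.comp_def] using h
  have hUe : ∀ p q, U p q = ∑ i, hH.eigenvalues i * (V p i * V q i) := by
    intro p q
    have h := congrFun (congrFun hspec p) q
    rw [Matrix.mul_apply] at h
    simp only [Matrix.mul_diagonal, Matrix.transpose_apply] at h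
    rw [show U p q = A p q from rfl, h]
    exact Finset.sum_congr rfl fun i _ => by ring
  have hcol : ∀ i j, ∑ p, V p i * V p j = if i = j then 1 else 0 := by
    intro i j
    have h := congrFun (congrFun hV2 i) j
    simpa [Matrix.mul_apply, Matrix.one_apply] using h
  have hquad : ∀ i, ∑ p, ∑ q, U p q * V p i * V q i = hH.eigenvalues i := by
    intro i
    have e1 : ∀ p q, U p q * V p i * V q i
        = ∑ j, hH.eigenvalues j * ((V p j * V p i) * (V q j * V q i)) := by
      intro p q
      rw [hUe, Finset.sum_mul, Finset.sum_mul]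
      exact Finset.sum_congr rfl fun j _ => by ring
    simp only [e1]
    have e2 : ∀ p, (∑ q, ∑ j, hH.eigenvalues j * ((V p j * V p i) * (V q j * V q i)))
        = ∑ j, hH.eigenvalues j * ((V p j * V p i) * (if j = i then 1 else 0)) := by
      intro p
      rw [Finset.sum_comm]
      refine Finset.sum_congr rfl fun j _ => ?_
      rw [← hcol j i, Finset.mul_sum, Finset.mul_sum]
    simp only [e2]
    rw [Finset.sum_comm]
    simp only [mul_ite, mul_one, mul_zero, Finset.sum_ite_irrel, Finset.sum_const_zero]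
    rw [Finset.sum_ite_eq' Finset.univ i]
    simp only [Finset.mem_univ, if_true]
    rw [← Finset.mul_sum, hcol i i]
    simp
  have hu0 : ∀ i, 0 ≤ hH.eigenvalues i := by
    intro i
    rw [← hquad i]
    exact hU0 (fun p => V p i)
  have huC : ∀ i, hH.eigenvalues i ≤ C := by
    intro i
    have h := hUC (fun p => V p i)
    rw [hquad i] at h
    have e : ∑ p, V p i ^ 2 = 1 := by
      have := hcol i i
      simp only [if_true] at this
      rw [← this]
      exact Finset.sum_congr rfl fun p _ => by ring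
    rw [e, mul_one] at h
    exact h
  have htr : ∑ p, U p p = ∑ i, hH.eigenvalues i := by
    simp only [hUe]
    rw [Finset.sum_comm]
    refine Finset.sum_congr rfl fun i _ => ?_
    rw [← Finset.mul_sum, hcol i i]
    simp
  have hRU : ∑ p, ∑ q, R p q * U p q
      = ∑ i, hH.eigenvalues i * ∑ p, ∑ q, R p q * V p i * V q i := by
    have e1 : ∀ p q, R p q * U p q = ∑ i, hH.eigenvalues i * (R p q * V p i * V q i) := by
      intro p q
      rw [hUe, Finset.mul_sum]
      exact Finset.sum_congr rfl fun i _ => by ring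
    simp only [e1]
    have e2 : ∀ p, (∑ q, ∑ i, hH.eigenvalues i * (R p q * V p i * V q i))
        = ∑ i, hH.eigenvalues i * ∑ q, R p q * V p i * V q i := by
      intro p
      rw [Finset.sum_comm]
      exact Finset.sum_congr rfl fun i _ => by rw [Finset.mul_sum]
    simp only [e2]
    rw [Finset.sum_comm]
    exact Finset.sum_congr rfl fun i _ => by rw [Finset.mul_sum]
  rw [hRU, htr]
  refine weighted_frac hmt hC _ _ hu0 huC rfl (by rw [← htr]; exact hmT) hcard ?_
  intro f hf
  refine hlow (fun a p => V p (f a)) ?_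
  intro a b
  rw [hcol]
  simp [hf.eq_iff]

end Pool.Hopf3
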