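import Pool.Agent.Lib.MP_4a593f_gt.P3.Cert
import Pool.Agent.Lib.MP_4a593f_gt.P3.TrF
import Pool.Agent.Lib.MP_4a593f_gt.P3.TrB
import Pool.Agent.Lib.MP_4a593f_gt.P3.TrC
import Pool.Agent.Lib.MP_4a593f_gt.P3.Reidx

/-!
The lower bound for the curvature term on 3-forms in dimension `n ≥ 6`.
-/

namespace Pool.Hopf3

open Finset

/-- orthonormal family of 2-forms -/
def Ortho {n m : ℕ} (ω : Fin m → Fin n → Fin n → ℝ) : Prop :=
  (∀ a, Skew (ω a)) ∧ ∀ a b, ip2 (ω a) (ω b) = if a = b then 1 else 0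

theorem form4_pair {n : ℕ} {Q : Fin n → Fin n → Fin n → Fin n → ℝ} (hQ : Form4 Q)
    (i j k l : Fin n) : Q k l i j = Q i j k l := by
  rw [hQ.s23 k i l j, hQ.s12 i k l j, hQ.s34 i k j l, hQ.s23 i j k l]
  ring

theorem sum_sq_eq {n : ℕ} (φ : Fin n → Fin n → Fin n → ℝ) :
    ∑ i, ∑ j, ∑ k, φ i j k ^ 2 = 6 * ip3 φ φ := by
  unfold ip3
  rw [← mul_assoc]
  norm_num
  refine Finset.sum_congr rfl fun i _ => Finset.sum_congr rfl fun j _ =>
    Finset.sum_congr rfl fun k _ => by ring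

theorem bochner_zero {n : ℕ} {R : Fin n → Fin n → Fin n → Fin n → ℝ}
    {φ : Fin n → Fin n → Fin n → ℝ} (h0 : ip3 φ φ = 0) : bochner R φ = 0 := by
  have hz : ∀ i j k, φ i j k = 0 := by
    have e : ∑ i, ∑ j, ∑ k, φ i j k ^ 2 = 0 := by rw [sum_sq_eq, h0]; ring
    intro i j k
    have h1 := (Finset.sum_eq_zero_iff_of_nonneg (fun i _ => Finset.sum_nonneg fun j _ =>
      Finset.sum_nonneg fun k _ => sq_nonneg (φ i j k))).mp e i (Finset.mem_univ i)
    have h2 := (Finset.sum_eq_zero_iff_of_nonneg (fun j _ =>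
      Finset.sum_nonneg fun k _ => sq_nonneg (φ i j k))).mp h1 j (Finset.mem_univ j)
    have h3 := (Finset.sum_eq_zero_iff_of_nonneg (fun k _ =>
      sq_nonneg (φ i j k))).mp h2 k (Finset.mem_univ k)
    exact pow_eq_zero_iff two_ne_zero |>.mp h3
  unfold bochner
  simp [hz]

theorem pair_trace {n : ℕ} {R : Fin n → Fin n → Fin n → Fin n → ℝ} (hR : IsCurvature R)
    {φ : Fin n → Fin n → Fin n → ℝ} (hφ : Form3 φ) {Q : Fin n → Fin n → Fin n → Fin n → ℝ}
    (hQ : Form4 Q) (N : ℝ) :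
    ∑ p : Pr n, ∑ q : Pr n, R p.1.1 p.1.2 q.1.1 q.1.2
        * (ip3 (rho (el p) φ) (rho (el q) φ) - N * Q p.1.1 p.1.2 q.1.1 q.1.2)
      = 1 / 2 * bochner R φ := by
  rw [← bochner_eq hR hφ]
  have h1 := curv_form4 hR hQ
  have h2 : ∑ p : Pr n, ∑ q : Pr n, N * (R p.1.1 p.1.2 q.1.1 q.1.2
      * Q p.1.1 p.1.2 q.1.1 q.1.2) = 0 := by
    simp only [← Finset.mul_sum]
    rw [h1, mul_zero]
  rw [← sub_zero (∑ p : Pr n, ∑ q : Pr n, R p.1.1 p.1.2 q.1.1 q.1.2
    * ip3 (rho (el p) φ) (rho (el q) φ)), ← h2, ← Finset.sum_sub_distrib]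
  refine Finset.sum_congr rfl fun p _ => ?_
  rw [← Finset.sum_sub_distrib]
  exact Finset.sum_congr rfl fun q _ => by ring

theorem exists_quad {n : ℕ} (hn : 6 ≤ n) {φ : Fin n → Fin n → Fin n → ℝ} (hφ : Form3 φ)
    (h0 : 0 < ip3 φ φ) :
    ∃ Q : Fin n → Fin n → Fin n → Fin n → ℝ, Form4 Q ∧ ∀ L : Fin n → Fin n → ℝ, Skew L →
      0 ≤ ip3 (rho L φ) (rho L φ) - ip3 φ φ * quad4 Q L ∧
      ip3 (rho L φ) (rho L φ) - ip3 φ φ * quad4 Q L ≤ 5 / 2 * ip3 φ φ * ip2 L L := by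
  obtain ⟨d, rfl⟩ := Nat.exists_eq_add_of_le hn
  set N := ip3 φ φ with hN
  have hs : √N ^ 2 = N := Real.sq_sqrt h0.le
  have hs0 : √N ≠ 0 := (Real.sqrt_pos.mpr h0).ne'
  have h1 : ip3 ((√N)⁻¹ • φ) ((√N)⁻¹ • φ) = 1 := by
    rw [ip3_smul_left, ip3_smul_right, ← hN]
    field_simp
    rw [hs]
  obtain ⟨Q, hQ, hc⟩ := cert_transfer finSumFinEquiv (hφ.smul (√N)⁻¹) h1
    (fun χ hχ h => cert hχ h)
  refine ⟨Q, hQ, fun L hL => ?_⟩
  obtain ⟨c1, c2⟩ := hc L hL
  have e : ip3 (rho L ((√N)⁻¹ • φ)) (rho L ((√N)⁻¹ • φ)) = N⁻¹ * ip3 (rho L φ) (rho L φ) := by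
    rw [rho_smul, ip3_smul_left, ip3_smul_right, ← mul_assoc]
    congr 1
    rw [← mul_inv, ← sq, hs]
  rw [e] at c1 c2
  have e2 : N * (N⁻¹ * ip3 (rho L φ) (rho L φ) - quad4 Q L)
      = ip3 (rho L φ) (rho L φ) - N * quad4 Q L := by
    rw [mul_sub, ← mul_assoc, mul_inv_cancel₀ h0.ne', one_mul]
  constructor
  · rw [← e2]
    exact mul_nonneg h0.le c1
  · rw [← e2]
    have := mul_le_mul_of_nonneg_left c2 h0.le
    linarith

private theorem card_pr {n k : ℕ} (hn : 6 ≤ n) (hk : k + 3 ≤ 2 * n) :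
    k ≤ Fintype.card (Pr n) := by
  have hinj : Function.Injective (fun a : Fin k => if h : a.val < n - 1
      then (⟨(⟨0, by omega⟩, ⟨a.val + 1, by omega⟩), by simp [Fin.lt_def]⟩ : Pr n)
      else ⟨(⟨1, by omega⟩, ⟨a.val - (n - 1) + 2, by have := a.isLt; omega⟩),
        by simp [Fin.lt_def]⟩) := by
    intro a b h
    have ha := a.isLt
    have hb := b.isLt
    apply Fin.ext
    by_cases h1 : a.val < n - 1 <;> by_cases h2 : b.val < n - 1 <;>
      simp [h1, h2, Subtype.ext_iff, Prod.ext_iff, Fin.ext_iff] at h <;> omega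
  simpa using Fintype.card_le_of_injective _ hinj

theorem main {n m : ℕ} (hn : 6 ≤ n) {t : ℝ} (ht : 0 ≤ t) (hmt : 0 < m + t)
    (hmn : 5 * (m + t) ≤ 6 * (n - 3)) {κ : ℝ}
    {R : Fin n → Fin n → Fin n → Fin n → ℝ} (hR : IsCurvature R)
    (hlow : ∀ ω : Fin (m + 1) → Fin n → Fin n → ℝ, Ortho ω →
      (m + t) * κ ≤ ∑ a : Fin m, curvOp R (ω a.castSucc) + t * curvOp R (ω (Fin.last m)))
    {φ : Fin n → Fin n → Fin n → ℝ} (hφ : Form3 φ) :
    (n - 3) * κ * ∑ i, ∑ j, ∑ k, φ i j k ^ 2 ≤ bochner R φ := by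
  rw [sum_sq_eq]
  rcases (ip3_self_nonneg φ).eq_or_lt with h0 | h0
  · rw [bochner_zero h0.symm, ← h0]
    simp
  · obtain ⟨Q, hQ, hc⟩ := exists_quad hn hφ h0
    set N := ip3 φ φ with hN
    have hcard : m + 1 ≤ Fintype.card (Pr n) := by
      apply card_pr hn
      have h6 : (6 : ℝ) ≤ n := by exact_mod_cast hn
      have : (5 : ℝ) * (m + 1 + 3) ≤ 5 * (2 * n) := by nlinarith
      have h5 : 5 * (m + 1 + 3) ≤ 5 * (2 * n) := by exact_mod_cast this
      omega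
    have key := trace_frac hmt (C := 5 / 2 * N) (κ := κ) (by positivity)
      (fun p q : Pr n => ip3 (rho (el p) φ) (rho (el q) φ) - N * Q p.1.1 p.1.2 q.1.1 q.1.2)
      (fun p q : Pr n => R p.1.1 p.1.2 q.1.1 q.1.2)
      (fun p q => by
        show ip3 (rho (el q) φ) (rho (el p) φ) - N * Q q.1.1 q.1.2 p.1.1 p.1.2 = _
        rw [ip3_comm, form4_pair hQ])
      (fun v => by
        have h := (hc (arr v) (arr_skew v)).1
        rw [rho_arr, quad4_arr hQ, Finset.mul_sum, ← Finset.sum_sub_distrib] at h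
        refine h.trans_eq ?_
        refine Finset.sum_congr rfl fun p _ => ?_
        rw [Finset.mul_sum, ← Finset.sum_sub_distrib]
        exact Finset.sum_congr rfl fun q _ => by ring)
      (fun v => by
        have h := (hc (arr v) (arr_skew v)).2
        rw [rho_arr, quad4_arr hQ, Finset.mul_sum, ← Finset.sum_sub_distrib, ip2_arr] at h
        have e : ∑ p, v p * v p = ∑ p, v p ^ 2 := Finset.sum_congr rfl fun p _ => by ring
        rw [e] at h
        refine le_trans (le_of_eq ?_) h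
        refine Finset.sum_congr rfl fun p _ => ?_
        rw [Finset.mul_sum, ← Finset.sum_sub_distrib]
        exact Finset.sum_congr rfl fun q _ => by ring)
      (by
        rw [Finset.sum_sub_distrib, trace_rho hφ, ← Finset.mul_sum]
        simp only [form4_diag hQ, Finset.sum_const_zero, mul_zero, sub_zero]
        rw [← hN]
        nlinarith)
      hcard
      (fun v hv => by
        have h := hlow (fun a => arr (v a)) ⟨fun a => arr_skew _, fun a b => by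
          rw [ip2_arr]; exact hv a b⟩
        simpa only [curvOp_arr hR] using h)
    have e1 : ∑ p : Pr n, (ip3 (rho (el p) φ) (rho (el p) φ) - N * Q p.1.1 p.1.2 p.1.1 p.1.2)
        = 3 * (n - 3) * N := by
      rw [Finset.sum_sub_distrib, trace_rho hφ, ← Finset.mul_sum]
      simp only [form4_diag hQ, Finset.sum_const_zero, mul_zero, sub_zero]
      rw [← hN]
    have e2 := pair_trace hR hφ hQ N
    rw [e1, e2] at key
    linarith

end Pool.Hopf3
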