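import Pool.Agent.Lib.MP_4a593f_gt.P3.Defs

namespace Pool.Hopf3

open Finset

variable {ι : Type} [Fintype ι] [DecidableEq ι]

private theorem fr_mat {O : ι → ι → ℝ} (hO : IsFrame O) :
    (Matrix.of O) * (Matrix.of O).transpose = 1 := by
  ext i j
  rw [Matrix.mul_apply, Matrix.one_apply]
  exact hO i j

private theorem fr_of_mat {O : ι → ι → ℝ}
    (hO : (Matrix.of O) * (Matrix.of O).transpose = 1) : IsFrame O := by
  intro i j
  have h := congrFun (congrFun hO i) j
  rw [Matrix.mul_apply, Matrix.one_apply] at h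
  exact h

theorem IsFrame.cols {O : ι → ι → ℝ} (hO : IsFrame O) (a b : ι) :
    ∑ i, O i a * O i b = if a = b then 1 else 0 := by
  have h : (Matrix.of O).transpose * (Matrix.of O) = 1 := mul_eq_one_comm.1 (fr_mat hO)
  have h2 := congrFun (congrFun h a) b
  rw [Matrix.mul_apply, Matrix.one_apply] at h2
  exact h2

theorem IsFrame.transp {O : ι → ι → ℝ} (hO : IsFrame O) : IsFrame (fun i j => O j i) := by
  intro i j
  exact hO.cols i j

theorem IsFrame.comp {O P : ι → ι → ℝ} (hO : IsFrame O) (hP : IsFrame P) :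
    IsFrame (fun i a => ∑ b, P i b * O b a) := by
  apply fr_of_mat
  have h : Matrix.of (fun i a => ∑ b, P i b * O b a) = Matrix.of P * Matrix.of O := by
    ext i j
    rw [Matrix.mul_apply]
    rfl
  rw [h, Matrix.transpose_mul, Matrix.mul_assoc, ← Matrix.mul_assoc (Matrix.of O), fr_mat hO,
    Matrix.one_mul, fr_mat hP]

theorem pull2_skew {L : ι → ι → ℝ} (hL : Skew L) (O : ι → ι → ℝ) : Skew (pull2 L O) := by
  intro i j
  unfold pull2
  rw [Finset.sum_comm, ← Finset.sum_neg_distrib]
  apply Finset.sum_congr rfl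
  intro a _
  rw [← Finset.sum_neg_distrib]
  apply Finset.sum_congr rfl
  intro b _
  rw [hL a b]
  ring

theorem pull3_form {χ : ι → ι → ι → ℝ} (hχ : Form3 χ) (O : ι → ι → ℝ) : Form3 (pull3 χ O) := by
  constructor
  · intro i j k
    unfold pull3
    rw [Finset.sum_comm]
    simp only [← Finset.sum_neg_distrib]
    refine Finset.sum_congr rfl fun a _ => Finset.sum_congr rfl fun b _ =>
      Finset.sum_congr rfl fun c _ => ?_
    rw [hχ.s12 a b c]
    ring
  · intro i j k
    unfold pull3
    simp only [← Finset.sum_neg_distrib]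
    apply Finset.sum_congr rfl
    intro a _
    rw [Finset.sum_comm]
    refine Finset.sum_congr rfl fun b _ => Finset.sum_congr rfl fun c _ => ?_
    rw [hχ.s23 a b c]
    ring

/-! slot actions -/

private def fr1 (O : ι → ι → ℝ) (χ : ι → ι → ι → ℝ) (i j k : ι) : ℝ := ∑ a, O i a * χ a j k
private def fr2 (O : ι → ι → ℝ) (χ : ι → ι → ι → ℝ) (i j k : ι) : ℝ := ∑ a, O j a * χ i a k
private def fr3 (O : ι → ι → ℝ) (χ : ι → ι → ι → ℝ) (i j k : ι) : ℝ := ∑ a, O k a * χ i j a
private def frm (O P : ι → ι → ℝ) (i b : ι) : ℝ := ∑ a, O i a * P a b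

omit [DecidableEq ι] in
private theorem fr11 (O P : ι → ι → ℝ) (χ : ι → ι → ι → ℝ) :
    fr1 O (fr1 P χ) = fr1 (frm O P) χ := by
  funext i j k
  unfold fr1 frm
  simp only [Finset.mul_sum, Finset.sum_mul]
  rw [Finset.sum_comm]
  refine Finset.sum_congr rfl fun a _ => Finset.sum_congr rfl fun b _ => ?_
  ring

omit [DecidableEq ι] in
private theorem fr22 (O P : ι → ι → ℝ) (χ : ι → ι → ι → ℝ) :
    fr2 O (fr2 P χ) = fr2 (frm O P) χ := by
  funext i j k
  unfold fr2 frm
  simp only [Finset.mul_sum, Finset.sum_mul]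
  rw [Finset.sum_comm]
  refine Finset.sum_congr rfl fun a _ => Finset.sum_congr rfl fun b _ => ?_
  ring

omit [DecidableEq ι] in
private theorem fr33 (O P : ι → ι → ℝ) (χ : ι → ι → ι → ℝ) :
    fr3 O (fr3 P χ) = fr3 (frm O P) χ := by
  funext i j k
  unfold fr3 frm
  simp only [Finset.mul_sum, Finset.sum_mul]
  rw [Finset.sum_comm]
  refine Finset.sum_congr rfl fun a _ => Finset.sum_congr rfl fun b _ => ?_
  ring

omit [DecidableEq ι] in
private theorem fr12 (O P : ι → ι → ℝ) (χ : ι → ι → ι → ℝ) :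
    fr1 O (fr2 P χ) = fr2 P (fr1 O χ) := by
  funext i j k
  unfold fr1 fr2
  simp only [Finset.mul_sum]
  rw [Finset.sum_comm]
  refine Finset.sum_congr rfl fun a _ => Finset.sum_congr rfl fun b _ => ?_
  ring

omit [DecidableEq ι] in
private theorem fr13 (O P : ι → ι → ℝ) (χ : ι → ι → ι → ℝ) :
    fr1 O (fr3 P χ) = fr3 P (fr1 O χ) := by
  funext i j k
  unfold fr1 fr3
  simp only [Finset.mul_sum]
  rw [Finset.sum_comm]
  refine Finset.sum_congr rfl fun a _ => Finset.sum_congr rfl fun b _ => ?_
  ring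

omit [DecidableEq ι] in
private theorem fr23 (O P : ι → ι → ℝ) (χ : ι → ι → ι → ℝ) :
    fr2 O (fr3 P χ) = fr3 P (fr2 O χ) := by
  funext i j k
  unfold fr2 fr3
  simp only [Finset.mul_sum]
  rw [Finset.sum_comm]
  refine Finset.sum_congr rfl fun a _ => Finset.sum_congr rfl fun b _ => ?_
  ring

omit [DecidableEq ι] in
private theorem fr_pull3 (χ : ι → ι → ι → ℝ) (O : ι → ι → ℝ) :
    pull3 χ O = fr1 O (fr2 O (fr3 O χ)) := by
  funext i j k
  unfold pull3 fr1 fr2 fr3
  simp only [Finset.mul_sum]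
  refine Finset.sum_congr rfl fun a _ => Finset.sum_congr rfl fun b _ =>
    Finset.sum_congr rfl fun c _ => ?_
  ring

omit [DecidableEq ι] in
private theorem fr_rho (χ : ι → ι → ι → ℝ) (L : ι → ι → ℝ) :
    rho L χ = fr1 L χ + fr2 L χ + fr3 L χ := by
  funext i j k
  simp only [Pi.add_apply]
  unfold rho fr1 fr2 fr3
  rw [← Finset.sum_add_distrib, ← Finset.sum_add_distrib]

theorem pull3_comp (χ : ι → ι → ι → ℝ) (O P : ι → ι → ℝ) :
    pull3 (pull3 χ O) P = pull3 χ (fun i a => ∑ b, P i b * O b a) := by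
  have h : (fun i a => ∑ b, P i b * O b a) = frm P O := rfl
  rw [h, fr_pull3, fr_pull3, fr_pull3, ← fr13 O P, ← fr12 O P, fr11, ← fr23 O P, fr22, fr33]

private theorem fr_mul {O : ι → ι → ℝ} (hO : IsFrame O) :
    frm (fun i j => O j i) O = fun a b => if a = b then (1 : ℝ) else 0 := by
  funext a b
  exact hO.cols a b

private theorem fr1_one (χ : ι → ι → ι → ℝ) :
    fr1 (fun a b => if a = b then (1 : ℝ) else 0) χ = χ := by
  funext i j k
  unfold fr1
  simp

private theorem fr2_one (χ : ι → ι → ι → ℝ) :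
    fr2 (fun a b => if a = b then (1 : ℝ) else 0) χ = χ := by
  funext i j k
  unfold fr2
  simp

private theorem fr3_one (χ : ι → ι → ι → ℝ) :
    fr3 (fun a b => if a = b then (1 : ℝ) else 0) χ = χ := by
  funext i j k
  unfold fr3
  simp

theorem pull2_transp {O : ι → ι → ℝ} (hO : IsFrame O) (L : ι → ι → ℝ) :
    pull2 (pull2 L O) (fun i j => O j i) = L := by
  funext i j
  unfold pull2
  have h1 : ∀ a b : ι, (∑ c, ∑ e, L c e * O a c * O b e) * O a i * O b j =
      ∑ c, ∑ e, L c e * (O a c * O a i) * (O b e * O b j) := by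
    intro a b
    rw [Finset.sum_mul, Finset.sum_mul]
    apply Finset.sum_congr rfl
    intro c _
    rw [Finset.sum_mul, Finset.sum_mul]
    apply Finset.sum_congr rfl
    intro e _
    ring
  simp only [h1]
  have h2 : ∑ a, ∑ b, ∑ c, ∑ e, L c e * (O a c * O a i) * (O b e * O b j) =
      ∑ c, ∑ e, L c e * (∑ a, O a c * O a i) * (∑ b, O b e * O b j) := by
    calc ∑ a, ∑ b, ∑ c, ∑ e, L c e * (O a c * O a i) * (O b e * O b j)
        = ∑ x : ι × ι, ∑ y : ι × ι,
          L y.1 y.2 * (O x.1 y.1 * O x.1 i) * (O x.2 y.2 * O x.2 j) := by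
          simp only [Fintype.sum_prod_type]
      _ = ∑ y : ι × ι, ∑ x : ι × ι,
          L y.1 y.2 * (O x.1 y.1 * O x.1 i) * (O x.2 y.2 * O x.2 j) := Finset.sum_comm
      _ = _ := by
          simp only [Fintype.sum_prod_type]
          refine Finset.sum_congr rfl fun c _ => Finset.sum_congr rfl fun e _ => ?_
          rw [mul_assoc, Finset.sum_mul_sum, Finset.mul_sum]
          apply Finset.sum_congr rfl
          intro a _
          rw [Finset.mul_sum]
          apply Finset.sum_congr rfl
          intro b _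
          ring
  rw [h2]
  simp only [hO.cols]
  simp

theorem pull3_transp {O : ι → ι → ℝ} (hO : IsFrame O) (χ : ι → ι → ι → ℝ) :
    pull3 (pull3 χ O) (fun i j => O j i) = χ := by
  rw [pull3_comp]
  have h : (fun i a => ∑ b, O b i * O b a) = fun a b => if a = b then (1 : ℝ) else 0 := by
    funext a b
    exact hO.cols a b
  rw [h, fr_pull3, fr3_one, fr2_one, fr1_one]

theorem ip2_pull {O : ι → ι → ℝ} (hO : IsFrame O) (L M : ι → ι → ℝ) :
    ip2 (pull2 L O) (pull2 M O) = ip2 L M := by
  have key : ∑ i, ∑ j, pull2 L O i j * pull2 M O i j = ∑ a, ∑ b, L a b *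
      pull2 (pull2 M O) (fun i j => O j i) a b := by
    calc ∑ i, ∑ j, pull2 L O i j * pull2 M O i j
        = ∑ x : ι × ι, ∑ y : ι × ι, L y.1 y.2 * O x.1 y.1 * O x.2 y.2 * pull2 M O x.1 x.2 := by
          simp only [Fintype.sum_prod_type]
          refine Finset.sum_congr rfl fun i _ => Finset.sum_congr rfl fun j _ => ?_
          conv_lhs => rw [pull2]
          rw [Finset.sum_mul]
          apply Finset.sum_congr rfl
          intro a _
          rw [Finset.sum_mul]
      _ = ∑ y : ι × ι, ∑ x : ι × ι, L y.1 y.2 * O x.1 y.1 * O x.2 y.2 * pull2 M O x.1 x.2 :=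
          Finset.sum_comm
      _ = _ := by
          simp only [Fintype.sum_prod_type]
          refine Finset.sum_congr rfl fun a _ => Finset.sum_congr rfl fun b _ => ?_
          conv_rhs => rw [pull2, Finset.mul_sum]
          apply Finset.sum_congr rfl
          intro i _
          rw [Finset.mul_sum]
          apply Finset.sum_congr rfl
          intro j _
          ring
  unfold ip2
  rw [key, pull2_transp hO]

theorem ip3_pull {O : ι → ι → ℝ} (hO : IsFrame O) (χ η : ι → ι → ι → ℝ) :
    ip3 (pull3 χ O) (pull3 η O) = ip3 χ η := by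
  have key : ∑ i, ∑ j, ∑ k, pull3 χ O i j k * pull3 η O i j k = ∑ a, ∑ b, ∑ c, χ a b c *
      pull3 (pull3 η O) (fun i j => O j i) a b c := by
    calc ∑ i, ∑ j, ∑ k, pull3 χ O i j k * pull3 η O i j k
        = ∑ x : ι × ι × ι, ∑ y : ι × ι × ι, χ y.1 y.2.1 y.2.2 * O x.1 y.1 * O x.2.1 y.2.1 *
            O x.2.2 y.2.2 * pull3 η O x.1 x.2.1 x.2.2 := by
          simp only [Fintype.sum_prod_type]
          refine Finset.sum_congr rfl fun i _ => Finset.sum_congr rfl fun j _ =>
            Finset.sum_congr rfl fun k _ => ?_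
          conv_lhs => rw [pull3]
          rw [Finset.sum_mul]
          apply Finset.sum_congr rfl
          intro a _
          rw [Finset.sum_mul]
          apply Finset.sum_congr rfl
          intro b _
          rw [Finset.sum_mul]
      _ = ∑ y : ι × ι × ι, ∑ x : ι × ι × ι, χ y.1 y.2.1 y.2.2 * O x.1 y.1 * O x.2.1 y.2.1 *
            O x.2.2 y.2.2 * pull3 η O x.1 x.2.1 x.2.2 :=
          Finset.sum_comm
      _ = _ := by
          simp only [Fintype.sum_prod_type]
          refine Finset.sum_congr rfl fun a _ => Finset.sum_congr rfl fun b _ =>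
            Finset.sum_congr rfl fun c _ => ?_
          conv_rhs => rw [pull3, Finset.mul_sum]
          apply Finset.sum_congr rfl
          intro i _
          rw [Finset.mul_sum]
          apply Finset.sum_congr rfl
          intro j _
          rw [Finset.mul_sum]
          apply Finset.sum_congr rfl
          intro k _
          ring
  unfold ip3
  rw [key, pull3_transp hO]

theorem rho_pull {O : ι → ι → ℝ} (hO : IsFrame O) (L : ι → ι → ℝ) (χ : ι → ι → ι → ℝ) :
    rho (pull2 L O) (pull3 χ O) = pull3 (rho L χ) O := by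
  have hm : frm (pull2 L O) O = frm O L := by
    funext i b
    unfold frm pull2
    have h1 : ∀ j, (∑ a, ∑ c, L a c * O i a * O j c) * O j b =
        ∑ a, ∑ c, L a c * O i a * (O j c * O j b) := by
      intro j
      rw [Finset.sum_mul]
      apply Finset.sum_congr rfl
      intro a _
      rw [Finset.sum_mul]
      apply Finset.sum_congr rfl
      intro c _
      ring
    simp only [h1]
    rw [Finset.sum_comm]
    apply Finset.sum_congr rfl
    intro a _
    rw [Finset.sum_comm]
    simp only [← Finset.mul_sum, hO.cols]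
    simp [mul_comm]
  have hlin : ∀ (χ η : ι → ι → ι → ℝ), pull3 (χ + η) O = pull3 χ O + pull3 η O := by
    intro χ η
    funext i j k
    simp only [pull3, Pi.add_apply, ← Finset.sum_add_distrib]
    refine Finset.sum_congr rfl fun a _ => Finset.sum_congr rfl fun b _ =>
      Finset.sum_congr rfl fun c _ => ?_
    ring
  rw [fr_rho, fr_rho, hlin, hlin, fr_pull3, fr_pull3, fr_pull3, fr_pull3]
  have e1 : fr1 (pull2 L O) (fr1 O (fr2 O (fr3 O χ))) = fr1 O (fr2 O (fr3 O (fr1 L χ))) := by
    rw [fr11, hm, ← fr11, fr12, fr13]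
  have e2 : fr2 (pull2 L O) (fr1 O (fr2 O (fr3 O χ))) = fr1 O (fr2 O (fr3 O (fr2 L χ))) := by
    rw [← fr12, fr22, hm, ← fr22, fr23]
  have e3 : fr3 (pull2 L O) (fr1 O (fr2 O (fr3 O χ))) = fr1 O (fr2 O (fr3 O (fr3 L χ))) := by
    rw [← fr13, ← fr23, fr33, hm, ← fr33]
  rw [e1, e2, e3]

theorem push4_form {Q : ι → ι → ι → ι → ℝ} (hQ : Form4 Q) (O : ι → ι → ℝ) :
    Form4 (push4 Q O) := by
  constructor
  · intro i j k l
    unfold push4
    rw [Finset.sum_comm]
    simp only [← Finset.sum_neg_distrib]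
    refine Finset.sum_congr rfl fun a _ => Finset.sum_congr rfl fun b _ =>
      Finset.sum_congr rfl fun c _ => Finset.sum_congr rfl fun e _ => ?_
    rw [hQ.s12 a b c e]
    ring
  · intro i j k l
    unfold push4
    simp only [← Finset.sum_neg_distrib]
    apply Finset.sum_congr rfl
    intro a _
    rw [Finset.sum_comm]
    refine Finset.sum_congr rfl fun b _ =>
      Finset.sum_congr rfl fun c _ => Finset.sum_congr rfl fun e _ => ?_
    rw [hQ.s23 a b c e]
    ring
  · intro i j k l
    unfold push4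
    simp only [← Finset.sum_neg_distrib]
    refine Finset.sum_congr rfl fun a _ => Finset.sum_congr rfl fun b _ => ?_
    rw [Finset.sum_comm]
    refine Finset.sum_congr rfl fun c _ => Finset.sum_congr rfl fun e _ => ?_
    rw [hQ.s34 a b c e]
    ring

theorem quad4_push (Q : ι → ι → ι → ι → ℝ) (O : ι → ι → ℝ) (L : ι → ι → ℝ) :
    quad4 (push4 Q O) L = quad4 Q (pull2 L O) := by
  unfold quad4
  congr 1
  calc ∑ a, ∑ b, ∑ c, ∑ e, push4 Q O a b c e * L a b * L c e
      = ∑ x : ι × ι × ι × ι, ∑ y : ι × ι × ι × ι, Q y.1 y.2.1 y.2.2.1 y.2.2.2 *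
          (L x.1 x.2.1 * O y.1 x.1 * O y.2.1 x.2.1) *
          (L x.2.2.1 x.2.2.2 * O y.2.2.1 x.2.2.1 * O y.2.2.2 x.2.2.2) := by
        simp only [Fintype.sum_prod_type, push4, Finset.sum_mul]
        refine Finset.sum_congr rfl fun a _ => Finset.sum_congr rfl fun b _ =>
          Finset.sum_congr rfl fun c _ => Finset.sum_congr rfl fun e _ =>
          Finset.sum_congr rfl fun i _ => Finset.sum_congr rfl fun j _ =>
          Finset.sum_congr rfl fun k _ => Finset.sum_congr rfl fun l _ => ?_
        ring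
    _ = ∑ y : ι × ι × ι × ι, ∑ x : ι × ι × ι × ι, Q y.1 y.2.1 y.2.2.1 y.2.2.2 *
          (L x.1 x.2.1 * O y.1 x.1 * O y.2.1 x.2.1) *
          (L x.2.2.1 x.2.2.2 * O y.2.2.1 x.2.2.1 * O y.2.2.2 x.2.2.2) := Finset.sum_comm
    _ = _ := by
        simp only [Fintype.sum_prod_type, pull2]
        refine Finset.sum_congr rfl fun i _ => Finset.sum_congr rfl fun j _ =>
          Finset.sum_congr rfl fun k _ => Finset.sum_congr rfl fun l _ => ?_
        rw [mul_assoc, Finset.sum_mul, Finset.mul_sum]
        apply Finset.sum_congr rfl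
        intro a _
        rw [Finset.sum_mul, Finset.mul_sum]
        apply Finset.sum_congr rfl
        intro b _
        rw [Finset.mul_sum, Finset.mul_sum]
        apply Finset.sum_congr rfl
        intro c _
        rw [Finset.mul_sum, Finset.mul_sum]
        apply Finset.sum_congr rfl
        intro e _
        ring

end Pool.Hopf3
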