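import Pool.Agent.Lib.MP_4a593f_gt.P3.Basic
import Pool.Agent.Lib.MP_4a593f_gt.P3.Frame

namespace Pool.Hopf3

open Finset

section general

variable {ι : Type} [Fintype ι] [DecidableEq ι]

/-- the rotation in the plane of `a` and `b` -/
private noncomputable def rotP (a b : ι) (θ : ℝ) (i t : ι) : ℝ :=
  if i = a then Real.cos θ * (if t = a then 1 else 0) + Real.sin θ * (if t = b then 1 else 0)
  else if i = b then -Real.sin θ * (if t = a then 1 else 0)
    + Real.cos θ * (if t = b then 1 else 0)
  else if t = i then 1 else 0

/-- the elementary skew tensor -/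
private def elM (a b : ι) (i t : ι) : ℝ :=
  (if i = a ∧ t = b then 1 else 0) - (if i = b ∧ t = a then 1 else 0)

private theorem sum_two (a b : ι) (α β : ℝ) (w : ι → ℝ) :
    ∑ t, (α * (if t = a then 1 else 0) + β * (if t = b then 1 else 0)) * w t
      = α * w a + β * w b := by
  simp only [add_mul, mul_assoc, Finset.sum_add_distrib, ← Finset.mul_sum, ite_mul, one_mul,
    zero_mul, Finset.sum_ite_eq', Finset.mem_univ, if_true]

private theorem rotP_frame {a b : ι} (hab : a ≠ b) (θ : ℝ) : IsFrame (rotP a b θ) := by
  have hsc := Real.sin_sq_add_cos_sq θ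
  have hba : b ≠ a := Ne.symm hab
  intro i j
  by_cases hia : i = a
  · subst hia
    have h1 : ∀ t, rotP i b θ i t = Real.cos θ * (if t = i then 1 else 0)
        + Real.sin θ * (if t = b then 1 else 0) := by
      intro t
      simp [rotP]
    simp only [h1]
    rw [sum_two]
    by_cases hja : j = i
    · subst hja
      simp only [rotP, if_true, if_neg hab, if_neg hba]
      linarith
    · by_cases hjb : j = b
      · subst hjb
        simp only [rotP, if_true, if_neg hab, if_neg hba]
        ring
      · have hij : i ≠ j := fun h => hja h.symm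
        have hbj : b ≠ j := fun h => hjb h.symm
        simp only [rotP, if_neg hja, if_neg hjb, if_neg hij, if_neg hbj]
        ring
  · by_cases hib : i = b
    · subst hib
      have h1 : ∀ t, rotP a i θ i t = -Real.sin θ * (if t = a then 1 else 0)
          + Real.cos θ * (if t = i then 1 else 0) := by
        intro t
        simp [rotP, hba]
      simp only [h1]
      rw [sum_two]
      by_cases hja : j = a
      · subst hja
        simp only [rotP, if_true, if_neg hab, if_neg hba]
        ring
      · by_cases hjb : j = i
        · subst hjb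
          simp only [rotP, if_true, if_neg hab, if_neg hba]
          linarith
        · have hij : i ≠ j := fun h => hjb h.symm
          have haj : a ≠ j := fun h => hja h.symm
          simp only [rotP, if_neg hja, if_neg hjb, if_neg hij, if_neg haj]
          ring
    · have h1 : ∀ t, rotP a b θ i t = if t = i then 1 else 0 := by
        intro t
        simp [rotP, hia, hib]
      simp only [h1, ite_mul, one_mul, zero_mul, Finset.sum_ite_eq', Finset.mem_univ, if_true]
      by_cases hja : j = a
      · subst hja
        simp [rotP, hia, hib]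
      · by_cases hjb : j = b
        · subst hjb
          simp [rotP, hia, hib, hja]
        · simp [rotP, hja, hjb]

private theorem rotP_zero (a b : ι) (i t : ι) : rotP a b 0 i t = if t = i then 1 else 0 := by
  unfold rotP
  rw [Real.cos_zero, Real.sin_zero]
  by_cases hia : i = a
  · subst hia
    simp
  · by_cases hib : i = b
    · subst hib
      simp [hia]
    · simp [hia, hib]

private theorem rotP_deriv {a b : ι} (hab : a ≠ b) (i t : ι) :
    HasDerivAt (fun θ => rotP a b θ i t) (elM a b i t) 0 := by
  have hc : HasDerivAt Real.cos 0 0 := by simpa using Real.hasDerivAt_cos 0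
  have hs : HasDerivAt Real.sin 1 0 := by simpa using Real.hasDerivAt_sin 0
  have hba : b ≠ a := Ne.symm hab
  unfold rotP elM
  by_cases hia : i = a
  · subst hia
    simp only [if_true, true_and, hab, false_and, if_false]
    have h := (hc.mul_const (if t = i then (1 : ℝ) else 0)).add
      (hs.mul_const (if t = b then (1 : ℝ) else 0))
    refine h.congr_deriv ?_
    ring
  · by_cases hib : i = b
    · subst hib
      simp only [hia, if_true, true_and, false_and, if_false]
      have h := (hs.neg.mul_const (if t = a then (1 : ℝ) else 0)).add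
        (hc.mul_const (if t = i then (1 : ℝ) else 0))
      refine h.congr_deriv ?_
      ring
    · simp only [hia, hib, false_and, if_false, sub_zero]
      exact hasDerivAt_const _ _

private theorem pull3_deriv {a b : ι} (hab : a ≠ b) (χ : ι → ι → ι → ℝ) (i j k : ι) :
    HasDerivAt (fun θ => pull3 χ (rotP a b θ) i j k) (rho (elM a b) χ i j k) 0 := by
  have h1 : HasDerivAt (fun θ => pull3 χ (rotP a b θ) i j k)
      (∑ x, ∑ y, ∑ z, (((χ x y z * elM a b i x) * rotP a b 0 j y
        + (χ x y z * rotP a b 0 i x) * elM a b j y) * rotP a b 0 k z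
        + (χ x y z * rotP a b 0 i x * rotP a b 0 j y) * elM a b k z)) 0 := by
    unfold pull3
    refine HasDerivAt.fun_sum fun x _ => HasDerivAt.fun_sum fun y _ =>
      HasDerivAt.fun_sum fun z _ => ?_
    exact (((rotP_deriv hab i x).const_mul (χ x y z)).mul (rotP_deriv hab j y)).mul
      (rotP_deriv hab k z)
  refine h1.congr_deriv ?_
  simp only [rotP_zero]
  unfold rho
  have e : ∀ x y z, (χ x y z * elM a b i x * (if y = j then 1 else 0)
      + χ x y z * (if x = i then 1 else 0) * elM a b j y) * (if z = k then 1 else 0)
      + χ x y z * (if x = i then 1 else 0) * (if y = j then 1 else 0) * elM a b k z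
      = (if z = k then (if y = j then elM a b i x * χ x y z else 0) else 0)
        + (if z = k then (if x = i then elM a b j y * χ x y z else 0) else 0)
        + (if y = j then (if x = i then elM a b k z * χ x y z else 0) else 0) := by
    intro x y z
    split_ifs <;> ring
  simp only [e, Finset.sum_add_distrib]
  congr 1
  · congr 1
    · refine Finset.sum_congr rfl fun x _ => ?_
      simp
    · rw [Finset.sum_comm]
      refine Finset.sum_congr rfl fun y _ => ?_
      simp
  · have : ∀ x, ∑ y, ∑ z, (if y = j then (if x = i then elM a b k z * χ x y z else 0) else 0)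
        = ∑ z, (if x = i then elM a b k z * χ x j z else 0) := by
      intro x
      rw [Finset.sum_comm]
      refine Finset.sum_congr rfl fun z _ => ?_
      simp
    simp only [this]
    rw [Finset.sum_comm]
    refine Finset.sum_congr rfl fun z _ => ?_
    simp

end general

/-- the condition for elementary skew tensors -/
private theorem crit_elM {d : ℕ} {χ : Idx d → Idx d → Idx d → ℝ}
    (hmax : ∀ P : Idx d → Idx d → ℝ, IsFrame P → ip3 (pull3 χ P) Om ≤ ip3 χ Om)
    (a b : Idx d) : ip3 χ (rho (elM a b) Om) = 0 := by
  have hsk : Skew (elM a b) := by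
    intro i j
    unfold elM
    have h1 : (i = b ∧ j = a) ↔ (j = a ∧ i = b) := and_comm
    have h2 : (i = a ∧ j = b) ↔ (j = b ∧ i = a) := and_comm
    simp only [h1, h2]
    ring
  by_cases hab : a = b
  · subst hab
    have h0 : (elM a a : Idx d → Idx d → ℝ) = (0 : ℝ) • elM a a := by
      funext i j
      simp [elM]
    rw [h0, rho_smul_left, ip3_smul_right, zero_mul]
  · have h0 : pull3 χ (rotP a b 0) = χ := by
      funext i j k
      unfold pull3
      simp [rotP_zero]
    have hd : HasDerivAt (fun θ => ip3 (pull3 χ (rotP a b θ)) Om)
        (ip3 (rho (elM a b) χ) Om) 0 := by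
      unfold ip3
      refine HasDerivAt.const_mul _ ?_
      refine HasDerivAt.fun_sum fun x _ => HasDerivAt.fun_sum fun y _ =>
        HasDerivAt.fun_sum fun z _ => ?_
      exact (pull3_deriv hab χ x y z).mul_const _
    have hm : IsLocalMax (fun θ => ip3 (pull3 χ (rotP a b θ)) Om) 0 := by
      refine Filter.Eventually.of_forall fun θ => ?_
      simp only [h0]
      exact hmax _ (rotP_frame hab θ)
    have h1 := hm.hasDerivAt_eq_zero hd
    have h2 := ip3_rho hsk χ Om
    rw [h1] at h2
    linarith

/-- First order condition at a maximum. -/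
theorem first_order {d : ℕ} {χ : Idx d → Idx d → Idx d → ℝ} (hχ : Form3 χ)
    (hmax : ∀ P : Idx d → Idx d → ℝ, IsFrame P → ip3 (pull3 χ P) Om ≤ ip3 χ Om)
    (M : Idx d → Idx d → ℝ) (hM : Skew M) : ip3 χ (rho M Om) = 0 := by
  let φ : (Idx d → Idx d → ℝ) →ₗ[ℝ] ℝ :=
    { toFun := fun L => ip3 χ (rho L Om)
      map_add' := fun L L' => by rw [rho_add_left, ip3_add_right]
      map_smul' := fun c L => by
        rw [rho_smul_left, ip3_smul_right]
        rfl }
  have h1 : M = ∑ a, ∑ b, (1 / 2 * M a b) • (elM a b : Idx d → Idx d → ℝ) := by
    funext i j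
    simp only [Finset.sum_apply, Pi.smul_apply, smul_eq_mul, elM, mul_sub,
      Finset.sum_sub_distrib]
    have e1 : ∑ x, ∑ y, 1 / 2 * M x y * (if i = x ∧ j = y then (1 : ℝ) else 0)
        = 1 / 2 * M i j := by
      rw [Finset.sum_eq_single i]
      · rw [Finset.sum_eq_single j]
        · simp
        · intro y _ hy
          rw [if_neg (fun h => hy h.2.symm), mul_zero]
        · simp
      · intro x _ hx
        refine Finset.sum_eq_zero fun y _ => ?_
        rw [if_neg (fun h => hx h.1.symm), mul_zero]
      · simp
    have e2 : ∑ x, ∑ y, 1 / 2 * M x y * (if i = y ∧ j = x then (1 : ℝ) else 0)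
        = 1 / 2 * M j i := by
      rw [Finset.sum_eq_single j]
      · rw [Finset.sum_eq_single i]
        · simp
        · intro y _ hy
          rw [if_neg (fun h => hy h.1.symm), mul_zero]
        · simp
      · intro x _ hx
        refine Finset.sum_eq_zero fun y _ => ?_
        rw [if_neg (fun h => hx h.2.symm), mul_zero]
      · simp
    rw [e1, e2, hM i j]
    ring
  have h2 : φ M = 0 := by
    rw [h1, map_sum]
    refine Finset.sum_eq_zero fun a _ => ?_
    rw [map_sum]
    refine Finset.sum_eq_zero fun b _ => ?_
    rw [map_smul]
    have h3 : φ (elM a b) = 0 := crit_elM hmax a b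
    rw [h3, smul_zero]
  exact h2

end Pool.Hopf3
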