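import Pool.Agent.Lib.MP_4a593f_gt.P3.Defs

namespace Pool.Hopf3

open Finset

variable {ι : Type} [Fintype ι]

theorem rho_add (L : ι → ι → ℝ) (χ η : ι → ι → ι → ℝ) :
    rho L (χ + η) = rho L χ + rho L η := by
  funext i j k
  simp only [rho, Pi.add_apply, ← Finset.sum_add_distrib]
  exact Finset.sum_congr rfl (fun t _ => by ring)

theorem rho_sub (L : ι → ι → ℝ) (χ η : ι → ι → ι → ℝ) :
    rho L (χ - η) = rho L χ - rho L η := by
  funext i j k
  simp only [rho, Pi.sub_apply, ← Finset.sum_sub_distrib]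
  exact Finset.sum_congr rfl (fun t _ => by ring)

theorem rho_smul (L : ι → ι → ℝ) (c : ℝ) (χ : ι → ι → ι → ℝ) :
    rho L (c • χ) = c • rho L χ := by
  funext i j k
  simp only [rho, Pi.smul_apply, smul_eq_mul, Finset.mul_sum]
  exact Finset.sum_congr rfl (fun t _ => by ring)

theorem rho_add_left (L M : ι → ι → ℝ) (χ : ι → ι → ι → ℝ) :
    rho (L + M) χ = rho L χ + rho M χ := by
  funext i j k
  simp only [rho, Pi.add_apply, ← Finset.sum_add_distrib]
  exact Finset.sum_congr rfl (fun t _ => by ring)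

theorem rho_sub_left (L M : ι → ι → ℝ) (χ : ι → ι → ι → ℝ) :
    rho (L - M) χ = rho L χ - rho M χ := by
  funext i j k
  simp only [rho, Pi.sub_apply, ← Finset.sum_sub_distrib]
  exact Finset.sum_congr rfl (fun t _ => by ring)

theorem rho_smul_left (c : ℝ) (L : ι → ι → ℝ) (χ : ι → ι → ι → ℝ) :
    rho (c • L) χ = c • rho L χ := by
  funext i j k
  simp only [rho, Pi.smul_apply, smul_eq_mul, Finset.mul_sum]
  exact Finset.sum_congr rfl (fun t _ => by ring)

theorem rho_form (L : ι → ι → ℝ) {χ : ι → ι → ι → ℝ} (hχ : Form3 χ) : Form3 (rho L χ) := by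
  constructor
  · intro i j k
    unfold rho
    rw [← Finset.sum_neg_distrib]
    apply Finset.sum_congr rfl
    intro t _
    rw [hχ.s12 i t k, hχ.s12 t j k, hχ.s12 i j t]
    ring
  · intro i j k
    unfold rho
    rw [← Finset.sum_neg_distrib]
    apply Finset.sum_congr rfl
    intro t _
    rw [hχ.s23 t j k, hχ.s23 i j t, hχ.s23 i t k]
    ring

theorem Form3.add {χ η : ι → ι → ι → ℝ} (h1 : Form3 χ) (h2 : Form3 η) : Form3 (χ + η) := by
  constructor
  · intro i j k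
    simp only [Pi.add_apply]
    rw [h1.s12 i j k, h2.s12 i j k]
    ring
  · intro i j k
    simp only [Pi.add_apply]
    rw [h1.s23 i j k, h2.s23 i j k]
    ring

theorem Form3.sub {χ η : ι → ι → ι → ℝ} (h1 : Form3 χ) (h2 : Form3 η) : Form3 (χ - η) := by
  constructor
  · intro i j k
    simp only [Pi.sub_apply]
    rw [h1.s12 i j k, h2.s12 i j k]
    ring
  · intro i j k
    simp only [Pi.sub_apply]
    rw [h1.s23 i j k, h2.s23 i j k]
    ring

theorem Form3.smul (c : ℝ) {χ : ι → ι → ι → ℝ} (h1 : Form3 χ) : Form3 (c • χ) := by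
  constructor
  · intro i j k
    simp only [Pi.smul_apply, smul_eq_mul]
    rw [h1.s12 i j k]
    ring
  · intro i j k
    simp only [Pi.smul_apply, smul_eq_mul]
    rw [h1.s23 i j k]
    ring

theorem Skew.add {L M : ι → ι → ℝ} (h1 : Skew L) (h2 : Skew M) : Skew (L + M) := by
  intro i j
  simp only [Pi.add_apply]
  rw [h1 i j, h2 i j]
  ring

theorem Skew.sub {L M : ι → ι → ℝ} (h1 : Skew L) (h2 : Skew M) : Skew (L - M) := by
  intro i j
  simp only [Pi.sub_apply]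
  rw [h1 i j, h2 i j]
  ring

theorem Skew.smul (c : ℝ) {L : ι → ι → ℝ} (h1 : Skew L) : Skew (c • L) := by
  intro i j
  simp only [Pi.smul_apply, smul_eq_mul]
  rw [h1 i j]
  ring

private theorem ip3_flat (χ η : ι → ι → ι → ℝ) :
    ip3 χ η = 1 / 6 * ∑ x : ι × ι × ι, χ x.1 x.2.1 x.2.2 * η x.1 x.2.1 x.2.2 := by
  unfold ip3
  simp only [Fintype.sum_prod_type]

theorem ip3_comm (χ η : ι → ι → ι → ℝ) : ip3 χ η = ip3 η χ := by
  rw [ip3_flat, ip3_flat]
  congr 1
  exact Finset.sum_congr rfl (fun x _ => mul_comm _ _)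

theorem ip3_add_left (χ η ζ : ι → ι → ι → ℝ) : ip3 (χ + η) ζ = ip3 χ ζ + ip3 η ζ := by
  rw [ip3_flat, ip3_flat, ip3_flat, ← mul_add, ← Finset.sum_add_distrib]
  congr 1
  exact Finset.sum_congr rfl (fun x _ => by simp only [Pi.add_apply]; ring)

theorem ip3_sub_left (χ η ζ : ι → ι → ι → ℝ) : ip3 (χ - η) ζ = ip3 χ ζ - ip3 η ζ := by
  rw [ip3_flat, ip3_flat, ip3_flat, ← mul_sub, ← Finset.sum_sub_distrib]
  congr 1
  exact Finset.sum_congr rfl (fun x _ => by simp only [Pi.sub_apply]; ring)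

theorem ip3_smul_left (c : ℝ) (χ η : ι → ι → ι → ℝ) : ip3 (c • χ) η = c * ip3 χ η := by
  rw [ip3_flat, ip3_flat]
  have h : ∑ x : ι × ι × ι, (c • χ) x.1 x.2.1 x.2.2 * η x.1 x.2.1 x.2.2 =
      c * ∑ x : ι × ι × ι, χ x.1 x.2.1 x.2.2 * η x.1 x.2.1 x.2.2 := by
    rw [Finset.mul_sum]
    exact Finset.sum_congr rfl (fun x _ => by simp only [Pi.smul_apply, smul_eq_mul]; ring)
  rw [h]
  ring

theorem ip3_add_right (χ η ζ : ι → ι → ι → ℝ) : ip3 ζ (χ + η) = ip3 ζ χ + ip3 ζ η := by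
  rw [ip3_comm ζ, ip3_comm ζ, ip3_comm ζ, ip3_add_left]

theorem ip3_sub_right (χ η ζ : ι → ι → ι → ℝ) : ip3 ζ (χ - η) = ip3 ζ χ - ip3 ζ η := by
  rw [ip3_comm ζ, ip3_comm ζ, ip3_comm ζ, ip3_sub_left]

theorem ip3_smul_right (c : ℝ) (χ η : ι → ι → ι → ℝ) : ip3 χ (c • η) = c * ip3 χ η := by
  rw [ip3_comm χ, ip3_comm χ, ip3_smul_left]

theorem ip3_neg_left (χ η : ι → ι → ι → ℝ) : ip3 (-χ) η = - ip3 χ η := by
  have h := ip3_smul_left (-1) χ η
  rw [neg_one_smul] at h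
  rw [h]
  ring

theorem ip3_neg_right (χ η : ι → ι → ι → ℝ) : ip3 χ (-η) = - ip3 χ η := by
  rw [ip3_comm, ip3_neg_left, ip3_comm]

theorem ip3_self_nonneg (χ : ι → ι → ι → ℝ) : 0 ≤ ip3 χ χ := by
  rw [ip3_flat]
  have h : 0 ≤ ∑ x : ι × ι × ι, χ x.1 x.2.1 x.2.2 * χ x.1 x.2.1 x.2.2 :=
    Finset.sum_nonneg (fun x _ => mul_self_nonneg _)
  linarith

theorem ip3_cauchy (χ η : ι → ι → ι → ℝ) : ip3 χ η ^ 2 ≤ ip3 χ χ * ip3 η η := by
  rw [ip3_flat, ip3_flat, ip3_flat]
  have h := Finset.sum_mul_sq_le_sq_mul_sq (Finset.univ : Finset (ι × ι × ι))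
    (fun x => χ x.1 x.2.1 x.2.2) (fun x => η x.1 x.2.1 x.2.2)
  simp only [← pow_two]
  nlinarith

/-- Bessel's inequality for two orthogonal tensors, without division. -/
theorem ip3_bessel2 (χ u v : ι → ι → ι → ℝ) (huv : ip3 u v = 0) (hu : ip3 u u = 1) :
    ip3 χ u ^ 2 * ip3 v v + ip3 χ v ^ 2 ≤ ip3 χ χ * ip3 v v := by
  have h := ip3_cauchy (χ - ip3 χ u • u) v
  have h1 : ip3 (χ - ip3 χ u • u) v = ip3 χ v := by
    rw [ip3_sub_left, ip3_smul_left, huv, mul_zero, sub_zero]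
  have h2 : ip3 (χ - ip3 χ u • u) (χ - ip3 χ u • u) = ip3 χ χ - ip3 χ u ^ 2 := by
    rw [ip3_sub_left, ip3_sub_right, ip3_sub_right, ip3_smul_left, ip3_smul_left, ip3_smul_right,
      ip3_smul_right, hu, ip3_comm u χ]
    ring
  rw [h1, h2] at h
  linarith

/-- Bessel's inequality for one unit tensor. -/
theorem ip3_bessel1 (χ u : ι → ι → ι → ℝ) (hu : ip3 u u = 1) :
    ip3 χ u ^ 2 ≤ ip3 χ χ := by
  have h := ip3_cauchy χ u
  rw [hu, mul_one] at h
  exact h

private theorem basic_swap3 (G : ι → ι → ι → ℝ) :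
    ∑ j, ∑ k, ∑ t, G j k t = ∑ j, ∑ k, ∑ t, G t k j := by
  rw [Finset.sum_comm]
  have h : ∀ k, ∑ j, ∑ t, G j k t = ∑ t, ∑ j, G j k t := fun k => Finset.sum_comm
  simp only [h]
  rw [Finset.sum_comm]

private theorem basic_swap4 (F : ι → ι → ι → ι → ℝ) :
    ∑ i, ∑ j, ∑ k, ∑ t, F i j k t = ∑ i, ∑ j, ∑ k, ∑ t, F t j k i := by
  rw [Finset.sum_comm]
  have h : ∀ j, ∑ i, ∑ k, ∑ t, F i j k t = ∑ i, ∑ k, ∑ t, F t j k i :=
    fun j => basic_swap3 (fun i k t => F i j k t)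
  simp only [h]
  rw [Finset.sum_comm]

theorem ip3_rho {L : ι → ι → ℝ} (hL : Skew L) (χ η : ι → ι → ι → ℝ) :
    ip3 (rho L χ) η = - ip3 χ (rho L η) := by
  unfold ip3 rho
  simp only [Finset.sum_mul, Finset.mul_sum, add_mul, mul_add, Finset.sum_add_distrib]
  have e1 : ∑ i, ∑ j, ∑ k, ∑ t, 1 / 6 * (L i t * χ t j k * η i j k) =
      - ∑ i, ∑ j, ∑ k, ∑ t, 1 / 6 * (χ i j k * (L i t * η t j k)) := by
    rw [basic_swap4]
    simp only [← Finset.sum_neg_distrib]
    refine Finset.sum_congr rfl fun i _ => Finset.sum_congr rfl fun j _ =>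
      Finset.sum_congr rfl fun k _ => Finset.sum_congr rfl fun t _ => ?_
    rw [hL i t]
    ring
  have e2 : ∑ i, ∑ j, ∑ k, ∑ t, 1 / 6 * (L j t * χ i t k * η i j k) =
      - ∑ i, ∑ j, ∑ k, ∑ t, 1 / 6 * (χ i j k * (L j t * η i t k)) := by
    rw [← Finset.sum_neg_distrib]
    apply Finset.sum_congr rfl
    intro i _
    rw [basic_swap3]
    simp only [← Finset.sum_neg_distrib]
    refine Finset.sum_congr rfl fun j _ =>
      Finset.sum_congr rfl fun k _ => Finset.sum_congr rfl fun t _ => ?_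
    rw [hL j t]
    ring
  have e3 : ∑ i, ∑ j, ∑ k, ∑ t, 1 / 6 * (L k t * χ i j t * η i j k) =
      - ∑ i, ∑ j, ∑ k, ∑ t, 1 / 6 * (χ i j k * (L k t * η i j t)) := by
    rw [← Finset.sum_neg_distrib]
    apply Finset.sum_congr rfl
    intro i _
    rw [← Finset.sum_neg_distrib]
    apply Finset.sum_congr rfl
    intro j _
    rw [Finset.sum_comm]
    simp only [← Finset.sum_neg_distrib]
    refine Finset.sum_congr rfl fun k _ => Finset.sum_congr rfl fun t _ => ?_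
    rw [hL k t]
    ring
  rw [e1, e2, e3]
  ring

private theorem basic_rho_rho (L M : ι → ι → ℝ) (χ : ι → ι → ι → ℝ) (i j k : ι) :
    rho L (rho M χ) i j k =
      (∑ t, ∑ s, (L i t * M t s * χ s j k + L j t * M t s * χ i s k + L k t * M t s * χ i j s)) +
      ∑ t, ∑ s, (L i t * M j s * χ t s k + L i t * M k s * χ t j s + L j t * M i s * χ s t k
        + L j t * M k s * χ i t s + L k t * M i s * χ s j t + L k t * M j s * χ i s t) := by
  unfold rho
  rw [← Finset.sum_add_distrib]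
  apply Finset.sum_congr rfl
  intro t _
  rw [Finset.mul_sum, Finset.mul_sum, Finset.mul_sum, ← Finset.sum_add_distrib,
    ← Finset.sum_add_distrib, ← Finset.sum_add_distrib]
  apply Finset.sum_congr rfl
  intro s _
  ring

theorem rho_bracket (L M : ι → ι → ℝ) (χ : ι → ι → ι → ℝ) :
    rho L (rho M χ) - rho M (rho L χ) = rho (br L M) χ := by
  funext i j k
  rw [Pi.sub_apply, Pi.sub_apply, Pi.sub_apply, basic_rho_rho, basic_rho_rho]
  have h1 : ∑ t, ∑ s, (M i t * L j s * χ t s k + M i t * L k s * χ t j s + M j t * L i s * χ s t k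
        + M j t * L k s * χ i t s + M k t * L i s * χ s j t + M k t * L j s * χ i s t) =
      ∑ t, ∑ s, (L i t * M j s * χ t s k + L i t * M k s * χ t j s + L j t * M i s * χ s t k
        + L j t * M k s * χ i t s + L k t * M i s * χ s j t + L k t * M j s * χ i s t) := by
    rw [Finset.sum_comm]
    refine Finset.sum_congr rfl fun t _ => Finset.sum_congr rfl fun s _ => ?_
    ring
  rw [h1, add_sub_add_right_eq_sub, ← Finset.sum_sub_distrib]
  simp only [← Finset.sum_sub_distrib]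
  rw [Finset.sum_comm]
  unfold rho br
  apply Finset.sum_congr rfl
  intro t _
  rw [Finset.sum_mul, Finset.sum_mul, Finset.sum_mul, ← Finset.sum_add_distrib,
    ← Finset.sum_add_distrib]
  apply Finset.sum_congr rfl
  intro s _
  ring

theorem ip2_self_nonneg (L : ι → ι → ℝ) : 0 ≤ ip2 L L := by
  unfold ip2
  have h : 0 ≤ ∑ i, ∑ j, L i j * L i j :=
    Finset.sum_nonneg (fun i _ => Finset.sum_nonneg (fun j _ => mul_self_nonneg _))
  linarith

end Pool.Hopf3
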