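import Pool.Agent.Lib.MP_4a593f_gt.P3.Defs

namespace Pool.Hopf3

open Finset

private theorem nfa_max {E : Type} [NormedAddCommGroup E] [InnerProductSpace ℝ E]
    [FiniteDimensional ℝ E] (T : E →ₗ[ℝ] E) (hT : ∀ x y, inner ℝ (T x) y = - inner ℝ x (T y))
    (hn : 2 ≤ Module.finrank ℝ E) :
    ∃ (e f : E) (M : ℝ), ‖e‖ = 1 ∧ ‖f‖ = 1 ∧ inner ℝ e f = 0 ∧ 0 ≤ M ∧
      (∀ x, ‖T x‖ ≤ M * ‖x‖) ∧ T e = -(M • f) ∧ T f = M • e := by
  have hnt : Nontrivial E := Module.nontrivial_of_finrank_pos (R := ℝ) (by omega)
  have hTc : Continuous T := LinearMap.continuous_of_finiteDimensional T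
  obtain ⟨e, he, hmax⟩ := (isCompact_sphere (0 : E) 1).exists_isMaxOn
    (NormedSpace.sphere_nonempty.2 zero_le_one) (hTc.norm.continuousOn)
  have he1 : ‖e‖ = 1 := by simpa using he
  have hbd : ∀ x, ‖T x‖ ≤ ‖T e‖ * ‖x‖ := by
    intro x
    rcases eq_or_ne x 0 with rfl | hx
    · simp
    have hx0 : 0 < ‖x‖ := norm_pos_iff.2 hx
    have h1 : ‖x‖⁻¹ • x ∈ Metric.sphere (0 : E) 1 := by
      rw [mem_sphere_zero_iff_norm, norm_smul, norm_inv, norm_norm, inv_mul_cancel₀ hx0.ne']
    have h2 : ‖T (‖x‖⁻¹ • x)‖ ≤ ‖T e‖ := hmax h1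
    rw [map_smul, norm_smul, norm_inv, norm_norm, inv_mul_le_iff₀ hx0] at h2
    linarith
  have hself : ∀ x, inner ℝ x (T x) = (0 : ℝ) := by
    intro x
    have h1 := hT x x
    rw [real_inner_comm] at h1
    linarith
  rcases (norm_nonneg (T e)).eq_or_lt with hM | hM
  · -- `T = 0`
    have hT0 : ∀ x, T x = 0 := by
      intro x
      have h1 := hbd x
      rw [← hM, zero_mul] at h1
      exact norm_le_zero_iff.1 h1
    have hne : (Submodule.span ℝ {e})ᗮ ≠ ⊥ := by
      intro hbot
      rw [Submodule.orthogonal_eq_bot_iff] at hbot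
      have he0 : e ≠ 0 := by
        intro h0
        rw [h0, norm_zero] at he1
        exact zero_ne_one he1
      have h1 : Module.finrank ℝ (Submodule.span ℝ {e}) = 1 := finrank_span_singleton he0
      rw [hbot, finrank_top] at h1
      omega
    obtain ⟨v, hv, hv0⟩ := Submodule.exists_mem_ne_zero_of_ne_bot hne
    have hev : inner ℝ e v = (0 : ℝ) := (Submodule.mem_orthogonal_singleton_iff_inner_right).1 hv
    have hvn : 0 < ‖v‖ := norm_pos_iff.2 hv0
    refine ⟨e, ‖v‖⁻¹ • v, 0, he1, ?_, ?_, le_rfl, ?_, ?_, ?_⟩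
    · rw [norm_smul, norm_inv, norm_norm, inv_mul_cancel₀ hvn.ne']
    · rw [inner_smul_right, hev, mul_zero]
    · intro x
      rw [hT0 x]
      simp
    · rw [hT0, zero_smul, neg_zero]
    · rw [hT0, zero_smul]
  · set M := ‖T e‖ with hMdef
    -- `T (T e) = - M ^ 2 e`
    have hB : ∀ y, M ^ 2 * inner ℝ e y - inner ℝ (T e) (T y) = (0 : ℝ) := by
      intro y
      by_contra hne
      set B : ℝ := M ^ 2 * inner ℝ e y - inner ℝ (T e) (T y) with hBdef
      set q : ℝ := M ^ 2 * ‖y‖ ^ 2 - ‖T y‖ ^ 2 with hq
      have hq0 : 0 ≤ q := by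
        have h1 := pow_le_pow_left₀ (norm_nonneg _) (hbd y) 2
        rw [mul_pow] at h1
        linarith
      set t : ℝ := -B / (q + 1) with ht
      have h1 := pow_le_pow_left₀ (norm_nonneg _) (hbd (e + t • y)) 2
      rw [mul_pow, map_add, map_smul, norm_add_sq_real, norm_add_sq_real, norm_smul, norm_smul,
        inner_smul_right, inner_smul_right, he1, mul_pow, mul_pow, Real.norm_eq_abs, sq_abs] at h1
      have h2 : 0 ≤ 2 * t * B + t ^ 2 * q := by
        rw [hBdef, hq]
        rw [← hMdef] at h1
        nlinarith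
      have h3 : t * (q + 1) = -B := by
        rw [ht]
        field_simp
      have h4 : 2 * t * B + t ^ 2 * q = -(t ^ 2 * (q + 2)) := by
        have : B = -(t * (q + 1)) := by linarith
        rw [this]
        ring
      rw [h4] at h2
      have h5 : t ≠ 0 := by
        intro h0
        rw [h0, zero_mul] at h3
        exact hne (by linarith)
      have h6 : 0 < t ^ 2 * (q + 2) := by positivity
      linarith
    have hTT : T (T e) = -(M ^ 2 • e) := by
      have h1 : ∀ y, inner ℝ (T (T e) + M ^ 2 • e) y = (0 : ℝ) := by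
        intro y
        rw [inner_add_left, hT, real_inner_smul_left]
        have := hB y
        linarith
      have h2 := h1 (T (T e) + M ^ 2 • e)
      rw [inner_self_eq_zero] at h2
      exact eq_neg_of_add_eq_zero_left h2
    refine ⟨e, -(M⁻¹ • T e), M, he1, ?_, ?_, hM.le, hbd, ?_, ?_⟩
    · rw [norm_neg, norm_smul, norm_inv, Real.norm_eq_abs, abs_of_pos hM, ← hMdef,
        inv_mul_cancel₀ hM.ne']
    · rw [inner_neg_right, inner_smul_right, hself, mul_zero, neg_zero]
    · rw [smul_neg, neg_neg, smul_smul, mul_inv_cancel₀ hM.ne', one_smul]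
    · rw [map_neg, map_smul, hTT, smul_neg, neg_neg, smul_smul]
      congr 1
      field_simp

private theorem nfa_ind (n : ℕ) : ∀ (E : Type) [NormedAddCommGroup E] [InnerProductSpace ℝ E]
    [FiniteDimensional ℝ E], Module.finrank ℝ E = n → ∀ (T : E →ₗ[ℝ] E),
    (∀ x y, inner ℝ (T x) y = - inner ℝ x (T y)) →
    ∃ (b : Fin n → E) (μ : ℕ → ℝ), Orthonormal ℝ b ∧ Antitone μ ∧ (∀ k, 0 ≤ μ k) ∧
      (∀ k, n ≤ 2 * k + 1 → μ k = 0) ∧
      ∀ i j : Fin n, inner ℝ (b i) (T (b j)) = nf μ i.val j.val := by
  induction n using Nat.strong_induction_on with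
  | _ n ih =>
  intro E _ _ _ hE T hT
  have hself : ∀ x, inner ℝ x (T x) = (0 : ℝ) := by
    intro x
    have h1 := hT x x
    rw [real_inner_comm] at h1
    linarith
  match n, ih, hE with
  | 0, _, hE =>
    refine ⟨fun i => i.elim0, fun _ => 0, ?_, fun _ _ _ => le_rfl, fun _ => le_rfl,
      fun _ _ => rfl, fun i => i.elim0⟩
    exact ⟨fun i => i.elim0, fun i => i.elim0⟩
  | 1, _, hE =>
    have hnt : Nontrivial E := Module.nontrivial_of_finrank_pos (R := ℝ) (by omega)
    obtain ⟨e, he⟩ := (NormedSpace.sphere_nonempty (E := E) (x := 0) (r := 1)).2 zero_le_one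
    have he1 : ‖e‖ = 1 := by simpa using he
    refine ⟨fun _ => e, fun _ => 0, ?_, fun _ _ _ => le_rfl, fun _ => le_rfl,
      fun _ _ => rfl, fun i j => ?_⟩
    · refine ⟨fun _ => he1, fun i j hij => ?_⟩
      exact absurd (Subsingleton.elim i j) hij
    · rw [hself]
      unfold nf
      split_ifs <;> simp
  | m + 2, ih, hE =>
    obtain ⟨e, f, M, he, hf, hef, hM0, hbd, hTe, hTf⟩ := nfa_max T hT (by omega)
    have hfe : inner ℝ f e = (0 : ℝ) := by
      rw [real_inner_comm]
      exact hef
    set W : Submodule ℝ E := (Submodule.span ℝ {e, f})ᗮ with hW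
    have hWmem : ∀ x, x ∈ W ↔ inner ℝ e x = (0 : ℝ) ∧ inner ℝ f x = (0 : ℝ) := by
      intro x
      rw [hW, Submodule.mem_orthogonal]
      constructor
      · intro h
        exact ⟨h e (Submodule.subset_span (by simp)), h f (Submodule.subset_span (by simp))⟩
      · rintro ⟨h1, h2⟩ u hu
        rw [Submodule.mem_span_pair] at hu
        obtain ⟨a, b, rfl⟩ := hu
        rw [inner_add_left, real_inner_smul_left, real_inner_smul_left, h1, h2]
        simp
    have hTW : ∀ x ∈ W, T x ∈ W := by
      intro x hx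
      rw [hWmem] at hx ⊢
      constructor
      · have h1 := hT e x
        rw [hTe, inner_neg_left, real_inner_smul_left, hx.2] at h1
        linarith
      · have h1 := hT f x
        rw [hTf, real_inner_smul_left, hx.1] at h1
        linarith
    have hon2 : Orthonormal ℝ ![e, f] := by
      rw [orthonormal_iff_ite]
      intro i j
      fin_cases i <;> fin_cases j <;> simp [he, hf, hef, hfe]
    have hrank : Module.finrank ℝ W = m := by
      have h1 := (Submodule.span ℝ {e, f}).finrank_add_finrank_orthogonal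
      have h2 : Module.finrank ℝ (Submodule.span ℝ ({e, f} : Set E)) = 2 := by
        have h3 := finrank_span_eq_card hon2.linearIndependent
        have h4 : Set.range ![e, f] = {e, f} := by
          simp [Matrix.range_cons, Matrix.range_empty, Set.pair_comm]
        rw [h4] at h3
        simpa using h3
      rw [h2, hE] at h1
      rw [hW]
      omega
    obtain ⟨b', μ', hb', hanti, hnn, hz, hmat⟩ := ih m (by omega) W hrank (T.restrict hTW) (by
      intro x y
      exact hT x y)
    have hb'mem : ∀ i, inner ℝ e (b' i : E) = (0 : ℝ) ∧ inner ℝ f (b' i : E) = (0 : ℝ) :=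
      fun i => (hWmem _).1 (b' i).2
    have hmat' : ∀ i j : Fin m, inner ℝ (b' i : E) (T (b' j : E)) = nf μ' i.val j.val := by
      intro i j
      exact hmat i j
    have hμ'0 : μ' 0 ≤ M := by
      by_cases hm : m ≤ 1
      · rw [hz 0 (by omega)]
        exact hM0
      · have h1 := hmat' ⟨0, by omega⟩ ⟨1, by omega⟩
        have h2 : nf μ' 0 1 = μ' 0 := by
          unfold nf
          simp
        rw [h2] at h1
        rw [← h1]
        refine (real_inner_le_norm _ _).trans ?_
        have h3 : ‖(b' ⟨0, by omega⟩ : E)‖ = 1 := hb'.1 _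
        have h4 : ‖(b' ⟨1, by omega⟩ : E)‖ = 1 := hb'.1 _
        have h5 := hbd (b' ⟨1, by omega⟩ : E)
        rw [h4, mul_one] at h5
        rw [h3, one_mul]
        exact h5
    set b : Fin (m + 2) → E := Fin.cons e (Fin.cons f fun i => (b' i : E)) with hb
    have b0 : b 0 = e := rfl
    have b1 : b (Fin.succ 0) = f := rfl
    have b2 : ∀ i : Fin m, b i.succ.succ = b' i := fun i => rfl
    set μ : ℕ → ℝ := fun k => Nat.casesOn k M μ' with hμ
    have μ0 : μ 0 = M := rfl
    have μs : ∀ k, μ (k + 1) = μ' k := fun k => rfl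
    refine ⟨b, μ, ?_, ?_, ?_, ?_, ?_⟩
    · rw [orthonormal_iff_ite]
      have hb'on := orthonormal_iff_ite.1 hb'
      intro i j
      refine Fin.cases ?_ (fun i => ?_) i
      · refine Fin.cases ?_ (fun j => ?_) j
        · rw [b0, real_inner_self_eq_norm_sq, he]
          simp
        · refine Fin.cases ?_ (fun j => ?_) j
          · rw [b0, b1, hef]
            simp
          · rw [b0, b2, (hb'mem j).1]
            rw [if_neg (Fin.succ_ne_zero _).symm]
      · refine Fin.cases ?_ (fun i => ?_) i
        · refine Fin.cases ?_ (fun j => ?_) j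
          · rw [b0, b1, hfe]
            simp
          · refine Fin.cases ?_ (fun j => ?_) j
            · rw [b1, real_inner_self_eq_norm_sq, hf]
              simp
            · rw [b1, b2, (hb'mem j).2]
              rw [if_neg]
              intro h
              exact (Fin.succ_ne_zero _).symm (Fin.succ_injective _ h)
        · refine Fin.cases ?_ (fun j => ?_) j
          · rw [b0, b2, real_inner_comm, (hb'mem i).1]
            rw [if_neg (Fin.succ_ne_zero _)]
          · refine Fin.cases ?_ (fun j => ?_) j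
            · rw [b1, b2, real_inner_comm, (hb'mem i).2]
              rw [if_neg]
              intro h
              exact (Fin.succ_ne_zero _) (Fin.succ_injective _ h)
            · rw [b2, b2]
              have h1 := hb'on i j
              have h2 : inner ℝ (b' i : E) (b' j : E) = inner ℝ (b' i) (b' j) := rfl
              rw [h2, h1]
              simp only [Fin.succ_inj]
    · refine antitone_nat_of_succ_le fun k => ?_
      cases k with
      | zero =>
        rw [μs, μ0]
        exact hμ'0
      | succ k =>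
        rw [μs, μs]
        exact hanti (Nat.le_succ k)
    · intro k
      cases k with
      | zero => exact hM0
      | succ k => exact hnn k
    · intro k hk
      cases k with
      | zero => omega
      | succ k => exact hz k (by omega)
    · have hz1 : ∀ j : Fin m, inner ℝ e (T (b' j : E)) = (0 : ℝ) := fun j =>
        ((hWmem _).1 (hTW _ (b' j).2)).1
      have hz2 : ∀ j : Fin m, inner ℝ f (T (b' j : E)) = (0 : ℝ) := fun j =>
        ((hWmem _).1 (hTW _ (b' j).2)).2
      have hsh : ∀ i j : ℕ, nf μ (i + 2) (j + 2) = nf μ' i j := by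
        intro i j
        unfold nf
        have e1 : (j + 2 = i + 2 + 1 ∧ (i + 2) % 2 = 0) ↔ (j = i + 1 ∧ i % 2 = 0) := by omega
        have e2 : (i + 2 = j + 2 + 1 ∧ (j + 2) % 2 = 0) ↔ (i = j + 1 ∧ j % 2 = 0) := by omega
        have e3 : (i + 2) / 2 = i / 2 + 1 := by omega
        have e4 : (j + 2) / 2 = j / 2 + 1 := by omega
        simp only [e1, e2, e3, e4, μs]
      intro i j
      refine Fin.cases ?_ (fun i => ?_) i
      · refine Fin.cases ?_ (fun j => ?_) j
        · rw [b0, hself]
          simp [nf]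
        · refine Fin.cases ?_ (fun j => ?_) j
          · rw [b0, b1, hTf, inner_smul_right, real_inner_self_eq_norm_sq, he]
            simp [nf, μ0]
          · rw [b0, b2, hz1]
            simp [nf]
      · refine Fin.cases ?_ (fun i => ?_) i
        · refine Fin.cases ?_ (fun j => ?_) j
          · rw [b0, b1, hTe, inner_neg_right, inner_smul_right, real_inner_self_eq_norm_sq, hf]
            simp [nf, μ0]
          · refine Fin.cases ?_ (fun j => ?_) j
            · rw [b1, hself]
              simp [nf]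
            · rw [b1, b2, hz2]
              simp [nf]
        · refine Fin.cases ?_ (fun j => ?_) j
          · rw [b0, b2, hTe, inner_neg_right, inner_smul_right, real_inner_comm, (hb'mem i).2]
            simp [nf]
          · refine Fin.cases ?_ (fun j => ?_) j
            · rw [b1, b2, hTf, inner_smul_right, real_inner_comm, (hb'mem i).1]
              simp [nf]
            · rw [b2, b2, hmat' i j]
              exact (hsh i.val j.val).symm

/-- Real normal form of a skew matrix, with sorted values. -/
theorem exists_nf (n : ℕ) (L : Fin n → Fin n → ℝ) (hL : Skew L) :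
    ∃ (O : Fin n → Fin n → ℝ) (μ : ℕ → ℝ), IsFrame O ∧ Antitone μ ∧ (∀ k, 0 ≤ μ k) ∧
      (∀ k, n ≤ 2 * k + 1 → μ k = 0) ∧ ∀ i j : Fin n, pull2 L O i j = nf μ i.val j.val := by
  set T : EuclideanSpace ℝ (Fin n) →ₗ[ℝ] EuclideanSpace ℝ (Fin n) :=
    Matrix.toEuclideanLin (Matrix.of L) with hTdef
  have hTapp : ∀ (x : EuclideanSpace ℝ (Fin n)) (a : Fin n), T x a = ∑ b, L a b * x b := by
    intro x a
    rw [hTdef, Matrix.toEuclideanLin_apply]
    rfl
  have hinner : ∀ x y : EuclideanSpace ℝ (Fin n), inner ℝ x y = ∑ a, x a * y a := by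
    intro x y
    rw [PiLp.inner_apply]
    refine Finset.sum_congr rfl fun a _ => ?_
    simp [mul_comm]
  have hT : ∀ x y, inner ℝ (T x) y = - inner ℝ x (T y) := by
    intro x y
    rw [hinner, hinner]
    simp only [hTapp, Finset.sum_mul, Finset.mul_sum]
    rw [Finset.sum_comm, ← Finset.sum_neg_distrib]
    refine Finset.sum_congr rfl fun a _ => ?_
    rw [← Finset.sum_neg_distrib]
    refine Finset.sum_congr rfl fun b _ => ?_
    rw [hL a b]
    ring
  obtain ⟨b, μ, hb, h1, h2, h3, h4⟩ := nfa_ind n (EuclideanSpace ℝ (Fin n)) (by simp) T hT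
  refine ⟨fun i a => b i a, μ, ?_, h1, h2, h3, ?_⟩
  · intro i j
    have h5 := orthonormal_iff_ite.1 hb i j
    rw [hinner] at h5
    exact h5
  · intro i j
    rw [← h4 i j, hinner]
    unfold pull2
    simp only [hTapp, Finset.mul_sum]
    refine Finset.sum_congr rfl fun a _ => Finset.sum_congr rfl fun c _ => ?_
    ring

end Pool.Hopf3
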