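import Pool.Agent.Lib.MP_4a593f_gt.P3.Defs

namespace Pool.Hopf3

open Finset

/-- linear interpolation: an affine function is `≤ C` between two points where it is `≤ C`. -/
private theorem lin_le {α β C x u w : ℝ} (hu : α + β * u ≤ C) (hw : α + β * w ≤ C)
    (h1 : u ≤ x) (h2 : x ≤ w) : α + β * x ≤ C := by
  rcases le_total 0 β with h | h
  · have := mul_le_mul_of_nonneg_left h2 h
    linarith
  · have := mul_le_mul_of_nonpos_left h1 h
    linarith

private theorem lp_core {S a0 a1 a2 f N x y0 y1 y2 r : ℝ} (h01 : a0 ≤ a1) (h12 : a1 ≤ a2)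
    (h2S : a2 ≤ S) (hfS : f ≤ S) (hSa : S + a2 ≤ 5 * N) (hSf : S + f ≤ 5 * N)
    (hc : 441 / 625 * S + 184 / 625 * f ≤ 5 / 2 * N)
    (k2 : (1 - 2 * (4416 / 23125)) * S + 4416 / 23125 * (a1 + a2) ≤ 5 / 2 * N)
    (k3 : (1 - 3 * (4416 / 38125)) * S + 4416 / 38125 * (a0 + a1 + a2) ≤ 5 / 2 * N)
    (hx1 : x ≤ 441 / 625) (hy0 : 0 ≤ y0) (hy1 : 0 ≤ y1) (hy2 : 0 ≤ y2) (hr : 0 ≤ r)
    (hsum : x + y0 + y1 + y2 + r = 1)
    (hb : 1 / 2 ≤ x → y0 ≤ 24 / 11 * (441 / 625 - x) ∧ y1 ≤ 24 / 11 * (441 / 625 - x) ∧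
      y2 ≤ 24 / 11 * (441 / 625 - x)) :
    S * x + a0 * y0 + a1 * y1 + a2 * y2 + f * r ≤ 5 / 2 * N := by
  have hr' : r = 1 - x - y0 - y1 - y2 := by linarith
  have hrest : 0 ≤ 1 - x := by linarith
  rcases le_total x (1 / 2) with hx | hx
  · -- x ≤ 1/2
    rcases le_total f a2 with hf | hf
    · have e1 : a0 * y0 ≤ a2 * y0 := mul_le_mul_of_nonneg_right (h01.trans h12) hy0
      have e2 : a1 * y1 ≤ a2 * y1 := mul_le_mul_of_nonneg_right h12 hy1
      have e3 : f * r ≤ a2 * r := mul_le_mul_of_nonneg_right hf hr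
      have e4 : 0 ≤ (S - a2) * (1 / 2 - x) := mul_nonneg (by linarith) (by linarith)
      have e5 : a2 * y0 + a2 * y1 + a2 * y2 + a2 * r = a2 * (1 - x) := by
        rw [hr']; ring
      nlinarith
    · have e1 : a0 * y0 ≤ f * y0 := mul_le_mul_of_nonneg_right ((h01.trans h12).trans hf) hy0
      have e2 : a1 * y1 ≤ f * y1 := mul_le_mul_of_nonneg_right (h12.trans hf) hy1
      have e3 : a2 * y2 ≤ f * y2 := mul_le_mul_of_nonneg_right hf hy2
      have e4 : 0 ≤ (S - f) * (1 / 2 - x) := mul_nonneg (by linarith) (by linarith)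
      have e5 : f * y0 + f * y1 + f * y2 + f * r = f * (1 - x) := by
        rw [hr']; ring
      nlinarith
  · obtain ⟨b0, b1, b2⟩ := hb hx
    set b : ℝ := 24 / 11 * (441 / 625 - x) with hbdef
    rcases le_total a2 f with hf | hf
    · -- nothing above f
      have e1 : a0 * y0 ≤ f * y0 := mul_le_mul_of_nonneg_right ((h01.trans h12).trans hf) hy0
      have e2 : a1 * y1 ≤ f * y1 := mul_le_mul_of_nonneg_right (h12.trans hf) hy1
      have e3 : a2 * y2 ≤ f * y2 := mul_le_mul_of_nonneg_right hf hy2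
      have e5 : f * y0 + f * y1 + f * y2 + f * r = f * (1 - x) := by
        rw [hr']; ring
      have := lin_le (α := f) (β := S - f) (C := 5 / 2 * N) (x := x) (u := 1 / 2)
        (w := 441 / 625) (by linarith) (by linarith) hx hx1
      nlinarith
    · rcases le_total a1 f with hf1 | hf1
      · -- only a2 above f
        have e1 : a0 * y0 ≤ f * y0 := mul_le_mul_of_nonneg_right (h01.trans hf1) hy0
        have e2 : a1 * y1 ≤ f * y1 := mul_le_mul_of_nonneg_right hf1 hy1
        have e3 : (a2 - f) * y2 ≤ (a2 - f) * b :=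
          mul_le_mul_of_nonneg_left b2 (by linarith)
        have e5 : f * y0 + f * y1 + f * y2 + f * r = f * (1 - x) := by
          rw [hr']; ring
        have := lin_le (α := f + (a2 - f) * (24 / 11 * (441 / 625)))
          (β := S - f - (a2 - f) * (24 / 11)) (C := 5 / 2 * N) (x := x) (u := 1 / 2)
          (w := 441 / 625) (by linarith) (by linarith) hx hx1
        rw [hbdef] at e3
        nlinarith
      · rcases le_total x (1 - 2 * (4416 / 23125)) with hx2 | hx2
        · -- x ≤ x2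
          have hfa1 : f * r ≤ a1 * r := mul_le_mul_of_nonneg_right hf1 hr
          have e1 : a0 * y0 ≤ a1 * y0 := mul_le_mul_of_nonneg_right h01 hy0
          have e3 : (a2 - a1) * y2 ≤ (a2 - a1) * b :=
            mul_le_mul_of_nonneg_left b2 (by linarith)
          have e5 : a1 * y0 + a1 * y1 + a1 * y2 + a1 * r = a1 * (1 - x) := by
            rw [hr']; ring
          have := lin_le (α := a1 + (a2 - a1) * (24 / 11 * (441 / 625)))
            (β := S - a1 - (a2 - a1) * (24 / 11)) (C := 5 / 2 * N) (x := x) (u := 1 / 2)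
            (w := 1 - 2 * (4416 / 23125)) (by linarith) (by linarith) hx hx2
          rw [hbdef] at e3
          nlinarith
        · rcases le_total a0 f with hf0 | hf0
          · have e1 : a0 * y0 ≤ f * y0 := mul_le_mul_of_nonneg_right hf0 hy0
            have e2 : (a1 - f) * y1 ≤ (a1 - f) * b :=
              mul_le_mul_of_nonneg_left b1 (by linarith)
            have e3 : (a2 - f) * y2 ≤ (a2 - f) * b :=
              mul_le_mul_of_nonneg_left b2 (by linarith)
            have e5 : f * y0 + f * y1 + f * y2 + f * r = f * (1 - x) := by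
              rw [hr']; ring
            have := lin_le (α := f + ((a1 - f) + (a2 - f)) * (24 / 11 * (441 / 625)))
              (β := S - f - ((a1 - f) + (a2 - f)) * (24 / 11)) (C := 5 / 2 * N) (x := x)
              (u := 1 - 2 * (4416 / 23125))
              (w := 441 / 625) (by linarith) (by linarith) hx2 hx1
            rw [hbdef] at e3 e2
            nlinarith
          · rcases le_total x (1 - 3 * (4416 / 38125)) with hx3 | hx3
            · have hfa1 : f * r ≤ a0 * r := mul_le_mul_of_nonneg_right hf0 hr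
              have e2 : (a1 - a0) * y1 ≤ (a1 - a0) * b :=
                mul_le_mul_of_nonneg_left b1 (by linarith)
              have e3 : (a2 - a0) * y2 ≤ (a2 - a0) * b :=
                mul_le_mul_of_nonneg_left b2 (by linarith)
              have e5 : a0 * y0 + a0 * y1 + a0 * y2 + a0 * r = a0 * (1 - x) := by
                rw [hr']; ring
              have := lin_le (α := a0 + ((a1 - a0) + (a2 - a0)) * (24 / 11 * (441 / 625)))
                (β := S - a0 - ((a1 - a0) + (a2 - a0)) * (24 / 11)) (C := 5 / 2 * N) (x := x)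
                (u := 1 - 2 * (4416 / 23125))
                (w := 1 - 3 * (4416 / 38125)) (by linarith) (by linarith) hx2 hx3
              rw [hbdef] at e3 e2
              nlinarith
            · have e1 : (a0 - f) * y0 ≤ (a0 - f) * b :=
                mul_le_mul_of_nonneg_left b0 (by linarith)
              have e2 : (a1 - f) * y1 ≤ (a1 - f) * b :=
                mul_le_mul_of_nonneg_left b1 (by linarith)
              have e3 : (a2 - f) * y2 ≤ (a2 - f) * b :=
                mul_le_mul_of_nonneg_left b2 (by linarith)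
              have e5 : f * y0 + f * y1 + f * y2 + f * r = f * (1 - x) := by
                rw [hr']; ring
              have := lin_le
                (α := f + ((a0 - f) + (a1 - f) + (a2 - f)) * (24 / 11 * (441 / 625)))
                (β := S - f - ((a0 - f) + (a1 - f) + (a2 - f)) * (24 / 11)) (C := 5 / 2 * N)
                (x := x) (u := 1 - 3 * (4416 / 38125))
                (w := 441 / 625) (by linarith) (by linarith) hx3 hx1
              rw [hbdef] at e3 e2 e1
              nlinarith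

/-- The linear programme. -/
theorem lp_arith {m0 m1 m2 m3 N v p y0 y1 y2 r : ℝ} (h01 : m1 ≤ m0) (h12 : m2 ≤ m1)
    (h23 : m3 ≤ m2) (h3 : 0 ≤ m3) (hN : m0 ^ 2 + m1 ^ 2 + m2 ^ 2 + m3 ^ 2 ≤ N)
    (hT : 5 / 2 * N ≤ (m0 + m1 + m2) ^ 2) (hv : 0 ≤ v) (hv2 : v ^ 2 = 3 * N - (m0 + m1 + m2) ^ 2)
    (hp : 0 ≤ p) (hp1 : p ≤ 21 / 25) (hy0 : 0 ≤ y0) (hy1 : 0 ≤ y1) (hy2 : 0 ≤ y2) (hr : 0 ≤ r)
    (hsum : p ^ 2 + y0 + y1 + y2 + r = 1)
    (hb0 : y0 ≤ 4 * (21 / 25) * (21 / 25 - p)) (hb1 : y1 ≤ 4 * (21 / 25) * (21 / 25 - p))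
    (hb2 : y2 ≤ 4 * (21 / 25) * (21 / 25 - p)) :
    (m0 + m1 + m2) ^ 2 * p ^ 2 + (m1 + m2 + m3) ^ 2 * y0 + (m0 + m2 + m3) ^ 2 * y1
      + (m0 + m1 + m3) ^ 2 * y2 + ((m0 + m1 + m2) / 3 + v) ^ 2 * r ≤ 5 / 2 * N := by
  have hm2 : 0 ≤ m2 := h3.trans h23
  have hm1 : 0 ≤ m1 := hm2.trans h12
  have hm0 : 0 ≤ m0 := hm1.trans h01
  have hN0 : 0 ≤ N := le_trans (by positivity) hN
  set T : ℝ := m0 + m1 + m2 with hTdef
  have hT0 : 0 ≤ T := by positivity
  have hNT : 3 * N = T ^ 2 + v ^ 2 := by linarith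
  refine lp_core (S := T ^ 2) (a0 := (m1 + m2 + m3) ^ 2) (a1 := (m0 + m2 + m3) ^ 2)
    (a2 := (m0 + m1 + m3) ^ 2) (f := (T / 3 + v) ^ 2) (x := p ^ 2) ?_ ?_ ?_ ?_ ?_ ?_ ?_ ?_ ?_ ?_
    hy0 hy1 hy2 hr hsum ?_
  · exact pow_le_pow_left₀ (by positivity) (by linarith) 2
  · exact pow_le_pow_left₀ (by positivity) (by linarith) 2
  · exact pow_le_pow_left₀ (by positivity) (by rw [hTdef]; linarith) 2
  · have hvT : v ≤ 2 / 3 * T := by
      refine (pow_le_pow_iff_left₀ hv (by positivity) (two_ne_zero)).1 ?_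
      nlinarith
    exact pow_le_pow_left₀ (by positivity) (by linarith) 2
  · rw [hTdef]
    nlinarith [sq_nonneg (m0 - 2 / 3 * m1 - 1 / 3 * m2 - 1 / 3 * m3),
      sq_nonneg (m1 - m2 - m3), sq_nonneg (m2 - m3)]
  · nlinarith [sq_nonneg (T - v), sq_nonneg (T + v)]
  · nlinarith [sq_nonneg (T - v), sq_nonneg (T + v)]
  · rw [hTdef]
    nlinarith [sq_nonneg (m0 - 37418/69375 * m1 - 37418/69375 * m2 - 5888/23125 * m3),
      sq_nonneg (m1 - 3383260474/4025503901 * m2 - 1273671552/4025503901 * m3),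
      sq_nonneg (m2 - 1273671552/642243427 * m3), sq_nonneg m3]
  · rw [hTdef]
    nlinarith [sq_nonneg (m0 - 58586/123207 * m1 - 58586/123207 * m2 - 5888/41069 * m3),
      sq_nonneg (m1 - 58586/64621 * m2 - 17664/64621 * m3),
      sq_nonneg (m2 - 17664/6035 * m3), sq_nonneg m3]
  · nlinarith
  · intro hx
    have hp7 : 7 / 10 ≤ p := by
      by_contra h
      push Not at h
      nlinarith
    have key : 4 * (21 / 25) * (21 / 25 - p) ≤ 24 / 11 * (441 / 625 - p ^ 2) := by
      nlinarith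
    exact ⟨hb0.trans key, hb1.trans key, hb2.trans key⟩

end Pool.Hopf3
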