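import Pool.Agent.Lib.MP_4a593f_gt.P3.Defs

namespace Pool.Hopf3

open Finset

theorem lower_arith {c s E : ℝ} (hc : 0 ≤ c) (hs : 0 ≤ s) (hsE : s ^ 2 = E) (hcE : c ^ 2 + E = 1)
    (hE : E ≤ 1 / 5) : 0 ≤ c - √3 * s ∧ (1 - 5 * E) / 4 ≤ (c - √3 * s) ^ 2 := by
  have h3 : √3 ^ 2 = (3 : ℝ) := Real.sq_sqrt (by norm_num)
  have h30 : (0 : ℝ) ≤ √3 := Real.sqrt_nonneg 3
  have hE0 : 0 ≤ E := by rw [← hsE]; positivity
  have e1 : (√3 * s) ^ 2 = 3 * E := by rw [mul_pow, h3, hsE]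
  refine ⟨?_, ?_⟩
  · have : √3 * s ≤ c := by
      refine (pow_le_pow_iff_left₀ (by positivity) hc two_ne_zero).1 ?_
      rw [e1]; linarith
    linarith
  · have e2 : 2 * (c * (√3 * s)) ≤ 3 / 4 + 13 / 4 * E := by
      refine (pow_le_pow_iff_left₀ (by positivity) (by positivity) two_ne_zero).1 ?_
      have : (2 * (c * (√3 * s))) ^ 2 = 4 * (c ^ 2 * (3 * E)) := by rw [← e1]; ring
      rw [this]
      have hc2 : c ^ 2 = 1 - E := by linarith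
      rw [hc2]
      nlinarith [sq_nonneg (3 - 19 * E)]
    have e3 : (c - √3 * s) ^ 2 = c ^ 2 - 2 * (c * (√3 * s)) + (√3 * s) ^ 2 := by ring
    rw [e3, e1]
    linarith

/-- a diagonally dominated ternary form is nonnegative. -/
private theorem tern {T L k p q t l y : ℝ} (hL : 0 < L) (hk : 0 < k)
    (h : p ^ 2 / L + q ^ 2 / k ≤ T) :
    0 ≤ T * t ^ 2 + L * l ^ 2 + k * y ^ 2 - 2 * t * l * p - 2 * t * y * q := by
  have e : T * t ^ 2 + L * l ^ 2 + k * y ^ 2 - 2 * t * l * p - 2 * t * y * q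
      = (T - (p ^ 2 / L + q ^ 2 / k)) * t ^ 2 + L * (l - t * p / L) ^ 2
        + k * (y - t * q / k) ^ 2 := by
    field_simp
    ring
  rw [e]
  have : 0 ≤ (T - (p ^ 2 / L + q ^ 2 / k)) * t ^ 2 :=
    mul_nonneg (by linarith) (sq_nonneg t)
  positivity

private theorem ar1 {x u : ℝ} (h5 : 1 / 5 ≤ x) (h6 : x ≤ 11 / 50) (hu0 : 0 ≤ u) (hux : u ≤ x) :
    u ^ 2 / (139 / 100) + u * (x - u) / (447 / 1000) ≤ -1 / 2 + 3 * x + 2 * 0 - u / 3 := by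
  rcases le_total u (1 / 5) with hu5 | hu5
  · have e3 : 0 ≤ (x - 1 / 5) * (3 - 1000 / 447 * u) :=
      mul_nonneg (by linarith) (by linarith)
    have e4 := sq_nonneg (u - 1 / 5)
    ring_nf at e3 e4 ⊢
    linarith
  · have e3 : 0 ≤ (x - u) * (3 - 1000 / 447 * u) :=
      mul_nonneg (by linarith) (by linarith)
    have e4 : 0 ≤ (u - 1 / 5) * (1 - u) := mul_nonneg (by linarith) (by linarith)
    ring_nf at e3 e4 ⊢
    linarith

private theorem ar2 {x u : ℝ} (h6 : 11 / 50 ≤ x) (h7 : x ≤ 184 / 625) (hu0 : 0 ≤ u)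
    (hux : u ≤ x) :
    u ^ 2 / (139 / 100) + u * (x - u) / (214 / 1000) ≤ -1 / 2 + 3 * x + 2 * 0 - u / 3 := by
  rcases le_total u (11 / 50) with hu5 | hu5
  · have e3 : 0 ≤ (x - 11 / 50) * (3 - 1000 / 214 * u) :=
      mul_nonneg (by linarith) (by linarith)
    have e4 := sq_nonneg (u - 17 / 100)
    ring_nf at e3 e4 ⊢
    linarith
  · have e3 : 0 ≤ (x - u) * (3 - 1000 / 214 * u) :=
      mul_nonneg (by linarith) (by linarith)
    have e4 : 0 ≤ (u - 11 / 50) * (1 - u) := mul_nonneg (by linarith) (by linarith)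
    ring_nf at e3 e4 ⊢
    linarith

private theorem ar0 {x u : ℝ} (h5 : x ≤ 1 / 5) (hu0 : 0 ≤ u) (hux : u ≤ x) :
    u ^ 2 / (7 / 4) + u * (x - u) / (1 / 2) ≤
        -1 / 2 + 3 * x + 2 * ((1 - 5 * x) / 4) - u / 3 := by
  have e3 : 0 ≤ (x - u) * (1 / 2 - 2 * u) := mul_nonneg (by linarith) (by linarith)
  have e4 : 0 ≤ u * (1 / 6 - 4 / 7 * u) := mul_nonneg hu0 (by linarith)
  ring_nf at e3 e4 ⊢
  linarith

theorem upper_arith {t l y a b e o s c s' : ℝ} (ht : 0 ≤ t) (hl : 0 ≤ l) (hy : 0 ≤ y)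
    (ha : 0 ≤ a) (he : 0 ≤ e) (ho : 0 ≤ o) (hs : 0 ≤ s) (hc : 0 ≤ c) (hcs : c ^ 2 + s ^ 2 = 1)
    (heo : e ^ 2 + o ^ 2 = s ^ 2) (hs2 : s ^ 2 ≤ 184 / 625) (hb : 2 * b = y ^ 2)
    (hs' : s' = max 0 ((1 - 5 * s ^ 2) / 4)) :
    c ^ 2 * (3 * t ^ 2 + a + b) + (2 * c - s) * s * (6 / 5 * a + 14 / 5 * b)
      + t ^ 2 / 3 * e ^ 2 + 2 * t * (l * e ^ 2 + y * e * o)
      + 15 / 4 * s ^ 2 * (l ^ 2 + a + 2 * b) - s ^ 2 / 4 * (a + b)
      - s' * (2 * t ^ 2 - l ^ 2 + a) ≤ 5 / 2 * (t ^ 2 + l ^ 2 + a + 2 * b) := by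
  obtain ⟨w, hw⟩ : ∃ w, w = (2 * c - s) * s := ⟨_, rfl⟩
  have hwle : w ≤ 6181 / 10000 := by
    rw [hw]
    nlinarith [sq_nonneg (6181 * c - 10000 * s), sq_nonneg s]
  obtain ⟨x, hx⟩ : ∃ x, x = s ^ 2 := ⟨_, rfl⟩
  have hx0 : 0 ≤ x := by rw [hx]; positivity
  obtain ⟨u, hu⟩ : ∃ u, u = e ^ 2 := ⟨_, rfl⟩
  have hu0 : 0 ≤ u := by rw [hu]; positivity
  have hux : o ^ 2 = x - u := by rw [hx, hu]; linarith
  have huxle : u ≤ x := by nlinarith [sq_nonneg o]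
  have hb' : b = y ^ 2 / 2 := by linarith
  have hc2 : c ^ 2 = 1 - x := by rw [hx]; linarith
  have hx2 : x ≤ 184 / 625 := by rw [hx]; exact hs2
  rw [← hw, ← hx, hc2, hb', ← hu]
  rw [← hx] at hs'
  have hq2 : (e * o) ^ 2 = u * (x - u) := by rw [mul_pow, ← hu, hux]
  -- reduce to the coefficient bounds
  have main : ∀ s₁ : ℝ, 0 ≤ 3 / 2 + s₁ - 5 / 2 * x - 6 / 5 * w → 0 < 5 / 2 - 15 / 4 * x - s₁ →
      0 < 2 - 25 / 8 * x - 7 / 5 * w →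
      u ^ 2 / (5 / 2 - 15 / 4 * x - s₁) + u * (x - u) / (2 - 25 / 8 * x - 7 / 5 * w)
        ≤ -1 / 2 + 3 * x + 2 * s₁ - u / 3 →
      (1 - x) * (3 * t ^ 2 + a + y ^ 2 / 2) + w * (6 / 5 * a + 14 / 5 * (y ^ 2 / 2))
      + t ^ 2 / 3 * u + 2 * t * (l * u + y * e * o)
      + 15 / 4 * x * (l ^ 2 + a + 2 * (y ^ 2 / 2)) - x / 4 * (a + y ^ 2 / 2)
      - s₁ * (2 * t ^ 2 - l ^ 2 + a) ≤ 5 / 2 * (t ^ 2 + l ^ 2 + a + 2 * (y ^ 2 / 2)) := by
    intro s₁ hA hL hk hT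
    have h1 := tern (T := -1 / 2 + 3 * x + 2 * s₁ - u / 3) (L := 5 / 2 - 15 / 4 * x - s₁)
      (k := 2 - 25 / 8 * x - 7 / 5 * w) (p := u) (q := e * o) (t := t) (l := l) (y := y) hL hk
      (by rw [hq2]; exact hT)
    have h2 := mul_nonneg hA ha
    nlinarith [h1, h2]
  rcases le_total x (1 / 5) with h5 | h5
  · have hs1 : s' = (1 - 5 * x) / 4 := by
      rw [hs']; exact max_eq_right (by linarith)
    rw [hs1]
    refine main _ (by linarith) (by linarith) (by linarith) ?_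
    have hL : (7 : ℝ) / 4 ≤ 5 / 2 - 15 / 4 * x - (1 - 5 * x) / 4 := by linarith
    have hk : (1 : ℝ) / 2 ≤ 2 - 25 / 8 * x - 7 / 5 * w := by linarith
    have e1 : u ^ 2 / (5 / 2 - 15 / 4 * x - (1 - 5 * x) / 4) ≤ u ^ 2 / (7 / 4) :=
      div_le_div_of_nonneg_left (sq_nonneg u) (by norm_num) hL
    have e2 : u * (x - u) / (2 - 25 / 8 * x - 7 / 5 * w) ≤ u * (x - u) / (1 / 2) :=
      div_le_div_of_nonneg_left (mul_nonneg hu0 (by linarith)) (by norm_num) hk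
    have e5 := ar0 h5 hu0 huxle
    linarith
  · have hs1 : s' = 0 := by
      rw [hs']; exact max_eq_left (by linarith)
    rw [hs1]
    refine main _ (by linarith) (by linarith) (by linarith) ?_
    have hL : (139 : ℝ) / 100 ≤ 5 / 2 - 15 / 4 * x - 0 := by linarith
    have e1 : u ^ 2 / (5 / 2 - 15 / 4 * x - 0) ≤ u ^ 2 / (139 / 100) :=
      div_le_div_of_nonneg_left (sq_nonneg u) (by norm_num) hL
    rcases le_total x (11 / 50) with h6 | h6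
    · have hk : (447 : ℝ) / 1000 ≤ 2 - 25 / 8 * x - 7 / 5 * w := by linarith
      have e2 : u * (x - u) / (2 - 25 / 8 * x - 7 / 5 * w) ≤ u * (x - u) / (447 / 1000) :=
        div_le_div_of_nonneg_left (mul_nonneg hu0 (by linarith)) (by norm_num) hk
      have e5 := ar1 h5 h6 hu0 huxle
      linarith
    · have hk : (214 : ℝ) / 1000 ≤ 2 - 25 / 8 * x - 7 / 5 * w := by linarith
      have e2 : u * (x - u) / (2 - 25 / 8 * x - 7 / 5 * w) ≤ u * (x - u) / (214 / 1000) :=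
        div_le_div_of_nonneg_left (mul_nonneg hu0 (by linarith)) (by norm_num) hk
      have e5 := ar2 h6 hx2 hu0 huxle
      linarith

end Pool.Hopf3
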