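import Pool.Agent.Lib.MP_4a593f_gt.P3.NFa

namespace Pool.Hopf3

open Finset

private theorem pos_eq {d : ℕ} (i : Idx d) : pos i = (finSumFinEquiv i).val := by
  rcases i with i | i
  · simp [pos]
  · simp [pos]

theorem exists_nfL {d : ℕ} (L : Idx d → Idx d → ℝ) (hL : Skew L) :
    ∃ (O : Idx d → Idx d → ℝ) (μ : ℕ → ℝ), IsFrame O ∧ Antitone μ ∧ (∀ k, 0 ≤ μ k) ∧
      (∀ k, 6 + d ≤ 2 * k + 1 → μ k = 0) ∧ pull2 L O = nfL μ := by
  set e : Idx d ≃ Fin (6 + d) := finSumFinEquiv with he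
  obtain ⟨O', μ, hO, hm, h0, hk, hp⟩ := exists_nf (6 + d) (fun a b => L (e.symm a) (e.symm b))
    (fun a b => hL _ _)
  refine ⟨fun i j => O' (e i) (e j), μ, ?_, hm, h0, hk, ?_⟩
  · intro i j
    have h1 : ∑ a, O' (e i) (e a) * O' (e j) (e a) = ∑ a, O' (e i) a * O' (e j) a :=
      Equiv.sum_comp e (fun a => O' (e i) a * O' (e j) a)
    rw [h1, hO (e i) (e j)]
    simp only [EmbeddingLike.apply_eq_iff_eq]
  · funext i j
    have h2 := hp (e i) (e j)
    unfold nfL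
    rw [pos_eq, pos_eq, ← he, ← h2]
    unfold pull2
    rw [← Equiv.sum_comp e]
    refine Finset.sum_congr rfl (fun a _ => ?_)
    rw [← Equiv.sum_comp e]
    refine Finset.sum_congr rfl (fun b _ => ?_)
    simp only [Equiv.symm_apply_apply]

theorem nfL_skew {d : ℕ} (μ : ℕ → ℝ) : Skew (nfL μ : Idx d → Idx d → ℝ) := by
  intro i j
  unfold nfL nf
  generalize pos i = a
  generalize pos j = b
  by_cases h1 : a = b + 1 ∧ b % 2 = 0
  · have h2 : ¬ (b = a + 1 ∧ a % 2 = 0) := by omega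
    rw [if_pos h1, if_neg h2, if_pos h1, neg_neg]
  · rw [if_neg h1, if_neg h1]
    by_cases h2 : b = a + 1 ∧ a % 2 = 0
    · rw [if_pos h2, if_pos h2]
    · rw [if_neg h2, if_neg h2, neg_zero]

private theorem nf_six (μ : ℕ → ℝ) :
    ∑ i : Fin 6, ∑ j : Fin 6, nf μ i.val j.val * nf μ i.val j.val
      = 2 * (μ 0 ^ 2 + μ 1 ^ 2 + μ 2 ^ 2) := by
  simp only [Fin.sum_univ_succ, Fin.sum_univ_zero, nf]
  simp
  ring

theorem nfL_norm {d : ℕ} {μ : ℕ → ℝ} (h0 : ∀ k, 6 + d ≤ 2 * k + 1 → μ k = 0) :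
    μ 0 ^ 2 + μ 1 ^ 2 + μ 2 ^ 2 + μ 3 ^ 2 ≤ ip2 (nfL μ : Idx d → Idx d → ℝ) (nfL μ) := by
  unfold ip2
  rw [Fintype.sum_sum_type]
  simp only [Fintype.sum_sum_type, Finset.sum_add_distrib]
  have h1 : ∑ i : Fin 6, ∑ j : Fin 6, (nfL μ (Sum.inl i : Idx d) (Sum.inl j))
      * (nfL μ (Sum.inl i : Idx d) (Sum.inl j)) = 2 * (μ 0 ^ 2 + μ 1 ^ 2 + μ 2 ^ 2) := by
    simpa [nfL, pos] using nf_six μ
  have h2 : 0 ≤ ∑ i : Fin 6, ∑ j : Fin d, (nfL μ (Sum.inl i : Idx d) (Sum.inr j))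
      * (nfL μ (Sum.inl i : Idx d) (Sum.inr j)) :=
    Finset.sum_nonneg (fun i _ => Finset.sum_nonneg (fun j _ => mul_self_nonneg _))
  have h3 : 0 ≤ ∑ i : Fin d, ∑ j : Fin 6, (nfL μ (Sum.inr i : Idx d) (Sum.inl j))
      * (nfL μ (Sum.inr i : Idx d) (Sum.inl j)) :=
    Finset.sum_nonneg (fun i _ => Finset.sum_nonneg (fun j _ => mul_self_nonneg _))
  have h4 : 2 * μ 3 ^ 2 ≤ ∑ i : Fin d, ∑ j : Fin d, (nfL μ (Sum.inr i : Idx d) (Sum.inr j))
      * (nfL μ (Sum.inr i : Idx d) (Sum.inr j)) := by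
    rcases Nat.lt_or_ge d 2 with hd | hd
    · rw [h0 3 (by omega)]
      have : 0 ≤ ∑ i : Fin d, ∑ j : Fin d, (nfL μ (Sum.inr i : Idx d) (Sum.inr j))
        * (nfL μ (Sum.inr i : Idx d) (Sum.inr j)) :=
        Finset.sum_nonneg (fun i _ => Finset.sum_nonneg (fun j _ => mul_self_nonneg _))
      simpa using this
    · set a : Fin d := ⟨0, by omega⟩ with ha
      set b : Fin d := ⟨1, by omega⟩ with hb
      have hab : a ≠ b := by
        intro h
        have := congrArg Fin.val h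
        simp [ha, hb] at this
      have e1 : nfL μ (Sum.inr a : Idx d) (Sum.inr b) = μ 3 := by
        simp [nfL, pos, nf, ha, hb]
      have e2 : nfL μ (Sum.inr b : Idx d) (Sum.inr a) = - μ 3 := by
        simp [nfL, pos, nf, ha, hb]
      have hs : ∀ i : Fin d, 0 ≤ ∑ j : Fin d, (nfL μ (Sum.inr i : Idx d) (Sum.inr j))
        * (nfL μ (Sum.inr i : Idx d) (Sum.inr j)) :=
        fun i => Finset.sum_nonneg (fun j _ => mul_self_nonneg _)
      have k1 : μ 3 ^ 2 ≤ ∑ j : Fin d, (nfL μ (Sum.inr a : Idx d) (Sum.inr j))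
        * (nfL μ (Sum.inr a : Idx d) (Sum.inr j)) := by
        have := Finset.single_le_sum (f := fun j : Fin d =>
          (nfL μ (Sum.inr a : Idx d) (Sum.inr j)) * (nfL μ (Sum.inr a : Idx d) (Sum.inr j)))
          (fun j _ => mul_self_nonneg _) (Finset.mem_univ b)
        simp only [e1] at this
        nlinarith [this]
      have k2 : μ 3 ^ 2 ≤ ∑ j : Fin d, (nfL μ (Sum.inr b : Idx d) (Sum.inr j))
        * (nfL μ (Sum.inr b : Idx d) (Sum.inr j)) := by
        have := Finset.single_le_sum (f := fun j : Fin d =>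
          (nfL μ (Sum.inr b : Idx d) (Sum.inr j)) * (nfL μ (Sum.inr b : Idx d) (Sum.inr j)))
          (fun j _ => mul_self_nonneg _) (Finset.mem_univ a)
        simp only [e2] at this
        nlinarith [this]
      have k3 := Finset.sum_le_sum_of_subset_of_nonneg (s := {a, b}) (t := Finset.univ)
        (f := fun i : Fin d => ∑ j : Fin d, (nfL μ (Sum.inr i : Idx d) (Sum.inr j))
        * (nfL μ (Sum.inr i : Idx d) (Sum.inr j))) (Finset.subset_univ _) (fun i _ _ => hs i)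
      rw [Finset.sum_pair hab] at k3
      linarith
  linarith

end Pool.Hopf3
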