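import Pool.Agent.Lib.MP_4a593f_gt.P3.Basic
import Pool.Agent.Lib.MP_4a593f_gt.P3.Frame
import Pool.Agent.Lib.MP_4a593f_gt.P3.NFb

namespace Pool.Hopf3

open Finset

/-- `L` has at most one nonzero entry in each row, given by an involution. -/
private structure GonePar {ι : Type} [DecidableEq ι] (L : ι → ι → ℝ) (P : ι → ι)
    (a : ι → ℝ) : Prop where
  inv : ∀ x, P (P x) = x
  abs : ∀ x, |a (P x)| = |a x|
  fix : ∀ x, P x = x → a x = 0
  val : ∀ i t, L i t = if t = P i then a i else 0

private def goneR {ι : Type} (P : ι → ι) (x y : ι) : Prop := y ≠ x ∧ y ≠ P x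

open Classical in
private noncomputable def goneA {ι : Type} (P : ι → ι) (a : ι → ℝ) (i j k : ι) : ℝ :=
  if goneR P i j ∧ goneR P i k then a i else 0

section gone

set_option linter.unusedSectionVars false

variable {ι : Type} [Fintype ι] [DecidableEq ι] {L : ι → ι → ℝ} {P : ι → ι} {a : ι → ℝ}

private theorem goneR_symm (h : GonePar L P a) {x y : ι} : goneR P x y ↔ goneR P y x := by
  unfold goneR
  have h1 : y = P x ↔ x = P y := by
    constructor
    · intro h2
      rw [h2, h.inv]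
    · intro h2
      rw [h2, h.inv]
  rw [Ne, Ne, Ne, Ne, h1, eq_comm]

private theorem goneR_inv (h : GonePar L P a) {x y : ι} : goneR P (P x) y ↔ goneR P x y := by
  unfold goneR
  rw [h.inv]
  exact and_comm

private theorem gone_rho (h : GonePar L P a) (χ : ι → ι → ι → ℝ) (i j k : ι) :
    rho L χ i j k = a i * χ (P i) j k + a j * χ i (P j) k + a k * χ i j (P k) := by
  unfold rho
  rw [Finset.sum_add_distrib, Finset.sum_add_distrib]
  simp only [h.val, ite_mul, zero_mul, Finset.sum_ite_eq', Finset.mem_univ, if_true]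

private theorem gone_reind (h : GonePar L P a) (F : ι → ℝ) : ∑ i, F (P i) = ∑ i, F i :=
  Equiv.sum_comp (Function.Involutive.toPerm P h.inv) F

private theorem gone_z12 {χ : ι → ι → ι → ℝ} (hχ : Form3 χ) (x y : ι) : χ x x y = 0 := by
  have := hχ.s12 x x y
  linarith

private theorem gone_z23 {χ : ι → ι → ι → ℝ} (hχ : Form3 χ) (x y : ι) : χ y x x = 0 := by
  have := hχ.s23 y x x
  linarith

private theorem gone_z13 {χ : ι → ι → ι → ℝ} (hχ : Form3 χ) (x y : ι) : χ x y x = 0 := by
  have h1 := hχ.s12 x y x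
  have h2 := hχ.s23 y x x
  linarith

private theorem gone_rho' (h : GonePar L P a) {χ : ι → ι → ι → ℝ} (hχ : Form3 χ) (i j k : ι) :
    rho L χ i j k = goneA P a i j k * χ (P i) j k + goneA P a j i k * χ i (P j) k
      + goneA P a k i j * χ i j (P k) := by
  by_cases hij : i = j
  · subst hij
    rw [gone_z12 (rho_form L hχ), gone_z12 hχ]
    have h1 : goneA P a i i k = 0 := by
      unfold goneA goneR
      simp
    rw [h1]
    ring
  by_cases hik : i = k
  · subst hik
    rw [gone_z13 (rho_form L hχ), gone_z13 hχ]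
    have h1 : goneA P a i j i = 0 := by
      unfold goneA goneR
      simp
    have h2 : goneA P a i i j = 0 := by
      unfold goneA goneR
      simp
    rw [h1, h2]
    ring
  by_cases hjk : j = k
  · subst hjk
    rw [gone_z23 (rho_form L hχ), gone_z23 hχ]
    have h1 : goneA P a j i j = 0 := by
      unfold goneA goneR
      simp
    rw [h1]
    ring
  rw [gone_rho h]
  have e1 : goneA P a i j k * χ (P i) j k = a i * χ (P i) j k := by
    unfold goneA
    split_ifs with hc
    · rfl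
    · have h2 : j = P i ∨ k = P i := by
        unfold goneR at hc
        by_contra hcon
        push Not at hcon
        exact hc ⟨⟨Ne.symm hij, hcon.1⟩, ⟨Ne.symm hik, hcon.2⟩⟩
      rcases h2 with h2 | h2
      · rw [← h2, gone_z12 hχ]
        ring
      · rw [← h2, gone_z13 hχ]
        ring
  have e2 : goneA P a j i k * χ i (P j) k = a j * χ i (P j) k := by
    unfold goneA
    split_ifs with hc
    · rfl
    · have h2 : i = P j ∨ k = P j := by
        unfold goneR at hc
        by_contra hcon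
        push Not at hcon
        exact hc ⟨⟨hij, hcon.1⟩, ⟨Ne.symm hjk, hcon.2⟩⟩
      rcases h2 with h2 | h2
      · rw [← h2, gone_z12 hχ]
        ring
      · rw [← h2, gone_z23 hχ]
        ring
  have e3 : goneA P a k i j * χ i j (P k) = a k * χ i j (P k) := by
    unfold goneA
    split_ifs with hc
    · rfl
    · have h2 : i = P k ∨ j = P k := by
        unfold goneR at hc
        by_contra hcon
        push Not at hcon
        exact hc ⟨⟨hik, hcon.1⟩, ⟨hjk, hcon.2⟩⟩
      rcases h2 with h2 | h2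
      · rw [← h2, gone_z13 hχ]
        ring
      · rw [← h2, gone_z23 hχ]
        ring
  rw [e1, e2, e3]

private theorem goneA_inv (h : GonePar L P a) (i j k : ι) :
    |goneA P a (P i) j k| = |goneA P a i j k| := by
  unfold goneA
  by_cases hc : goneR P i j ∧ goneR P i k
  · have hc' : goneR P (P i) j ∧ goneR P (P i) k := ⟨(goneR_inv h).2 hc.1, (goneR_inv h).2 hc.2⟩
    rw [if_pos hc, if_pos hc']
    exact h.abs i
  · have hc' : ¬ (goneR P (P i) j ∧ goneR P (P i) k) :=
      fun h1 => hc ⟨(goneR_inv h).1 h1.1, (goneR_inv h).1 h1.2⟩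
    rw [if_neg hc, if_neg hc']

/-- a nonnegative function of the three values is bounded -/
private theorem gone_three (h : GonePar L P a) (φ : ℝ → ℝ) (hφ0 : φ 0 = 0) {T : ℝ} (hT0 : 0 ≤ T)
    (h1 : ∀ i, φ (a i) ≤ T)
    (h3 : ∀ i j k, goneR P i j → goneR P i k → goneR P j k → φ (a i) + φ (a j) + φ (a k) ≤ T)
    (i j k : ι) :
    φ (goneA P a i j k) + φ (goneA P a j i k) + φ (goneA P a k i j) ≤ T := by
  unfold goneA
  rw [goneR_symm h (x := j) (y := i), goneR_symm h (x := k) (y := i),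
    goneR_symm h (x := k) (y := j)]
  by_cases c1 : goneR P i j <;> by_cases c2 : goneR P i k <;> by_cases c3 : goneR P j k <;>
    simp only [c1, c2, c3, and_true, and_false, true_and, false_and, if_true, if_false, hφ0,
      add_zero, zero_add, hT0, h1]
  exact h3 i j k c1 c2 c3

private theorem gone_sup (h : GonePar L P a) {T : ℝ} (hT0 : 0 ≤ T) (h1 : ∀ i, |a i| ≤ T)
    (h3 : ∀ i j k, goneR P i j → goneR P i k → goneR P j k → |a i| + |a j| + |a k| ≤ T)
    {χ : ι → ι → ι → ℝ} (hχ : Form3 χ) : ip3 (rho L χ) (rho L χ) ≤ T ^ 2 * ip3 χ χ := by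
  have hthree := gone_three h (fun x => |x|) abs_zero hT0 h1 h3
  have hpt : ∀ i j k, rho L χ i j k * rho L χ i j k ≤ T * (|goneA P a i j k| * χ (P i) j k ^ 2
      + |goneA P a j i k| * χ i (P j) k ^ 2 + |goneA P a k i j| * χ i j (P k) ^ 2) := by
    intro i j k
    rw [gone_rho' h hχ]
    have ht := hthree i j k
    generalize goneA P a i j k = u at *
    generalize goneA P a j i k = v at *
    generalize goneA P a k i j = w at *
    generalize χ (P i) j k = x at *
    generalize χ i (P j) k = y at *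
    generalize χ i j (P k) = z at *
    have hu : u * x ≤ |u| * |x| := by
      rw [← abs_mul]
      exact le_abs_self _
    have key : (u * x + v * y + w * z) ^ 2 ≤
        (|u| + |v| + |w|) * (|u| * x ^ 2 + |v| * y ^ 2 + |w| * z ^ 2) := by
      have e1 : |u * x + v * y + w * z| ≤ |u| * |x| + |v| * |y| + |w| * |z| := by
        refine (abs_add_le _ _).trans ?_
        rw [abs_mul w z]
        refine add_le_add ((abs_add_le _ _).trans ?_) le_rfl
        rw [abs_mul, abs_mul]
      have e2 : (u * x + v * y + w * z) ^ 2 ≤ (|u| * |x| + |v| * |y| + |w| * |z|) ^ 2 := by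
        rw [← sq_abs]
        exact pow_le_pow_left₀ (abs_nonneg _) e1 2
      refine e2.trans ?_
      rw [← sq_abs x, ← sq_abs y, ← sq_abs z]
      have hu0 := abs_nonneg u
      have hv0 := abs_nonneg v
      have hw0 := abs_nonneg w
      nlinarith [mul_nonneg (mul_nonneg hu0 hv0) (sq_nonneg (|x| - |y|)),
        mul_nonneg (mul_nonneg hu0 hw0) (sq_nonneg (|x| - |z|)),
        mul_nonneg (mul_nonneg hv0 hw0) (sq_nonneg (|y| - |z|))]
    calc (u * x + v * y + w * z) * (u * x + v * y + w * z) = (u * x + v * y + w * z) ^ 2 := by ring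
      _ ≤ _ := key
      _ ≤ _ := mul_le_mul_of_nonneg_right ht (by positivity)
  have hsum1 : ∑ i, ∑ j, ∑ k, |goneA P a i j k| * χ (P i) j k ^ 2 =
      ∑ i, ∑ j, ∑ k, |goneA P a i j k| * χ i j k ^ 2 := by
    rw [← gone_reind h (fun i => ∑ j, ∑ k, |goneA P a i j k| * χ i j k ^ 2)]
    simp only [goneA_inv h]
  have hsum2 : ∑ i, ∑ j, ∑ k, |goneA P a j i k| * χ i (P j) k ^ 2 =
      ∑ i, ∑ j, ∑ k, |goneA P a j i k| * χ i j k ^ 2 := by
    refine Finset.sum_congr rfl fun i _ => ?_
    rw [← gone_reind h (fun j => ∑ k, |goneA P a j i k| * χ i j k ^ 2)]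
    simp only [goneA_inv h]
  have hsum3 : ∑ i, ∑ j, ∑ k, |goneA P a k i j| * χ i j (P k) ^ 2 =
      ∑ i, ∑ j, ∑ k, |goneA P a k i j| * χ i j k ^ 2 := by
    refine Finset.sum_congr rfl fun i _ => Finset.sum_congr rfl fun j _ => ?_
    rw [← gone_reind h (fun k => |goneA P a k i j| * χ i j k ^ 2)]
    simp only [goneA_inv h]
  have htot : ∑ i, ∑ j, ∑ k, rho L χ i j k * rho L χ i j k ≤
      T ^ 2 * ∑ i, ∑ j, ∑ k, χ i j k * χ i j k := by
    calc ∑ i, ∑ j, ∑ k, rho L χ i j k * rho L χ i j k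
        ≤ ∑ i, ∑ j, ∑ k, T * (|goneA P a i j k| * χ (P i) j k ^ 2
          + |goneA P a j i k| * χ i (P j) k ^ 2 + |goneA P a k i j| * χ i j (P k) ^ 2) :=
          Finset.sum_le_sum fun i _ => Finset.sum_le_sum fun j _ => Finset.sum_le_sum fun k _ =>
            hpt i j k
      _ = T * (∑ i, ∑ j, ∑ k, |goneA P a i j k| * χ (P i) j k ^ 2
          + ∑ i, ∑ j, ∑ k, |goneA P a j i k| * χ i (P j) k ^ 2
          + ∑ i, ∑ j, ∑ k, |goneA P a k i j| * χ i j (P k) ^ 2) := by
          simp only [Finset.mul_sum, Finset.sum_add_distrib, mul_add]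
      _ = T * ∑ i, ∑ j, ∑ k, (|goneA P a i j k| + |goneA P a j i k| + |goneA P a k i j|)
          * χ i j k ^ 2 := by
          rw [hsum1, hsum2, hsum3]
          simp only [Finset.sum_add_distrib, add_mul]
      _ ≤ T * ∑ i, ∑ j, ∑ k, T * χ i j k ^ 2 := by
          refine mul_le_mul_of_nonneg_left ?_ hT0
          exact Finset.sum_le_sum fun i _ => Finset.sum_le_sum fun j _ => Finset.sum_le_sum
            fun k _ => mul_le_mul_of_nonneg_right (hthree i j k) (sq_nonneg _)
      _ = T ^ 2 * ∑ i, ∑ j, ∑ k, χ i j k * χ i j k := by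
          simp only [← Finset.mul_sum, sq]
          ring
  unfold ip3
  linarith

private theorem gone_norm (h : GonePar L P a) {T : ℝ} (hT0 : 0 ≤ T) (h1 : ∀ i, a i ^ 2 ≤ T)
    (h3 : ∀ i j k, goneR P i j → goneR P i k → goneR P j k → a i ^ 2 + a j ^ 2 + a k ^ 2 ≤ T)
    {χ : ι → ι → ι → ℝ} (hχ : Form3 χ) : ip3 (rho L χ) (rho L χ) ≤ 3 * T * ip3 χ χ := by
  have hthree := gone_three h (fun x => x ^ 2) (by norm_num) hT0 h1 h3
  have hpt : ∀ i j k, rho L χ i j k * rho L χ i j k ≤ T * (χ (P i) j k ^ 2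
      + χ i (P j) k ^ 2 + χ i j (P k) ^ 2) := by
    intro i j k
    rw [gone_rho' h hχ]
    have ht := hthree i j k
    generalize goneA P a i j k = u at *
    generalize goneA P a j i k = v at *
    generalize goneA P a k i j = w at *
    generalize χ (P i) j k = x at *
    generalize χ i (P j) k = y at *
    generalize χ i j (P k) = z at *
    have key : (u * x + v * y + w * z) * (u * x + v * y + w * z) ≤
        (u ^ 2 + v ^ 2 + w ^ 2) * (x ^ 2 + y ^ 2 + z ^ 2) := by
      nlinarith [sq_nonneg (u * y - v * x), sq_nonneg (u * z - w * x), sq_nonneg (v * z - w * y)]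
    exact key.trans (mul_le_mul_of_nonneg_right ht (by positivity))
  have hsum1 : ∑ i, ∑ j, ∑ k, χ (P i) j k ^ 2 = ∑ i, ∑ j, ∑ k, χ i j k ^ 2 :=
    gone_reind h (fun i => ∑ j, ∑ k, χ i j k ^ 2)
  have hsum2 : ∑ i, ∑ j, ∑ k, χ i (P j) k ^ 2 = ∑ i, ∑ j, ∑ k, χ i j k ^ 2 :=
    Finset.sum_congr rfl fun i _ => gone_reind h (fun j => ∑ k, χ i j k ^ 2)
  have hsum3 : ∑ i, ∑ j, ∑ k, χ i j (P k) ^ 2 = ∑ i, ∑ j, ∑ k, χ i j k ^ 2 :=
    Finset.sum_congr rfl fun i _ => Finset.sum_congr rfl fun j _ =>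
      gone_reind h (fun k => χ i j k ^ 2)
  have htot : ∑ i, ∑ j, ∑ k, rho L χ i j k * rho L χ i j k ≤
      3 * T * ∑ i, ∑ j, ∑ k, χ i j k * χ i j k := by
    calc ∑ i, ∑ j, ∑ k, rho L χ i j k * rho L χ i j k
        ≤ ∑ i, ∑ j, ∑ k, T * (χ (P i) j k ^ 2 + χ i (P j) k ^ 2 + χ i j (P k) ^ 2) :=
          Finset.sum_le_sum fun i _ => Finset.sum_le_sum fun j _ => Finset.sum_le_sum fun k _ =>
            hpt i j k
      _ = T * (∑ i, ∑ j, ∑ k, χ (P i) j k ^ 2 + ∑ i, ∑ j, ∑ k, χ i (P j) k ^ 2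
          + ∑ i, ∑ j, ∑ k, χ i j (P k) ^ 2) := by
          simp only [Finset.mul_sum, Finset.sum_add_distrib, mul_add]
      _ = 3 * T * ∑ i, ∑ j, ∑ k, χ i j k * χ i j k := by
          rw [hsum1, hsum2, hsum3]
          simp only [sq]
          ring
  unfold ip3
  linarith

/-- three elements in different planes -/
private theorem gone_planes (h : GonePar L P a) {i j k : ι} (hij : goneR P i j)
    (hik : goneR P i k) (hjk : goneR P j k) :
    2 * (a i ^ 2 + a j ^ 2 + a k ^ 2) ≤ ∑ x, a x ^ 2 := by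
  set A : Finset ι := {i, j, k} with hA
  have hPinj : Function.Injective P := fun x y hxy => by
    rw [← h.inv x, hxy, h.inv]
  have h1 : ∑ x ∈ A, a x ^ 2 = a i ^ 2 + a j ^ 2 + a k ^ 2 := by
    rw [hA, Finset.sum_insert, Finset.sum_insert, Finset.sum_singleton, add_assoc]
    · rw [Finset.mem_singleton]
      exact hjk.1.symm
    · rw [Finset.mem_insert, Finset.mem_singleton]
      push Not
      exact ⟨hij.1.symm, hik.1.symm⟩
  have h2 : ∑ x ∈ A.image P, a x ^ 2 = ∑ x ∈ A, a x ^ 2 := by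
    rw [Finset.sum_image fun x _ y _ hxy => hPinj hxy]
    refine Finset.sum_congr rfl fun x _ => ?_
    rw [← sq_abs, h.abs, sq_abs]
  have h3 : ∑ x ∈ A ∩ A.image P, a x ^ 2 = 0 := by
    refine Finset.sum_eq_zero fun x hx => ?_
    rw [Finset.mem_inter, Finset.mem_image] at hx
    obtain ⟨hx, y, hy, hyx⟩ := hx
    have hxy : x = y := by
      by_contra hne
      have hR : ∀ u ∈ A, ∀ v ∈ A, u ≠ v → v ≠ P u := by
        intro u hu v hv huv
        rw [hA, Finset.mem_insert, Finset.mem_insert, Finset.mem_singleton] at hu hv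
        rcases hu with rfl | rfl | rfl <;> rcases hv with rfl | rfl | rfl
        · exact absurd rfl huv
        · exact hij.2
        · exact hik.2
        · exact ((goneR_symm h).1 hij).2
        · exact absurd rfl huv
        · exact hjk.2
        · exact ((goneR_symm h).1 hik).2
        · exact ((goneR_symm h).1 hjk).2
        · exact absurd rfl huv
      exact hR y hy x hx (Ne.symm hne) hyx.symm
    subst hxy
    rw [h.fix x hyx]
    norm_num
  have h4 := Finset.sum_union_inter (s₁ := A) (s₂ := A.image P) (f := fun x => a x ^ 2)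
  rw [h3, h2, h1, add_zero] at h4
  have h5 : ∑ x ∈ A ∪ A.image P, a x ^ 2 ≤ ∑ x, a x ^ 2 :=
    Finset.sum_le_sum_of_subset_of_nonneg (Finset.subset_univ _) fun _ _ _ => sq_nonneg _
  linarith

private theorem gone_one (h : GonePar L P a) (i : ι) : 2 * a i ^ 2 ≤ ∑ x, a x ^ 2 := by
  by_cases hf : P i = i
  · rw [h.fix i hf]
    have : 0 ≤ ∑ x, a x ^ 2 := Finset.sum_nonneg fun _ _ => sq_nonneg _
    linarith
  · have h1 : ∑ x ∈ ({i, P i} : Finset ι), a x ^ 2 ≤ ∑ x, a x ^ 2 :=
      Finset.sum_le_sum_of_subset_of_nonneg (Finset.subset_univ _) fun _ _ _ => sq_nonneg _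
    rw [Finset.sum_pair (Ne.symm hf)] at h1
    have h2 : a (P i) ^ 2 = a i ^ 2 := by
      rw [← sq_abs, h.abs, sq_abs]
    linarith

private theorem gone_ip2 (h : GonePar L P a) : ip2 L L = 1 / 2 * ∑ x, a x ^ 2 := by
  unfold ip2
  congr 1
  refine Finset.sum_congr rfl fun i _ => ?_
  simp only [h.val, mul_ite, mul_zero, ite_mul, zero_mul]
  rw [Finset.sum_eq_single (P i)]
  · simp [sq]
  · intro b _ hb
    simp [hb]
  · intro hb
    exact absurd (Finset.mem_univ _) hb

end gone

/-! ### the index set `Idx d` -/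

private def gonePP (m : ℕ) : ℕ := if m % 2 = 0 then m + 1 else m - 1

private def goneS (μ : ℕ → ℝ) (m : ℕ) : ℝ := if m % 2 = 0 then μ (m / 2) else - μ (m / 2)

private theorem gonePP_inv (m : ℕ) : gonePP (gonePP m) = m := by
  unfold gonePP
  split_ifs <;> omega

private theorem gonePP_ne (m : ℕ) : gonePP m ≠ m := by
  unfold gonePP
  split_ifs <;> omega

private theorem gonePP_div (m : ℕ) : gonePP m / 2 = m / 2 := by
  unfold gonePP
  split_ifs <;> omega

private theorem gonePP_of_div {m n : ℕ} (h : m / 2 = n / 2) : n = m ∨ n = gonePP m := by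
  unfold gonePP
  split_ifs <;> omega

private theorem goneS_abs {μ : ℕ → ℝ} (h0 : ∀ k, 0 ≤ μ k) (m : ℕ) : |goneS μ m| = μ (m / 2) := by
  unfold goneS
  split_ifs
  · exact abs_of_nonneg (h0 _)
  · rw [abs_neg]
    exact abs_of_nonneg (h0 _)

private theorem gone_nf (μ : ℕ → ℝ) (m n : ℕ) :
    nf μ m n = if n = gonePP m then goneS μ m else 0 := by
  unfold nf gonePP goneS
  by_cases hm : m % 2 = 0
  · simp only [hm, and_true, if_true]
    by_cases hn : n = m + 1
    · simp [hn]
    · rw [if_neg hn, if_neg hn, if_neg]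
      omega
  · simp only [hm, and_false, if_false]
    by_cases hn : n = m - 1
    · rw [if_pos hn, if_pos (by omega)]
      have : n / 2 = m / 2 := by omega
      rw [this]
    · rw [if_neg hn, if_neg]
      omega

private theorem gone_pos_inj {d : ℕ} {x y : Idx d} (h : pos x = pos y) : x = y := by
  rcases x with x | x <;> rcases y with y | y <;> simp only [pos] at h
  · rw [Fin.ext h]
  · omega
  · omega
  · have : x.val = y.val := by omega
    rw [Fin.ext this]

open Classical in
private noncomputable def goneP {d : ℕ} (x : Idx d) : Idx d :=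
  if h : ∃ t : Idx d, pos t = gonePP (pos x) then h.choose else x

open Classical in
private noncomputable def goneV {d : ℕ} (μ : ℕ → ℝ) (x : Idx d) : ℝ :=
  if ∃ t : Idx d, pos t = gonePP (pos x) then goneS μ (pos x) else 0

private theorem goneP_pos {d : ℕ} {x : Idx d} (h : ∃ t : Idx d, pos t = gonePP (pos x)) :
    pos (goneP x) = gonePP (pos x) := by
  unfold goneP
  rw [dif_pos h]
  exact h.choose_spec

private theorem goneP_neg {d : ℕ} {x : Idx d} (h : ¬ ∃ t : Idx d, pos t = gonePP (pos x)) :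
    goneP x = x := by
  unfold goneP
  rw [dif_neg h]

private theorem gone_par {d : ℕ} {μ : ℕ → ℝ} (h0 : ∀ k, 0 ≤ μ k) :
    GonePar (nfL μ : Idx d → Idx d → ℝ) goneP (goneV μ) := by
  have hex : ∀ {x : Idx d}, (∃ t : Idx d, pos t = gonePP (pos x)) →
      ∃ t : Idx d, pos t = gonePP (pos (goneP x)) := by
    intro x h
    refine ⟨x, ?_⟩
    rw [goneP_pos h, gonePP_inv]
  refine ⟨fun x => ?_, fun x => ?_, fun x hx => ?_, fun i t => ?_⟩
  · by_cases h : ∃ t : Idx d, pos t = gonePP (pos x)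
    · apply gone_pos_inj
      rw [goneP_pos (hex h), goneP_pos h, gonePP_inv]
    · rw [goneP_neg h, goneP_neg h]
  · by_cases h : ∃ t : Idx d, pos t = gonePP (pos x)
    · unfold goneV
      rw [if_pos h, if_pos (hex h), goneS_abs h0, goneS_abs h0, goneP_pos h, gonePP_div]
    · rw [goneP_neg h]
  · by_cases h : ∃ t : Idx d, pos t = gonePP (pos x)
    · have h1 := goneP_pos h
      rw [hx] at h1
      exact absurd h1.symm (gonePP_ne _)
    · unfold goneV
      rw [if_neg h]
  · unfold nfL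
    rw [gone_nf]
    by_cases h : ∃ t : Idx d, pos t = gonePP (pos i)
    · have h1 : pos t = gonePP (pos i) ↔ t = goneP i := by
        rw [← goneP_pos h]
        exact ⟨fun h2 => gone_pos_inj h2, fun h2 => by rw [h2]⟩
      simp only [h1]
      unfold goneV
      rw [if_pos h]
    · rw [if_neg fun h1 => h ⟨t, h1⟩]
      have h2 : goneV μ i = 0 := by
        unfold goneV
        rw [if_neg h]
      rw [h2]
      split_ifs <;> rfl

private theorem gone_V_le {d : ℕ} {μ : ℕ → ℝ} (h0 : ∀ k, 0 ≤ μ k) (x : Idx d) :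
    |goneV μ x| ≤ μ (pos x / 2) := by
  unfold goneV
  split_ifs
  · rw [goneS_abs h0]
  · rw [abs_zero]
    exact h0 _

private theorem gone_R_div {d : ℕ} {x y : Idx d} (h : goneR goneP x y) :
    pos x / 2 ≠ pos y / 2 := by
  intro he
  rcases gonePP_of_div he with h1 | h1
  · exact h.1 (gone_pos_inj h1)
  · have h2 : ∃ t : Idx d, pos t = gonePP (pos x) := ⟨y, h1⟩
    refine h.2 (gone_pos_inj ?_)
    rw [goneP_pos h2, h1]

private theorem gone_anti {μ : ℕ → ℝ} (hμ : Antitone μ) {x y z : ℕ} (hxy : x ≠ y) (hxz : x ≠ z)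
    (hyz : y ≠ z) : μ x + μ y + μ z ≤ μ 0 + μ 1 + μ 2 := by
  have key : ∀ {p q r : ℕ}, p < q → q < r → μ p + μ q + μ r ≤ μ 0 + μ 1 + μ 2 := by
    intro p q r hpq hqr
    have h1 := hμ (Nat.zero_le p)
    have h2 := hμ (show 1 ≤ q by omega)
    have h3 := hμ (show 2 ≤ r by omega)
    linarith
  rcases lt_or_gt_of_ne hxy with h1 | h1 <;> rcases lt_or_gt_of_ne hxz with h2 | h2 <;>
    rcases lt_or_gt_of_ne hyz with h3 | h3
  · exact key h1 h3
  · have := key h2 h3
    linarith
  · omega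
  · have := key h2 h1
    linarith
  · have := key h1 h2
    linarith
  · omega
  · have := key h3 h2
    linarith
  · have := key h3 h1
    linarith

/-- Sup bound in normal form. -/
theorem rho_nf_le {d : ℕ} {μ : ℕ → ℝ} (hμ : Antitone μ) (h0 : ∀ k, 0 ≤ μ k)
    {χ : Idx d → Idx d → Idx d → ℝ} (hχ : Form3 χ) :
    ip3 (rho (nfL μ) χ) (rho (nfL μ) χ) ≤ (μ 0 + μ 1 + μ 2) ^ 2 * ip3 χ χ := by
  refine gone_sup (gone_par h0) (by have := h0 0; have := h0 1; have := h0 2; linarith) ?_ ?_ hχ
  · intro i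
    refine (gone_V_le h0 i).trans ?_
    have h1 := hμ (Nat.zero_le (pos i / 2))
    have := h0 1
    have := h0 2
    linarith
  · intro i j k hij hik hjk
    have h1 := gone_V_le h0 i
    have h2 := gone_V_le h0 j
    have h3 := gone_V_le h0 k
    have h4 := gone_anti hμ (gone_R_div hij) (gone_R_div hik) (gone_R_div hjk)
    linarith

/-- `|rho_L χ|² ≤ 3 |L|² |χ|²` in normal form. -/
theorem rho_nf_norm_le {d : ℕ} {μ : ℕ → ℝ} (h0 : ∀ k, 0 ≤ μ k)
    {χ : Idx d → Idx d → Idx d → ℝ} (hχ : Form3 χ) :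
    ip3 (rho (nfL μ) χ) (rho (nfL μ) χ)
      ≤ 3 * ip2 (nfL μ : Idx d → Idx d → ℝ) (nfL μ) * ip3 χ χ := by
  have hp := gone_par (d := d) h0
  refine gone_norm hp (ip2_self_nonneg _) ?_ ?_ hχ
  · intro i
    rw [gone_ip2 hp]
    have := gone_one hp i
    linarith
  · intro i j k hij hik hjk
    rw [gone_ip2 hp]
    have := gone_planes hp hij hik hjk
    linarith

/-- `|rho_L χ|² ≤ 3 |L|² |χ|²`. -/
theorem rho_norm_le {d : ℕ} {L : Idx d → Idx d → ℝ} (hL : Skew L)
    {χ : Idx d → Idx d → Idx d → ℝ} (hχ : Form3 χ) :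
    ip3 (rho L χ) (rho L χ) ≤ 3 * ip2 L L * ip3 χ χ := by
  obtain ⟨O, μ, hO, -, h0, -, h⟩ := exists_nfL L hL
  have e1 := rho_nf_norm_le h0 (pull3_form hχ O)
  rw [← h, rho_pull hO, ip3_pull hO, ip3_pull hO, ip2_pull hO] at e1
  exact e1

end Pool.Hopf3
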