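import Pool.Agent.Lib.MP_4a593f_gt.P3.StdB

namespace Pool.Hopf3

open Finset

variable {d : ℕ}

private theorem br_skew {ι : Type} [Fintype ι] {L M : ι → ι → ℝ} (hL : Skew L) (hM : Skew M) :
    Skew (br L M) := by
  intro i j
  unfold br
  rw [← sum_neg_distrib]
  refine sum_congr rfl fun t _ => ?_
  rw [hL i t, hL t j, hM i t, hM t j]
  ring

theorem ip3_rho_Om_rho_JJ {η : Idx d → Idx d → Idx d → ℝ} (hη : Form3 η) (hN : NCond η)
    {L : Idx d → Idx d → ℝ} (hL : Skew L) : ip3 (rho L Om) (rho JJ η) = 0 := by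
  have h1 := ip3_rho JJ_skew (rho L Om) η
  have h2 := rho_bracket JJ L (Om : Idx d → Idx d → Idx d → ℝ)
  rw [rho_JJ_Om, rho_smul, sub_eq_iff_eq_add] at h2
  rw [h2, ip3_add_left, ip3_smul_left, ip3_comm (rho (br JJ L) Om) η, ip3_comm (rho L Oi) η,
    ip3_ncond_Om hη hN (br_skew JJ_skew hL), ip3_ncond_Oi hη hN hL] at h1
  linarith

theorem ip3_rho_ncond_Oi {η : Idx d → Idx d → Idx d → ℝ} (hη : Form3 η) (hN : NCond η)
    {L : Idx d → Idx d → ℝ} (hL : Skew L) : ip3 (rho L η) Oi = 0 := by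
  rw [ip3_rho hL, ip3_ncond_Oi hη hN hL, neg_zero]

theorem ip3_rho_ncond_Om {η : Idx d → Idx d → Idx d → ℝ} (hη : Form3 η) (hN : NCond η)
    {L : Idx d → Idx d → ℝ} (hL : Skew L) : ip3 (rho L η) Om = 0 := by
  rw [ip3_rho hL, ip3_ncond_Om hη hN hL, neg_zero]

end Pool.Hopf3
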