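import Pool.Agent.Lib.MP_4a593f_gt.P3.JSq
import Pool.Agent.Lib.MP_4a593f_gt.P3.Gone
import Pool.Agent.Lib.MP_4a593f_gt.P3.StdC

namespace Pool.Hopf3

open Finset

variable {d : ℕ}

/-! Auxiliary facts on the complex structure as a signed permutation of the indices. -/

private noncomputable def sg6 (i : Fin 6) : ℝ := ![1, -1, 1, -1, 1, -1] i

private def pt6 (i : Fin 6) : Fin 6 := ![1, 0, 3, 2, 5, 4] i

private theorem sum_J6 (i : Fin 6) (x : Fin 6 → ℝ) :
    ∑ t, J6 i t * x t = sg6 i * x (pt6 i) := by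
  fin_cases i <;> simp [J6, w2, kd, sg6, pt6]

private theorem J6_skew (i j : Fin 6) : J6 j i = - J6 i j := by
  unfold J6 w2; ring

private theorem sum_J6' (i : Fin 6) (x : Fin 6 → ℝ) :
    ∑ t, x t * J6 t i = - (sg6 i * x (pt6 i)) := by
  rw [← sum_J6, ← sum_neg_distrib]
  refine sum_congr rfl fun t _ => ?_
  rw [J6_skew i t]; ring

private theorem pt_pt (i : Fin 6) : pt6 (pt6 i) = i := by
  fin_cases i <;> rfl

private theorem sg_pt (i : Fin 6) : sg6 (pt6 i) = - sg6 i := by
  fin_cases i <;> simp [sg6, pt6]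

private theorem sg_sq (i : Fin 6) : sg6 i * sg6 i = 1 := by
  fin_cases i <;> simp [sg6]

/-- the `(2,0)`-part of `L` -/
private noncomputable def B6 (L : Idx d → Idx d → ℝ) (i j : Fin 6) : ℝ :=
  1 / 2 * (L (.inl i) (.inl j) - sg6 i * sg6 j * L (.inl (pt6 i)) (.inl (pt6 j)))

private noncomputable def BB (L : Idx d → Idx d → ℝ) : Idx d → Idx d → ℝ
  | Sum.inl i, Sum.inl j => B6 L i j
  | _, _ => 0

private noncomputable def JB (L : Idx d → Idx d → ℝ) : Idx d → Idx d → ℝ
  | Sum.inl i, Sum.inl j => sg6 i * B6 L (pt6 i) j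
  | _, _ => 0

private noncomputable def YY (L : Idx d → Idx d → ℝ) : Idx d → Idx d → ℝ
  | Sum.inl i, Sum.inr j => L (.inl i) (.inr j)
  | Sum.inr i, Sum.inl j => L (.inr i) (.inl j)
  | _, _ => 0

private noncomputable def XX (L : Idx d → Idx d → ℝ) : Idx d → Idx d → ℝ
  | Sum.inl i, Sum.inl j => L (.inl i) (.inl j) - B6 L i j
  | Sum.inr i, Sum.inr j => L (.inr i) (.inr j)
  | _, _ => 0

private theorem L_split (L : Idx d → Idx d → ℝ) : L = XX L + BB L + YY L := by
  funext i j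
  rcases i with i | i <;> rcases j with j | j <;> simp [XX, BB, YY]

private theorem B6_anti (L : Idx d → Idx d → ℝ) (i j : Fin 6) :
    sg6 i * sg6 j * B6 L (pt6 i) (pt6 j) = - B6 L i j := by
  unfold B6
  simp only [pt_pt, sg_pt]
  have a1 := sg_sq i
  have a2 := sg_sq j
  linear_combination (-1 / 2 * L (.inl i) (.inl j) * (sg6 i * sg6 i)) * a2
    - 1 / 2 * L (.inl i) (.inl j) * a1

private theorem B6_skew {L : Idx d → Idx d → ℝ} (hL : Skew L) (i j : Fin 6) :
    B6 L j i = - B6 L i j := by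
  unfold B6
  rw [hL (.inl i) (.inl j), hL (.inl (pt6 i)) (.inl (pt6 j))]
  ring

private theorem BB_skew {L : Idx d → Idx d → ℝ} (hL : Skew L) : Skew (BB L) := by
  rintro (i | i) (j | j) <;> simp only [BB, neg_zero]
  exact B6_skew hL i j

private theorem YY_skew {L : Idx d → Idx d → ℝ} (hL : Skew L) : Skew (YY L) := by
  rintro (i | i) (j | j) <;> simp only [YY, neg_zero]
  · exact hL _ _
  · exact hL _ _

private theorem XX_skew {L : Idx d → Idx d → ℝ} (hL : Skew L) : Skew (XX L) := by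
  rintro (i | i) (j | j) <;> simp only [XX, neg_zero]
  · rw [B6_skew hL i j, hL (.inl i) (.inl j)]; ring
  · exact hL _ _

private theorem JB_skew {L : Idx d → Idx d → ℝ} (hL : Skew L) : Skew (JB L) := by
  rintro (i | i) (j | j) <;> simp only [JB, neg_zero]
  have h := B6_anti L i (pt6 j)
  rw [pt_pt, sg_pt] at h
  have h2 := B6_skew hL i (pt6 j)
  rw [h2]
  have a := sg_sq j
  linear_combination (-sg6 j) * h - (sg6 i * B6 L (pt6 i) j) * a

private theorem br_JB (L : Idx d → Idx d → ℝ) : br JJ (JB L) = (-2 : ℝ) • BB L := by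
  funext i j
  rcases i with i | i <;> rcases j with j | j <;>
    simp only [br, Fintype.sum_sum_type, JJ, JB, BB, zero_mul, mul_zero, sub_zero,
      sum_const_zero, add_zero, Pi.smul_apply, smul_eq_mul, sum_sub_distrib]
  rw [sum_J6 i (fun t => sg6 t * B6 L (pt6 t) j),
    sum_J6' j (fun t => sg6 i * B6 L (pt6 i) t)]
  simp only [pt_pt, sg_pt]
  have h := B6_anti L i j
  have a := sg_sq i
  linear_combination h - B6 L i j * a

private theorem ip2_add_left {ι : Type} [Fintype ι] (L M N : ι → ι → ℝ) :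
    ip2 (L + M) N = ip2 L N + ip2 M N := by
  unfold ip2
  simp only [Pi.add_apply, add_mul, sum_add_distrib, mul_add]

private theorem ip2_add_right {ι : Type} [Fintype ι] (L M N : ι → ι → ℝ) :
    ip2 N (L + M) = ip2 N L + ip2 N M := by
  unfold ip2
  simp only [Pi.add_apply, mul_add, sum_add_distrib]

private theorem ip2_comm' {ι : Type} [Fintype ι] (L M : ι → ι → ℝ) : ip2 L M = ip2 M L := by
  unfold ip2
  simp only [mul_comm]

private theorem ip2_YY {L : Idx d → Idx d → ℝ} (hL : Skew L) : ip2 (YY L) (YY L) = 2 * bL L := by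
  unfold ip2 bL
  simp only [Fintype.sum_sum_type, YY, mul_zero, sum_const_zero, zero_add, add_zero]
  have : ∑ x : Fin d, ∑ y : Fin 6, L (Sum.inr x) (Sum.inl y) * L (Sum.inr x) (Sum.inl y)
      = ∑ i : Fin 6, ∑ f : Fin d, L (Sum.inl i) (Sum.inr f) * L (Sum.inl i) (Sum.inr f) := by
    rw [sum_comm]
    refine sum_congr rfl fun i _ => sum_congr rfl fun f _ => ?_
    rw [hL (.inl i) (.inr f)]; ring
  rw [this]
  simp only [pow_two]
  ring

private theorem ip2_BB {L : Idx d → Idx d → ℝ} (hL : Skew L) : ip2 (BB L) (BB L) = aL L := by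
  unfold ip2 aL
  simp only [Fintype.sum_sum_type, BB, mul_zero, sum_const_zero, add_zero]
  have z : ∀ i : Idx d, L i i = 0 := fun i => by have := hL i i; linarith
  simp only [Fin.sum_univ_six, B6]
  simp [sg6, pt6, xi, z]
  rw [hL (.inl 0) (.inl 1), hL (.inl 0) (.inl 2), hL (.inl 0) (.inl 3), hL (.inl 0) (.inl 4),
    hL (.inl 0) (.inl 5), hL (.inl 1) (.inl 2), hL (.inl 1) (.inl 3), hL (.inl 1) (.inl 4),
    hL (.inl 1) (.inl 5), hL (.inl 2) (.inl 3), hL (.inl 2) (.inl 4), hL (.inl 2) (.inl 5),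
    hL (.inl 3) (.inl 4), hL (.inl 3) (.inl 5), hL (.inl 4) (.inl 5)]
  ring

private theorem ip2_XX_BB (L : Idx d → Idx d → ℝ) : ip2 (XX L) (BB L) = 0 := by
  unfold ip2
  simp only [Fintype.sum_sum_type, BB, XX, mul_zero, sum_const_zero, add_zero]
  simp only [Fin.sum_univ_six, B6]
  simp [sg6, pt6]
  ring

private theorem ip2_XX_YY (L : Idx d → Idx d → ℝ) : ip2 (XX L) (YY L) = 0 := by
  unfold ip2
  simp only [Fintype.sum_sum_type, YY, XX, mul_zero, zero_mul, sum_const_zero, add_zero]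

private theorem ip2_BB_YY (L : Idx d → Idx d → ℝ) : ip2 (BB L) (YY L) = 0 := by
  unfold ip2
  simp only [Fintype.sum_sum_type, YY, BB, mul_zero, zero_mul, sum_const_zero, add_zero]

private theorem ip2_XX {L : Idx d → Idx d → ℝ} (hL : Skew L) :
    ip2 (XX L) (XX L) = ip2 L L - aL L - 2 * bL L := by
  have h : ip2 L L = ip2 (XX L + BB L + YY L) (XX L + BB L + YY L) := by
    rw [← L_split L]
  rw [h]
  simp only [ip2_add_left, ip2_add_right, ip2_YY hL, ip2_BB hL, ip2_XX_BB, ip2_XX_YY, ip2_BB_YY,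
    ip2_comm' (BB L) (XX L), ip2_comm' (YY L) (XX L), ip2_comm' (YY L) (BB L)]
  ring

/-- A 2-tensor without mixed part respects the parity. -/
private theorem evp_rho_even {M : Idx d → Idx d → ℝ} (h1 : ∀ i j, M (.inl i) (.inr j) = 0)
    (h2 : ∀ i j, M (.inr i) (.inl j) = 0) (χ : Idx d → Idx d → Idx d → ℝ) :
    evp (rho M χ) = rho M (evp χ) := by
  funext i j k
  rcases i with i | i <;> rcases j with j | j <;> rcases k with k | k <;>
    simp only [evp, rho, Fintype.sum_sum_type, h1, h2, zero_mul, mul_zero, zero_add, add_zero,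
      sum_const_zero]

/-- A 2-tensor with mixed part only reverses the parity. -/
private theorem evp_rho_odd {M : Idx d → Idx d → ℝ} (h1 : ∀ i j, M (.inl i) (.inl j) = 0)
    (h2 : ∀ i j, M (.inr i) (.inr j) = 0) (χ : Idx d → Idx d → Idx d → ℝ) :
    evp (rho M χ) = rho M (χ - evp χ) := by
  funext i j k
  rcases i with i | i <;> rcases j with j | j <;> rcases k with k | k <;>
    simp only [evp, rho, Fintype.sum_sum_type, h1, h2, zero_mul, mul_zero, zero_add, add_zero,
      sum_const_zero, Pi.sub_apply, sub_self, sub_zero]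

private theorem ip3_even_odd {χ η : Idx d → Idx d → Idx d → ℝ} (h1 : evp χ = χ)
    (h2 : evp η = 0) : ip3 χ η = 0 := by
  have h := ip3_evp_self (χ + η)
  have e : evp (χ + η) = χ := by
    have : evp (χ + η) = evp χ + evp η := by
      funext i j k
      rcases i with i | i <;> rcases j with j | j <;> rcases k with k | k <;>
        simp [evp]
    rw [this, h1, h2, add_zero]
  rw [e, add_sub_cancel_left] at h
  exact h

private theorem evp_evp (η : Idx d → Idx d → Idx d → ℝ) : evp (evp η) = evp η := by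
  funext i j k
  rcases i with i | i <;> rcases j with j | j <;> rcases k with k | k <;> simp only [evp]

private theorem evp_sub_evp (η : Idx d → Idx d → Idx d → ℝ) : evp (η - evp η) = 0 := by
  funext i j k
  rcases i with i | i <;> rcases j with j | j <;> rcases k with k | k <;> simp [evp]

private theorem JJ_BB {v : Idx d → Idx d → Idx d → ℝ} (hv : Form3 v) (hN : NC1 v)
    (hev : evp v = v) {L : Idx d → Idx d → ℝ} (hL : Skew L) :
    ip3 (rho JJ v) (rho (BB L) v) = 0 := by
  have h1 := rho_bracket JJ (JB L) v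
  rw [br_JB, rho_smul_left] at h1
  have h2 : ip3 (rho JJ v) (rho JJ (rho (JB L) v) - rho (JB L) (rho JJ v)) =
      ip3 (rho JJ v) ((-2 : ℝ) • rho (BB L) v) := by rw [h1]
  rw [ip3_sub_right, ip3_smul_right] at h2
  have h3 : ip3 (rho JJ v) (rho (JB L) (rho JJ v)) = 0 := by
    have := ip3_rho (JB_skew hL) (rho JJ v) (rho JJ v)
    rw [ip3_comm] at this
    linarith
  have h4 : ip3 (rho JJ v) (rho JJ (rho (JB L) v)) = 0 := by
    have h5 := ip3_rho JJ_skew (rho JJ v) (rho (JB L) v)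
    rw [rho_JJ_sq hv hN, hev, ip3_neg_left] at h5
    have h6 := ip3_rho (JB_skew hL) v v
    rw [ip3_comm] at h6
    linarith
  linarith

/-- The cross term between `J` and a form orthogonal to `J`. -/
theorem cross_le {η : Idx d → Idx d → Idx d → ℝ} (hη : Form3 η) (hN : NCond η)
    {L : Idx d → Idx d → ℝ} (hL : Skew L) (hth : th L = 0) {l y e o : ℝ} (hl : 0 ≤ l) (hy : 0 ≤ y)
    (he : 0 ≤ e) (ho : 0 ≤ o) (hl2 : l ^ 2 = ip2 L L - aL L - 2 * bL L) (hy2 : y ^ 2 = 2 * bL L)
    (he2 : e ^ 2 = ip3 (evp η) (evp η)) (ho2 : o ^ 2 = ip3 η η - ip3 (evp η) (evp η)) :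
    ip3 (rho JJ η) (rho L η) ≤ √3 * (l * e ^ 2 + y * e * o) := by
  have hv := evp_form hη
  have hNv := evp_ncond hN
  have hu : Form3 (η - evp η) := hη.sub hv
  set v := evp η with hvdef
  set u := η - v with hudef
  have hevv : evp v = v := evp_evp η
  have hevu : evp u = 0 := evp_sub_evp η
  have hJv : rho JJ η = rho JJ v := (rho_JJ_evp hη hN.toNC1).symm
  have hJJ : evp (rho JJ v) = rho JJ v := by
    rw [evp_rho_even (fun i j => rfl) (fun i j => rfl), hevv]
  have hη' : η = v + u := by rw [hudef]; abel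
  have hexp : rho L η = rho (XX L) v + rho (XX L) u + (rho (BB L) v + rho (BB L) u)
      + (rho (YY L) v + rho (YY L) u) := by
    conv_lhs => rw [L_split L, rho_add_left, rho_add_left, hη', rho_add, rho_add, rho_add]
  have z1 : ip3 (rho JJ v) (rho (XX L) u) = 0 := by
    refine ip3_even_odd hJJ ?_
    rw [evp_rho_even (fun i j => rfl) (fun i j => rfl), hevu]
    have := rho_smul (XX L) 0 (0 : Idx d → Idx d → Idx d → ℝ)
    simpa using this
  have z2 : ip3 (rho JJ v) (rho (BB L) u) = 0 := by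
    refine ip3_even_odd hJJ ?_
    rw [evp_rho_even (fun i j => rfl) (fun i j => rfl), hevu]
    have := rho_smul (BB L) 0 (0 : Idx d → Idx d → Idx d → ℝ)
    simpa using this
  have z3 : ip3 (rho JJ v) (rho (YY L) v) = 0 := by
    refine ip3_even_odd hJJ ?_
    rw [evp_rho_odd (fun i j => rfl) (fun i j => rfl), hevv, sub_self]
    have := rho_smul (YY L) 0 (0 : Idx d → Idx d → Idx d → ℝ)
    simpa using this
  have z4 : ip3 (rho JJ v) (rho (BB L) v) = 0 := JJ_BB hv hNv.toNC1 hevv hL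
  have huu : ip3 u u = o ^ 2 := by
    have h := ip3_evp_self η
    rw [← hvdef, ← hudef] at h
    rw [ho2, hη']
    simp only [ip3_add_left, ip3_add_right, ip3_comm u v, h]
    ring
  have eJ : ip3 (rho JJ v) (rho JJ v) = e ^ 2 := by
    rw [← hJv, ip3_rho_JJ hη hN.toNC1, he2]
  have b1 : ip3 (rho JJ v) (rho (XX L) v) ≤ √3 * (l * e ^ 2) := by
    have c1 := ip3_cauchy (rho JJ v) (rho (XX L) v)
    have c2 := rho_norm_le (XX_skew hL) hv
    rw [ip2_XX hL, ← hl2, ← he2] at c2
    rw [eJ] at c1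
    have hs : (√3 : ℝ) ^ 2 = 3 := Real.sq_sqrt (by norm_num)
    have c3 : ip3 (rho JJ v) (rho (XX L) v) ^ 2 ≤ (√3 * (l * e ^ 2)) ^ 2 := by
      calc ip3 (rho JJ v) (rho (XX L) v) ^ 2 ≤ e ^ 2 * ip3 (rho (XX L) v) (rho (XX L) v) := c1
        _ ≤ e ^ 2 * (3 * l ^ 2 * e ^ 2) := mul_le_mul_of_nonneg_left c2 (sq_nonneg e)
        _ = (√3) ^ 2 * (l * e ^ 2) ^ 2 := by rw [hs]; ring
        _ = (√3 * (l * e ^ 2)) ^ 2 := by ring
    exact (le_abs_self _).trans (abs_le_of_sq_le_sq c3 (by positivity))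
  have b2 : ip3 (rho JJ v) (rho (YY L) u) ≤ √3 * (y * e * o) := by
    have c1 := ip3_cauchy (rho JJ v) (rho (YY L) u)
    have c2 := rho_norm_le (YY_skew hL) hu
    rw [ip2_YY hL, ← hy2, huu] at c2
    rw [eJ] at c1
    have hs : (√3 : ℝ) ^ 2 = 3 := Real.sq_sqrt (by norm_num)
    have c3 : ip3 (rho JJ v) (rho (YY L) u) ^ 2 ≤ (√3 * (y * e * o)) ^ 2 := by
      calc ip3 (rho JJ v) (rho (YY L) u) ^ 2 ≤ e ^ 2 * ip3 (rho (YY L) u) (rho (YY L) u) := c1
        _ ≤ e ^ 2 * (3 * y ^ 2 * o ^ 2) := mul_le_mul_of_nonneg_left c2 (sq_nonneg e)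
        _ = (√3) ^ 2 * (y * e * o) ^ 2 := by rw [hs]; ring
        _ = (√3 * (y * e * o)) ^ 2 := by ring
    exact (le_abs_self _).trans (abs_le_of_sq_le_sq c3 (by positivity))
  rw [hJv, hexp]
  simp only [ip3_add_right, z1, z2, z3, z4]
  linarith

end Pool.Hopf3
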