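import Pool.Agent.Lib.MP_4a593f_gt.P3.StdA

namespace Pool.Hopf3

open Finset

variable {d : ℕ}

/-! Auxiliary facts on the complex structure as a signed permutation of the indices. -/

private noncomputable def sg6 (i : Fin 6) : ℝ := ![1, -1, 1, -1, 1, -1] i

private def pt6 (i : Fin 6) : Fin 6 := ![1, 0, 3, 2, 5, 4] i

private theorem sum_J6 (i : Fin 6) (x : Fin 6 → ℝ) :
    ∑ t, J6 i t * x t = sg6 i * x (pt6 i) := by
  fin_cases i <;> simp [J6, w2, kd, sg6, pt6]

private theorem pt_pt (i : Fin 6) : pt6 (pt6 i) = i := by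
  fin_cases i <;> rfl

private theorem sg_pt (i : Fin 6) : sg6 (pt6 i) = - sg6 i := by
  fin_cases i <;> simp [sg6, pt6]

private theorem sg_sq (i : Fin 6) : sg6 i * sg6 i = 1 := by
  fin_cases i <;> simp [sg6]

private theorem rho_lll (η : Idx d → Idx d → Idx d → ℝ) (i j k : Fin 6) :
    rho JJ η (.inl i) (.inl j) (.inl k) = sg6 i * η (.inl (pt6 i)) (.inl j) (.inl k)
      + sg6 j * η (.inl i) (.inl (pt6 j)) (.inl k)
      + sg6 k * η (.inl i) (.inl j) (.inl (pt6 k)) := by
  simp only [rho, Fintype.sum_sum_type, JJ, zero_mul, add_zero, sum_const_zero, sum_add_distrib]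
  rw [sum_J6 i (fun t => η (.inl t) (.inl j) (.inl k)),
    sum_J6 j (fun t => η (.inl i) (.inl t) (.inl k)),
    sum_J6 k (fun t => η (.inl i) (.inl j) (.inl t))]

private theorem rho_rll (η : Idx d → Idx d → Idx d → ℝ) (f : Fin d) (j k : Fin 6) :
    rho JJ η (.inr f) (.inl j) (.inl k) =
      sg6 j * η (.inr f) (.inl (pt6 j)) (.inl k)
      + sg6 k * η (.inr f) (.inl j) (.inl (pt6 k)) := by
  simp only [rho, Fintype.sum_sum_type, JJ, zero_mul, zero_add, add_zero, sum_const_zero,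
    sum_add_distrib]
  rw [sum_J6 j (fun t => η (.inr f) (.inl t) (.inl k)),
    sum_J6 k (fun t => η (.inr f) (.inl j) (.inl t))]

private theorem rho_rrl (η : Idx d → Idx d → Idx d → ℝ) (f g : Fin d) (k : Fin 6) :
    rho JJ η (.inr f) (.inr g) (.inl k) =
      sg6 k * η (.inr f) (.inr g) (.inl (pt6 k)) := by
  simp only [rho, Fintype.sum_sum_type, JJ, zero_mul, zero_add, add_zero, sum_const_zero,
    sum_add_distrib]
  rw [sum_J6 k (fun t => η (.inr f) (.inr g) (.inl t))]

private theorem rho_rrr (η : Idx d → Idx d → Idx d → ℝ) (f g h : Fin d) :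
    rho JJ η (.inr f) (.inr g) (.inr h) = 0 := by
  simp only [rho, Fintype.sum_sum_type, JJ, zero_mul, zero_add, add_zero, sum_const_zero,
    sum_add_distrib]

private theorem form_ext {χ η : Idx d → Idx d → Idx d → ℝ} (h1 : Form3 χ) (h2 : Form3 η)
    (a : ∀ i j k, χ (.inl i) (.inl j) (.inl k) = η (.inl i) (.inl j) (.inl k))
    (b : ∀ i j k, χ (.inr i) (.inl j) (.inl k) = η (.inr i) (.inl j) (.inl k))
    (c : ∀ i j k, χ (.inr i) (.inr j) (.inl k) = η (.inr i) (.inr j) (.inl k))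
    (e : ∀ i j k, χ (.inr i) (.inr j) (.inr k) = η (.inr i) (.inr j) (.inr k)) :
    χ = η := by
  funext i j k
  rcases i with i | i <;> rcases j with j | j <;> rcases k with k | k
  · exact a i j k
  · rw [h1.s23 _ (.inr k) _, h1.s12 (.inr k) _ _, h2.s23 _ (.inr k) _, h2.s12 (.inr k) _ _, b]
  · rw [h1.s12 (.inr j) _ _, h2.s12 (.inr j) _ _, b]
  · rw [h1.s12 (.inr j) _ _, h2.s12 (.inr j) _ _, h1.s23 _ (.inr k) _, h2.s23 _ (.inr k) _, c]
  · exact b i j k
  · rw [h1.s23 _ (.inr k) _, h2.s23 _ (.inr k) _, c]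
  · exact c i j k
  · exact e i j k

private theorem form6_ext {χ η : Fin 6 → Fin 6 → Fin 6 → ℝ}
    (h1 : ∀ i j k, χ j i k = - χ i j k) (h2 : ∀ i j k, χ i k j = - χ i j k)
    (g1 : ∀ i j k, η j i k = - η i j k) (g2 : ∀ i j k, η i k j = - η i j k)
    (h : ∀ i j k, i < j → j < k → χ i j k = η i j k) (i j k : Fin 6) : χ i j k = η i j k := by
  have z1 : ∀ i k, χ i i k = 0 := fun i k => by have := h1 i i k; linarith
  have z2 : ∀ i k, χ i k k = 0 := fun i k => by have := h2 i k k; linarith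
  have z3 : ∀ i k, χ i k i = 0 := fun i k => by have := h1 k i i; have := z2 k i; linarith
  have y1 : ∀ i k, η i i k = 0 := fun i k => by have := g1 i i k; linarith
  have y2 : ∀ i k, η i k k = 0 := fun i k => by have := g2 i k k; linarith
  have y3 : ∀ i k, η i k i = 0 := fun i k => by have := g1 k i i; have := y2 k i; linarith
  rcases lt_trichotomy i j with hij | hij | hij
  · rcases lt_trichotomy j k with hjk | hjk | hjk
    · exact h i j k hij hjk
    · subst hjk; rw [z2, y2]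
    · rcases lt_trichotomy i k with hik | hik | hik
      · rw [h2 i k j, g2 i k j, h i k j hik hjk]
      · subst hik; rw [z3, y3]
      · rw [h2 i k j, g2 i k j, h1 k i j, g1 k i j, h k i j hik hij]
  · subst hij; rw [z1, y1]
  · rcases lt_trichotomy i k with hik | hik | hik
    · rw [h1 j i k, g1 j i k, h j i k hij hik]
    · subst hik; rw [z3, y3]
    · rcases lt_trichotomy j k with hjk | hjk | hjk
      · rw [h1 j i k, g1 j i k, h2 j k i, g2 j k i, h j k i hjk hik]
      · subst hjk; rw [z2, y2]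
      · rw [h1 j i k, g1 j i k, h2 j k i, g2 j k i, h1 k j i, g1 k j i, h k j i hjk hij]

private theorem h_zero {η : Idx d → Idx d → Idx d → ℝ} (hη : Form3 η) (hN : NC1 η)
    (f : Fin d) (j k : Fin 6) : sg6 j * η (.inr f) (.inl (pt6 j)) (.inl k)
      + sg6 k * η (.inr f) (.inl j) (.inl (pt6 k)) = 0 := by
  have hr : ∀ i j, η (.inl i) (.inl j) (.inr f) = η (.inr f) (.inl i) (.inl j) := by
    intro i j
    rw [hη.s23 (.inl i) (.inr f) (.inl j), hη.s12 (.inr f) (.inl i) (.inl j)]; ring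
  have f1 := hN.f1 f
  have f2 := hN.f2 f
  have f3 := hN.f3 f
  have f4 := hN.f4 f
  have f5 := hN.f5 f
  have f6 := hN.f6 f
  simp only [hr] at f1 f2 f3 f4 f5 f6
  have s : ∀ i j, η (.inr f) (.inl j) (.inl i) = - η (.inr f) (.inl i) (.inl j) :=
    fun i j => hη.s23 _ _ _
  have z : ∀ i, η (.inr f) (.inl i) (.inl i) = 0 := fun i => by have := s i i; linarith
  fin_cases j <;> fin_cases k <;> simp [sg6, pt6, z] <;>
    linarith [s 0 1, s 0 2, s 0 3, s 0 4, s 0 5, s 1 2, s 1 3, s 1 4, s 1 5, s 2 3, s 2 4, s 2 5,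
      s 3 4, s 3 5, s 4 5]

private theorem key666 {η : Idx d → Idx d → Idx d → ℝ} (hη : Form3 η) (hN : NC1 η)
    (i j k : Fin 6) :
    sg6 i * sg6 j * η (.inl (pt6 i)) (.inl (pt6 j)) (.inl k)
      + sg6 i * sg6 k * η (.inl (pt6 i)) (.inl j) (.inl (pt6 k))
      + sg6 j * sg6 k * η (.inl i) (.inl (pt6 j)) (.inl (pt6 k))
      = η (.inl i) (.inl j) (.inl k) := by
  have h1 : ∀ i j k : Fin 6, η (.inl j) (.inl i) (.inl k) = - η (.inl i) (.inl j) (.inl k) :=
    fun i j k => hη.s12 _ _ _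
  have h2 : ∀ i j k : Fin 6, η (.inl i) (.inl k) (.inl j) = - η (.inl i) (.inl j) (.inl k) :=
    fun i j k => hη.s23 _ _ _
  refine form6_ext (χ := fun i j k => sg6 i * sg6 j * η (.inl (pt6 i)) (.inl (pt6 j)) (.inl k)
      + sg6 i * sg6 k * η (.inl (pt6 i)) (.inl j) (.inl (pt6 k))
      + sg6 j * sg6 k * η (.inl i) (.inl (pt6 j)) (.inl (pt6 k)))
      (η := fun i j k => η (.inl i) (.inl j) (.inl k)) ?_ ?_ h1 h2 ?_ i j k
  · intro i j k
    rw [h1 (pt6 i) (pt6 j) k, h1 i (pt6 j) (pt6 k), h1 (pt6 i) j (pt6 k)]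
    ring
  · intro i j k
    rw [h2 (pt6 i) (pt6 j) k, h2 (pt6 i) j (pt6 k), h2 i (pt6 j) (pt6 k)]
    ring
  · have z1 : ∀ i k : Fin 6, η (.inl i) (.inl i) (.inl k) = 0 :=
      fun i k => by have := h1 i i k; linarith
    have z2 : ∀ i k : Fin 6, η (.inl i) (.inl k) (.inl k) = 0 :=
      fun i k => by have := h2 i k k; linarith
    have z3 : ∀ i k : Fin 6, η (.inl i) (.inl k) (.inl i) = 0 :=
      fun i k => by have := h1 k i i; have := z2 k i; linarith
    have om := hN.om
    have oi := hN.oi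
    intro i j k hij hjk
    fin_cases i <;> fin_cases j <;> fin_cases k <;>
      first
      | (exfalso; revert hij hjk; decide)
      | (simp [sg6, pt6, z1, z2, z3]; done)
      | (simp [sg6, pt6, z1, z2, z3]; linarith [h1 0 1 2, h1 0 1 3, h1 0 1 4, h1 0 1 5,
          h1 2 3 4, h1 2 3 5, h2 0 2 3, h2 1 2 3, h2 0 4 5, h2 1 4 5, h2 2 4 5, h2 3 4 5])

theorem evp_form {η : Idx d → Idx d → Idx d → ℝ} (hη : Form3 η) : Form3 (evp η) := by
  constructor
  · rintro (i | i) (j | j) (k | k) <;> first | exact hη.s12 _ _ _ | simp only [evp, neg_zero]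
  · rintro (i | i) (j | j) (k | k) <;> first | exact hη.s23 _ _ _ | simp only [evp, neg_zero]

/-- On forms satisfying `NC1` the square of `rho J` is minus the projection to the even part. -/
theorem rho_JJ_sq {η : Idx d → Idx d → Idx d → ℝ} (hη : Form3 η) (hN : NC1 η) :
    rho JJ (rho JJ η) = - evp η := by
  refine form_ext (rho_form _ (rho_form _ hη)) ?_ ?_ ?_ ?_ ?_
  · have h := evp_form hη
    constructor
    · intro i j k; simp only [Pi.neg_apply]; rw [h.s12 i j k]
    · intro i j k; simp only [Pi.neg_apply]; rw [h.s23 i j k]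
  · intro i j k
    simp only [rho_lll, pt_pt, sg_pt, Pi.neg_apply, evp]
    have a1 := sg_sq i
    have a2 := sg_sq j
    have a3 := sg_sq k
    have h := key666 hη hN i j k
    linear_combination 2 * h - (a1 + a2 + a3) * η (.inl i) (.inl j) (.inl k)
  · intro i j k
    simp only [rho_rll, pt_pt, sg_pt, Pi.neg_apply, evp]
    have h1 := h_zero hη hN i (pt6 j) k
    have h2 := h_zero hη hN i j (pt6 k)
    simp only [pt_pt, sg_pt] at h1 h2
    linear_combination sg6 j * h1 + sg6 k * h2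
  · intro i j k
    simp only [rho_rrl, pt_pt, sg_pt, Pi.neg_apply, evp]
    have a3 := sg_sq k
    linear_combination (-1 : ℝ) * a3 * η (.inr i) (.inr j) (.inl k)
  · intro i j k
    simp only [rho_rrr, Pi.neg_apply, evp, neg_zero]

theorem evp_ncond {η : Idx d → Idx d → Idx d → ℝ} (hN : NCond η) : NCond (evp η) := by
  constructor
  · constructor
    · exact hN.om
    · exact hN.oi
    all_goals (intro f; simp [evp])
  · exact hN.l0
  · exact hN.l1
  · exact hN.l2
  · exact hN.l3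
  · exact hN.l4
  · exact hN.l5

theorem rho_JJ_evp {η : Idx d → Idx d → Idx d → ℝ} (hη : Form3 η) (hN : NC1 η) :
    rho JJ (evp η) = rho JJ η := by
  refine form_ext (rho_form _ (evp_form hη)) (rho_form _ hη) ?_ ?_ ?_ ?_
  · intro i j k
    rw [rho_lll, rho_lll]; simp only [evp]
  · intro i j k
    rw [rho_rll, rho_rll, h_zero hη hN]; simp only [evp]; ring
  · intro i j k
    rw [rho_rrl, rho_rrl]; simp only [evp]
  · intro i j k
    rw [rho_rrr, rho_rrr]

theorem ip3_evp_self (η : Idx d → Idx d → Idx d → ℝ) :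
    ip3 (evp η) (η - evp η) = 0 := by
  unfold ip3
  have : ∀ i j k, evp η i j k * (η - evp η) i j k = 0 := by
    rintro (i | i) (j | j) (k | k) <;> simp [evp]
  simp only [this, sum_const_zero, mul_zero]

theorem ip3_rho_JJ {η : Idx d → Idx d → Idx d → ℝ} (hη : Form3 η) (hN : NC1 η) :
    ip3 (rho JJ η) (rho JJ η) = ip3 (evp η) (evp η) := by
  rw [ip3_rho JJ_skew, rho_JJ_sq hη hN, ip3_neg_right, neg_neg]
  have h := ip3_evp_self η
  rw [ip3_sub_right] at h
  rw [ip3_comm η]
  linarith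

theorem ip3_evp_le (η : Idx d → Idx d → Idx d → ℝ) : ip3 (evp η) (evp η) ≤ ip3 η η := by
  have h := ip3_evp_self η
  have h2 := ip3_self_nonneg (η - evp η)
  rw [ip3_sub_right] at h
  rw [ip3_sub_right, ip3_sub_left, ip3_sub_left, ip3_comm η (evp η)] at h2
  linarith

end Pool.Hopf3
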