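import Pool.Agent.Lib.MP_4a593f_gt.P3.StdA

namespace Pool.Hopf3

open Finset

variable {d : ℕ}

theorem QJ_form : Form4 (QJ : Idx d → Idx d → Idx d → Idx d → ℝ) := by
  have h := JJ_skew (d := d)
  constructor
  · intro i j k l
    simp only [QJ]
    rw [h i j]
    ring
  · intro i j k l
    simp only [QJ]
    rw [h j k]
    ring
  · intro i j k l
    simp only [QJ]
    rw [h k l]
    ring

private theorem QJ_gen {ι : Type} [Fintype ι] (A : ι → ι → ℝ) {L : ι → ι → ℝ} (hL : Skew L) :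
    ∑ i, ∑ j, ∑ k, ∑ l, (A i j * A k l - A i k * A j l + A i l * A j k) * L i j * L k l =
      (∑ i, ∑ j, A i j * L i j) ^ 2 - 2 * ∑ i, ∑ j, L i j * ∑ k, A i k * ∑ l, A j l * L k l := by
  have h1 : ∑ i, ∑ j, ∑ k, ∑ l, A i j * A k l * L i j * L k l =
      (∑ i, ∑ j, A i j * L i j) ^ 2 := by
    rw [pow_two, Finset.sum_mul]
    refine Finset.sum_congr rfl fun i _ => ?_
    rw [Finset.sum_mul]
    refine Finset.sum_congr rfl fun j _ => ?_
    rw [Finset.mul_sum]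
    refine Finset.sum_congr rfl fun k _ => ?_
    rw [Finset.mul_sum]
    refine Finset.sum_congr rfl fun l _ => ?_
    ring
  have h2 : ∀ i j, ∑ k, ∑ l, A i k * A j l * L i j * L k l =
      L i j * ∑ k, A i k * ∑ l, A j l * L k l := by
    intro i j
    rw [Finset.mul_sum]
    refine Finset.sum_congr rfl fun k _ => ?_
    rw [Finset.mul_sum, Finset.mul_sum]
    refine Finset.sum_congr rfl fun l _ => ?_
    ring
  have h3 : ∀ i j, ∑ k, ∑ l, A i l * A j k * L i j * L k l =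
      - (L i j * ∑ k, A i k * ∑ l, A j l * L k l) := by
    intro i j
    rw [← h2, Finset.sum_comm, ← Finset.sum_neg_distrib]
    refine Finset.sum_congr rfl fun k _ => ?_
    rw [← Finset.sum_neg_distrib]
    refine Finset.sum_congr rfl fun l _ => ?_
    rw [hL k l]
    ring
  have h4 : ∀ i j, ∑ k, ∑ l, (A i j * A k l - A i k * A j l + A i l * A j k) * L i j * L k l =
      (∑ k, ∑ l, A i j * A k l * L i j * L k l) -
        2 * (L i j * ∑ k, A i k * ∑ l, A j l * L k l) := by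
    intro i j
    have e : ∑ k, ∑ l, (A i j * A k l - A i k * A j l + A i l * A j k) * L i j * L k l =
        (∑ k, ∑ l, A i j * A k l * L i j * L k l) - (∑ k, ∑ l, A i k * A j l * L i j * L k l) +
          ∑ k, ∑ l, A i l * A j k * L i j * L k l := by
      rw [← Finset.sum_sub_distrib, ← Finset.sum_add_distrib]
      refine Finset.sum_congr rfl fun k _ => ?_
      rw [← Finset.sum_sub_distrib, ← Finset.sum_add_distrib]
      refine Finset.sum_congr rfl fun l _ => ?_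
      ring
    rw [e, h2, h3]
    ring
  simp only [h4, Finset.sum_sub_distrib, ← Finset.mul_sum]
  rw [h1]

private theorem QJ_row (x : Fin 6 → ℝ) (i : Fin 6) :
    ∑ k, J6 i k * x k = ![x 1, -x 0, x 3, -x 2, x 5, -x 4] i := by
  fin_cases i <;> simp [J6, w2, kd, Fin.sum_univ_six]

private theorem QJ_row_inl (x : Idx d → ℝ) (i : Fin 6) :
    ∑ k, JJ (.inl i) k * x k =
      ![x (.inl 1), -x (.inl 0), x (.inl 3), -x (.inl 2), x (.inl 5), -x (.inl 4)] i := by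
  rw [Fintype.sum_sum_type]
  simp only [JJ, zero_mul, Finset.sum_const_zero, add_zero]
  exact QJ_row (fun k => x (.inl k)) i

private theorem QJ_row_inr (x : Idx d → ℝ) (f : Fin d) :
    ∑ k, JJ (.inr f) k * x k = 0 := by
  rw [Fintype.sum_sum_type]
  simp only [JJ, zero_mul, Finset.sum_const_zero, add_zero]

/-- explicit form -/
private theorem QJ_quad {L : Idx d → Idx d → ℝ} (hL : Skew L) :
    quad4 QJ L = 2 * (L (.inl 0) (.inl 1) * L (.inl 2) (.inl 3) +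
      L (.inl 2) (.inl 3) * L (.inl 4) (.inl 5) + L (.inl 4) (.inl 5) * L (.inl 0) (.inl 1)) -
      2 * ((L (.inl 0) (.inl 2) * L (.inl 1) (.inl 3) - L (.inl 0) (.inl 3) * L (.inl 1) (.inl 2)) +
        (L (.inl 0) (.inl 4) * L (.inl 1) (.inl 5) - L (.inl 0) (.inl 5) * L (.inl 1) (.inl 4)) +
        (L (.inl 2) (.inl 4) * L (.inl 3) (.inl 5) -
          L (.inl 2) (.inl 5) * L (.inl 3) (.inl 4))) := by
  have hd : ∀ i, L i i = 0 := fun i => by have := hL i i; linarith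
  have e : quad4 QJ L = 1 / 4 * ((∑ i, ∑ j, JJ i j * L i j) ^ 2 -
      2 * ∑ i, ∑ j, L i j * ∑ k, JJ i k * ∑ l, JJ j l * L k l) := by
    unfold quad4 QJ
    rw [QJ_gen _ hL]
  rw [e]
  have s1 : ∑ i : Idx d, ∑ j, JJ i j * L i j =
      2 * (L (.inl 0) (.inl 1) + L (.inl 2) (.inl 3) + L (.inl 4) (.inl 5)) := by
    rw [Fintype.sum_sum_type]
    simp only [QJ_row_inl, QJ_row_inr, Finset.sum_const_zero, add_zero, Fin.sum_univ_six]
    simp only [Matrix.cons_val]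
    rw [hL (.inl 0) (.inl 1), hL (.inl 2) (.inl 3), hL (.inl 4) (.inl 5)]
    ring
  have s2 : ∑ i : Idx d, ∑ j, L i j * ∑ k, JJ i k * ∑ l, JJ j l * L k l =
      2 * (L (.inl 0) (.inl 1) ^ 2 + L (.inl 2) (.inl 3) ^ 2 + L (.inl 4) (.inl 5) ^ 2) +
      4 * ((L (.inl 0) (.inl 2) * L (.inl 1) (.inl 3) - L (.inl 0) (.inl 3) * L (.inl 1) (.inl 2)) +
        (L (.inl 0) (.inl 4) * L (.inl 1) (.inl 5) - L (.inl 0) (.inl 5) * L (.inl 1) (.inl 4)) +
        (L (.inl 2) (.inl 4) * L (.inl 3) (.inl 5) -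
          L (.inl 2) (.inl 5) * L (.inl 3) (.inl 4))) := by
    rw [Fintype.sum_sum_type]
    have h0 : ∑ f : Fin d, ∑ j : Idx d, L (.inr f) j *
        ∑ k, JJ (.inr f) k * ∑ l, JJ j l * L k l = 0 := by
      simp only [QJ_row_inr, mul_zero, Finset.sum_const_zero]
    have key : ∀ i : Fin 6, ∑ j : Idx d, L (.inl i) j *
        ∑ k, JJ (.inl i) k * ∑ l, JJ j l * L k l = ∑ j : Fin 6, L (.inl i) (.inl j) *
        (![(![L (.inl 1) (.inl 1), -L (.inl 1) (.inl 0), L (.inl 1) (.inl 3), -L (.inl 1) (.inl 2),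
            L (.inl 1) (.inl 5), -L (.inl 1) (.inl 4)] : Fin 6 → ℝ) j,
          -(![L (.inl 0) (.inl 1), -L (.inl 0) (.inl 0), L (.inl 0) (.inl 3), -L (.inl 0) (.inl 2),
            L (.inl 0) (.inl 5), -L (.inl 0) (.inl 4)] : Fin 6 → ℝ) j,
          (![L (.inl 3) (.inl 1), -L (.inl 3) (.inl 0), L (.inl 3) (.inl 3), -L (.inl 3) (.inl 2),
            L (.inl 3) (.inl 5), -L (.inl 3) (.inl 4)] : Fin 6 → ℝ) j,
          -(![L (.inl 2) (.inl 1), -L (.inl 2) (.inl 0), L (.inl 2) (.inl 3), -L (.inl 2) (.inl 2),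
            L (.inl 2) (.inl 5), -L (.inl 2) (.inl 4)] : Fin 6 → ℝ) j,
          (![L (.inl 5) (.inl 1), -L (.inl 5) (.inl 0), L (.inl 5) (.inl 3), -L (.inl 5) (.inl 2),
            L (.inl 5) (.inl 5), -L (.inl 5) (.inl 4)] : Fin 6 → ℝ) j,
          -(![L (.inl 4) (.inl 1), -L (.inl 4) (.inl 0), L (.inl 4) (.inl 3), -L (.inl 4) (.inl 2),
            L (.inl 4) (.inl 5), -L (.inl 4) (.inl 4)] : Fin 6 → ℝ) j] : Fin 6 → ℝ) i := by
      intro i
      rw [Fintype.sum_sum_type]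
      have h1 : ∑ f : Fin d, L (.inl i) (.inr f) *
          ∑ k, JJ (.inl i) k * ∑ l, JJ (.inr f) l * L k l = 0 := by
        simp only [QJ_row_inr, mul_zero, Finset.sum_const_zero]
      rw [h1, add_zero]
      refine Finset.sum_congr rfl fun j _ => ?_
      rw [QJ_row_inl (fun k => ∑ l, JJ (.inl j) l * L k l) i]
      simp only [QJ_row_inl]
    rw [h0, add_zero]
    simp only [key, Fin.sum_univ_six]
    simp only [Matrix.cons_val]
    rw [hL (.inl 0) (.inl 1), hL (.inl 2) (.inl 3), hL (.inl 4) (.inl 5),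
      hL (.inl 0) (.inl 2), hL (.inl 0) (.inl 3), hL (.inl 0) (.inl 4), hL (.inl 0) (.inl 5),
      hL (.inl 1) (.inl 2), hL (.inl 1) (.inl 3), hL (.inl 1) (.inl 4), hL (.inl 1) (.inl 5),
      hL (.inl 2) (.inl 4), hL (.inl 2) (.inl 5), hL (.inl 3) (.inl 4), hL (.inl 3) (.inl 5)]
    simp only [hd]
    ring
  rw [s1, s2]
  ring

private theorem QJ_aL (L : Idx d → Idx d → ℝ) : aL L = 1 / 2 *
    ((L (.inl 2) (.inl 5) + L (.inl 3) (.inl 4)) ^ 2 +
     (L (.inl 2) (.inl 4) - L (.inl 3) (.inl 5)) ^ 2 +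
     (L (.inl 4) (.inl 1) + L (.inl 5) (.inl 0)) ^ 2 +
     (L (.inl 4) (.inl 0) - L (.inl 5) (.inl 1)) ^ 2 +
     (L (.inl 0) (.inl 3) + L (.inl 1) (.inl 2)) ^ 2 +
     (L (.inl 0) (.inl 2) - L (.inl 1) (.inl 3)) ^ 2) := by
  unfold aL xi
  simp only [Fin.sum_univ_six, Matrix.cons_val]
  ring

private theorem QJ_ip2 {L : Idx d → Idx d → ℝ} (hL : Skew L) :
    ip2 L L = L (.inl 0) (.inl 1) ^ 2 + L (.inl 2) (.inl 3) ^ 2 + L (.inl 4) (.inl 5) ^ 2 +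
      (L (.inl 0) (.inl 2) ^ 2 + L (.inl 0) (.inl 3) ^ 2 + L (.inl 1) (.inl 2) ^ 2 +
        L (.inl 1) (.inl 3) ^ 2) +
      (L (.inl 0) (.inl 4) ^ 2 + L (.inl 0) (.inl 5) ^ 2 + L (.inl 1) (.inl 4) ^ 2 +
        L (.inl 1) (.inl 5) ^ 2) +
      (L (.inl 2) (.inl 4) ^ 2 + L (.inl 2) (.inl 5) ^ 2 + L (.inl 3) (.inl 4) ^ 2 +
        L (.inl 3) (.inl 5) ^ 2) + 2 * bL L +
      1 / 2 * ∑ f : Fin d, ∑ g : Fin d, L (.inr f) (.inr g) ^ 2 := by
  have hd : ∀ i, L i i = 0 := fun i => by have := hL i i; linarith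
  have hmix : ∑ f : Fin d, ∑ i : Fin 6, L (.inr f) (.inl i) * L (.inr f) (.inl i) =
      ∑ i : Fin 6, ∑ f : Fin d, L (.inl i) (.inr f) ^ 2 := by
    rw [Finset.sum_comm]
    refine Finset.sum_congr rfl fun i _ => Finset.sum_congr rfl fun f _ => ?_
    rw [hL (.inl i) (.inr f)]
    ring
  have hmix' : ∑ i : Fin 6, ∑ f : Fin d, L (.inl i) (.inr f) * L (.inl i) (.inr f) =
      ∑ i : Fin 6, ∑ f : Fin d, L (.inl i) (.inr f) ^ 2 :=
    Finset.sum_congr rfl fun i _ => Finset.sum_congr rfl fun f _ => by ring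
  have hdd : ∑ f : Fin d, ∑ g : Fin d, L (.inr f) (.inr g) * L (.inr f) (.inr g) =
      ∑ f : Fin d, ∑ g : Fin d, L (.inr f) (.inr g) ^ 2 :=
    Finset.sum_congr rfl fun i _ => Finset.sum_congr rfl fun f _ => by ring
  unfold ip2 bL
  rw [Fintype.sum_sum_type]
  simp only [Fintype.sum_sum_type, Finset.sum_add_distrib]
  rw [hmix, hmix', hdd]
  have h66 : ∑ i : Fin 6, ∑ j : Fin 6, L (.inl i) (.inl j) * L (.inl i) (.inl j) =
      2 * (L (.inl 0) (.inl 1) ^ 2 + L (.inl 2) (.inl 3) ^ 2 + L (.inl 4) (.inl 5) ^ 2 +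
      (L (.inl 0) (.inl 2) ^ 2 + L (.inl 0) (.inl 3) ^ 2 + L (.inl 1) (.inl 2) ^ 2 +
        L (.inl 1) (.inl 3) ^ 2) +
      (L (.inl 0) (.inl 4) ^ 2 + L (.inl 0) (.inl 5) ^ 2 + L (.inl 1) (.inl 4) ^ 2 +
        L (.inl 1) (.inl 5) ^ 2) +
      (L (.inl 2) (.inl 4) ^ 2 + L (.inl 2) (.inl 5) ^ 2 + L (.inl 3) (.inl 4) ^ 2 +
        L (.inl 3) (.inl 5) ^ 2)) := by
    simp only [Fin.sum_univ_six]
    rw [hL (.inl 0) (.inl 1), hL (.inl 2) (.inl 3), hL (.inl 4) (.inl 5),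
      hL (.inl 0) (.inl 2), hL (.inl 0) (.inl 3), hL (.inl 0) (.inl 4), hL (.inl 0) (.inl 5),
      hL (.inl 1) (.inl 2), hL (.inl 1) (.inl 3), hL (.inl 1) (.inl 4), hL (.inl 1) (.inl 5),
      hL (.inl 2) (.inl 4), hL (.inl 2) (.inl 5), hL (.inl 3) (.inl 4), hL (.inl 3) (.inl 5)]
    simp only [hd]
    ring
  rw [h66]
  ring

theorem quad_QJ_le {L : Idx d → Idx d → ℝ} (hL : Skew L) :
    quad4 QJ L ≤ 2 / 3 * th L ^ 2 + aL L := by
  rw [QJ_quad hL, QJ_aL, th, hL (.inl 1) (.inl 4), hL (.inl 0) (.inl 5), hL (.inl 0) (.inl 4),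
    hL (.inl 1) (.inl 5)]
  nlinarith [sq_nonneg (L (.inl 0) (.inl 1) - L (.inl 2) (.inl 3)),
    sq_nonneg (L (.inl 2) (.inl 3) - L (.inl 4) (.inl 5)),
    sq_nonneg (L (.inl 4) (.inl 5) - L (.inl 0) (.inl 1)),
    sq_nonneg (L (.inl 0) (.inl 2) + L (.inl 1) (.inl 3)),
    sq_nonneg (L (.inl 0) (.inl 3) - L (.inl 1) (.inl 2)),
    sq_nonneg (L (.inl 0) (.inl 4) + L (.inl 1) (.inl 5)),
    sq_nonneg (L (.inl 0) (.inl 5) - L (.inl 1) (.inl 4)),
    sq_nonneg (L (.inl 2) (.inl 4) + L (.inl 3) (.inl 5)),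
    sq_nonneg (L (.inl 2) (.inl 5) - L (.inl 3) (.inl 4))]

theorem le_quad_QJ {L : Idx d → Idx d → ℝ} (hL : Skew L) :
    2 / 3 * th L ^ 2 - (ip2 L L - 1 / 3 * th L ^ 2 - aL L - 2 * bL L) + aL L ≤ quad4 QJ L := by
  have hdd : 0 ≤ ∑ f : Fin d, ∑ g : Fin d, L (.inr f) (.inr g) ^ 2 :=
    Finset.sum_nonneg fun f _ => Finset.sum_nonneg fun g _ => sq_nonneg _
  rw [QJ_quad hL, QJ_ip2 hL, QJ_aL, th, hL (.inl 1) (.inl 4), hL (.inl 0) (.inl 5),
    hL (.inl 0) (.inl 4), hL (.inl 1) (.inl 5)]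
  nlinarith [hdd]

theorem le_ip2 {L : Idx d → Idx d → ℝ} (hL : Skew L) :
    1 / 3 * th L ^ 2 + aL L + 2 * bL L ≤ ip2 L L := by
  have h1 := quad_QJ_le hL
  have h2 := le_quad_QJ hL
  linarith

end Pool.Hopf3
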