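import Pool.Agent.Lib.MP_4a593f_gt.P3.SpA

namespace Pool.Hopf3

open Finset

variable {d : ℕ}

private theorem spC_V (u w : Fin 6 → ℝ) (k : Fin 6) :
    ∑ i, ∑ j, u i * w j * Om6 i j k =
      ![1 / 2 * ((u 2 * w 4 - u 4 * w 2) - (u 3 * w 5 - u 5 * w 3)),
        - (1 / 2 * ((u 2 * w 5 - u 5 * w 2) + (u 3 * w 4 - u 4 * w 3))),
        1 / 2 * ((u 4 * w 0 - u 0 * w 4) - (u 5 * w 1 - u 1 * w 5)),
        - (1 / 2 * ((u 5 * w 0 - u 0 * w 5) + (u 4 * w 1 - u 1 * w 4))),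
        1 / 2 * ((u 0 * w 2 - u 2 * w 0) - (u 1 * w 3 - u 3 * w 1)),
        - (1 / 2 * ((u 0 * w 3 - u 3 * w 0) + (u 1 * w 2 - u 2 * w 1)))] k := by
  fin_cases k <;>
  · simp only [Fin.sum_univ_six, Om6, w3, kd]
    simp (decide := true)
    ring

private theorem spC_J (u : Fin 6 → ℝ) (i : Fin 6) :
    ∑ t, J6 i t * u t = ![u 1, - u 0, u 3, - u 2, u 5, - u 4] i := by
  fin_cases i <;>
  · simp only [Fin.sum_univ_six, J6, w2, kd]
    simp (decide := true)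

private theorem spC_id (u w : Fin 6 → ℝ) :
    ∑ k, (∑ i, ∑ j, u i * w j * Om6 i j k) ^ 2
      = 1 / 4 * ((∑ i, u i ^ 2) * (∑ i, w i ^ 2) - (∑ i, u i * w i) ^ 2
        - (∑ i, (∑ t, J6 i t * u t) * w i) ^ 2) := by
  simp only [spC_V, spC_J]
  simp only [Fin.sum_univ_six]
  simp [Matrix.cons_val_zero, Matrix.cons_val_one]
  ring

private theorem spC_bL (L : Idx d → Idx d → ℝ) (hL : Skew L) :
    ∑ f : Fin d, ∑ i, Yv L f i ^ 2 = 2 * bL L := by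
  unfold bL Yv
  rw [Finset.sum_comm]
  have : ∀ (i : Fin 6) (f : Fin d), L (.inr f) (.inl i) ^ 2 = L (.inl i) (.inr f) ^ 2 := by
    intro i f
    rw [hL (.inl i) (.inr f)]
    ring
  simp only [this]
  ring

private theorem spC_sum (L : Idx d → Idx d → ℝ) (hL : Skew L) :
    ∑ f : Fin d, ∑ g : Fin d, ∑ k, (∑ i, ∑ j, Yv L f i * Yv L g j * Om6 i j k) ^ 2
      = 1 / 4 * (4 * bL L ^ 2 - A2 L - B2 L) := by
  simp only [spC_id]
  simp only [← Finset.mul_sum, Finset.sum_sub_distrib]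
  have h1 : ∑ f : Fin d, (∑ i, Yv L f i ^ 2) * ∑ g : Fin d, ∑ i, Yv L g i ^ 2
      = 4 * bL L ^ 2 := by
    rw [← Finset.sum_mul, spC_bL L hL]
    ring
  rw [h1]
  rfl

theorem A2_B2_le (L : Idx d → Idx d → ℝ) (hL : Skew L) : A2 L + B2 L ≤ 4 * bL L ^ 2 := by
  have h := spC_sum L hL
  have h0 : 0 ≤ ∑ f : Fin d, ∑ g : Fin d, ∑ k,
      (∑ i, ∑ j, Yv L f i * Yv L g j * Om6 i j k) ^ 2 :=
    Finset.sum_nonneg fun _ _ => Finset.sum_nonneg fun _ _ => Finset.sum_nonneg fun _ _ =>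
      sq_nonneg _
  linarith

theorem YY_le {η : Idx d → Idx d → Idx d → ℝ} (hη : Form3 η)
    {L : Idx d → Idx d → ℝ} (hL : Skew L) :
    YY L η ^ 2 ≤ 1 / 2 * (4 * bL L ^ 2 - A2 L - B2 L) * E2 η := by
  have hs := spC_sum L hL
  set W : Fin d → Fin d → Fin 6 → ℝ :=
    fun f g k => ∑ i, ∑ j, Yv L f i * Yv L g j * Om6 i j k with hW
  have h1 : YY L η ^ 2 = (∑ x : Fin d × Fin d × Fin 6,
      W x.1 x.2.1 x.2.2 * η (.inr x.1) (.inr x.2.1) (.inl x.2.2)) ^ 2 := by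
    unfold YY
    rw [neg_sq, Fintype.sum_prod_type]
    simp only [Fintype.sum_prod_type]
    rfl
  have h2 : ∑ x : Fin d × Fin d × Fin 6, W x.1 x.2.1 x.2.2 ^ 2
      = 1 / 4 * (4 * bL L ^ 2 - A2 L - B2 L) := by
    rw [← hs, Fintype.sum_prod_type]
    simp only [Fintype.sum_prod_type]
    rfl
  have h3 : ∑ x : Fin d × Fin d × Fin 6, η (.inr x.1) (.inr x.2.1) (.inl x.2.2) ^ 2
      = 2 * E2 η := by
    unfold E2
    rw [Fintype.sum_prod_type]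
    simp only [Fintype.sum_prod_type]
    ring
  rw [h1]
  calc _ ≤ (∑ x : Fin d × Fin d × Fin 6, W x.1 x.2.1 x.2.2 ^ 2)
        * ∑ x : Fin d × Fin d × Fin 6, η (.inr x.1) (.inr x.2.1) (.inl x.2.2) ^ 2 :=
        Finset.sum_mul_sq_le_sq_mul_sq _ _ _
    _ = _ := by rw [h2, h3]; ring

end Pool.Hopf3
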