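import Pool.Agent.Lib.MP_4a593f_gt.P3.TTa

namespace Pool.Hopf3

open Finset

variable {d : ℕ}

private def TTc_v (u : Fin 6 → ℝ) (s : Fin 6) : ℝ := ∑ i, J6 i s * u i

private theorem TTc_v_eq (u : Fin 6 → ℝ) (s : Fin 6) :
    TTc_v u s = ![- u 1, u 0, - u 3, u 2, - u 5, u 4] s := by
  unfold TTc_v
  fin_cases s <;> simp [J6, w2, kd]

private theorem TTc_Ju (u : Fin 6 → ℝ) (s : Fin 6) :
    (∑ t, J6 s t * u t) = - TTc_v u s := by
  rw [TTc_v_eq]
  fin_cases s <;> simp [J6, w2, kd]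

private theorem TTc_vv (u w : Fin 6 → ℝ) :
    ∑ i, TTc_v u i * TTc_v w i = ∑ i, u i * w i := by
  simp only [TTc_v_eq, Fin.sum_univ_six]
  simp
  ring

private theorem TTc_uv (u w : Fin 6 → ℝ) :
    ∑ i, u i * TTc_v w i = - ∑ i, TTc_v u i * w i := by
  simp only [TTc_v_eq, Fin.sum_univ_six]
  simp
  ring

private theorem TTc_prod (a b c e : Fin 6 → ℝ) :
    ∑ i, ∑ j, (a i * b j) * (c i * e j) = (∑ i, a i * c i) * (∑ j, b j * e j) := by
  rw [Finset.sum_mul_sum]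
  exact Finset.sum_congr rfl fun i _ => Finset.sum_congr rfl fun j _ => by ring

private theorem TTc_pair (u w : Fin 6 → ℝ) :
    ∑ i, ∑ j, (u i * u j - TTc_v u i * TTc_v u j) * (w i * w j - TTc_v w i * TTc_v w j)
      = 2 * ((∑ i, u i * w i) ^ 2 - (∑ i, (∑ t, J6 i t * u t) * w i) ^ 2) := by
  have h : ∀ i j, (u i * u j - TTc_v u i * TTc_v u j) * (w i * w j - TTc_v w i * TTc_v w j)
      = (u i * u j) * (w i * w j) - (u i * u j) * (TTc_v w i * TTc_v w j)
        - (TTc_v u i * TTc_v u j) * (w i * w j)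
        + (TTc_v u i * TTc_v u j) * (TTc_v w i * TTc_v w j) := by
    intro i j; ring
  simp only [h, Finset.sum_add_distrib, Finset.sum_sub_distrib, TTc_prod, TTc_vv, TTc_Ju,
    neg_mul, Finset.sum_neg_distrib, TTc_uv]
  ring

private theorem TTc_gram {ι : Type} [Fintype ι] (u : ι → Fin 6 → ℝ) :
    ∑ i, ∑ j, (∑ f, (u f i * u f j - TTc_v (u f) i * TTc_v (u f) j)) ^ 2
      = 2 * ∑ f, ∑ g, ((∑ i, u f i * u g i) ^ 2
          - (∑ i, (∑ t, J6 i t * u f t) * u g i) ^ 2) := by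
  simp only [Finset.mul_sum, ← TTc_pair]
  have h : ∀ i j, (∑ f, (u f i * u f j - TTc_v (u f) i * TTc_v (u f) j)) ^ 2
      = ∑ f, ∑ g, (u f i * u f j - TTc_v (u f) i * TTc_v (u f) j)
        * (u g i * u g j - TTc_v (u g) i * TTc_v (u g) j) := by
    intro i j
    rw [pow_two, Finset.sum_mul_sum]
  simp only [h]
  have e1 : ∀ i, ∑ j, ∑ f, ∑ g, (u f i * u f j - TTc_v (u f) i * TTc_v (u f) j)
        * (u g i * u g j - TTc_v (u g) i * TTc_v (u g) j)
      = ∑ f, ∑ g, ∑ j, (u f i * u f j - TTc_v (u f) i * TTc_v (u f) j)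
        * (u g i * u g j - TTc_v (u g) i * TTc_v (u g) j) := by
    intro i
    rw [Finset.sum_comm]
    exact Finset.sum_congr rfl fun f _ => Finset.sum_comm
  simp only [e1]
  rw [Finset.sum_comm]
  exact Finset.sum_congr rfl fun f _ => Finset.sum_comm

private theorem TTc_half {η : Idx d → Idx d → Idx d → ℝ} (hη : Form3 η) (hN : NCond η)
    (u : Fin 6 → ℝ) :
    ∑ i, ∑ j, TT η i j * u i * u j
      = - ∑ i, ∑ j, TT η i j * (TTc_v u i * TTc_v u j) := by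
  have h : ∀ i j, TT η i j * u i * u j
      = - ∑ s, ∑ t, TT η s t * ((J6 i s * u i) * (J6 j t * u j)) := by
    intro i j
    rw [← neg_neg (TT η i j), ← TT_anti hη hN i j, neg_mul, neg_mul, Finset.sum_mul,
      Finset.sum_mul, neg_inj]
    refine Finset.sum_congr rfl fun s _ => ?_
    rw [Finset.sum_mul, Finset.sum_mul]
    exact Finset.sum_congr rfl fun t _ => by ring
  simp only [h, Finset.sum_neg_distrib, neg_inj]
  have e1 : ∀ s t, TT η s t * (TTc_v u s * TTc_v u t)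
      = ∑ i, ∑ j, TT η s t * ((J6 i s * u i) * (J6 j t * u j)) := by
    intro s t
    unfold TTc_v
    rw [Finset.sum_mul_sum, Finset.mul_sum]
    exact Finset.sum_congr rfl fun i _ => by rw [Finset.mul_sum]
  simp only [e1]
  have e2 : ∀ i, ∑ j, ∑ s, ∑ t, TT η s t * ((J6 i s * u i) * (J6 j t * u j))
      = ∑ s, ∑ t, ∑ j, TT η s t * ((J6 i s * u i) * (J6 j t * u j)) := by
    intro i
    rw [Finset.sum_comm]
    exact Finset.sum_congr rfl fun f _ => Finset.sum_comm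
  simp only [e2]
  rw [Finset.sum_comm]
  exact Finset.sum_congr rfl fun f _ => Finset.sum_comm

private theorem TTc_gen {ι : Type} [Fintype ι] {η : Idx d → Idx d → Idx d → ℝ}
    (hη : Form3 η) (hN : NCond η) (u : ι → Fin 6 → ℝ) :
    (∑ f, ∑ i, ∑ j, TT η i j * u f i * u f j) ^ 2 ≤
      E0 η * (1 / 4 * ∑ f, ∑ g, ((∑ i, u f i * u g i) ^ 2
          - (∑ i, (∑ t, J6 i t * u f t) * u g i) ^ 2)) := by
  have h1 : ∑ f, ∑ i, ∑ j, TT η i j * u f i * u f j
      = 1 / 2 * ∑ x : Fin 6 × Fin 6, TT η x.1 x.2 *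
        (∑ f, (u f x.1 * u f x.2 - TTc_v (u f) x.1 * TTc_v (u f) x.2)) := by
    have a1 : ∀ f, ∑ i, ∑ j, TT η i j * u f i * u f j
        = 1 / 2 * ∑ i, ∑ j, TT η i j * (u f i * u f j - TTc_v (u f) i * TTc_v (u f) j) := by
      intro f
      have b1 := TTc_half hη hN (u f)
      have b2 : ∑ i, ∑ j, TT η i j * (u f i * u f j - TTc_v (u f) i * TTc_v (u f) j)
          = ∑ i, ∑ j, TT η i j * u f i * u f j
            - ∑ i, ∑ j, TT η i j * (TTc_v (u f) i * TTc_v (u f) j) := by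
        simp only [← Finset.sum_sub_distrib]
        exact Finset.sum_congr rfl fun i _ => Finset.sum_congr rfl fun j _ => by ring
      rw [b2]
      linarith
    rw [Fintype.sum_prod_type]
    simp only [a1, ← Finset.mul_sum]
    congr 1
    rw [Finset.sum_comm]
    refine Finset.sum_congr rfl fun i _ => ?_
    rw [Finset.sum_comm]
    exact Finset.sum_congr rfl fun j _ => by rw [Finset.mul_sum]
  have h2 := Finset.sum_mul_sq_le_sq_mul_sq (Finset.univ : Finset (Fin 6 × Fin 6))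
    (fun x => TT η x.1 x.2)
    (fun x => ∑ f, (u f x.1 * u f x.2 - TTc_v (u f) x.1 * TTc_v (u f) x.2))
  have h3 : ∑ x : Fin 6 × Fin 6, TT η x.1 x.2 ^ 2 = 1 / 2 * E0 η := by
    rw [Fintype.sum_prod_type]
    exact TT_norm hη hN
  have h4 : ∑ x : Fin 6 × Fin 6,
      (∑ f, (u f x.1 * u f x.2 - TTc_v (u f) x.1 * TTc_v (u f) x.2)) ^ 2
      = 2 * ∑ f, ∑ g, ((∑ i, u f i * u g i) ^ 2
          - (∑ i, (∑ t, J6 i t * u f t) * u g i) ^ 2) := by
    rw [Fintype.sum_prod_type]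
    exact TTc_gram u
  rw [h3, h4] at h2
  rw [h1, mul_pow]
  linarith

theorem TT_one {η : Idx d → Idx d → Idx d → ℝ} (hη : Form3 η) (hN : NCond η) (u : Fin 6 → ℝ) :
    (∑ i, ∑ j, TT η i j * u i * u j) ^ 2 ≤ 1 / 4 * E0 η * (∑ i, u i ^ 2) ^ 2 := by
  have h := TTc_gen hη hN (fun _ : Fin 1 => u)
  simp only [Finset.univ_unique, Finset.sum_singleton] at h
  have h0 : ∑ i, (∑ t, J6 i t * u t) * u i = 0 := by
    simp only [TTc_Ju]
    simp only [TTc_v_eq, Fin.sum_univ_six]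
    simp
    ring
  rw [h0] at h
  have h1 : ∑ i, u i * u i = ∑ i, u i ^ 2 :=
    Finset.sum_congr rfl fun i _ => by ring
  rw [h1] at h
  linarith

theorem A2_B2_nonneg (L : Idx d → Idx d → ℝ) : 0 ≤ A2 L - B2 L := by
  have h := TTc_gram (Yv L)
  have h1 : ∑ f, ∑ g, ((∑ i, Yv L f i * Yv L g i) ^ 2
          - (∑ i, (∑ t, J6 i t * Yv L f t) * Yv L g i) ^ 2) = A2 L - B2 L := by
    unfold A2 B2
    simp only [Finset.sum_sub_distrib]
  rw [h1] at h
  have h2 : 0 ≤ ∑ i, ∑ j,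
      (∑ f, (Yv L f i * Yv L f j - TTc_v (Yv L f) i * TTc_v (Yv L f) j)) ^ 2 :=
    Finset.sum_nonneg fun i _ => Finset.sum_nonneg fun j _ => sq_nonneg _
  linarith

theorem TT_sum {η : Idx d → Idx d → Idx d → ℝ} (hη : Form3 η) (hN : NCond η)
    (L : Idx d → Idx d → ℝ) :
    (∑ f, ∑ i, ∑ j, TT η i j * Yv L f i * Yv L f j) ^ 2 ≤ E0 η * (1 / 4 * (A2 L - B2 L)) := by
  have h := TTc_gen hη hN (Yv L)
  have h1 : ∑ f, ∑ g, ((∑ i, Yv L f i * Yv L g i) ^ 2
          - (∑ i, (∑ t, J6 i t * Yv L f t) * Yv L g i) ^ 2) = A2 L - B2 L := by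
    unfold A2 B2
    simp only [Finset.sum_sub_distrib]
  rw [h1] at h
  exact h

end Pool.Hopf3
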