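import Pool.Agent.Lib.MP_4a593f_gt.P3.SpB
import Pool.Agent.Lib.MP_4a593f_gt.P3.SpC
import Pool.Agent.Lib.MP_4a593f_gt.P3.TTc

namespace Pool.Hopf3

open Finset

variable {d : ℕ}

private theorem spd_sq_lrl {η : Idx d → Idx d → Idx d → ℝ} (hη : Form3 η) :
    ∑ j : Fin 6, ∑ f : Fin d, ∑ k : Fin 6, η (.inl j) (.inr f) (.inl k) ^ 2
      = ∑ f : Fin d, ∑ j : Fin 6, ∑ k : Fin 6, η (.inr f) (.inl j) (.inl k) ^ 2 := by
  rw [Finset.sum_comm]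
  refine Finset.sum_congr rfl fun f _ => Finset.sum_congr rfl fun j _ =>
    Finset.sum_congr rfl fun k _ => ?_
  rw [hη.s12 (.inr f) (.inl j) (.inl k), neg_sq]

private theorem spd_sq_llr {η : Idx d → Idx d → Idx d → ℝ} (hη : Form3 η) :
    ∑ j : Fin 6, ∑ k : Fin 6, ∑ f : Fin d, η (.inl j) (.inl k) (.inr f) ^ 2
      = ∑ f : Fin d, ∑ j : Fin 6, ∑ k : Fin 6, η (.inr f) (.inl j) (.inl k) ^ 2 := by
  rw [← spd_sq_lrl hη]
  refine Finset.sum_congr rfl fun j _ => ?_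
  rw [Finset.sum_comm]
  refine Finset.sum_congr rfl fun f _ => Finset.sum_congr rfl fun k _ => ?_
  rw [hη.s23 (.inl j) (.inr f) (.inl k), neg_sq]

private theorem spd_sq_rlr {η : Idx d → Idx d → Idx d → ℝ} (hη : Form3 η) :
    ∑ f : Fin d, ∑ k : Fin 6, ∑ g : Fin d, η (.inr f) (.inl k) (.inr g) ^ 2
      = ∑ f : Fin d, ∑ g : Fin d, ∑ k : Fin 6, η (.inr f) (.inr g) (.inl k) ^ 2 := by
  refine Finset.sum_congr rfl fun f _ => ?_
  rw [Finset.sum_comm]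
  refine Finset.sum_congr rfl fun g _ => Finset.sum_congr rfl fun k _ => ?_
  rw [hη.s23 (.inr f) (.inr g) (.inl k), neg_sq]

private theorem spd_sq_lrr {η : Idx d → Idx d → Idx d → ℝ} (hη : Form3 η) :
    ∑ k : Fin 6, ∑ f : Fin d, ∑ g : Fin d, η (.inl k) (.inr f) (.inr g) ^ 2
      = ∑ f : Fin d, ∑ g : Fin d, ∑ k : Fin 6, η (.inr f) (.inr g) (.inl k) ^ 2 := by
  rw [← spd_sq_rlr hη, Finset.sum_comm]
  refine Finset.sum_congr rfl fun f _ => Finset.sum_congr rfl fun k _ =>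
    Finset.sum_congr rfl fun g _ => ?_
  rw [hη.s12 (.inr f) (.inl k) (.inr g), neg_sq]

theorem ip3_split {η : Idx d → Idx d → Idx d → ℝ} (hη : Form3 η) :
    ip3 η η = E0 η + E1 η + E2 η + E3 η := by
  have h1 := spd_sq_lrl hη
  have h2 := spd_sq_llr hη
  have h3 := spd_sq_rlr hη
  have h4 := spd_sq_lrr hη
  unfold ip3 E0 E1 E2 E3
  simp only [Fintype.sum_sum_type, Finset.sum_add_distrib, ← pow_two]
  rw [h1, h2, h3, h4]
  ring

private theorem spd_two {x y α β e f : ℝ} (hα : 0 ≤ α) (hβ : 0 ≤ β) (he : 0 ≤ e) (hf : 0 ≤ f)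
    (hx : x ^ 2 ≤ α * e) (hy : y ^ 2 ≤ β * f) : 2 * (x * y) ≤ α * f + β * e := by
  have h1 : (2 * (x * y)) ^ 2 ≤ (α * f + β * e) ^ 2 := by
    have h2 : x ^ 2 * y ^ 2 ≤ (α * e) * (β * f) :=
      mul_le_mul hx hy (sq_nonneg _) (mul_nonneg hα he)
    have h3 : 0 ≤ (α * f - β * e) ^ 2 := sq_nonneg _
    nlinarith
  exact le_of_sq_le_sq_aux h1 (add_nonneg (mul_nonneg hα hf) (mul_nonneg hβ he))
where
  le_of_sq_le_sq_aux {p q : ℝ} (h : p ^ 2 ≤ q ^ 2) (hq : 0 ≤ q) : p ≤ q :=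
    le_of_not_gt fun hlt => by nlinarith

private theorem spd_three {x y z α β γ e f g : ℝ} (hα : 0 ≤ α) (hβ : 0 ≤ β) (hγ : 0 ≤ γ)
    (he : 0 ≤ e) (hf : 0 ≤ f) (hg : 0 ≤ g)
    (hx : x ^ 2 ≤ α * e) (hy : y ^ 2 ≤ β * f) (hz : z ^ 2 ≤ γ * g) :
    (x + y + z) ^ 2 ≤ (α + β + γ) * (e + f + g) := by
  have h1 := spd_two hα hβ he hf hx hy
  have h2 := spd_two hα hγ he hg hx hz
  have h3 := spd_two hβ hγ hf hg hy hz
  nlinarith

private theorem spd_aL_nonneg (L : Idx d → Idx d → ℝ) : 0 ≤ aL L := by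
  unfold aL
  have h : 0 ≤ ∑ i, xi L i ^ 2 := Finset.sum_nonneg fun i _ => sq_nonneg _
  linarith

private theorem spd_bL_nonneg (L : Idx d → Idx d → ℝ) : 0 ≤ bL L := by
  unfold bL
  have h : 0 ≤ ∑ i : Fin 6, ∑ f : Fin d, L (.inl i) (.inr f) ^ 2 :=
    Finset.sum_nonneg fun i _ => Finset.sum_nonneg fun f _ => sq_nonneg _
  linarith

private theorem spd_B2_nonneg (L : Idx d → Idx d → ℝ) : 0 ≤ B2 L :=
  Finset.sum_nonneg fun _ _ => Finset.sum_nonneg fun _ _ => sq_nonneg _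

private theorem spd_E0_nonneg (η : Idx d → Idx d → Idx d → ℝ) : 0 ≤ E0 η := by
  unfold E0
  have h : 0 ≤ ∑ i : Fin 6, ∑ j : Fin 6, ∑ k : Fin 6, η (.inl i) (.inl j) (.inl k) ^ 2 :=
    Finset.sum_nonneg fun _ _ => Finset.sum_nonneg fun _ _ => Finset.sum_nonneg fun _ _ =>
      sq_nonneg _
  linarith

private theorem spd_E1_nonneg (η : Idx d → Idx d → Idx d → ℝ) : 0 ≤ E1 η := by
  unfold E1
  have h : 0 ≤ ∑ f : Fin d, ∑ j : Fin 6, ∑ k : Fin 6, η (.inr f) (.inl j) (.inl k) ^ 2 :=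
    Finset.sum_nonneg fun _ _ => Finset.sum_nonneg fun _ _ => Finset.sum_nonneg fun _ _ =>
      sq_nonneg _
  linarith

private theorem spd_E2_nonneg (η : Idx d → Idx d → Idx d → ℝ) : 0 ≤ E2 η := by
  unfold E2
  have h : 0 ≤ ∑ f : Fin d, ∑ g : Fin d, ∑ k : Fin 6, η (.inr f) (.inr g) (.inl k) ^ 2 :=
    Finset.sum_nonneg fun _ _ => Finset.sum_nonneg fun _ _ => Finset.sum_nonneg fun _ _ =>
      sq_nonneg _
  linarith

private theorem spd_E3_nonneg (η : Idx d → Idx d → Idx d → ℝ) : 0 ≤ E3 η := by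
  unfold E3
  have h : 0 ≤ ∑ f : Fin d, ∑ g : Fin d, ∑ h : Fin d, η (.inr f) (.inr g) (.inr h) ^ 2 :=
    Finset.sum_nonneg fun _ _ => Finset.sum_nonneg fun _ _ => Finset.sum_nonneg fun _ _ =>
      sq_nonneg _
  linarith

/-- `|p + q| ≤ (a + σ) √E` from the two bounds -/
private theorem spd_pq {p q a σ E : ℝ} (ha : 0 ≤ a) (hσ : 0 ≤ σ) (hE : 0 ≤ E)
    (hp : p ^ 2 ≤ a ^ 2 * E) (hq : q ^ 2 ≤ σ ^ 2 * E) : (p + q) ^ 2 ≤ (a + σ) ^ 2 * E := by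
  have h1 : 0 ≤ √E := Real.sqrt_nonneg _
  have h2 : √E ^ 2 = E := Real.sq_sqrt hE
  have h3 : |p| ≤ a * √E := by
    apply abs_le_of_sq_le_sq _ (mul_nonneg ha h1)
    rw [mul_pow, h2]; exact hp
  have h4 : |q| ≤ σ * √E := by
    apply abs_le_of_sq_le_sq _ (mul_nonneg hσ h1)
    rw [mul_pow, h2]; exact hq
  have h5 : |p + q| ≤ (a + σ) * √E := by
    have := abs_add_le p q
    nlinarith
  have h6 : (p + q) ^ 2 ≤ ((a + σ) * √E) ^ 2 := by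
    rw [← sq_abs (p + q)]
    exact pow_le_pow_left₀ (abs_nonneg _) h5 2
  rw [mul_pow, h2] at h6
  exact h6

theorem Sp_bound {η : Idx d → Idx d → Idx d → ℝ} (hη : Form3 η) (hN : NCond η)
    {L : Idx d → Idx d → ℝ} (hL : Skew L) :
    ∃ σ : ℝ, 0 ≤ σ ∧ σ ≤ bL L ∧ ip3 (rho L Om) (rho L η) ^ 2
      ≤ ((aL L + σ) ^ 2 + 8 * aL L * bL L + 2 * (bL L ^ 2 - σ ^ 2)) * ip3 η η := by
  have ha := spd_aL_nonneg L
  have hb := spd_bL_nonneg L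
  have hB2 := spd_B2_nonneg L
  have hAB := A2_B2_nonneg L
  have hABle := A2_B2_le L hL
  have hE0 := spd_E0_nonneg η
  have hE1 := spd_E1_nonneg η
  have hE2 := spd_E2_nonneg η
  have hE3 := spd_E3_nonneg η
  obtain ⟨σ, hσ0, hσ2⟩ : ∃ σ : ℝ, 0 ≤ σ ∧ σ ^ 2 = 1 / 4 * (A2 L - B2 L) := by
    refine ⟨1 / 2 * √(A2 L - B2 L), by positivity, ?_⟩
    rw [mul_pow, Real.sq_sqrt hAB]
    ring
  have hσb : σ ≤ bL L := by
    apply le_of_not_gt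
    intro hlt
    nlinarith
  refine ⟨σ, hσ0, hσb, ?_⟩
  rw [Sp_formula hη hN hL, ip3_split hη]
  have hT1 := TT_one hη hN (xi L)
  have hT2 := TT_sum hη hN L
  have hBY := BY_le hη hL
  have hYY := YY_le hη hL
  have ha2 : ∑ i, xi L i ^ 2 = aL L / 2 := by unfold aL; ring
  rw [ha2] at hT1
  rw [← hσ2] at hT2
  have hp : (4 * (∑ i, ∑ j, TT η i j * xi L i * xi L j)) ^ 2 ≤ aL L ^ 2 * E0 η := by
    nlinarith
  have hq : (∑ f, ∑ i, ∑ j, TT η i j * Yv L f i * Yv L f j) ^ 2 ≤ σ ^ 2 * E0 η := by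
    linarith
  have hpq := spd_pq ha hσ0 hE0 hp hq
  have hr : (2 * BY L η) ^ 2 ≤ (8 * aL L * bL L) * E1 η := by nlinarith
  have hs : YY L η ^ 2 ≤ (2 * (bL L ^ 2 - σ ^ 2)) * E2 η := by
    have h1 : 1 / 2 * (4 * bL L ^ 2 - A2 L - B2 L) ≤ 2 * (bL L ^ 2 - σ ^ 2) := by
      rw [hσ2]; linarith
    exact le_trans hYY (mul_le_mul_of_nonneg_right h1 hE2)
  have hγ : 0 ≤ 2 * (bL L ^ 2 - σ ^ 2) := by
    nlinarith
  have hαβ : 0 ≤ 8 * aL L * bL L := by positivity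
  have hα : 0 ≤ (aL L + σ) ^ 2 := sq_nonneg _
  have h3 := spd_three hα hαβ hγ hE0 hE1 hE2 hpq hr hs
  refine le_trans h3 ?_
  apply mul_le_mul_of_nonneg_left _ (by positivity)
  linarith

theorem Sp_le1 {η : Idx d → Idx d → Idx d → ℝ} (hη : Form3 η) (hN : NCond η)
    {L : Idx d → Idx d → ℝ} (hL : Skew L) :
    ip3 (rho L Om) (rho L η) ^ 2 ≤ 3 * (aL L + bL L) ^ 2 * ip3 η η := by
  obtain ⟨σ, hσ0, hσb, h⟩ := Sp_bound hη hN hL
  refine le_trans h (mul_le_mul_of_nonneg_right ?_ (ip3_self_nonneg η))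
  nlinarith [sq_nonneg (aL L - bL L), sq_nonneg (aL L - σ)]

theorem Sp_le2 {η : Idx d → Idx d → Idx d → ℝ} (hη : Form3 η) (hN : NCond η)
    {L : Idx d → Idx d → ℝ} (hL : Skew L) :
    ip3 (rho L Om) (rho L η) ^ 2
      ≤ (6 / 5 * aL L + 14 / 5 * bL L) ^ 2 * ip3 η η := by
  obtain ⟨σ, hσ0, hσb, h⟩ := Sp_bound hη hN hL
  have ha := spd_aL_nonneg L
  have hb := spd_bL_nonneg L
  refine le_trans h (mul_le_mul_of_nonneg_right ?_ (ip3_self_nonneg η))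
  rcases le_total (aL L) (bL L) with hab | hab
  · nlinarith [sq_nonneg (σ - aL L), mul_nonneg ha (sub_nonneg.2 hab),
      mul_nonneg hb (sub_nonneg.2 hab), mul_nonneg ha hb, sq_nonneg (bL L)]
  · nlinarith [mul_nonneg (sub_nonneg.2 hσb) (sub_nonneg.2 hab),
      mul_nonneg (sub_nonneg.2 hσb) (sub_nonneg.2 hσb),
      sq_nonneg (aL L - 41 / 11 * bL L), sq_nonneg (bL L)]

end Pool.Hopf3
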