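import Pool.Agent.Lib.MP_4a593f_gt.P3.Arith3
import Pool.Agent.Lib.MP_4a593f_gt.P3.SpD
import Pool.Agent.Lib.MP_4a593f_gt.P3.QJ
import Pool.Agent.Lib.MP_4a593f_gt.P3.Cross
import Pool.Agent.Lib.MP_4a593f_gt.P3.StdC
import Pool.Agent.Lib.MP_4a593f_gt.P3.JSq
import Pool.Agent.Lib.MP_4a593f_gt.P3.Gone

namespace Pool.Hopf3

open Finset

variable {d : ℕ}

private theorem large_ip2_JJ (L : Idx d → Idx d → ℝ) :
    ip2 L JJ = 1 / 2 * ((L (.inl 0) (.inl 1) - L (.inl 1) (.inl 0))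
      + (L (.inl 2) (.inl 3) - L (.inl 3) (.inl 2))
      + (L (.inl 4) (.inl 5) - L (.inl 5) (.inl 4))) := by
  unfold ip2
  rw [Fintype.sum_sum_type]
  simp only [Fintype.sum_sum_type, JJ, mul_zero, Finset.sum_const_zero, add_zero]
  simp only [J6, w2, kd, Fin.sum_univ_six]
  simp (decide := true)
  ring

private theorem large_ip2_sub_smul (L M : Idx d → Idx d → ℝ) (c : ℝ) :
    ip2 (L - c • M) (L - c • M) = ip2 L L - 2 * c * ip2 L M + c ^ 2 * ip2 M M := by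
  unfold ip2
  have h : ∀ i j, (L - c • M) i j * (L - c • M) i j
      = L i j * L i j - 2 * c * (L i j * M i j) + c ^ 2 * (M i j * M i j) := by
    intro i j
    simp only [Pi.sub_apply, Pi.smul_apply, smul_eq_mul]
    ring
  simp only [h, Finset.sum_add_distrib, Finset.sum_sub_distrib, ← Finset.mul_sum]
  ring

private theorem large_ip2_JJ_skew {L : Idx d → Idx d → ℝ} (hL : Skew L) :
    ip2 L JJ = th L := by
  rw [large_ip2_JJ, hL (.inl 0) (.inl 1), hL (.inl 2) (.inl 3), hL (.inl 4) (.inl 5)]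
  unfold th
  ring

private theorem large_th_JJ : th (JJ : Idx d → Idx d → ℝ) = 3 := by
  simp only [th, JJ, J6, w2, kd]
  simp (decide := true)
  norm_num

private theorem large_ip2_JJ_JJ : ip2 (JJ : Idx d → Idx d → ℝ) JJ = 3 := by
  rw [large_ip2_JJ_skew JJ_skew, large_th_JJ]

private theorem large_aL_nonneg (L : Idx d → Idx d → ℝ) : 0 ≤ aL L := by
  unfold aL
  have : 0 ≤ ∑ i, xi L i ^ 2 := Finset.sum_nonneg (fun i _ => sq_nonneg _)
  linarith

private theorem large_bL_nonneg (L : Idx d → Idx d → ℝ) : 0 ≤ bL L := by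
  unfold bL
  have : 0 ≤ ∑ i : Fin 6, ∑ f : Fin d, L (.inl i) (.inr f) ^ 2 :=
    Finset.sum_nonneg (fun i _ => Finset.sum_nonneg (fun f _ => sq_nonneg _))
  linarith

private theorem large_th_sub (L : Idx d → Idx d → ℝ) (c : ℝ) :
    th (L - c • JJ) = th L - c * 3 := by
  rw [← large_th_JJ (d := d)]
  unfold th
  simp only [Pi.sub_apply, Pi.smul_apply, smul_eq_mul]
  ring

private theorem large_xi_sub (L : Idx d → Idx d → ℝ) (c : ℝ) :
    xi (L - c • JJ) = xi L := by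
  have e : ∀ i j : Fin 6, (L - c • (JJ : Idx d → Idx d → ℝ)) (.inl i) (.inl j)
      = L (.inl i) (.inl j) - c * J6 i j := by
    intro i j
    simp only [Pi.sub_apply, Pi.smul_apply, smul_eq_mul, JJ]
  unfold xi
  simp only [e, J6, w2, kd]
  simp (decide := true)

private theorem large_aL_sub (L : Idx d → Idx d → ℝ) (c : ℝ) :
    aL (L - c • JJ) = aL L := by
  unfold aL
  rw [large_xi_sub]

private theorem large_bL_sub (L : Idx d → Idx d → ℝ) (c : ℝ) :
    bL (L - c • JJ) = bL L := by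
  unfold bL
  simp only [Pi.sub_apply, Pi.smul_apply, smul_eq_mul, JJ, mul_zero, sub_zero]

private theorem large_th_neg (L : Idx d → Idx d → ℝ) : th ((-1 : ℝ) • L) = - th L := by
  unfold th
  simp only [Pi.smul_apply, smul_eq_mul]
  ring

private theorem large_aL_neg (L : Idx d → Idx d → ℝ) : aL ((-1 : ℝ) • L) = aL L := by
  unfold aL xi
  simp only [Fin.sum_univ_six, Pi.smul_apply, smul_eq_mul]
  simp
  ring

private theorem large_bL_neg (L : Idx d → Idx d → ℝ) : bL ((-1 : ℝ) • L) = bL L := by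
  unfold bL
  congr 1
  refine Finset.sum_congr rfl fun i _ => Finset.sum_congr rfl fun f _ => ?_
  simp only [Pi.smul_apply, smul_eq_mul]
  ring

private theorem large_ip2_neg (L : Idx d → Idx d → ℝ) :
    ip2 ((-1 : ℝ) • L) ((-1 : ℝ) • L) = ip2 L L := by
  unfold ip2
  congr 1
  refine Finset.sum_congr rfl fun i _ => Finset.sum_congr rfl fun f _ => ?_
  simp only [Pi.smul_apply, smul_eq_mul]
  ring

/-- `rho L (c Om + η)` -/
private theorem large_rho (L : Idx d → Idx d → ℝ) (c : ℝ) (η : Idx d → Idx d → Idx d → ℝ) :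
    rho L (c • Om + η) = c • rho L Om + rho L η := by
  rw [rho_add, rho_smul]

private theorem large_bessel {η : Idx d → Idx d → Idx d → ℝ} (hη : Form3 η) (hN : NCond η)
    (c : ℝ) {L : Idx d → Idx d → ℝ} (hL : Skew L) :
    c ^ 2 * th L ^ 2 * (aL L + bL L)
      + (c * (aL L + bL L) + ip3 (rho L Om) (rho L η)) ^ 2
      ≤ ip3 (rho L (c • Om + η)) (rho L (c • Om + η)) * (aL L + bL L) := by
  have h1 := ip3_rho_Om hL
  have h2 := ip3_rho_Om_Oi hL
  have h3 := ip3_rho_ncond_Oi hη hN hL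
  have h4 : ip3 (Oi : Idx d → Idx d → Idx d → ℝ) Oi = 1 := ip3_Oi_Oi
  have huv : ip3 Oi (rho L Om + th L • Oi) = 0 := by
    rw [ip3_add_right, ip3_smul_right, ip3_comm Oi (rho L Om), h2, h4]
    ring
  have hvv : ip3 (rho L Om + th L • Oi) (rho L Om + th L • Oi) = aL L + bL L := by
    rw [ip3_add_right, ip3_add_left, ip3_add_left, ip3_smul_left, ip3_smul_left, ip3_smul_right,
      ip3_smul_right, ip3_comm Oi (rho L Om), h1, h2, h4]
    ring
  have hRu : ip3 (rho L (c • Om + η)) Oi = - c * th L := by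
    rw [large_rho, ip3_add_left, ip3_smul_left, h2, h3]
    ring
  have hRv : ip3 (rho L (c • Om + η)) (rho L Om + th L • Oi)
      = c * (aL L + bL L) + ip3 (rho L Om) (rho L η) := by
    rw [ip3_add_right, ip3_smul_right, hRu, large_rho, ip3_add_left, ip3_smul_left, h1,
      ip3_comm (rho L η) (rho L Om)]
    ring
  have h := ip3_bessel2 (rho L (c • Om + η)) Oi (rho L Om + th L • Oi) huv h4
  rw [hvv, hRu, hRv] at h
  calc _ = (-c * th L) ^ 2 * (aL L + bL L)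
      + (c * (aL L + bL L) + ip3 (rho L Om) (rho L η)) ^ 2 := by ring
    _ ≤ _ := h

private theorem large_bessel1 {η : Idx d → Idx d → Idx d → ℝ} (hη : Form3 η) (hN : NCond η)
    (c : ℝ) {L : Idx d → Idx d → ℝ} (hL : Skew L) :
    c ^ 2 * th L ^ 2 ≤ ip3 (rho L (c • Om + η)) (rho L (c • Om + η)) := by
  have h2 := ip3_rho_Om_Oi hL
  have h3 := ip3_rho_ncond_Oi hη hN hL
  have h4 : ip3 (Oi : Idx d → Idx d → Idx d → ℝ) Oi = 1 := ip3_Oi_Oi
  have hRu : ip3 (rho L (c • Om + η)) Oi = - c * th L := by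
    rw [large_rho, ip3_add_left, ip3_smul_left, h2, h3]
    ring
  have h := ip3_bessel1 (rho L (c • Om + η)) Oi h4
  rw [hRu] at h
  calc _ = (-c * th L) ^ 2 := by ring
    _ ≤ _ := h

theorem large_lower {η : Idx d → Idx d → Idx d → ℝ} (hη : Form3 η) (hN : NCond η) {c : ℝ}
    (hc : 0 ≤ c) (hcE : c ^ 2 + ip3 η η = 1) {L : Idx d → Idx d → ℝ} (hL : Skew L) :
    0 ≤ ip3 (rho L (c • Om + η)) (rho L (c • Om + η))
      - max 0 ((1 - 5 * ip3 η η) / 4) * quad4 QJ L := by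
  have hE0 : 0 ≤ ip3 η η := ip3_self_nonneg η
  have hR0 : 0 ≤ ip3 (rho L (c • Om + η)) (rho L (c • Om + η)) := ip3_self_nonneg _
  rcases le_total (1 / 5) (ip3 η η) with hE | hE
  · have hm : max 0 ((1 - 5 * ip3 η η) / 4) = 0 := max_eq_left (by linarith)
    rw [hm]
    linarith
  · have hm : max 0 ((1 - 5 * ip3 η η) / 4) = (1 - 5 * ip3 η η) / 4 :=
      max_eq_right (by linarith)
    rw [hm]
    have hs0 : 0 ≤ √(ip3 η η) := Real.sqrt_nonneg _
    have hs2 : √(ip3 η η) ^ 2 = ip3 η η := Real.sq_sqrt hE0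
    obtain ⟨hl1, hl2⟩ := lower_arith hc hs0 hs2 hcE hE
    have ha := large_aL_nonneg L
    have hb := large_bL_nonneg L
    have hQ := quad_QJ_le hL
    have hm0 : 0 ≤ (1 - 5 * ip3 η η) / 4 := by linarith
    have hQ' : (1 - 5 * ip3 η η) / 4 * quad4 QJ L
        ≤ (1 - 5 * ip3 η η) / 4 * (2 / 3 * th L ^ 2 + aL L) :=
      mul_le_mul_of_nonneg_left hQ hm0
    have hc2 : (1 - 5 * ip3 η η) / 4 * (2 / 3) ≤ c ^ 2 := by nlinarith
    have h1 : (1 - 5 * ip3 η η) / 4 * (2 / 3) * th L ^ 2 ≤ c ^ 2 * th L ^ 2 :=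
      mul_le_mul_of_nonneg_right hc2 (sq_nonneg _)
    rcases (add_nonneg ha hb).eq_or_lt with hg | hg
    · have haz : aL L = 0 := by linarith
      have hB := large_bessel1 hη hN c hL
      rw [haz] at hQ'
      nlinarith
    · set g := aL L + bL L with hgd
      set S := ip3 (rho L Om) (rho L η) with hS
      set w := c - √3 * √(ip3 η η) with hw
      have hB := large_bessel hη hN c hL
      rw [← hgd, ← hS] at hB
      have hSle : S ^ 2 ≤ (√3 * √(ip3 η η) * g) ^ 2 := by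
        have := Sp_le1 hη hN hL
        calc S ^ 2 ≤ 3 * g ^ 2 * ip3 η η := this
          _ = (√3 * √(ip3 η η) * g) ^ 2 := by
            rw [mul_pow, mul_pow, hs2, Real.sq_sqrt (by norm_num : (0:ℝ) ≤ 3)]
            ring
      have hS1 : - (√3 * √(ip3 η η) * g) ≤ S :=
        (abs_le.1 (abs_le_of_sq_le_sq hSle (by positivity))).1
      have hS2 : w * g ≤ c * g + S := by
        rw [hw]; linarith
      have hS3 : (w * g) ^ 2 ≤ (c * g + S) ^ 2 :=
        pow_le_pow_left₀ (mul_nonneg hl1 hg.le) hS2 2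
      have h2 : (c ^ 2 * th L ^ 2 + w ^ 2 * g) * g
          ≤ ip3 (rho L (c • Om + η)) (rho L (c • Om + η)) * g := by
        calc _ = c ^ 2 * th L ^ 2 * g + (w * g) ^ 2 := by ring
          _ ≤ c ^ 2 * th L ^ 2 * g + (c * g + S) ^ 2 := by linarith
          _ ≤ _ := hB
      have h3 : c ^ 2 * th L ^ 2 + w ^ 2 * g
          ≤ ip3 (rho L (c • Om + η)) (rho L (c • Om + η)) := le_of_mul_le_mul_right h2 hg
      have h4 : (1 - 5 * ip3 η η) / 4 * aL L ≤ w ^ 2 * aL L :=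
        mul_le_mul_of_nonneg_right hl2 ha
      have h5 : w ^ 2 * aL L ≤ w ^ 2 * g :=
        mul_le_mul_of_nonneg_left (by linarith) (sq_nonneg _)
      linarith

/-- the norm of `rho L' η` for `L' = L - (th L / 3) JJ` -/
private theorem large_rest {η : Idx d → Idx d → Idx d → ℝ} (hη : Form3 η) (hN : NCond η)
    {L : Idx d → Idx d → ℝ} (hL : Skew L) {s : ℝ} (hs2 : s ^ 2 = ip3 η η) :
    ip3 (rho (L - (th L / 3) • JJ) η) (rho (L - (th L / 3) • JJ) η)
      ≤ 15 / 4 * s ^ 2 * (ip2 L L - th L ^ 2 / 3) - s * ip3 (rho L Om) (rho L η)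
        - s ^ 2 / 4 * (aL L + bL L) := by
  set T := th L with hT
  set M : Idx d → Idx d → ℝ := L - (T / 3) • JJ with hM
  have hskM : Skew M := hL.sub (JJ_skew.smul _)
  have hthM : th M = 0 := by
    rw [hM, large_th_sub, ← hT]; ring
  have haM : aL M = aL L := by rw [hM, large_aL_sub]
  have hbM : bL M = bL L := by rw [hM, large_bL_sub]
  have hMM : ip2 M M = ip2 L L - T ^ 2 / 3 := by
    rw [hM, large_ip2_sub_smul, large_ip2_JJ_skew hL, large_ip2_JJ_JJ, ← hT]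
    ring
  have hηOm : ip3 η Om = 0 := by
    rw [ip3_Om hη, hN.om, mul_zero]
  have h1 := rho_norm_le hskM (hη.add (Om_form.smul (s / 2)))
  have hχ : ip3 (η + (s / 2) • Om) (η + (s / 2) • Om) = 5 / 4 * s ^ 2 := by
    rw [ip3_add_right, ip3_add_left, ip3_add_left, ip3_smul_left, ip3_smul_left, ip3_smul_right,
      ip3_smul_right, ip3_comm Om η, hηOm, ip3_Om_Om, ← hs2]
    ring
  have hMOm : rho M Om = rho L Om + T • Oi := by
    rw [hM, rho_sub_left, rho_smul_left, rho_JJ_Om]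
    funext i j k
    simp only [Pi.sub_apply, Pi.add_apply, Pi.smul_apply, smul_eq_mul]
    ring
  have hMη : rho M η = rho L η - (T / 3) • rho JJ η := by
    rw [hM, rho_sub_left, rho_smul_left]
  have hcross : ip3 (rho M η) (rho M Om) = ip3 (rho L Om) (rho L η) := by
    rw [hMOm, ip3_add_right, ip3_smul_right, ip3_rho_ncond_Oi hη hN hskM, hMη, ip3_sub_left,
      ip3_smul_left, ip3_comm (rho JJ η) (rho L Om), ip3_rho_Om_rho_JJ hη hN hL,
      ip3_comm (rho L η) (rho L Om)]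
    ring
  have hOO : ip3 (rho M Om) (rho M Om) = aL L + bL L := by
    rw [ip3_rho_Om hskM, hthM, haM, hbM]
    ring
  have hexp : ip3 (rho M (η + (s / 2) • Om)) (rho M (η + (s / 2) • Om))
      = ip3 (rho M η) (rho M η) + s * ip3 (rho L Om) (rho L η)
        + s ^ 2 / 4 * (aL L + bL L) := by
    rw [rho_add, rho_smul, ip3_add_right, ip3_add_left, ip3_add_left, ip3_smul_left,
      ip3_smul_left, ip3_smul_right, ip3_smul_right, ip3_comm (rho M Om) (rho M η), hcross, hOO]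
    ring
  rw [hexp, hχ, hMM] at h1
  linarith

/-- the cross term -/
private theorem large_cross {η : Idx d → Idx d → Idx d → ℝ} (hη : Form3 η) (hN : NCond η)
    {L : Idx d → Idx d → ℝ} (hL : Skew L) {t l y e o : ℝ} (hl : 0 ≤ l) (hy : 0 ≤ y)
    (he : 0 ≤ e) (ho : 0 ≤ o) (ht : t = |th L| / √3)
    (hl2 : l ^ 2 = ip2 L L - th L ^ 2 / 3 - aL L - 2 * bL L) (hy2 : y ^ 2 = 2 * bL L)
    (he2 : e ^ 2 = ip3 (evp η) (evp η)) (ho2 : o ^ 2 = ip3 η η - ip3 (evp η) (evp η)) :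
    2 * (th L / 3) * ip3 (rho JJ η) (rho (L - (th L / 3) • JJ) η)
      ≤ 2 * t * (l * e ^ 2 + y * e * o) := by
  set T := th L with hT
  set M : Idx d → Idx d → ℝ := L - (T / 3) • JJ with hM
  have hskM : Skew M := hL.sub (JJ_skew.smul _)
  have hthM : th M = 0 := by
    rw [hM, large_th_sub, ← hT]; ring
  have haM : aL M = aL L := by rw [hM, large_aL_sub]
  have hbM : bL M = bL L := by rw [hM, large_bL_sub]
  have hMM : ip2 M M = ip2 L L - T ^ 2 / 3 := by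
    rw [hM, large_ip2_sub_smul, large_ip2_JJ_skew hL, large_ip2_JJ_JJ, ← hT]
    ring
  have h3 : (√3 : ℝ) ^ 2 = 3 := Real.sq_sqrt (by norm_num)
  have h30 : (0 : ℝ) < √3 := Real.sqrt_pos.2 (by norm_num)
  have hTt : |T| * √3 = 3 * t := by
    rw [ht]
    field_simp
    rw [h3]
  have c1 : ip3 (rho JJ η) (rho M η) ≤ √3 * (l * e ^ 2 + y * e * o) :=
    cross_le hη hN hskM hthM hl hy he ho (by rw [hMM, haM, hbM, hl2]) (by rw [hbM, hy2]) he2 ho2
  have c2 : - ip3 (rho JJ η) (rho M η) ≤ √3 * (l * e ^ 2 + y * e * o) := by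
    have := cross_le hη hN (hskM.smul (-1)) (by rw [large_th_neg, hthM, neg_zero]) hl hy he ho
      (by rw [large_ip2_neg, large_aL_neg, large_bL_neg, hMM, haM, hbM, hl2])
      (by rw [large_bL_neg, hbM, hy2]) he2 ho2
    rw [rho_smul_left, ip3_smul_right] at this
    linarith
  have c3 : |ip3 (rho JJ η) (rho M η)| ≤ √3 * (l * e ^ 2 + y * e * o) :=
    abs_le.2 ⟨by linarith, c1⟩
  calc 2 * (T / 3) * ip3 (rho JJ η) (rho M η)
      ≤ |2 * (T / 3) * ip3 (rho JJ η) (rho M η)| := le_abs_self _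
    _ = 2 / 3 * |T| * |ip3 (rho JJ η) (rho M η)| := by
        rw [abs_mul, show 2 * (T / 3) = 2 / 3 * T by ring, abs_mul,
          abs_of_pos (by norm_num : (0:ℝ) < 2 / 3)]
    _ ≤ 2 / 3 * |T| * (√3 * (l * e ^ 2 + y * e * o)) :=
        mul_le_mul_of_nonneg_left c3 (by positivity)
    _ = 2 / 3 * (|T| * √3) * (l * e ^ 2 + y * e * o) := by ring
    _ = _ := by rw [hTt]; ring

theorem large_upper {η : Idx d → Idx d → Idx d → ℝ} (hη : Form3 η) (hN : NCond η) {c : ℝ}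
    (hc : 0 ≤ c) (hcE : c ^ 2 + ip3 η η = 1) (hE : ip3 η η ≤ 184 / 625)
    {L : Idx d → Idx d → ℝ} (hL : Skew L) :
    ip3 (rho L (c • Om + η)) (rho L (c • Om + η))
      - max 0 ((1 - 5 * ip3 η η) / 4) * quad4 QJ L ≤ 5 / 2 * ip2 L L := by
  have hE0 : 0 ≤ ip3 η η := ip3_self_nonneg η
  have ha := large_aL_nonneg L
  have hb := large_bL_nonneg L
  have hev0 : 0 ≤ ip3 (evp η) (evp η) := ip3_self_nonneg _
  have hev1 : ip3 (evp η) (evp η) ≤ ip3 η η := ip3_evp_le η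
  have hip := le_ip2 hL
  obtain ⟨s, hs, hs2⟩ : ∃ s : ℝ, 0 ≤ s ∧ s ^ 2 = ip3 η η :=
    ⟨√(ip3 η η), Real.sqrt_nonneg _, Real.sq_sqrt hE0⟩
  obtain ⟨l, hl, hl2⟩ : ∃ l : ℝ, 0 ≤ l ∧ l ^ 2 = ip2 L L - th L ^ 2 / 3 - aL L - 2 * bL L :=
    ⟨√(ip2 L L - th L ^ 2 / 3 - aL L - 2 * bL L), Real.sqrt_nonneg _,
      Real.sq_sqrt (by linarith)⟩
  obtain ⟨y, hy, hy2⟩ : ∃ y : ℝ, 0 ≤ y ∧ y ^ 2 = 2 * bL L :=
    ⟨√(2 * bL L), Real.sqrt_nonneg _, Real.sq_sqrt (by linarith)⟩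
  obtain ⟨e, he, he2⟩ : ∃ e : ℝ, 0 ≤ e ∧ e ^ 2 = ip3 (evp η) (evp η) :=
    ⟨√(ip3 (evp η) (evp η)), Real.sqrt_nonneg _, Real.sq_sqrt hev0⟩
  obtain ⟨o, ho, ho2⟩ : ∃ o : ℝ, 0 ≤ o ∧ o ^ 2 = ip3 η η - ip3 (evp η) (evp η) :=
    ⟨√(ip3 η η - ip3 (evp η) (evp η)), Real.sqrt_nonneg _, Real.sq_sqrt (by linarith)⟩
  obtain ⟨t, ht, htd⟩ : ∃ t : ℝ, 0 ≤ t ∧ t = |th L| / √3 := ⟨|th L| / √3, by positivity, rfl⟩
  have h3 : (√3 : ℝ) ^ 2 = 3 := Real.sq_sqrt (by norm_num)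
  have ht2 : t ^ 2 = th L ^ 2 / 3 := by
    rw [htd, div_pow, sq_abs, h3]
  have hm0 : 0 ≤ max 0 ((1 - 5 * ip3 η η) / 4) := le_max_left _ _
  obtain ⟨s', hs'0, hs'⟩ : ∃ s' : ℝ, 0 ≤ s' ∧ s' = max 0 ((1 - 5 * ip3 η η) / 4) :=
    ⟨_, hm0, rfl⟩
  rw [← hs']
  have hA := upper_arith (t := t) (l := l) (y := y) (a := aL L) (b := bL L) (e := e) (o := o)
    (s := s) (c := c) (s' := s') ht hl hy ha he ho hs hc (by rw [hs2, hcE])
    (by rw [he2, ho2, hs2]; ring) (by rw [hs2]; exact hE) (by rw [hy2]) (by rw [hs', hs2])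
  -- the form
  set S := ip3 (rho L Om) (rho L η) with hS
  have hrest := large_rest hη hN hL hs2
  have hcross := large_cross hη hN hL hl hy he ho htd hl2 hy2 he2 ho2
  set M : Idx d → Idx d → ℝ := L - (th L / 3) • JJ with hM
  have hLM : L = (th L / 3) • JJ + M := by
    rw [hM]; abel
  have hη1 : ip3 (rho L η) (rho L η) = t ^ 2 / 3 * e ^ 2
      + 2 * (th L / 3) * ip3 (rho JJ η) (rho M η) + ip3 (rho M η) (rho M η) := by
    have h0 : rho L η = (th L / 3) • rho JJ η + rho M η := by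
      conv_lhs => rw [hLM]
      rw [rho_add_left, rho_smul_left]
    rw [h0, ip3_add_right, ip3_add_left, ip3_add_left, ip3_smul_left, ip3_smul_left,
      ip3_smul_right, ip3_smul_right, ip3_comm (rho M η) (rho JJ η),
      ip3_rho_JJ hη hN.toNC1, ← he2, ht2]
    ring
  have hR : ip3 (rho L (c • Om + η)) (rho L (c • Om + η))
      = c ^ 2 * (th L ^ 2 + aL L + bL L) + 2 * c * S + ip3 (rho L η) (rho L η) := by
    rw [large_rho, ip3_add_right, ip3_add_left, ip3_add_left, ip3_smul_left, ip3_smul_left,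
      ip3_smul_right, ip3_smul_right, ip3_comm (rho L η) (rho L Om), ip3_rho_Om hL, ← hS]
    ring
  have hSle : S ≤ s * (6 / 5 * aL L + 14 / 5 * bL L) := by
    have h := Sp_le2 hη hN hL
    rw [← hS] at h
    have h' : S ^ 2 ≤ (s * (6 / 5 * aL L + 14 / 5 * bL L)) ^ 2 := by
      rw [mul_pow, hs2]
      linarith
    exact (abs_le.1 (abs_le_of_sq_le_sq h' (by positivity))).2
  have h2cs : 0 ≤ 2 * c - s := by
    have hc2 : s ^ 2 ≤ c ^ 2 := by
      rw [hs2]; linarith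
    have : s ≤ c := le_of_sq_le_sq hc2 hc
    linarith
  have hS3 : (2 * c - s) * S ≤ (2 * c - s) * (s * (6 / 5 * aL L + 14 / 5 * bL L)) :=
    mul_le_mul_of_nonneg_left hSle h2cs
  have hQ := le_quad_QJ hL
  have hQ' : s' * (2 * t ^ 2 - l ^ 2 + aL L) ≤ s' * quad4 QJ L := by
    apply mul_le_mul_of_nonneg_left _ hs'0
    rw [ht2, hl2]
    linarith
  have hip2 : ip2 L L = t ^ 2 + l ^ 2 + aL L + 2 * bL L := by
    rw [ht2, hl2]; ring
  have hth : th L ^ 2 = 3 * t ^ 2 := by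
    rw [ht2]; ring
  have hMM : ip2 L L - th L ^ 2 / 3 = l ^ 2 + aL L + 2 * bL L := by
    rw [hl2]; ring
  rw [hMM] at hrest
  rw [hR, hη1, hip2, hth]
  nlinarith [hA, hrest, hcross, hS3, hQ']

end Pool.Hopf3
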