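import Pool.Agent.Lib.MP_4a593f_gt.P3.Frame

namespace Pool.Hopf3

open Finset

private theorem maxA_compact {ι : Type} [Fintype ι] [DecidableEq ι] :
    IsCompact {O : ι → ι → ℝ | IsFrame O} := by
  have h1 : IsCompact (Set.univ.pi fun _ : ι =>
      (Set.univ.pi fun _ : ι => Set.Icc (-1 : ℝ) 1)) :=
    isCompact_univ_pi fun _ => isCompact_univ_pi fun _ => isCompact_Icc
  refine h1.of_isClosed_subset ?_ ?_
  · have h2 : {O : ι → ι → ℝ | IsFrame O}
        = ⋂ i, ⋂ j, {O : ι → ι → ℝ | ∑ a, O i a * O j a = if i = j then 1 else 0} := by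
      ext O
      simp [IsFrame]
    rw [h2]
    refine isClosed_iInter fun i => isClosed_iInter fun j => isClosed_eq ?_ continuous_const
    fun_prop
  · intro O hO i _ a _
    have hO' : IsFrame O := hO
    have h2 := hO' i i
    rw [if_pos rfl] at h2
    have h3 : O i a * O i a ≤ 1 := by
      rw [← h2]
      exact Finset.single_le_sum (f := fun a => O i a * O i a) (fun _ _ => mul_self_nonneg _)
        (Finset.mem_univ a)
    constructor <;> nlinarith

/-- Existence of a frame with maximal overlap. -/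
theorem exists_max {d : ℕ} (ψ : Idx d → Idx d → Idx d → ℝ) :
    ∃ O : Idx d → Idx d → ℝ, IsFrame O ∧
      ∀ P : Idx d → Idx d → ℝ, IsFrame P → ip3 (pull3 ψ P) Om ≤ ip3 (pull3 ψ O) Om := by
  have hne : {O : Idx d → Idx d → ℝ | IsFrame O}.Nonempty := by
    refine ⟨fun i j => if i = j then 1 else 0, ?_⟩
    intro i j
    simp
  have hc : ContinuousOn (fun O : Idx d → Idx d → ℝ => ip3 (pull3 ψ O) Om)
      {O : Idx d → Idx d → ℝ | IsFrame O} := by
    apply Continuous.continuousOn
    unfold ip3 pull3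
    fun_prop
  obtain ⟨O, hO, hmax⟩ := maxA_compact.exists_isMaxOn hne hc
  exact ⟨O, hO, fun P hP => hmax hP⟩

end Pool.Hopf3
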