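import Pool.Agent.Lib.MP_4a593f_gt.P3.Basic

namespace Pool.Hopf3

open Finset

variable {d : ℕ}

private theorem kd_self (a : Fin 6) : kd a a = 1 := by simp [kd]

private theorem kd_ne {a b : Fin 6} (h : a ≠ b) : kd a b = 0 := by simp [kd, h]

private theorem w3_s12 (a b c i j k : Fin 6) : w3 a b c j i k = - w3 a b c i j k := by
  unfold w3; ring

private theorem w3_s23 (a b c i j k : Fin 6) : w3 a b c i k j = - w3 a b c i j k := by
  unfold w3; ring

theorem Om_form : Form3 (Om : Idx d → Idx d → Idx d → ℝ) := by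
  constructor
  · rintro (i | i) (j | j) (k | k) <;> simp only [Om, neg_zero]
    unfold Om6
    rw [w3_s12 0 2 4, w3_s12 0 3 5, w3_s12 1 2 5, w3_s12 1 3 4]
    ring
  · rintro (i | i) (j | j) (k | k) <;> simp only [Om, neg_zero]
    unfold Om6
    rw [w3_s23 0 2 4, w3_s23 0 3 5, w3_s23 1 2 5, w3_s23 1 3 4]
    ring

theorem Oi_form : Form3 (Oi : Idx d → Idx d → Idx d → ℝ) := by
  constructor
  · rintro (i | i) (j | j) (k | k) <;> simp only [Oi, neg_zero]
    unfold Oi6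
    rw [w3_s12 1 2 4, w3_s12 0 3 4, w3_s12 0 2 5, w3_s12 1 3 5]
    ring
  · rintro (i | i) (j | j) (k | k) <;> simp only [Oi, neg_zero]
    unfold Oi6
    rw [w3_s23 1 2 4, w3_s23 0 3 4, w3_s23 0 2 5, w3_s23 1 3 5]
    ring

theorem JJ_skew : Skew (JJ : Idx d → Idx d → ℝ) := by
  rintro (i | i) (j | j) <;> simp only [JJ, neg_zero]
  unfold J6 w2
  ring

private theorem sum_w3 (χ : Fin 6 → Fin 6 → Fin 6 → ℝ)
    (h1 : ∀ i j k, χ j i k = - χ i j k) (h2 : ∀ i j k, χ i k j = - χ i j k) (a b c : Fin 6) :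
    ∑ i, ∑ j, ∑ k, χ i j k * w3 a b c i j k = 6 * χ a b c := by
  have e1 : ∀ a b c : Fin 6, ∑ i, ∑ j, ∑ k, χ i j k * (kd a i * kd b j * kd c k) = χ a b c := by
    intro a b c
    simp [kd]
  have key : ∀ i j k, χ i j k * w3 a b c i j k =
      χ i j k * (kd a i * kd b j * kd c k) + χ i j k * (kd c i * kd a j * kd b k)
      + χ i j k * (kd b i * kd c j * kd a k) - χ i j k * (kd a i * kd c j * kd b k)
      - χ i j k * (kd b i * kd a j * kd c k) - χ i j k * (kd c i * kd b j * kd a k) := by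
    intro i j k; unfold w3; ring
  simp only [key, sum_add_distrib, sum_sub_distrib, e1]
  have q1 : χ c a b = χ a b c := by rw [h1 a c b, h2 a b c]; ring
  have q2 : χ b c a = χ a b c := by rw [h2 b a c, h1 a b c]; ring
  have q3 : χ a c b = - χ a b c := h2 a b c
  have q4 : χ b a c = - χ a b c := h1 a b c
  have q5 : χ c b a = - χ a b c := by rw [h1 b c a, q2]
  rw [q1, q2, q3, q4, q5]; ring

theorem ip3_Om {χ : Idx d → Idx d → Idx d → ℝ} (hχ : Form3 χ) :
    ip3 χ Om = 1 / 2 * (χ (.inl 0) (.inl 2) (.inl 4) - χ (.inl 0) (.inl 3) (.inl 5)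
    - χ (.inl 1) (.inl 2) (.inl 5) - χ (.inl 1) (.inl 3) (.inl 4)) := by
  have hs := sum_w3 (fun i j k => χ (.inl i) (.inl j) (.inl k))
    (fun i j k => hχ.s12 _ _ _) (fun i j k => hχ.s23 _ _ _)
  unfold ip3
  simp only [Fintype.sum_sum_type, Om, mul_zero, sum_const_zero, add_zero]
  have key : ∀ i j k : Fin 6, χ (.inl i) (.inl j) (.inl k) * Om6 i j k =
      1 / 2 * (χ (.inl i) (.inl j) (.inl k) * w3 0 2 4 i j k)
      - 1 / 2 * (χ (.inl i) (.inl j) (.inl k) * w3 0 3 5 i j k)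
      - 1 / 2 * (χ (.inl i) (.inl j) (.inl k) * w3 1 2 5 i j k)
      - 1 / 2 * (χ (.inl i) (.inl j) (.inl k) * w3 1 3 4 i j k) := by
    intro i j k; unfold Om6; ring
  simp only [key, sum_sub_distrib, ← mul_sum]
  simp only [hs]
  ring

theorem ip3_Oi {χ : Idx d → Idx d → Idx d → ℝ} (hχ : Form3 χ) :
    ip3 χ Oi = 1 / 2 * (χ (.inl 1) (.inl 2) (.inl 4) + χ (.inl 0) (.inl 3) (.inl 4)
    + χ (.inl 0) (.inl 2) (.inl 5) - χ (.inl 1) (.inl 3) (.inl 5)) := by
  have hs := sum_w3 (fun i j k => χ (.inl i) (.inl j) (.inl k))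
    (fun i j k => hχ.s12 _ _ _) (fun i j k => hχ.s23 _ _ _)
  unfold ip3
  simp only [Fintype.sum_sum_type, Oi, mul_zero, sum_const_zero, add_zero]
  have key : ∀ i j k : Fin 6, χ (.inl i) (.inl j) (.inl k) * Oi6 i j k =
      1 / 2 * (χ (.inl i) (.inl j) (.inl k) * w3 1 2 4 i j k)
      + 1 / 2 * (χ (.inl i) (.inl j) (.inl k) * w3 0 3 4 i j k)
      + 1 / 2 * (χ (.inl i) (.inl j) (.inl k) * w3 0 2 5 i j k)
      - 1 / 2 * (χ (.inl i) (.inl j) (.inl k) * w3 1 3 5 i j k) := by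
    intro i j k; unfold Oi6; ring
  simp only [key, sum_sub_distrib, sum_add_distrib, ← mul_sum]
  simp only [hs]
  ring

theorem ip3_Om_Om : ip3 (Om : Idx d → Idx d → Idx d → ℝ) Om = 1 := by
  rw [ip3_Om Om_form]
  simp [Om, Om6, w3, kd]
  norm_num

theorem ip3_Oi_Oi : ip3 (Oi : Idx d → Idx d → Idx d → ℝ) Oi = 1 := by
  rw [ip3_Oi Oi_form]
  simp [Oi, Oi6, w3, kd]
  norm_num

theorem ip3_Om_Oi : ip3 (Om : Idx d → Idx d → Idx d → ℝ) Oi = 0 := by
  rw [ip3_Oi Om_form]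
  simp [Om, Om6, w3, kd]

theorem rho_JJ_Om : rho (JJ : Idx d → Idx d → ℝ) Om = (-3 : ℝ) • Oi := by
  funext i j k
  simp only [Pi.smul_apply, smul_eq_mul]
  rcases i with i | i <;> rcases j with j | j <;> rcases k with k | k <;>
    simp only [rho, Fintype.sum_sum_type, JJ, Om, Oi, mul_zero, zero_mul, add_zero,
      sum_const_zero]
  simp only [Fin.sum_univ_six, Om6, Oi6, w3, J6, w2, kd_self, kd_ne, ne_eq, Fin.reduceEq,
    not_false_eq_true, mul_zero, zero_mul, mul_one, one_mul, add_zero, zero_add, sub_zero]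
  ring

theorem rho_JJ_Oi : rho (JJ : Idx d → Idx d → ℝ) Oi = (3 : ℝ) • Om := by
  funext i j k
  simp only [Pi.smul_apply, smul_eq_mul]
  rcases i with i | i <;> rcases j with j | j <;> rcases k with k | k <;>
    simp only [rho, Fintype.sum_sum_type, JJ, Om, Oi, mul_zero, zero_mul, add_zero,
      sum_const_zero]
  simp only [Fin.sum_univ_six, Om6, Oi6, w3, J6, w2, kd_self, kd_ne, ne_eq, Fin.reduceEq,
    not_false_eq_true, mul_zero, zero_mul, mul_one, one_mul, add_zero, zero_add, sub_zero]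
  ring

end Pool.Hopf3
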