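import Pool.Agent.Lib.MP_4a593f_gt.P3.Basic
import Pool.Agent.Lib.MP_4a593f_gt.P3.StdA

namespace Pool.Hopf3

open Finset

/-- the elementary skew tensor -/
private def eM {d : ℕ} (p q : Idx d) (i t : Idx d) : ℝ :=
  (if i = p then (if t = q then 1 else 0) else 0) - (if i = q then (if t = p then 1 else 0) else 0)

private theorem eM_skew {d : ℕ} (p q : Idx d) : Skew (eM p q) := by
  intro i j
  unfold eM
  split_ifs <;> norm_num

private theorem rho_eM {d : ℕ} (p q : Idx d) (χ : Idx d → Idx d → Idx d → ℝ) (i j k : Idx d) :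
    rho (eM p q) χ i j k = (if i = p then χ q j k else 0) - (if i = q then χ p j k else 0)
      + ((if j = p then χ i q k else 0) - (if j = q then χ i p k else 0))
      + ((if k = p then χ i j q else 0) - (if k = q then χ i j p else 0)) := by
  unfold rho
  rw [Finset.sum_add_distrib, Finset.sum_add_distrib]
  have h : ∀ (i : Idx d) (f : Idx d → ℝ), ∑ t, eM p q i t * f t
      = (if i = p then f q else 0) - (if i = q then f p else 0) := by
    intro i f
    simp only [eM, sub_mul, Finset.sum_sub_distrib, ite_mul, one_mul, zero_mul]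
    congr 1
    · by_cases h : i = p
      · simp [h]
      · simp [h]
    · by_cases h : i = q
      · simp [h]
      · simp [h]
  rw [h i (fun t => χ t j k), h j (fun t => χ i t k), h k (fun t => χ i j t)]

private theorem crit_eM {d : ℕ} {χ : Idx d → Idx d → Idx d → ℝ} (hχ : Form3 χ)
    (h : ∀ M : Idx d → Idx d → ℝ, Skew M → ip3 χ (rho M Om) = 0) (p q : Idx d) :
    rho (eM p q) χ (.inl 0) (.inl 2) (.inl 4) - rho (eM p q) χ (.inl 0) (.inl 3) (.inl 5)
      - rho (eM p q) χ (.inl 1) (.inl 2) (.inl 5) - rho (eM p q) χ (.inl 1) (.inl 3) (.inl 4)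
      = 0 := by
  have h1 := ip3_rho (eM_skew p q) χ Om
  rw [h _ (eM_skew p q), ip3_Om (rho_form _ hχ)] at h1
  linarith

private theorem form3_cyc {d : ℕ} {χ : Idx d → Idx d → Idx d → ℝ} (hχ : Form3 χ)
    (i j k : Idx d) : χ j k i = χ i j k := by
  rw [hχ.s23 j i k, hχ.s12 i j k, neg_neg]

private theorem form3_rep {d : ℕ} {χ : Idx d → Idx d → Idx d → ℝ} (hχ : Form3 χ)
    (i k : Idx d) : χ i i k = 0 := by
  have := hχ.s12 i i k
  linarith

private theorem form3_rep' {d : ℕ} {χ : Idx d → Idx d → Idx d → ℝ} (hχ : Form3 χ)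
    (i k : Idx d) : χ k i i = 0 := by
  have := hχ.s23 k i i
  linarith

private theorem form3_rep'' {d : ℕ} {χ : Idx d → Idx d → Idx d → ℝ} (hχ : Form3 χ)
    (i k : Idx d) : χ i k i = 0 := by
  rw [form3_cyc hχ i i k]
  exact form3_rep hχ i k

theorem ncond_of_crit {d : ℕ} {χ : Idx d → Idx d → Idx d → ℝ} (hχ : Form3 χ)
    (h : ∀ M : Idx d → Idx d → ℝ, Skew M → ip3 χ (rho M Om) = 0) :
    NCond (χ - ip3 χ Om • Om) := by
  have hc := ip3_Om hχ
  have key := crit_eM hχ h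
  simp only [rho_eM] at key
  set c := ip3 χ Om with hcdef
  constructor
  · constructor
    · simp only [Pi.sub_apply, Pi.smul_apply, smul_eq_mul, Om, Om6, w3, kd]
      norm_num
      simp [Fin.ext_iff]
      linarith
    · have h1 := key (.inl 0) (.inl 1)
      simp [Fin.ext_iff] at h1
      simp only [Pi.sub_apply, Pi.smul_apply, smul_eq_mul, Om, Om6, w3, kd]
      norm_num
      simp [Fin.ext_iff]
      linarith
    · intro f
      have h1 := key (.inl 4) (.inr f)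
      simp [Fin.ext_iff] at h1
      simp only [Pi.sub_apply, Pi.smul_apply, smul_eq_mul, Om]
      linarith
    · intro f
      have h1 := key (.inl 5) (.inr f)
      simp [Fin.ext_iff] at h1
      simp only [Pi.sub_apply, Pi.smul_apply, smul_eq_mul, Om]
      linarith
    · intro f
      have h1 := key (.inl 0) (.inr f)
      simp [Fin.ext_iff] at h1
      have c0 := form3_cyc hχ (.inr f) (.inl 2) (.inl 4)
      have c1 := form3_cyc hχ (.inr f) (.inl 3) (.inl 5)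
      simp only [Pi.sub_apply, Pi.smul_apply, smul_eq_mul, Om]
      linarith
    · intro f
      have h1 := key (.inl 1) (.inr f)
      simp [Fin.ext_iff] at h1
      have c0 := form3_cyc hχ (.inr f) (.inl 2) (.inl 5)
      have c1 := form3_cyc hχ (.inr f) (.inl 3) (.inl 4)
      simp only [Pi.sub_apply, Pi.smul_apply, smul_eq_mul, Om]
      linarith
    · intro f
      have h1 := key (.inl 2) (.inr f)
      simp [Fin.ext_iff] at h1
      have c0 := form3_cyc hχ (.inr f) (.inl 4) (.inl 0)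
      have c1 := form3_cyc hχ (.inl 0) (.inr f) (.inl 4)
      have c2 := form3_cyc hχ (.inr f) (.inl 5) (.inl 1)
      have c3 := form3_cyc hχ (.inl 1) (.inr f) (.inl 5)
      simp only [Pi.sub_apply, Pi.smul_apply, smul_eq_mul, Om]
      linarith
    · intro f
      have h1 := key (.inl 3) (.inr f)
      simp [Fin.ext_iff] at h1
      have c0 := form3_cyc hχ (.inr f) (.inl 5) (.inl 0)
      have c1 := form3_cyc hχ (.inl 0) (.inr f) (.inl 5)
      have c2 := form3_cyc hχ (.inr f) (.inl 4) (.inl 1)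
      have c3 := form3_cyc hχ (.inl 1) (.inr f) (.inl 4)
      simp only [Pi.sub_apply, Pi.smul_apply, smul_eq_mul, Om]
      linarith
  · have h1 := key (.inl 2) (.inl 5)
    simp [Fin.ext_iff, form3_rep hχ, form3_rep' hχ, form3_rep'' hχ] at h1
    have c0 := form3_cyc hχ (.inl 0) (.inl 2) (.inl 3)
    have c1 := form3_cyc hχ (.inl 2) (.inl 3) (.inl 0)
    have c2 := hχ.s12 (.inl 0) (.inl 2) (.inl 3)
    have c3 := hχ.s23 (.inl 0) (.inl 2) (.inl 3)
    have c4 := hχ.s12 (.inl 2) (.inl 3) (.inl 0)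
    have c5 := hχ.s23 (.inl 2) (.inl 3) (.inl 0)
    have c6 := hχ.s12 (.inl 3) (.inl 0) (.inl 2)
    have c7 := hχ.s23 (.inl 3) (.inl 0) (.inl 2)
    have c8 := form3_cyc hχ (.inl 0) (.inl 4) (.inl 5)
    have c9 := form3_cyc hχ (.inl 4) (.inl 5) (.inl 0)
    have c10 := hχ.s12 (.inl 0) (.inl 4) (.inl 5)
    have c11 := hχ.s23 (.inl 0) (.inl 4) (.inl 5)
    have c12 := hχ.s12 (.inl 4) (.inl 5) (.inl 0)
    have c13 := hχ.s23 (.inl 4) (.inl 5) (.inl 0)
    have c14 := hχ.s12 (.inl 5) (.inl 0) (.inl 4)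
    have c15 := hχ.s23 (.inl 5) (.inl 0) (.inl 4)
    simp only [Pi.sub_apply, Pi.smul_apply, smul_eq_mul, Om, Om6, w3, kd]
    norm_num
    simp [Fin.ext_iff]
    linarith
  · have h1 := key (.inl 2) (.inl 4)
    simp [Fin.ext_iff, form3_rep hχ, form3_rep' hχ, form3_rep'' hχ] at h1
    have c0 := form3_cyc hχ (.inl 1) (.inl 2) (.inl 3)
    have c1 := form3_cyc hχ (.inl 2) (.inl 3) (.inl 1)
    have c2 := hχ.s12 (.inl 1) (.inl 2) (.inl 3)
    have c3 := hχ.s23 (.inl 1) (.inl 2) (.inl 3)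
    have c4 := hχ.s12 (.inl 2) (.inl 3) (.inl 1)
    have c5 := hχ.s23 (.inl 2) (.inl 3) (.inl 1)
    have c6 := hχ.s12 (.inl 3) (.inl 1) (.inl 2)
    have c7 := hχ.s23 (.inl 3) (.inl 1) (.inl 2)
    have c8 := form3_cyc hχ (.inl 1) (.inl 4) (.inl 5)
    have c9 := form3_cyc hχ (.inl 4) (.inl 5) (.inl 1)
    have c10 := hχ.s12 (.inl 1) (.inl 4) (.inl 5)
    have c11 := hχ.s23 (.inl 1) (.inl 4) (.inl 5)
    have c12 := hχ.s12 (.inl 4) (.inl 5) (.inl 1)
    have c13 := hχ.s23 (.inl 4) (.inl 5) (.inl 1)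
    have c14 := hχ.s12 (.inl 5) (.inl 1) (.inl 4)
    have c15 := hχ.s23 (.inl 5) (.inl 1) (.inl 4)
    simp only [Pi.sub_apply, Pi.smul_apply, smul_eq_mul, Om, Om6, w3, kd]
    norm_num
    simp [Fin.ext_iff]
    linarith
  · have h1 := key (.inl 0) (.inl 5)
    simp [Fin.ext_iff, form3_rep hχ, form3_rep' hχ, form3_rep'' hχ] at h1
    have c0 := form3_cyc hχ (.inl 0) (.inl 1) (.inl 2)
    have c1 := form3_cyc hχ (.inl 1) (.inl 2) (.inl 0)
    have c2 := hχ.s12 (.inl 0) (.inl 1) (.inl 2)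
    have c3 := hχ.s23 (.inl 0) (.inl 1) (.inl 2)
    have c4 := hχ.s12 (.inl 1) (.inl 2) (.inl 0)
    have c5 := hχ.s23 (.inl 1) (.inl 2) (.inl 0)
    have c6 := hχ.s12 (.inl 2) (.inl 0) (.inl 1)
    have c7 := hχ.s23 (.inl 2) (.inl 0) (.inl 1)
    have c8 := form3_cyc hχ (.inl 2) (.inl 4) (.inl 5)
    have c9 := form3_cyc hχ (.inl 4) (.inl 5) (.inl 2)
    have c10 := hχ.s12 (.inl 2) (.inl 4) (.inl 5)
    have c11 := hχ.s23 (.inl 2) (.inl 4) (.inl 5)
    have c12 := hχ.s12 (.inl 4) (.inl 5) (.inl 2)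
    have c13 := hχ.s23 (.inl 4) (.inl 5) (.inl 2)
    have c14 := hχ.s12 (.inl 5) (.inl 2) (.inl 4)
    have c15 := hχ.s23 (.inl 5) (.inl 2) (.inl 4)
    simp only [Pi.sub_apply, Pi.smul_apply, smul_eq_mul, Om, Om6, w3, kd]
    norm_num
    simp [Fin.ext_iff]
    linarith
  · have h1 := key (.inl 0) (.inl 4)
    simp [Fin.ext_iff, form3_rep hχ, form3_rep' hχ, form3_rep'' hχ] at h1
    have c0 := form3_cyc hχ (.inl 0) (.inl 1) (.inl 3)
    have c1 := form3_cyc hχ (.inl 1) (.inl 3) (.inl 0)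
    have c2 := hχ.s12 (.inl 0) (.inl 1) (.inl 3)
    have c3 := hχ.s23 (.inl 0) (.inl 1) (.inl 3)
    have c4 := hχ.s12 (.inl 1) (.inl 3) (.inl 0)
    have c5 := hχ.s23 (.inl 1) (.inl 3) (.inl 0)
    have c6 := hχ.s12 (.inl 3) (.inl 0) (.inl 1)
    have c7 := hχ.s23 (.inl 3) (.inl 0) (.inl 1)
    have c8 := form3_cyc hχ (.inl 3) (.inl 4) (.inl 5)
    have c9 := form3_cyc hχ (.inl 4) (.inl 5) (.inl 3)
    have c10 := hχ.s12 (.inl 3) (.inl 4) (.inl 5)
    have c11 := hχ.s23 (.inl 3) (.inl 4) (.inl 5)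
    have c12 := hχ.s12 (.inl 4) (.inl 5) (.inl 3)
    have c13 := hχ.s23 (.inl 4) (.inl 5) (.inl 3)
    have c14 := hχ.s12 (.inl 5) (.inl 3) (.inl 4)
    have c15 := hχ.s23 (.inl 5) (.inl 3) (.inl 4)
    simp only [Pi.sub_apply, Pi.smul_apply, smul_eq_mul, Om, Om6, w3, kd]
    norm_num
    simp [Fin.ext_iff]
    linarith
  · have h1 := key (.inl 0) (.inl 3)
    simp [Fin.ext_iff, form3_rep hχ, form3_rep' hχ, form3_rep'' hχ] at h1
    have c0 := form3_cyc hχ (.inl 0) (.inl 1) (.inl 4)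
    have c1 := form3_cyc hχ (.inl 1) (.inl 4) (.inl 0)
    have c2 := hχ.s12 (.inl 0) (.inl 1) (.inl 4)
    have c3 := hχ.s23 (.inl 0) (.inl 1) (.inl 4)
    have c4 := hχ.s12 (.inl 1) (.inl 4) (.inl 0)
    have c5 := hχ.s23 (.inl 1) (.inl 4) (.inl 0)
    have c6 := hχ.s12 (.inl 4) (.inl 0) (.inl 1)
    have c7 := hχ.s23 (.inl 4) (.inl 0) (.inl 1)
    have c8 := form3_cyc hχ (.inl 2) (.inl 3) (.inl 4)
    have c9 := form3_cyc hχ (.inl 3) (.inl 4) (.inl 2)
    have c10 := hχ.s12 (.inl 2) (.inl 3) (.inl 4)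
    have c11 := hχ.s23 (.inl 2) (.inl 3) (.inl 4)
    have c12 := hχ.s12 (.inl 3) (.inl 4) (.inl 2)
    have c13 := hχ.s23 (.inl 3) (.inl 4) (.inl 2)
    have c14 := hχ.s12 (.inl 4) (.inl 2) (.inl 3)
    have c15 := hχ.s23 (.inl 4) (.inl 2) (.inl 3)
    simp only [Pi.sub_apply, Pi.smul_apply, smul_eq_mul, Om, Om6, w3, kd]
    norm_num
    simp [Fin.ext_iff]
    linarith
  · have h1 := key (.inl 0) (.inl 2)
    simp [Fin.ext_iff, form3_rep hχ, form3_rep' hχ, form3_rep'' hχ] at h1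
    have c0 := form3_cyc hχ (.inl 0) (.inl 1) (.inl 5)
    have c1 := form3_cyc hχ (.inl 1) (.inl 5) (.inl 0)
    have c2 := hχ.s12 (.inl 0) (.inl 1) (.inl 5)
    have c3 := hχ.s23 (.inl 0) (.inl 1) (.inl 5)
    have c4 := hχ.s12 (.inl 1) (.inl 5) (.inl 0)
    have c5 := hχ.s23 (.inl 1) (.inl 5) (.inl 0)
    have c6 := hχ.s12 (.inl 5) (.inl 0) (.inl 1)
    have c7 := hχ.s23 (.inl 5) (.inl 0) (.inl 1)
    have c8 := form3_cyc hχ (.inl 2) (.inl 3) (.inl 5)
    have c9 := form3_cyc hχ (.inl 3) (.inl 5) (.inl 2)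
    have c10 := hχ.s12 (.inl 2) (.inl 3) (.inl 5)
    have c11 := hχ.s23 (.inl 2) (.inl 3) (.inl 5)
    have c12 := hχ.s12 (.inl 3) (.inl 5) (.inl 2)
    have c13 := hχ.s23 (.inl 3) (.inl 5) (.inl 2)
    have c14 := hχ.s12 (.inl 5) (.inl 2) (.inl 3)
    have c15 := hχ.s23 (.inl 5) (.inl 2) (.inl 3)
    simp only [Pi.sub_apply, Pi.smul_apply, smul_eq_mul, Om, Om6, w3, kd]
    norm_num
    simp [Fin.ext_iff]
    linarith

end Pool.Hopf3
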