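import Pool.Agent.Lib.MP_4a593f_gt.P3.Small
import Pool.Agent.Lib.MP_4a593f_gt.P3.Large
import Pool.Agent.Lib.MP_4a593f_gt.P3.MaxA
import Pool.Agent.Lib.MP_4a593f_gt.P3.MaxB
import Pool.Agent.Lib.MP_4a593f_gt.P3.MaxC

/-!
The barrier certificate: for every unit 3-form `ψ` there is a 4-form `Q` with
`0 ≤ |rho_L ψ|² - Q(L,L) ≤ (5/2) |L|²`.
-/

namespace Pool.Hopf3

open Finset

variable {d : ℕ}

private theorem quad4_smul (s : ℝ) (Q : Idx d → Idx d → Idx d → Idx d → ℝ)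
    (L : Idx d → Idx d → ℝ) :
    quad4 (fun i j k l => s * Q i j k l) L = s * quad4 Q L := by
  unfold quad4
  simp only [Finset.mul_sum]
  refine Finset.sum_congr rfl fun i _ => Finset.sum_congr rfl fun j _ =>
    Finset.sum_congr rfl fun k _ => Finset.sum_congr rfl fun l _ => by ring

private theorem form4_smul (s : ℝ) {Q : Idx d → Idx d → Idx d → Idx d → ℝ} (hQ : Form4 Q) :
    Form4 (fun i j k l => s * Q i j k l) :=
  ⟨fun i j k l => by show s * Q j i k l = - (s * Q i j k l); rw [hQ.s12 i j k l]; ring,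
   fun i j k l => by show s * Q i k j l = - (s * Q i j k l); rw [hQ.s23 i j k l]; ring,
   fun i j k l => by show s * Q i j l k = - (s * Q i j k l); rw [hQ.s34 i j k l]; ring⟩

/-- The barrier certificate. -/
theorem cert {ψ : Idx d → Idx d → Idx d → ℝ} (hψ : Form3 ψ) (h1 : ip3 ψ ψ = 1) :
    ∃ Q : Idx d → Idx d → Idx d → Idx d → ℝ, Form4 Q ∧ ∀ L : Idx d → Idx d → ℝ, Skew L →
      0 ≤ ip3 (rho L ψ) (rho L ψ) - quad4 Q L ∧
      ip3 (rho L ψ) (rho L ψ) - quad4 Q L ≤ 5 / 2 * ip2 L L := by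
  obtain ⟨O, hO, hmax⟩ := exists_max ψ
  by_cases hc : ip3 (pull3 ψ O) Om ≤ 21 / 25
  · refine ⟨fun _ _ _ _ => 0, ⟨by simp, by simp, by simp⟩, fun L hL => ?_⟩
    have e : quad4 (fun _ _ _ _ => (0 : ℝ)) L = 0 := by simp [quad4]
    rw [e, sub_zero]
    exact ⟨ip3_self_nonneg _, small_case hψ h1 (fun P hP => (hmax P hP).trans hc) hL⟩
  · push Not at hc
    set χ := pull3 ψ O with hχd
    set c := ip3 χ Om with hcd
    have hχ : Form3 χ := pull3_form hψ O
    have hχ1 : ip3 χ χ = 1 := by rw [hχd, ip3_pull hO, h1]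
    have hmaxχ : ∀ P : Idx d → Idx d → ℝ, IsFrame P → ip3 (pull3 χ P) Om ≤ ip3 χ Om := by
      intro P hP
      rw [hχd, pull3_comp]
      exact hmax _ (hO.comp hP)
    have hN : NCond (χ - c • Om) := ncond_of_crit hχ (fun M hM => first_order hχ hmaxχ M hM)
    have hη : Form3 (χ - c • Om) := hχ.sub (Om_form.smul c)
    have hE : c ^ 2 + ip3 (χ - c • Om) (χ - c • Om) = 1 := by
      rw [ip3_sub_left, ip3_sub_right, ip3_sub_right, ip3_smul_left, ip3_smul_left,
        ip3_smul_right, ip3_smul_right, ip3_Om_Om, hχ1, ip3_comm Om χ, ← hcd]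
      ring
    have hc0 : 0 ≤ c := by linarith
    have hE2 : ip3 (χ - c • Om) (χ - c • Om) ≤ 184 / 625 := by nlinarith
    have hdec : c • Om + (χ - c • Om) = χ := by abel
    refine ⟨push4 (fun i j k l => max 0 ((1 - 5 * ip3 (χ - c • Om) (χ - c • Om)) / 4)
      * QJ i j k l) O, push4_form (form4_smul _ QJ_form) O, fun L hL => ?_⟩
    have hL' := pull2_skew hL O
    have l1 := large_lower hη hN hc0 hE hL'
    have l2 := large_upper hη hN hc0 hE hE2 hL'
    rw [hdec] at l1 l2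
    rw [quad4_push, quad4_smul]
    have e1 : ip3 (rho (pull2 L O) χ) (rho (pull2 L O) χ) = ip3 (rho L ψ) (rho L ψ) := by
      rw [hχd, rho_pull hO, ip3_pull hO]
    rw [e1] at l1 l2
    rw [ip2_pull hO] at l2
    exact ⟨l1, l2⟩

end Pool.Hopf3
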