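import Pool.Agent.Lib.MP_4a593f_gt.P3.StdA

namespace Pool.Hopf3

open Finset

variable {d : ℕ}

/-- sign of the row `j` of `J6` -/
def decA_s (j : Fin 6) : ℝ := ![1, -1, 1, -1, 1, -1] j

/-- partner of the index `j` -/
def decA_p (j : Fin 6) : Fin 6 := ![1, 0, 3, 2, 5, 4] j

theorem decA_J (j : Fin 6) (g : Fin 6 → ℝ) : ∑ s, J6 j s * g s = decA_s j * g (decA_p j) := by
  fin_cases j <;> simp [J6, w2, kd, decA_s, decA_p]

theorem decA_h20 (η : Idx d → Idx d → Idx d → ℝ) (f : Fin d) (j k : Fin 6) :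
    h20 η f j k = 1 / 2 * (η (.inr f) (.inl j) (.inl k)
      - decA_s j * (decA_s k * η (.inr f) (.inl (decA_p j)) (.inl (decA_p k)))) := by
  unfold h20
  congr 2
  rw [← decA_J k (fun t => η (.inr f) (.inl (decA_p j)) (.inl t)),
    ← decA_J j (fun s => ∑ t, J6 k t * η (.inr f) (.inl s) (.inl t))]
  refine Finset.sum_congr rfl fun s _ => ?_
  rw [Finset.mul_sum]
  exact Finset.sum_congr rfl fun t _ => by ring

theorem decA_skew {η : Idx d → Idx d → Idx d → ℝ} (hη : Form3 η) (f : Fin d) (j k : Fin 6) :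
    h20 η f k j = - h20 η f j k := by
  rw [decA_h20, decA_h20, hη.s23 (.inr f) (.inl j) (.inl k),
    hη.s23 (.inr f) (.inl (decA_p j)) (.inl (decA_p k))]
  ring

theorem decA_cyc {ι : Type} {η : ι → ι → ι → ℝ} (hη : Form3 η) (i j k : ι) :
    η j k i = η i j k := by
  rw [hη.s23 j i k, hη.s12 i j k]
  ring

theorem tp_form (η : Idx d → Idx d → Idx d → ℝ) : Form3 (tp η) :=
  (Form3.smul _ Om_form).add (Form3.smul _ Oi_form)

theorem sg_form {η : Idx d → Idx d → Idx d → ℝ} (hη : Form3 η) : Form3 (sg η) := by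
  constructor
  · rintro (i | i) (j | j) (k | k) <;> simp only [sg, neg_zero, neg_neg]
    exact decA_skew hη k i j
  · rintro (i | i) (j | j) (k | k) <;> simp only [sg, neg_zero, neg_neg]
    exact decA_skew hη i j k

theorem rs_form {η : Idx d → Idx d → Idx d → ℝ} (hη : Form3 η) : Form3 (rs η) :=
  (hη.sub (tp_form η)).sub (sg_form hη)

theorem decA_sg_Om {η : Idx d → Idx d → Idx d → ℝ} (hη : Form3 η) : ip3 (sg η) Om = 0 := by
  rw [ip3_Om (sg_form hη)]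
  simp only [sg]
  ring

theorem decA_sg_Oi {η : Idx d → Idx d → Idx d → ℝ} (hη : Form3 η) : ip3 (sg η) Oi = 0 := by
  rw [ip3_Oi (sg_form hη)]
  simp only [sg]
  ring

theorem decA_rs_Om {η : Idx d → Idx d → Idx d → ℝ} (hη : Form3 η) : ip3 (rs η) Om = 0 := by
  unfold rs tp
  rw [ip3_sub_left, ip3_sub_left, ip3_add_left, ip3_smul_left, ip3_smul_left, ip3_Om_Om,
    ip3_comm Oi Om, ip3_Om_Oi, decA_sg_Om hη]
  ring

theorem decA_rs_Oi {η : Idx d → Idx d → Idx d → ℝ} (hη : Form3 η) : ip3 (rs η) Oi = 0 := by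
  unfold rs tp
  rw [ip3_sub_left, ip3_sub_left, ip3_add_left, ip3_smul_left, ip3_smul_left, ip3_Oi_Oi,
    ip3_Om_Oi, decA_sg_Oi hη]
  ring

/-- the components of `rs` with one index in `Fin d` -/
theorem decA_rs {η : Idx d → Idx d → Idx d → ℝ} (hη : Form3 η) (j k : Fin 6) (f : Fin d) :
    rs η (.inl j) (.inl k) (.inr f) = 1 / 2 * (η (.inr f) (.inl j) (.inl k)
      + decA_s j * (decA_s k * η (.inr f) (.inl (decA_p j)) (.inl (decA_p k)))) := by
  have h : rs η (.inl j) (.inl k) (.inr f) = η (.inl j) (.inl k) (.inr f) - h20 η f j k := by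
    simp only [rs, tp, Pi.sub_apply, Pi.add_apply, Pi.smul_apply, Om, Oi, sg, smul_zero,
      add_zero, sub_zero]
  rw [h, decA_cyc hη (.inr f) (.inl j) (.inl k), decA_h20]
  ring

theorem rs_nc1 {η : Idx d → Idx d → Idx d → ℝ} (hη : Form3 η) : NC1 (rs η) := by
  have h1 := decA_rs_Om hη
  have h2 := decA_rs_Oi hη
  rw [ip3_Om (rs_form hη)] at h1
  rw [ip3_Oi (rs_form hη)] at h2
  constructor
  · linarith
  · linarith
  all_goals
    intro f
    rw [decA_rs hη, decA_rs hη]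
    simp [decA_s, decA_p]
    try ring

/-- inner product with the `(2,0)`-part -/
theorem decA_ip {η χ : Idx d → Idx d → Idx d → ℝ} (hχ : Form3 χ) :
    ip3 (sg η) χ = 1 / 2 * ∑ f : Fin d, ∑ j : Fin 6, ∑ k : Fin 6,
      h20 η f j k * χ (.inr f) (.inl j) (.inl k) := by
  have e1 : ∑ i : Fin 6, ∑ f : Fin d, ∑ k : Fin 6, h20 η f i k * χ (.inr f) (.inl i) (.inl k) =
      ∑ f : Fin d, ∑ j : Fin 6, ∑ k : Fin 6, h20 η f j k * χ (.inr f) (.inl j) (.inl k) :=
    Finset.sum_comm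
  have e2 : ∑ i : Fin 6, ∑ j : Fin 6, ∑ f : Fin d,
      h20 η f i j * χ (.inr f) (.inl i) (.inl j) =
      ∑ f : Fin d, ∑ j : Fin 6, ∑ k : Fin 6, h20 η f j k * χ (.inr f) (.inl j) (.inl k) := by
    rw [← e1]
    exact Finset.sum_congr rfl fun i _ => Finset.sum_comm
  unfold ip3
  simp only [Fintype.sum_sum_type, sg, zero_mul, Finset.sum_const_zero, add_zero, zero_add]
  have h3 : ∀ (i : Fin 6) (f : Fin d) (k : Fin 6),
      -h20 η f i k * χ (.inl i) (.inr f) (.inl k) =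
        h20 η f i k * χ (.inr f) (.inl i) (.inl k) := by
    intro i f k
    rw [hχ.s12 (.inr f) (.inl i) (.inl k)]
    ring
  have h4 : ∀ (i j : Fin 6) (f : Fin d),
      h20 η f i j * χ (.inl i) (.inl j) (.inr f) =
        h20 η f i j * χ (.inr f) (.inl i) (.inl j) := by
    intro i j f
    rw [decA_cyc hχ (.inr f) (.inl i) (.inl j)]
  simp only [h3, h4, Finset.sum_add_distrib]
  rw [e1, e2]
  ring

/-- the components with one index in `Fin d`, for one `f` -/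
theorem decA_one {X : Fin 6 → Fin 6 → ℝ} (hX : ∀ j k, X k j = - X j k) :
    1 / 2 * ∑ j : Fin 6, ∑ k : Fin 6,
      (1 / 2 * (X j k - decA_s j * (decA_s k * X (decA_p j) (decA_p k)))) * X j k =
    1 / 2 * ((X 2 4 - X 3 5) ^ 2 + (X 2 5 + X 3 4) ^ 2) +
    1 / 2 * ((X 4 0 - X 5 1) ^ 2 + (X 4 1 + X 5 0) ^ 2) +
    1 / 2 * ((X 0 2 - X 1 3) ^ 2 + (X 0 3 + X 1 2) ^ 2) := by
  have hd : ∀ j, X j j = 0 := fun j => by
    have := hX j j
    linarith
  have h10 : X 1 0 = - X 0 1 := hX 0 1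
  have h20 : X 2 0 = - X 0 2 := hX 0 2
  have h21 : X 2 1 = - X 1 2 := hX 1 2
  have h30 : X 3 0 = - X 0 3 := hX 0 3
  have h31 : X 3 1 = - X 1 3 := hX 1 3
  have h32 : X 3 2 = - X 2 3 := hX 2 3
  have h40 : X 4 0 = - X 0 4 := hX 0 4
  have h41 : X 4 1 = - X 1 4 := hX 1 4
  have h42 : X 4 2 = - X 2 4 := hX 2 4
  have h43 : X 4 3 = - X 3 4 := hX 3 4
  have h50 : X 5 0 = - X 0 5 := hX 0 5
  have h51 : X 5 1 = - X 1 5 := hX 1 5
  have h52 : X 5 2 = - X 2 5 := hX 2 5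
  have h53 : X 5 3 = - X 3 5 := hX 3 5
  have h54 : X 5 4 = - X 4 5 := hX 4 5
  simp only [Fin.sum_univ_six, decA_s, decA_p, Matrix.cons_val, hd,
    h10, h20, h21, h30, h31, h32, h40, h41, h42, h43, h50, h51, h52, h53, h54]
  ring

/-- the same for the square -/
theorem decA_two {X : Fin 6 → Fin 6 → ℝ} (hX : ∀ j k, X k j = - X j k) :
    1 / 2 * ∑ j : Fin 6, ∑ k : Fin 6,
      (1 / 2 * (X j k - decA_s j * (decA_s k * X (decA_p j) (decA_p k)))) *
      (1 / 2 * (X j k - decA_s j * (decA_s k * X (decA_p j) (decA_p k)))) =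
    1 / 2 * ((X 2 4 - X 3 5) ^ 2 + (X 2 5 + X 3 4) ^ 2) +
    1 / 2 * ((X 4 0 - X 5 1) ^ 2 + (X 4 1 + X 5 0) ^ 2) +
    1 / 2 * ((X 0 2 - X 1 3) ^ 2 + (X 0 3 + X 1 2) ^ 2) := by
  have hd : ∀ j, X j j = 0 := fun j => by
    have := hX j j
    linarith
  have h10 : X 1 0 = - X 0 1 := hX 0 1
  have h20 : X 2 0 = - X 0 2 := hX 0 2
  have h21 : X 2 1 = - X 1 2 := hX 1 2
  have h30 : X 3 0 = - X 0 3 := hX 0 3
  have h31 : X 3 1 = - X 1 3 := hX 1 3
  have h32 : X 3 2 = - X 2 3 := hX 2 3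
  have h40 : X 4 0 = - X 0 4 := hX 0 4
  have h41 : X 4 1 = - X 1 4 := hX 1 4
  have h42 : X 4 2 = - X 2 4 := hX 2 4
  have h43 : X 4 3 = - X 3 4 := hX 3 4
  have h50 : X 5 0 = - X 0 5 := hX 0 5
  have h51 : X 5 1 = - X 1 5 := hX 1 5
  have h52 : X 5 2 = - X 2 5 := hX 2 5
  have h53 : X 5 3 = - X 3 5 := hX 3 5
  have h54 : X 5 4 = - X 4 5 := hX 4 5
  simp only [Fin.sum_univ_six, decA_s, decA_p, Matrix.cons_val, hd,
    h10, h20, h21, h30, h31, h32, h40, h41, h42, h43, h50, h51, h52, h53, h54]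
  ring

/-- the masses, in terms of the components with the index of `Fin d` in front -/
theorem decA_yl {η : Idx d → Idx d → Idx d → ℝ} (hη : Form3 η) :
    yl η 0 + yl η 1 + yl η 2 = ∑ f : Fin d,
      (1 / 2 * ((η (.inr f) (.inl 2) (.inl 4) - η (.inr f) (.inl 3) (.inl 5)) ^ 2
        + (η (.inr f) (.inl 2) (.inl 5) + η (.inr f) (.inl 3) (.inl 4)) ^ 2) +
      1 / 2 * ((η (.inr f) (.inl 4) (.inl 0) - η (.inr f) (.inl 5) (.inl 1)) ^ 2
        + (η (.inr f) (.inl 4) (.inl 1) + η (.inr f) (.inl 5) (.inl 0)) ^ 2) +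
      1 / 2 * ((η (.inr f) (.inl 0) (.inl 2) - η (.inr f) (.inl 1) (.inl 3)) ^ 2
        + (η (.inr f) (.inl 0) (.inl 3) + η (.inr f) (.inl 1) (.inl 2)) ^ 2)) := by
  have hc : ∀ (f : Fin d) (j k : Fin 6),
      η (.inl j) (.inl k) (.inr f) = η (.inr f) (.inl j) (.inl k) :=
    fun f j k => decA_cyc hη (.inr f) (.inl j) (.inl k)
  simp only [yl, hc, Matrix.cons_val]
  rw [← mul_add, ← mul_add, ← Finset.sum_add_distrib, ← Finset.sum_add_distrib, Finset.mul_sum]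
  refine Finset.sum_congr rfl fun f _ => ?_
  ring

/-- `sg` is an orthogonal projection -/
theorem decA_sg_self {η : Idx d → Idx d → Idx d → ℝ} (hη : Form3 η) :
    ip3 (sg η) η = yl η 0 + yl η 1 + yl η 2 := by
  rw [decA_ip hη, decA_yl hη, Finset.mul_sum]
  refine Finset.sum_congr rfl fun f _ => ?_
  rw [← decA_one (X := fun j k => η (.inr f) (.inl j) (.inl k)) (fun j k => hη.s23 _ _ _)]
  simp only [decA_h20]

theorem sg_norm {η : Idx d → Idx d → Idx d → ℝ} (hη : Form3 η) :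
    ip3 (sg η) (sg η) = yl η 0 + yl η 1 + yl η 2 := by
  rw [decA_ip (sg_form hη), decA_yl hη, Finset.mul_sum]
  refine Finset.sum_congr rfl fun f _ => ?_
  rw [← decA_two (X := fun j k => η (.inr f) (.inl j) (.inl k)) (fun j k => hη.s23 _ _ _)]
  simp only [sg, decA_h20]

/-- `sg` and `rs` are orthogonal -/
theorem decA_sg_rs {η : Idx d → Idx d → Idx d → ℝ} (hη : Form3 η) :
    ip3 (sg η) (rs η) = 0 := by
  unfold rs tp
  rw [ip3_sub_right, ip3_sub_right, ip3_add_right, ip3_smul_right, ip3_smul_right,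
    decA_sg_Om hη, decA_sg_Oi hη, decA_sg_self hη, sg_norm hη]
  ring

theorem yl_nonneg (η : Idx d → Idx d → Idx d → ℝ) (l : Fin 3) : 0 ≤ yl η l := by
  unfold yl
  exact mul_nonneg (by norm_num) (Finset.sum_nonneg fun f _ => by positivity)

theorem dec_norm {η : Idx d → Idx d → Idx d → ℝ} (hη : Form3 η) :
    ip3 η η = ip3 η Om ^ 2 + ip3 η Oi ^ 2 + (yl η 0 + yl η 1 + yl η 2)
      + ip3 (rs η) (rs η) := by
  have h : η = tp η + sg η + rs η := by
    unfold rs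
    abel
  have h1 : ip3 (tp η) (tp η) = ip3 η Om ^ 2 + ip3 η Oi ^ 2 := by
    unfold tp
    simp only [ip3_add_left, ip3_add_right, ip3_smul_left, ip3_smul_right, ip3_Om_Om, ip3_Oi_Oi,
      ip3_Om_Oi, ip3_comm Oi Om]
    ring
  have h2 : ip3 (sg η) (tp η) = 0 := by
    unfold tp
    rw [ip3_add_right, ip3_smul_right, ip3_smul_right, decA_sg_Om hη, decA_sg_Oi hη]
    ring
  have h3 : ip3 (rs η) (tp η) = 0 := by
    unfold tp
    rw [ip3_add_right, ip3_smul_right, ip3_smul_right, decA_rs_Om hη, decA_rs_Oi hη]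
    ring
  have h4 : ip3 (sg η) (rs η) = 0 := decA_sg_rs hη
  conv_lhs => rw [h]
  simp only [ip3_add_left, ip3_add_right]
  rw [ip3_comm (tp η) (sg η), ip3_comm (tp η) (rs η), ip3_comm (rs η) (sg η), h1, h2, h3, h4,
    sg_norm hη]
  ring

end Pool.Hopf3
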