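import Pool.Agent.Lib.MP_4a593f_gt.P3.DecA
import Pool.Agent.Lib.MP_4a593f_gt.P3.NFb

namespace Pool.Hopf3

open Finset

variable {d : ℕ}

/-- sign and value of the row `i` of the normal form -/
def decB_c (μ : ℕ → ℝ) (i : Fin 6) : ℝ := decA_s i * μ (i.val / 2)

private theorem decB_row (μ : ℕ → ℝ) (i : Fin 6) (g : Fin 6 → ℝ) :
    ∑ t : Fin 6, nfL (d := d) μ (.inl i) (.inl t) * g t = decB_c μ i * g (decA_p i) := by
  fin_cases i <;> simp [Fin.sum_univ_six, nfL, nf, pos, decB_c, decA_s, decA_p]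

private theorem decB_nf {μ : ℕ → ℝ} {a b : ℕ} (h1 : ¬ (b = a + 1 ∧ a % 2 = 0))
    (h2 : ¬ (a = b + 1 ∧ b % 2 = 0)) : nf μ a b = 0 := by
  unfold nf
  rw [if_neg h1, if_neg h2]

private theorem decB_mixed (μ : ℕ → ℝ) (i : Fin 6) (f : Fin d) :
    nfL μ (.inl i) (.inr f) = 0 :=
  decB_nf (a := i.val) (b := 6 + f.val) (by omega) (by omega)

private theorem decB_mixed' (μ : ℕ → ℝ) (i : Fin 6) (f : Fin d) :
    nfL μ (.inr f) (.inl i) = 0 :=
  decB_nf (a := 6 + f.val) (b := i.val) (by omega) (by omega)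

/-- two 3-forms which agree on sorted index types are equal -/
private theorem decB_ext {χ η : Idx d → Idx d → Idx d → ℝ} (hχ : Form3 χ) (hη : Form3 η)
    (h0 : ∀ i j k : Fin 6, χ (.inl i) (.inl j) (.inl k) = η (.inl i) (.inl j) (.inl k))
    (h1 : ∀ (f : Fin d) (j k : Fin 6), χ (.inr f) (.inl j) (.inl k) =
      η (.inr f) (.inl j) (.inl k))
    (h2 : ∀ (f g : Fin d) (k : Fin 6), χ (.inr f) (.inr g) (.inl k) =
      η (.inr f) (.inr g) (.inl k))
    (h3 : ∀ f g h : Fin d, χ (.inr f) (.inr g) (.inr h) = η (.inr f) (.inr g) (.inr h)) :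
    χ = η := by
  funext i j k
  rcases i with i | i <;> rcases j with j | j <;> rcases k with k | k
  · exact h0 i j k
  · rw [decA_cyc hχ (.inr k) (.inl i) (.inl j), decA_cyc hη (.inr k) (.inl i) (.inl j)]
    exact h1 k i j
  · rw [hχ.s12 (.inr j) (.inl i) (.inl k), hη.s12 (.inr j) (.inl i) (.inl k), h1 j i k]
  · rw [decA_cyc hχ (.inr k) (.inl i) (.inr j), decA_cyc hη (.inr k) (.inl i) (.inr j),
      hχ.s23 (.inr k) (.inr j) (.inl i), hη.s23 (.inr k) (.inr j) (.inl i), h2 k j i]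
  · exact h1 i j k
  · rw [hχ.s23 (.inr i) (.inr k) (.inl j), hη.s23 (.inr i) (.inr k) (.inl j), h2 i k j]
  · exact h2 i j k
  · exact h3 i j k

/-- integer version of `2 * Om6` -/
private def decB_k (a b : Fin 6) : ℤ := if a = b then 1 else 0

private def decB_w (a b c i j k : Fin 6) : ℤ :=
  decB_k a i * decB_k b j * decB_k c k + decB_k a j * decB_k b k * decB_k c i
    + decB_k a k * decB_k b i * decB_k c j
    - decB_k a i * decB_k b k * decB_k c j - decB_k a j * decB_k b i * decB_k c k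
    - decB_k a k * decB_k b j * decB_k c i

private def decB_Om (i j k : Fin 6) : ℤ :=
  decB_w 0 2 4 i j k - decB_w 0 3 5 i j k - decB_w 1 2 5 i j k - decB_w 1 3 4 i j k

private def decB_Oi (i j k : Fin 6) : ℤ :=
  decB_w 1 2 4 i j k + decB_w 0 3 4 i j k + decB_w 0 2 5 i j k - decB_w 1 3 5 i j k

private theorem decB_w_eq (a b c i j k : Fin 6) : w3 a b c i j k = (decB_w a b c i j k : ℝ) := by
  simp only [w3, decB_w, kd, decB_k]
  push_cast
  rfl

private theorem decB_Om_eq (i j k : Fin 6) : Om6 i j k = 1 / 2 * (decB_Om i j k : ℝ) := by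
  simp only [Om6, decB_Om, decB_w_eq]
  push_cast
  rfl

private theorem decB_Oi_eq (i j k : Fin 6) : Oi6 i j k = 1 / 2 * (decB_Oi i j k : ℝ) := by
  simp only [Oi6, decB_Oi, decB_w_eq]
  push_cast
  rfl

private def decB_s (j : Fin 6) : ℤ := if j.val % 2 = 0 then 1 else -1

private def decB_d (l : Fin 3) (j : Fin 6) : ℤ := if j.val / 2 = l.val then 1 else 0

private theorem decB_c_eq (μ : ℕ → ℝ) (i : Fin 6) :
    decB_c μ i = (decB_s i : ℝ) * ((decB_d 0 i : ℝ) * μ 0 + (decB_d 1 i : ℝ) * μ 1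
      + (decB_d 2 i : ℝ) * μ 2) := by
  fin_cases i <;> simp [decB_c, decA_s, decB_s, decB_d]

private theorem decB_key : ∀ (l : Fin 3) (i j k : Fin 6),
    decB_s i * decB_d l i * decB_Om (decA_p i) j k + decB_s j * decB_d l j * decB_Om i (decA_p j) k
      + decB_s k * decB_d l k * decB_Om i j (decA_p k) = - decB_Oi i j k := by
  decide +kernel

private theorem decB_key' : ∀ (l : Fin 3) (i j k : Fin 6),
    decB_s i * decB_d l i * decB_Oi (decA_p i) j k + decB_s j * decB_d l j * decB_Oi i (decA_p j) k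
      + decB_s k * decB_d l k * decB_Oi i j (decA_p k) = decB_Om i j k := by
  decide +kernel

/-- `rho` of the normal form on the pure part -/
private theorem decB_rho0 (μ : ℕ → ℝ) {χ : Idx d → Idx d → Idx d → ℝ} (i j k : Fin 6) :
    rho (nfL μ) χ (.inl i) (.inl j) (.inl k) =
      decB_c μ i * χ (.inl (decA_p i)) (.inl j) (.inl k) +
      decB_c μ j * χ (.inl i) (.inl (decA_p j)) (.inl k) +
      decB_c μ k * χ (.inl i) (.inl j) (.inl (decA_p k)) := by
  unfold rho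
  rw [Fintype.sum_sum_type]
  simp only [decB_mixed, zero_mul, add_zero, Finset.sum_const_zero, Finset.sum_add_distrib]
  rw [decB_row μ i (fun t => χ (.inl t) (.inl j) (.inl k)),
    decB_row μ j (fun t => χ (.inl i) (.inl t) (.inl k)),
    decB_row μ k (fun t => χ (.inl i) (.inl j) (.inl t))]

/-- `rho` of the normal form on the part with one index in `Fin d` -/
private theorem decB_rho1 (μ : ℕ → ℝ) {χ : Idx d → Idx d → Idx d → ℝ} (f : Fin d)
    (j k : Fin 6) :
    rho (nfL μ) χ (.inr f) (.inl j) (.inl k) =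
      (∑ g : Fin d, nfL μ (.inr f) (.inr g) * χ (.inr g) (.inl j) (.inl k)) +
      decB_c μ j * χ (.inr f) (.inl (decA_p j)) (.inl k) +
      decB_c μ k * χ (.inr f) (.inl j) (.inl (decA_p k)) := by
  unfold rho
  rw [Fintype.sum_sum_type]
  simp only [decB_mixed, decB_mixed', zero_mul, add_zero, zero_add, Finset.sum_add_distrib]
  rw [decB_row μ j (fun t => χ (.inr f) (.inl t) (.inl k)),
    decB_row μ k (fun t => χ (.inr f) (.inl j) (.inl t))]
  ring

theorem rho_nf_Om (μ : ℕ → ℝ) :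
    rho (nfL μ : Idx d → Idx d → ℝ) Om = (-(μ 0 + μ 1 + μ 2)) • Oi := by
  refine decB_ext (rho_form _ Om_form) (Form3.smul _ Oi_form) ?_ ?_ ?_ ?_
  · intro i j k
    rw [decB_rho0]
    simp only [Om, Oi, Pi.smul_apply, smul_eq_mul, decB_Om_eq, decB_Oi_eq, decB_c_eq]
    have k0 := congrArg (Int.cast : ℤ → ℝ) (decB_key 0 i j k)
    have k1 := congrArg (Int.cast : ℤ → ℝ) (decB_key 1 i j k)
    have k2 := congrArg (Int.cast : ℤ → ℝ) (decB_key 2 i j k)
    push_cast at k0 k1 k2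
    linear_combination μ 0 / 2 * k0 + μ 1 / 2 * k1 + μ 2 / 2 * k2
  · intro f j k
    rw [decB_rho1]
    simp [Om, Oi]
  · intro f g k
    simp [rho, Om, Oi]
  · intro f g h
    simp [rho, Om, Oi]

theorem rho_nf_Oi (μ : ℕ → ℝ) :
    rho (nfL μ : Idx d → Idx d → ℝ) Oi = (μ 0 + μ 1 + μ 2) • Om := by
  refine decB_ext (rho_form _ Oi_form) (Form3.smul _ Om_form) ?_ ?_ ?_ ?_
  · intro i j k
    rw [decB_rho0]
    simp only [Om, Oi, Pi.smul_apply, smul_eq_mul, decB_Om_eq, decB_Oi_eq, decB_c_eq]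
    have k0 := congrArg (Int.cast : ℤ → ℝ) (decB_key' 0 i j k)
    have k1 := congrArg (Int.cast : ℤ → ℝ) (decB_key' 1 i j k)
    have k2 := congrArg (Int.cast : ℤ → ℝ) (decB_key' 2 i j k)
    push_cast at k0 k1 k2
    linear_combination μ 0 / 2 * k0 + μ 1 / 2 * k1 + μ 2 / 2 * k2
  · intro f j k
    rw [decB_rho1]
    simp [Om, Oi]
  · intro f g k
    simp [rho, Om, Oi]
  · intro f g h
    simp [rho, Om, Oi]

private theorem decB_pp (j : Fin 6) : decA_p (decA_p j) = j := by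
  fin_cases j <;> rfl

private theorem decB_sp (j : Fin 6) : decA_s (decA_p j) = - decA_s j := by
  fin_cases j <;> simp [decA_s, decA_p]

private theorem decB_cp (μ : ℕ → ℝ) (j : Fin 6) : decB_c μ (decA_p j) = - decB_c μ j := by
  fin_cases j <;> simp [decB_c, decA_s, decA_p]

/-- `rho` of the normal form commutes with the projection to `Λ^{2,0} ⊗ ℝ^d` -/
theorem decB_sg {η : Idx d → Idx d → Idx d → ℝ} (hη : Form3 η) (μ : ℕ → ℝ) :
    rho (nfL μ) (sg η) = sg (rho (nfL μ) η) := by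
  refine decB_ext (rho_form _ (sg_form hη)) (sg_form (rho_form _ hη)) ?_ ?_ ?_ ?_
  · intro i j k
    rw [decB_rho0]
    simp [sg]
  · intro f j k
    rw [decB_rho1]
    simp only [sg, decA_h20]
    rw [decB_rho1, decB_rho1]
    simp only [decB_pp, decB_sp, decB_cp]
    have e : ∑ g : Fin d, nfL μ (.inr f) (.inr g) * (1 / 2 * (η (.inr g) (.inl j) (.inl k) -
        decA_s j * (decA_s k * η (.inr g) (.inl (decA_p j)) (.inl (decA_p k))))) =
        1 / 2 * ((∑ g : Fin d, nfL μ (.inr f) (.inr g) * η (.inr g) (.inl j) (.inl k)) -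
        decA_s j * (decA_s k * ∑ g : Fin d, nfL μ (.inr f) (.inr g) *
          η (.inr g) (.inl (decA_p j)) (.inl (decA_p k)))) := by
      simp only [Finset.mul_sum, ← Finset.sum_sub_distrib]
      exact Finset.sum_congr rfl fun g _ => by ring
    rw [e]
    ring
  · intro f g k
    simp [rho, sg, decB_mixed']
  · intro f g h
    simp [rho, sg, decB_mixed']

/-- `rho L` respects the decomposition -/
theorem dec_rho {η : Idx d → Idx d → Idx d → ℝ} (hη : Form3 η) (μ : ℕ → ℝ) :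
    ip3 (rho (nfL μ) η) (rho (nfL μ) η)
      = (μ 0 + μ 1 + μ 2) ^ 2 * (ip3 η Om ^ 2 + ip3 η Oi ^ 2)
        + ip3 (rho (nfL μ) (sg η)) (rho (nfL μ) (sg η))
        + ip3 (rho (nfL μ) (rs η)) (rho (nfL μ) (rs η)) := by
  have hL : Skew (nfL μ : Idx d → Idx d → ℝ) := nfL_skew μ
  have htp : rho (nfL μ) (tp η) = (ip3 η Om * -(μ 0 + μ 1 + μ 2)) • Oi +
      (ip3 η Oi * (μ 0 + μ 1 + μ 2)) • Om := by
    unfold tp
    rw [rho_add, rho_smul, rho_smul, rho_nf_Om, rho_nf_Oi, smul_smul, smul_smul]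
  have hperp : ∀ χ : Idx d → Idx d → Idx d → ℝ, ip3 χ Om = 0 → ip3 χ Oi = 0 →
      ip3 χ (rho (nfL μ) (tp η)) = 0 := by
    intro χ h1 h2
    rw [htp, ip3_add_right, ip3_smul_right, ip3_smul_right, h1, h2]
    ring
  have hperp' : ∀ χ : Idx d → Idx d → Idx d → ℝ, ip3 χ Om = 0 → ip3 χ Oi = 0 →
      ip3 (rho (nfL μ) χ) (rho (nfL μ) (tp η)) = 0 := by
    intro χ h1 h2
    rw [ip3_rho hL, htp, rho_add, rho_smul, rho_smul, rho_nf_Om, rho_nf_Oi, ip3_add_right,
      ip3_smul_right, ip3_smul_right, ip3_smul_right, ip3_smul_right, h1, h2]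
    ring
  have h1 : ip3 (rho (nfL μ) (tp η)) (rho (nfL μ) (tp η)) =
      (μ 0 + μ 1 + μ 2) ^ 2 * (ip3 η Om ^ 2 + ip3 η Oi ^ 2) := by
    rw [htp]
    simp only [ip3_add_left, ip3_add_right, ip3_smul_left, ip3_smul_right, ip3_Om_Om, ip3_Oi_Oi,
      ip3_Om_Oi, ip3_comm Oi Om]
    ring
  have h2 := hperp' (sg η) (decA_sg_Om hη) (decA_sg_Oi hη)
  have h3 := hperp' (rs η) (decA_rs_Om hη) (decA_rs_Oi hη)
  have h4 : ip3 (rho (nfL μ) (sg η)) (rho (nfL μ) (rs η)) = 0 := by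
    have e1 : rho (nfL μ) (rs η) = rho (nfL μ) η - rho (nfL μ) (tp η) - rho (nfL μ) (sg η) := by
      unfold rs
      rw [rho_sub, rho_sub]
    have hρ : Form3 (rho (nfL μ) η) := rho_form _ hη
    rw [e1, ip3_sub_right, ip3_sub_right, h2, decB_sg hη, decA_sg_self hρ, sg_norm hρ]
    ring
  have h : rho (nfL μ) η = rho (nfL μ) (tp η) + rho (nfL μ) (sg η) + rho (nfL μ) (rs η) := by
    rw [← rho_add, ← rho_add]
    congr 1
    unfold rs
    abel
  rw [h]
  simp only [ip3_add_left, ip3_add_right]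
  rw [ip3_comm (rho (nfL μ) (tp η)) (rho (nfL μ) (sg η)),
    ip3_comm (rho (nfL μ) (tp η)) (rho (nfL μ) (rs η)),
    ip3_comm (rho (nfL μ) (rs η)) (rho (nfL μ) (sg η)), h1, h2, h3, h4]
  ring

end Pool.Hopf3
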