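import Pool.Agent.Lib.MP_4a593f_gt.P3.DecA
import Pool.Agent.Lib.MP_4a593f_gt.P3.NFb

namespace Pool.Hopf3

open Finset

variable {d : ℕ}

private lemma decC_lr (μ : ℕ → ℝ) (i : Fin 6) (f : ℕ) : nf μ (i : ℕ) (6 + f) = 0 := by
  have hi := i.isLt
  unfold nf
  rw [if_neg (by omega), if_neg (by omega)]

private lemma decC_rl (μ : ℕ → ℝ) (i : Fin 6) (f : ℕ) : nf μ (6 + f) (i : ℕ) = 0 := by
  have hi := i.isLt
  unfold nf
  rw [if_neg (by omega), if_neg (by omega)]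

private lemma decC_row {μ : ℕ → ℝ} (hμ : Antitone μ) (h0 : ∀ k, 0 ≤ μ k) (f : Fin d) :
    ∑ g : Fin d, |nf μ (6 + (f : ℕ)) (6 + (g : ℕ))| ≤ μ 3 := by
  have h1 : ∀ g : Fin d, |nf μ (6 + (f : ℕ)) (6 + (g : ℕ))| ≤
      if (g : ℕ) = (if (f : ℕ) % 2 = 0 then (f : ℕ) + 1 else (f : ℕ) - 1) then μ 3 else 0 := by
    intro g
    unfold nf
    by_cases hp : (6 + (g : ℕ) = 6 + (f : ℕ) + 1 ∧ (6 + (f : ℕ)) % 2 = 0)
    · rw [if_pos hp, if_pos (by rw [if_pos (by omega)]; omega), abs_of_nonneg (h0 _)]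
      exact hμ (by omega)
    · rw [if_neg hp]
      by_cases hq : (6 + (f : ℕ) = 6 + (g : ℕ) + 1 ∧ (6 + (g : ℕ)) % 2 = 0)
      · rw [if_pos hq, if_pos (by rw [if_neg (by omega)]; omega), abs_neg, abs_of_nonneg (h0 _)]
        exact hμ (by omega)
      · rw [if_neg hq, abs_zero]
        split_ifs <;> first | exact h0 3 | exact le_rfl
  refine (Finset.sum_le_sum fun g _ => h1 g).trans ?_
  rw [← Finset.sum_filter, Finset.sum_const, nsmul_eq_mul]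
  have h2 : (Finset.univ.filter fun g : Fin d =>
      (g : ℕ) = (if (f : ℕ) % 2 = 0 then (f : ℕ) + 1 else (f : ℕ) - 1)).card ≤ 1 := by
    rw [Finset.card_le_one]
    intro a ha b hb
    rw [Finset.mem_filter] at ha hb
    exact Fin.ext (ha.2.trans hb.2.symm)
  have h3 : ((Finset.univ.filter fun g : Fin d =>
      (g : ℕ) = (if (f : ℕ) % 2 = 0 then (f : ℕ) + 1 else (f : ℕ) - 1)).card : ℝ) ≤ 1 := by
    exact_mod_cast h2
  calc _ ≤ 1 * μ 3 := mul_le_mul_of_nonneg_right h3 (h0 3)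
    _ = μ 3 := one_mul _

private lemma decC_skew (μ : ℕ → ℝ) (i j : ℕ) : nf μ j i = - nf μ i j := by
  unfold nf
  by_cases hp : j = i + 1 ∧ i % 2 = 0
  · rw [if_neg (by omega), if_pos hp, if_pos hp]
  · rw [if_neg hp, if_neg hp]
    by_cases hq : i = j + 1 ∧ j % 2 = 0
    · rw [if_pos hq, if_pos hq, neg_neg]
    · rw [if_neg hq, if_neg hq, neg_zero]

private lemma decC_col {μ : ℕ → ℝ} (hμ : Antitone μ) (h0 : ∀ k, 0 ≤ μ k) (g : Fin d) :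
    ∑ f : Fin d, |nf μ (6 + (f : ℕ)) (6 + (g : ℕ))| ≤ μ 3 := by
  have h1 : ∀ f : Fin d, |nf μ (6 + (f : ℕ)) (6 + (g : ℕ))| =
      |nf μ (6 + (g : ℕ)) (6 + (f : ℕ))| := by
    intro f
    rw [decC_skew μ (6 + (g : ℕ)) (6 + (f : ℕ)), abs_neg]
  rw [Finset.sum_congr rfl fun f _ => h1 f]
  exact decC_row hμ h0 g

private lemma decC_key {M : Fin d → Fin d → ℝ} {c s : ℝ} (hc : 0 ≤ c) (hs : 0 ≤ s)
    (hrow : ∀ f, ∑ g, |M f g| ≤ c) (hcol : ∀ g, ∑ f, |M f g| ≤ c) (α β : Fin d → ℝ) :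
    ∑ f, (∑ g, M f g * α g + s * β f) ^ 2 ≤
      (c + s) * (c * ∑ f, α f ^ 2 + s * ∑ f, β f ^ 2) := by
  have h1 : ∀ f, (∑ g, M f g * α g + s * β f) ^ 2 ≤
      (c + s) * (∑ g, |M f g| * α g ^ 2 + s * β f ^ 2) := by
    intro f
    set X := ∑ g, |M f g| * α g ^ 2 with hX
    have hX0 : 0 ≤ X := Finset.sum_nonneg fun g _ => mul_nonneg (abs_nonneg _) (sq_nonneg _)
    have h2 : (∑ g, M f g * α g) ^ 2 ≤ (∑ g, |M f g|) * X := by
      apply Finset.sum_sq_le_sum_mul_sum_of_sq_le_mul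
      · intro g _; exact abs_nonneg _
      · intro g _; exact mul_nonneg (abs_nonneg _) (sq_nonneg _)
      · intro g _
        rw [mul_pow, ← sq_abs (M f g)]
        exact le_of_eq (by ring)
    have h3 : (∑ g, M f g * α g) ^ 2 ≤ c * X :=
      h2.trans (mul_le_mul_of_nonneg_right (hrow f) hX0)
    generalize ∑ g, M f g * α g = r at h3
    generalize β f = b
    have h4 : 2 * r * b ≤ X + c * b ^ 2 := by
      have h5 : 0 ≤ X + c * b ^ 2 := by positivity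
      have h6 : (2 * r * b) ^ 2 ≤ (X + c * b ^ 2) ^ 2 := by
        have h7 : r ^ 2 * b ^ 2 ≤ c * X * b ^ 2 := mul_le_mul_of_nonneg_right h3 (sq_nonneg b)
        have h8 : 0 ≤ (X - c * b ^ 2) ^ 2 := sq_nonneg _
        have e1 : (2 * r * b) ^ 2 = 4 * (r ^ 2 * b ^ 2) := by ring
        have e2 : (X + c * b ^ 2) ^ 2 = (X - c * b ^ 2) ^ 2 + 4 * (c * X * b ^ 2) := by ring
        rw [e1, e2]
        linarith
      exact (abs_le_of_sq_le_sq' h6 h5).2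
    have h9 := mul_le_mul_of_nonneg_left h4 hs
    have e3 : (r + s * b) ^ 2 = r ^ 2 + s * (2 * r * b) + s ^ 2 * b ^ 2 := by ring
    have e4 : (c + s) * (X + s * b ^ 2) = c * X + s * (X + c * b ^ 2) + s ^ 2 * b ^ 2 := by ring
    rw [e3, e4]
    linarith
  refine (Finset.sum_le_sum fun f _ => h1 f).trans ?_
  rw [← Finset.mul_sum, Finset.sum_add_distrib, ← Finset.mul_sum]
  apply mul_le_mul_of_nonneg_left _ (add_nonneg hc hs)
  have h10 : ∑ f, ∑ g, |M f g| * α g ^ 2 ≤ c * ∑ f, α f ^ 2 := by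
    rw [Finset.sum_comm, Finset.mul_sum]
    apply Finset.sum_le_sum
    intro g _
    rw [← Finset.sum_mul]
    exact mul_le_mul_of_nonneg_right (hcol g) (sq_nonneg _)
  linarith

/-- both components of a plane pair -/
private lemma decC_pair {M : Fin d → Fin d → ℝ} {c s : ℝ} (hc : 0 ≤ c) (hs : 0 ≤ s)
    (hrow : ∀ f, ∑ g, |M f g| ≤ c) (hcol : ∀ g, ∑ f, |M f g| ≤ c) (α β : Fin d → ℝ) :
    ∑ f, ((∑ g, M f g * α g + s * β f) ^ 2 + (∑ g, M f g * β g - s * α f) ^ 2) ≤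
      (s + c) ^ 2 * ∑ f, (α f ^ 2 + β f ^ 2) := by
  have h1 := decC_key hc hs hrow hcol α β
  have h2 := decC_key hc hs hrow hcol β (fun f => - α f)
  have h3 : ∑ f, (∑ g, M f g * β g + s * (fun f => - α f) f) ^ 2 =
      ∑ f, (∑ g, M f g * β g - s * α f) ^ 2 := by
    refine Finset.sum_congr rfl fun f _ => ?_
    show (∑ g, M f g * β g + s * (- α f)) ^ 2 = _
    ring
  have h4 : ∑ f, (fun f => - α f) f ^ 2 = ∑ f, α f ^ 2 := by
    refine Finset.sum_congr rfl fun f _ => ?_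
    show (- α f) ^ 2 = _
    ring
  rw [h3, h4] at h2
  rw [Finset.sum_add_distrib, Finset.sum_add_distrib]
  have e : (s + c) ^ 2 * (∑ f, α f ^ 2 + ∑ f, β f ^ 2) =
      (c + s) * (c * ∑ f, α f ^ 2 + s * ∑ f, β f ^ 2) +
      (c + s) * (c * ∑ f, β f ^ 2 + s * ∑ f, α f ^ 2) := by ring
  rw [e]
  linarith

/-- a (2,0) form in components -/
private def H6 (a0 b0 a1 b1 a2 b2 : ℝ) : Fin 6 → Fin 6 → ℝ :=
  ![![0, 0, a2, b2, -a1, -b1], ![0, 0, b2, -a2, -b1, a1], ![-a2, -b2, 0, 0, a0, b0],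
    ![-b2, a2, 0, 0, b0, -a0], ![a1, b1, -a0, -b0, 0, 0], ![b1, -a1, -b0, a0, 0, 0]]

private lemma decC_J0 (v : Fin 6 → ℝ) : ∑ s, J6 0 s * v s = v 1 := by
  simp [J6, w2, kd]

private lemma decC_J1 (v : Fin 6 → ℝ) : ∑ s, J6 1 s * v s = - v 0 := by
  simp [J6, w2, kd]

private lemma decC_J2 (v : Fin 6 → ℝ) : ∑ s, J6 2 s * v s = v 3 := by
  simp [J6, w2, kd]

private lemma decC_J3 (v : Fin 6 → ℝ) : ∑ s, J6 3 s * v s = - v 2 := by
  simp [J6, w2, kd]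

private lemma decC_J4 (v : Fin 6 → ℝ) : ∑ s, J6 4 s * v s = v 5 := by
  simp [J6, w2, kd]

private lemma decC_J5 (v : Fin 6 → ℝ) : ∑ s, J6 5 s * v s = - v 4 := by
  simp [J6, w2, kd]

private lemma decC_h {X : Fin 6 → Fin 6 → ℝ} (hX : ∀ j k, X k j = - X j k) (j k : Fin 6) :
    1 / 2 * (X j k - ∑ s, ∑ t, J6 j s * J6 k t * X s t) =
      H6 (1 / 2 * (X 2 4 - X 3 5)) (1 / 2 * (X 2 5 + X 3 4)) (1 / 2 * (X 4 0 - X 5 1))
        (1 / 2 * (X 4 1 + X 5 0)) (1 / 2 * (X 0 2 - X 1 3)) (1 / 2 * (X 0 3 + X 1 2)) j k := by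
  have h1 : ∑ s, ∑ t, J6 j s * J6 k t * X s t = ∑ s, J6 j s * ∑ t, J6 k t * X s t := by
    refine Finset.sum_congr rfl fun s _ => ?_
    rw [Finset.mul_sum]
    exact Finset.sum_congr rfl fun t _ => by ring
  rw [h1]
  have h00 := hX 0 0
  have h11 := hX 1 1
  have h22 := hX 2 2
  have h33 := hX 3 3
  have h44 := hX 4 4
  have h55 := hX 5 5
  have h01 := hX 0 1
  have h02 := hX 0 2
  have h03 := hX 0 3
  have h04 := hX 0 4
  have h05 := hX 0 5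
  have h12 := hX 1 2
  have h13 := hX 1 3
  have h14 := hX 1 4
  have h15 := hX 1 5
  have h23 := hX 2 3
  have h24 := hX 2 4
  have h25 := hX 2 5
  have h34 := hX 3 4
  have h35 := hX 3 5
  have h45 := hX 4 5
  fin_cases j <;> fin_cases k <;>
    simp only [Fin.zero_eta, Fin.mk_one, Fin.reduceFinMk, H6, decC_J0, decC_J1, decC_J2, decC_J3,
      decC_J4, decC_J5, Matrix.cons_val] <;>
    linarith

private noncomputable def RR (μ : ℕ → ℝ) (η : Idx d → Idx d → Idx d → ℝ) (f : Fin d)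
    (j k : Fin 6) : ℝ :=
  ∑ t : Fin 6, (nf μ j t * h20 η f t k + nf μ k t * h20 η f j t) +
    ∑ g : Fin d, nf μ (6 + (f : ℕ)) (6 + (g : ℕ)) * h20 η g j k

private lemma decC_rll (μ : ℕ → ℝ) (η : Idx d → Idx d → Idx d → ℝ) (f : Fin d) (j k : Fin 6) :
    rho (nfL μ) (sg η) (Sum.inr f) (Sum.inl j) (Sum.inl k) = RR μ η f j k := by
  unfold rho RR
  rw [Fintype.sum_sum_type]
  simp only [sg, nfL, pos, decC_lr, decC_rl, zero_mul, mul_zero, add_zero, zero_add]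

private lemma decC_lrl (μ : ℕ → ℝ) (η : Idx d → Idx d → Idx d → ℝ) (f : Fin d) (j k : Fin 6) :
    rho (nfL μ) (sg η) (Sum.inl j) (Sum.inr f) (Sum.inl k) = - RR μ η f j k := by
  unfold rho RR
  rw [Fintype.sum_sum_type]
  simp only [sg, nfL, pos, decC_lr, decC_rl, zero_mul, mul_zero, add_zero, zero_add]
  rw [neg_add, ← Finset.sum_neg_distrib, ← Finset.sum_neg_distrib]
  congr 1
  · exact Finset.sum_congr rfl fun t _ => by ring
  · exact Finset.sum_congr rfl fun t _ => by ring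

private lemma decC_llr (μ : ℕ → ℝ) (η : Idx d → Idx d → Idx d → ℝ) (f : Fin d) (j k : Fin 6) :
    rho (nfL μ) (sg η) (Sum.inl j) (Sum.inl k) (Sum.inr f) = RR μ η f j k := by
  unfold rho RR
  rw [Fintype.sum_sum_type]
  simp only [sg, nfL, pos, decC_lr, decC_rl, zero_mul, mul_zero, add_zero, zero_add]

private lemma decC_lll (μ : ℕ → ℝ) (η : Idx d → Idx d → Idx d → ℝ) (i j k : Fin 6) :
    rho (nfL μ) (sg η) (Sum.inl i) (Sum.inl j) (Sum.inl k) = 0 := by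
  unfold rho
  rw [Fintype.sum_sum_type]
  simp only [sg, nfL, pos, decC_lr, decC_rl, zero_mul, mul_zero, add_zero, Finset.sum_const_zero]

private lemma decC_rrl (μ : ℕ → ℝ) (η : Idx d → Idx d → Idx d → ℝ) (f g : Fin d) (k : Fin 6) :
    rho (nfL μ) (sg η) (Sum.inr f) (Sum.inr g) (Sum.inl k) = 0 := by
  unfold rho
  rw [Fintype.sum_sum_type]
  simp only [sg, nfL, pos, decC_lr, decC_rl, zero_mul, mul_zero, add_zero, Finset.sum_const_zero]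

private lemma decC_rlr (μ : ℕ → ℝ) (η : Idx d → Idx d → Idx d → ℝ) (f g : Fin d) (k : Fin 6) :
    rho (nfL μ) (sg η) (Sum.inr f) (Sum.inl k) (Sum.inr g) = 0 := by
  unfold rho
  rw [Fintype.sum_sum_type]
  simp only [sg, nfL, pos, decC_lr, decC_rl, zero_mul, mul_zero, add_zero, Finset.sum_const_zero]

private lemma decC_lrr (μ : ℕ → ℝ) (η : Idx d → Idx d → Idx d → ℝ) (f g : Fin d) (k : Fin 6) :
    rho (nfL μ) (sg η) (Sum.inl k) (Sum.inr f) (Sum.inr g) = 0 := by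
  unfold rho
  rw [Fintype.sum_sum_type]
  simp only [sg, nfL, pos, decC_lr, decC_rl, zero_mul, mul_zero, add_zero, Finset.sum_const_zero]

private lemma decC_rrr (μ : ℕ → ℝ) (η : Idx d → Idx d → Idx d → ℝ) (f g h : Fin d) :
    rho (nfL μ) (sg η) (Sum.inr f) (Sum.inr g) (Sum.inr h) = 0 := by
  unfold rho
  rw [Fintype.sum_sum_type]
  simp only [sg, nfL, pos, decC_lr, decC_rl, zero_mul, mul_zero, add_zero, Finset.sum_const_zero]

private lemma decC_norm (μ : ℕ → ℝ) (η : Idx d → Idx d → Idx d → ℝ) :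
    ip3 (rho (nfL μ) (sg η)) (rho (nfL μ) (sg η)) =
      1 / 2 * ∑ f : Fin d, ∑ j : Fin 6, ∑ k : Fin 6, RR μ η f j k ^ 2 := by
  unfold ip3
  simp only [Fintype.sum_sum_type, decC_rll, decC_lrl, decC_llr, decC_lll, decC_rrl, decC_rlr,
    decC_lrr, decC_rrr, mul_zero, Finset.sum_const_zero, add_zero, zero_add]
  have h1 : ∑ j : Fin 6, ((∑ k : Fin 6, ∑ f : Fin d, RR μ η f j k * RR μ η f j k) +
      ∑ f : Fin d, ∑ k : Fin 6, -RR μ η f j k * -RR μ η f j k) =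
      2 * ∑ f : Fin d, ∑ j : Fin 6, ∑ k : Fin 6, RR μ η f j k ^ 2 := by
    rw [Finset.sum_comm (γ := Fin d), Finset.mul_sum]
    refine Finset.sum_congr rfl fun j _ => ?_
    rw [Finset.sum_comm (γ := Fin 6)]
    have h2 : ∑ f : Fin d, ∑ k : Fin 6, RR μ η f j k * RR μ η f j k =
        ∑ f : Fin d, ∑ k : Fin 6, RR μ η f j k ^ 2 :=
      Finset.sum_congr rfl fun f _ => Finset.sum_congr rfl fun k _ => by ring
    have h3 : ∑ f : Fin d, ∑ k : Fin 6, -RR μ η f j k * -RR μ η f j k =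
        ∑ f : Fin d, ∑ k : Fin 6, RR μ η f j k ^ 2 :=
      Finset.sum_congr rfl fun f _ => Finset.sum_congr rfl fun k _ => by ring
    rw [h2, h3]
    ring
  have h4 : ∑ f : Fin d, ∑ j : Fin 6, ∑ k : Fin 6, RR μ η f j k * RR μ η f j k =
      ∑ f : Fin d, ∑ j : Fin 6, ∑ k : Fin 6, RR μ η f j k ^ 2 :=
    Finset.sum_congr rfl fun f _ => Finset.sum_congr rfl fun k _ =>
      Finset.sum_congr rfl fun k _ => by ring
  rw [h1, h4]
  ring

/-- the normal form on the first six coordinates -/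
private def N6 (m0 m1 m2 : ℝ) : Fin 6 → Fin 6 → ℝ :=
  ![![0, m0, 0, 0, 0, 0], ![-m0, 0, 0, 0, 0, 0], ![0, 0, 0, m1, 0, 0], ![0, 0, -m1, 0, 0, 0],
    ![0, 0, 0, 0, 0, m2], ![0, 0, 0, 0, -m2, 0]]

private lemma decC_N (μ : ℕ → ℝ) (i j : Fin 6) :
    nf μ (i : ℕ) (j : ℕ) = N6 (μ 0) (μ 1) (μ 2) i j := by
  fin_cases i <;> fin_cases j <;> simp [nf, N6]

private lemma decC_alg (m0 m1 m2 a0 b0 a1 b1 a2 b2 A0 B0 A1 B1 A2 B2 : ℝ) :
    ∑ j : Fin 6, ∑ k : Fin 6, (∑ t : Fin 6, (N6 m0 m1 m2 j t * H6 a0 b0 a1 b1 a2 b2 t k +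
      N6 m0 m1 m2 k t * H6 a0 b0 a1 b1 a2 b2 j t) + H6 A0 B0 A1 B1 A2 B2 j k) ^ 2 =
    4 * (((A0 + (m1 + m2) * b0) ^ 2 + (B0 - (m1 + m2) * a0) ^ 2) +
      ((A1 + (m0 + m2) * b1) ^ 2 + (B1 - (m0 + m2) * a1) ^ 2) +
      ((A2 + (m0 + m1) * b2) ^ 2 + (B2 - (m0 + m1) * a2) ^ 2)) := by
  simp only [Fin.sum_univ_six, N6, H6, Matrix.cons_val]
  ring

private lemma decC_lin (M a0 b0 a1 b1 a2 b2 : Fin d → ℝ) (j k : Fin 6) :
    ∑ g, M g * H6 (a0 g) (b0 g) (a1 g) (b1 g) (a2 g) (b2 g) j k =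
      H6 (∑ g, M g * a0 g) (∑ g, M g * b0 g) (∑ g, M g * a1 g) (∑ g, M g * b1 g)
        (∑ g, M g * a2 g) (∑ g, M g * b2 g) j k := by
  fin_cases j <;> fin_cases k <;> simp [H6]

theorem sg_rho_le {η : Idx d → Idx d → Idx d → ℝ} (hη : Form3 η) {μ : ℕ → ℝ}
    (hμ : Antitone μ) (h0 : ∀ k, 0 ≤ μ k) :
    ip3 (rho (nfL μ) (sg η)) (rho (nfL μ) (sg η))
      ≤ (μ 1 + μ 2 + μ 3) ^ 2 * yl η 0 + (μ 0 + μ 2 + μ 3) ^ 2 * yl η 1
        + (μ 0 + μ 1 + μ 3) ^ 2 * yl η 2 := by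
  rw [decC_norm]
  set X : Fin d → Fin 6 → Fin 6 → ℝ := fun f j k => η (.inr f) (.inl j) (.inl k) with hXdef
  have hX : ∀ f j k, X f k j = - X f j k := fun f j k => hη.s23 _ _ _
  set a0 : Fin d → ℝ := fun f => 1 / 2 * (X f 2 4 - X f 3 5) with ha0
  set b0 : Fin d → ℝ := fun f => 1 / 2 * (X f 2 5 + X f 3 4) with hb0
  set a1 : Fin d → ℝ := fun f => 1 / 2 * (X f 4 0 - X f 5 1) with ha1
  set b1 : Fin d → ℝ := fun f => 1 / 2 * (X f 4 1 + X f 5 0) with hb1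
  set a2 : Fin d → ℝ := fun f => 1 / 2 * (X f 0 2 - X f 1 3) with ha2
  set b2 : Fin d → ℝ := fun f => 1 / 2 * (X f 0 3 + X f 1 2) with hb2
  have hh : ∀ f j k, h20 η f j k = H6 (a0 f) (b0 f) (a1 f) (b1 f) (a2 f) (b2 f) j k :=
    fun f j k => decC_h (hX f) j k
  have hcyc : ∀ f j k, η (.inl j) (.inl k) (.inr f) = X f j k := by
    intro f j k
    rw [hη.s23 (.inl j) (.inr f) (.inl k), hη.s12 (.inr f) (.inl j) (.inl k), neg_neg]
  set M : Fin d → Fin d → ℝ := fun f g => nf μ (6 + (f : ℕ)) (6 + (g : ℕ)) with hM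
  have hR : ∀ f, ∑ j : Fin 6, ∑ k : Fin 6, RR μ η f j k ^ 2 =
      4 * (((∑ g, M f g * a0 g + (μ 1 + μ 2) * b0 f) ^ 2 +
          (∑ g, M f g * b0 g - (μ 1 + μ 2) * a0 f) ^ 2) +
        ((∑ g, M f g * a1 g + (μ 0 + μ 2) * b1 f) ^ 2 +
          (∑ g, M f g * b1 g - (μ 0 + μ 2) * a1 f) ^ 2) +
        ((∑ g, M f g * a2 g + (μ 0 + μ 1) * b2 f) ^ 2 +
          (∑ g, M f g * b2 g - (μ 0 + μ 1) * a2 f) ^ 2)) := by
    intro f
    rw [← decC_alg (μ 0) (μ 1) (μ 2)]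
    refine Finset.sum_congr rfl fun j _ => Finset.sum_congr rfl fun k _ => ?_
    rw [← decC_lin]
    unfold RR
    simp only [hh, decC_N]
    rfl
  have hy0 : yl η 0 = 2 * ∑ f, (a0 f ^ 2 + b0 f ^ 2) := by
    have h1 : yl η 0 = 1 / 2 * ∑ f : Fin d, ((η (.inl 2) (.inl 4) (.inr f) -
        η (.inl 3) (.inl 5) (.inr f)) ^ 2 + (η (.inl 2) (.inl 5) (.inr f) +
        η (.inl 3) (.inl 4) (.inr f)) ^ 2) := rfl
    rw [h1, Finset.mul_sum, Finset.mul_sum]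
    refine Finset.sum_congr rfl fun f _ => ?_
    rw [hcyc, hcyc, hcyc, hcyc, ha0, hb0]
    ring
  have hy1 : yl η 1 = 2 * ∑ f, (a1 f ^ 2 + b1 f ^ 2) := by
    have h1 : yl η 1 = 1 / 2 * ∑ f : Fin d, ((η (.inl 4) (.inl 0) (.inr f) -
        η (.inl 5) (.inl 1) (.inr f)) ^ 2 + (η (.inl 4) (.inl 1) (.inr f) +
        η (.inl 5) (.inl 0) (.inr f)) ^ 2) := rfl
    rw [h1, Finset.mul_sum, Finset.mul_sum]
    refine Finset.sum_congr rfl fun f _ => ?_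
    rw [hcyc, hcyc, hcyc, hcyc, ha1, hb1]
    ring
  have hy2 : yl η 2 = 2 * ∑ f, (a2 f ^ 2 + b2 f ^ 2) := by
    have h1 : yl η 2 = 1 / 2 * ∑ f : Fin d, ((η (.inl 0) (.inl 2) (.inr f) -
        η (.inl 1) (.inl 3) (.inr f)) ^ 2 + (η (.inl 0) (.inl 3) (.inr f) +
        η (.inl 1) (.inl 2) (.inr f)) ^ 2) := rfl
    rw [h1, Finset.mul_sum, Finset.mul_sum]
    refine Finset.sum_congr rfl fun f _ => ?_
    rw [hcyc, hcyc, hcyc, hcyc, ha2, hb2]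
    ring
  have hrow : ∀ f, ∑ g, |M f g| ≤ μ 3 := fun f => decC_row hμ h0 f
  have hcol : ∀ g, ∑ f, |M f g| ≤ μ 3 := fun g => decC_col hμ h0 g
  have p0 := decC_pair (h0 3) (add_nonneg (h0 1) (h0 2)) hrow hcol a0 b0
  have p1 := decC_pair (h0 3) (add_nonneg (h0 0) (h0 2)) hrow hcol a1 b1
  have p2 := decC_pair (h0 3) (add_nonneg (h0 0) (h0 1)) hrow hcol a2 b2
  rw [Finset.sum_congr rfl fun f _ => hR f, ← Finset.mul_sum, Finset.sum_add_distrib,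
    Finset.sum_add_distrib, hy0, hy1, hy2]
  linarith

end Pool.Hopf3
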