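import Pool.Agent.Lib.MP_4a593f_gt.P3.JSq
import Pool.Agent.Lib.MP_4a593f_gt.P3.Gone

namespace Pool.Hopf3

open Finset

variable {d : ℕ}

private theorem decD_ip2_JJ (L : Idx d → Idx d → ℝ) :
    ip2 L JJ = 1 / 2 * ((L (.inl 0) (.inl 1) - L (.inl 1) (.inl 0))
      + (L (.inl 2) (.inl 3) - L (.inl 3) (.inl 2))
      + (L (.inl 4) (.inl 5) - L (.inl 5) (.inl 4))) := by
  unfold ip2
  rw [Fintype.sum_sum_type]
  simp only [Fintype.sum_sum_type, JJ, mul_zero, Finset.sum_const_zero, add_zero]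
  simp only [J6, w2, kd, Fin.sum_univ_six]
  simp (decide := true)
  ring

private theorem decD_ip2_sub_smul (L M : Idx d → Idx d → ℝ) (c : ℝ) :
    ip2 (L - c • M) (L - c • M) = ip2 L L - 2 * c * ip2 L M + c ^ 2 * ip2 M M := by
  unfold ip2
  have h : ∀ i j, (L - c • M) i j * (L - c • M) i j
      = L i j * L i j - 2 * c * (L i j * M i j) + c ^ 2 * (M i j * M i j) := by
    intro i j
    simp only [Pi.sub_apply, Pi.smul_apply, smul_eq_mul]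
    ring
  simp only [h, Finset.sum_add_distrib, Finset.sum_sub_distrib, ← Finset.mul_sum]
  ring

theorem rest_rho_le {χ : Idx d → Idx d → Idx d → ℝ} (hχ : Form3 χ) (hN : NC1 χ) {μ : ℕ → ℝ}
    (h0 : ∀ k, 0 ≤ μ k) {v : ℝ} (hv : 0 ≤ v)
    (hv2 : v ^ 2 = 3 * ip2 (nfL μ : Idx d → Idx d → ℝ) (nfL μ) - (μ 0 + μ 1 + μ 2) ^ 2) :
    ip3 (rho (nfL μ) χ) (rho (nfL μ) χ) ≤ ((μ 0 + μ 1 + μ 2) / 3 + v) ^ 2 * ip3 χ χ := by
  set L : Idx d → Idx d → ℝ := nfL μ with hL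
  set c : ℝ := (μ 0 + μ 1 + μ 2) / 3 with hc
  have hc0 : 0 ≤ c := by
    have := h0 0
    have := h0 1
    have := h0 2
    rw [hc]; linarith
  set M : Idx d → Idx d → ℝ := L - c • JJ with hM
  have hskL : Skew L := nfL_skew μ
  have hskM : Skew M := hskL.sub (JJ_skew.smul c)
  have hLM : L = c • JJ + M := by
    rw [hM]; abel
  -- the values of `L` on the three planes
  have hv01 : L (.inl 0) (.inl 1) = μ 0 := by
    simp [hL, nfL, nf, pos]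
  have hv23 : L (.inl 2) (.inl 3) = μ 1 := by
    simp [hL, nfL, nf, pos]
  have hv45 : L (.inl 4) (.inl 5) = μ 2 := by
    simp [hL, nfL, nf, pos]
  have hLJ : ip2 L JJ = μ 0 + μ 1 + μ 2 := by
    rw [decD_ip2_JJ, hskL (.inl 0) (.inl 1), hskL (.inl 2) (.inl 3), hskL (.inl 4) (.inl 5),
      hv01, hv23, hv45]
    ring
  have hJJ : ip2 (JJ : Idx d → Idx d → ℝ) JJ = 3 := by
    rw [decD_ip2_JJ]
    simp only [JJ, J6, w2, kd]
    simp (decide := true)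
    norm_num
  have hMM : 3 * ip2 M M = v ^ 2 := by
    rw [hM, decD_ip2_sub_smul, hLJ, hJJ, hv2, hc]
    ring
  have hN0 : 0 ≤ ip3 χ χ := ip3_self_nonneg χ
  have hA : ip3 (rho JJ χ) (rho JJ χ) ≤ ip3 χ χ := by
    rw [ip3_rho_JJ hχ hN]
    exact ip3_evp_le χ
  have hA0 : 0 ≤ ip3 (rho JJ χ) (rho JJ χ) := ip3_self_nonneg _
  have hB : ip3 (rho M χ) (rho M χ) ≤ v ^ 2 * ip3 χ χ := by
    rw [← hMM]
    exact rho_norm_le hskM hχ
  have hC : ip3 (rho JJ χ) (rho M χ) ≤ v * ip3 χ χ := by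
    have h1 := ip3_cauchy (rho JJ χ) (rho M χ)
    have h2 : ip3 (rho JJ χ) (rho JJ χ) * ip3 (rho M χ) (rho M χ)
        ≤ ip3 χ χ * (v ^ 2 * ip3 χ χ) :=
      mul_le_mul hA hB (ip3_self_nonneg _) hN0
    have h3 : ip3 (rho JJ χ) (rho M χ) ^ 2 ≤ (v * ip3 χ χ) ^ 2 := by
      calc ip3 (rho JJ χ) (rho M χ) ^ 2 ≤ _ := h1
        _ ≤ _ := h2
        _ = (v * ip3 χ χ) ^ 2 := by ring
    exact le_of_sq_le_sq h3 (mul_nonneg hv hN0)
  have hexp : ip3 (rho L χ) (rho L χ) = c ^ 2 * ip3 (rho JJ χ) (rho JJ χ)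
      + 2 * c * ip3 (rho JJ χ) (rho M χ) + ip3 (rho M χ) (rho M χ) := by
    rw [hLM, rho_add_left, rho_smul_left, ip3_add_left, ip3_add_right, ip3_add_right,
      ip3_smul_left, ip3_smul_left, ip3_smul_right, ip3_smul_right,
      ip3_comm (rho M χ) (rho JJ χ)]
    ring
  rw [hexp]
  have e1 : c ^ 2 * ip3 (rho JJ χ) (rho JJ χ) ≤ c ^ 2 * ip3 χ χ :=
    mul_le_mul_of_nonneg_left hA (sq_nonneg c)
  have e2 : 2 * c * ip3 (rho JJ χ) (rho M χ) ≤ 2 * c * (v * ip3 χ χ) :=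
    mul_le_mul_of_nonneg_left hC (by linarith)
  calc _ ≤ c ^ 2 * ip3 χ χ + 2 * c * (v * ip3 χ χ) + v ^ 2 * ip3 χ χ := by linarith
    _ = (c + v) ^ 2 * ip3 χ χ := by ring

theorem nf_cauchy {μ : ℕ → ℝ} (h0 : ∀ k, 6 + d ≤ 2 * k + 1 → μ k = 0) :
    (μ 0 + μ 1 + μ 2) ^ 2 ≤ 3 * ip2 (nfL μ : Idx d → Idx d → ℝ) (nfL μ) := by
  have h := nfL_norm (d := d) h0
  nlinarith [sq_nonneg (μ 0 - μ 1), sq_nonneg (μ 1 - μ 2), sq_nonneg (μ 0 - μ 2),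
    sq_nonneg (μ 3)]

end Pool.Hopf3
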