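import Mathlib

/-!
3-forms and skew 2-tensors in components, the derivation action, frames, and the standard objects
on `Fin 6 ⊕ Fin d` (complex structure, real and imaginary part of `dz₁ ∧ dz₂ ∧ dz₃`).
-/

namespace Pool.Hopf3

open Finset

section general

/-- A skew 2-tensor. -/
def Skew {ι : Type} (L : ι → ι → ℝ) : Prop := ∀ i j, L j i = - L i j

/-- A 3-form, in components. -/
structure Form3 {ι : Type} (χ : ι → ι → ι → ℝ) : Prop where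
  s12 : ∀ i j k, χ j i k = - χ i j k
  s23 : ∀ i j k, χ i k j = - χ i j k

/-- A 4-form, in components. -/
structure Form4 {ι : Type} (Q : ι → ι → ι → ι → ℝ) : Prop where
  s12 : ∀ i j k l, Q j i k l = - Q i j k l
  s23 : ∀ i j k l, Q i k j l = - Q i j k l
  s34 : ∀ i j k l, Q i j l k = - Q i j k l

variable {ι : Type} [Fintype ι]

/-- Inner product of 2-forms (the `e_i ∧ e_j`, `i < j`, are orthonormal). -/
noncomputable def ip2 (L M : ι → ι → ℝ) : ℝ := 1 / 2 * ∑ i, ∑ j, L i j * M i j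

/-- Inner product of 3-forms (the `e_i ∧ e_j ∧ e_k`, `i < j < k`, are orthonormal). -/
noncomputable def ip3 (χ η : ι → ι → ι → ℝ) : ℝ :=
  1 / 6 * ∑ i, ∑ j, ∑ k, χ i j k * η i j k

/-- The derivation action of a 2-tensor on 3-tensors. -/
def rho (L : ι → ι → ℝ) (χ : ι → ι → ι → ℝ) (i j k : ι) : ℝ :=
  ∑ t, (L i t * χ t j k + L j t * χ i t k + L k t * χ i j t)

/-- The quadratic form of a 4-tensor on 2-tensors. -/
noncomputable def quad4 (Q : ι → ι → ι → ι → ℝ) (L : ι → ι → ℝ) : ℝ :=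
  1 / 4 * ∑ i, ∑ j, ∑ k, ∑ l, Q i j k l * L i j * L k l

/-- The commutator of two 2-tensors (as matrices). -/
def br (L M : ι → ι → ℝ) (i j : ι) : ℝ := ∑ t, (L i t * M t j - M i t * L t j)

/-- Rows of `O` are orthonormal. -/
def IsFrame [DecidableEq ι] (O : ι → ι → ℝ) : Prop :=
  ∀ i j, ∑ a, O i a * O j a = if i = j then 1 else 0

/-- components of `L` in the frame `O` -/
def pull2 (L : ι → ι → ℝ) (O : ι → ι → ℝ) (i j : ι) : ℝ :=
  ∑ a, ∑ b, L a b * O i a * O j b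

/-- components of `χ` in the frame `O` -/
def pull3 (χ : ι → ι → ι → ℝ) (O : ι → ι → ℝ) (i j k : ι) : ℝ :=
  ∑ a, ∑ b, ∑ c, χ a b c * O i a * O j b * O k c

/-- transport of a 4-tensor with respect to the frame `O` to the standard frame -/
def push4 (Q : ι → ι → ι → ι → ℝ) (O : ι → ι → ℝ) (a b c e : ι) : ℝ :=
  ∑ i, ∑ j, ∑ k, ∑ l, Q i j k l * O i a * O j b * O k c * O l e

end general

/-! ### Standard objects -/

/-- index set of `ℝ^(6+d)` -/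
abbrev Idx (d : ℕ) : Type := Fin 6 ⊕ Fin d

/-- Kronecker delta -/
def kd (a b : Fin 6) : ℝ := if a = b then 1 else 0

/-- the 2-form `e_a ∧ e_b` on `ℝ⁶` -/
def w2 (a b i j : Fin 6) : ℝ := kd a i * kd b j - kd a j * kd b i

/-- the 3-form `e_a ∧ e_b ∧ e_c` on `ℝ⁶` -/
def w3 (a b c i j k : Fin 6) : ℝ :=
  kd a i * kd b j * kd c k + kd a j * kd b k * kd c i + kd a k * kd b i * kd c j
    - kd a i * kd b k * kd c j - kd a j * kd b i * kd c k - kd a k * kd b j * kd c i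

/-- the complex structure of `ℝ⁶` as a 2-form, `e_0∧e_1 + e_2∧e_3 + e_4∧e_5` -/
def J6 (i j : Fin 6) : ℝ := w2 0 1 i j + w2 2 3 i j + w2 4 5 i j

/-- half of the real part of `dz₁ ∧ dz₂ ∧ dz₃` -/
noncomputable def Om6 (i j k : Fin 6) : ℝ :=
  1 / 2 * (w3 0 2 4 i j k - w3 0 3 5 i j k - w3 1 2 5 i j k - w3 1 3 4 i j k)

/-- half of the imaginary part of `dz₁ ∧ dz₂ ∧ dz₃` -/
noncomputable def Oi6 (i j k : Fin 6) : ℝ :=
  1 / 2 * (w3 1 2 4 i j k + w3 0 3 4 i j k + w3 0 2 5 i j k - w3 1 3 5 i j k)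

/-- `J6` on `ℝ^(6+d)` -/
def JJ {d : ℕ} : Idx d → Idx d → ℝ
  | Sum.inl i, Sum.inl j => J6 i j
  | _, _ => 0

/-- `Om6` on `ℝ^(6+d)` -/
noncomputable def Om {d : ℕ} : Idx d → Idx d → Idx d → ℝ
  | Sum.inl i, Sum.inl j, Sum.inl k => Om6 i j k
  | _, _, _ => 0

/-- `Oi6` on `ℝ^(6+d)` -/
noncomputable def Oi {d : ℕ} : Idx d → Idx d → Idx d → ℝ
  | Sum.inl i, Sum.inl j, Sum.inl k => Oi6 i j k
  | _, _, _ => 0

/-- The 3-form `η` is orthogonal to `Om`, `Oi`, and its `(Fin 6, Fin 6, Fin d)`-part is of type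
`(1,1)`. -/
structure NC1 {d : ℕ} (η : Idx d → Idx d → Idx d → ℝ) : Prop where
  om : η (.inl 0) (.inl 2) (.inl 4) - η (.inl 0) (.inl 3) (.inl 5)
    - η (.inl 1) (.inl 2) (.inl 5) - η (.inl 1) (.inl 3) (.inl 4) = 0
  oi : η (.inl 1) (.inl 2) (.inl 4) + η (.inl 0) (.inl 3) (.inl 4)
    + η (.inl 0) (.inl 2) (.inl 5) - η (.inl 1) (.inl 3) (.inl 5) = 0
  f1 : ∀ f, η (.inl 0) (.inl 2) (.inr f) = η (.inl 1) (.inl 3) (.inr f)
  f2 : ∀ f, η (.inl 0) (.inl 3) (.inr f) = - η (.inl 1) (.inl 2) (.inr f)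
  f3 : ∀ f, η (.inl 2) (.inl 4) (.inr f) = η (.inl 3) (.inl 5) (.inr f)
  f4 : ∀ f, η (.inl 2) (.inl 5) (.inr f) = - η (.inl 3) (.inl 4) (.inr f)
  f5 : ∀ f, η (.inl 4) (.inl 0) (.inr f) = η (.inl 5) (.inl 1) (.inr f)
  f6 : ∀ f, η (.inl 4) (.inl 1) (.inr f) = - η (.inl 5) (.inl 0) (.inr f)

/-- The 3-form `η` is orthogonal to `Om` and to its tangent space `{rho L Om}`. -/
structure NCond {d : ℕ} (η : Idx d → Idx d → Idx d → ℝ) : Prop extends NC1 η where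
  l0 : η (.inl 2) (.inl 3) (.inl 0) + η (.inl 4) (.inl 5) (.inl 0) = 0
  l1 : η (.inl 2) (.inl 3) (.inl 1) + η (.inl 4) (.inl 5) (.inl 1) = 0
  l2 : η (.inl 0) (.inl 1) (.inl 2) + η (.inl 4) (.inl 5) (.inl 2) = 0
  l3 : η (.inl 0) (.inl 1) (.inl 3) + η (.inl 4) (.inl 5) (.inl 3) = 0
  l4 : η (.inl 0) (.inl 1) (.inl 4) + η (.inl 2) (.inl 3) (.inl 4) = 0
  l5 : η (.inl 0) (.inl 1) (.inl 5) + η (.inl 2) (.inl 3) (.inl 5) = 0

/-- `⟨L, J⟩` -/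
def th {d : ℕ} (L : Idx d → Idx d → ℝ) : ℝ :=
  L (.inl 0) (.inl 1) + L (.inl 2) (.inl 3) + L (.inl 4) (.inl 5)

/-- the vector `ξ` of the `(2,0)`-part of `L` -/
noncomputable def xi {d : ℕ} (L : Idx d → Idx d → ℝ) : Fin 6 → ℝ :=
  ![1 / 2 * (L (.inl 2) (.inl 5) + L (.inl 3) (.inl 4)),
    1 / 2 * (L (.inl 2) (.inl 4) - L (.inl 3) (.inl 5)),
    1 / 2 * (L (.inl 4) (.inl 1) + L (.inl 5) (.inl 0)),
    1 / 2 * (L (.inl 4) (.inl 0) - L (.inl 5) (.inl 1)),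
    1 / 2 * (L (.inl 0) (.inl 3) + L (.inl 1) (.inl 2)),
    1 / 2 * (L (.inl 0) (.inl 2) - L (.inl 1) (.inl 3))]

/-- squared norm of the `(2,0)`-part of `L` -/
noncomputable def aL {d : ℕ} (L : Idx d → Idx d → ℝ) : ℝ := 2 * ∑ i, xi L i ^ 2

/-- half of the squared norm of the mixed part of `L` -/
noncomputable def bL {d : ℕ} (L : Idx d → Idx d → ℝ) : ℝ :=
  1 / 2 * ∑ i : Fin 6, ∑ f : Fin d, L (.inl i) (.inr f) ^ 2

/-- the part of `η` with an even number of indices in `Fin d` -/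
def evp {d : ℕ} (η : Idx d → Idx d → Idx d → ℝ) : Idx d → Idx d → Idx d → ℝ
  | Sum.inl i, Sum.inl j, Sum.inl k => η (.inl i) (.inl j) (.inl k)
  | Sum.inr i, Sum.inr j, Sum.inl k => η (.inr i) (.inr j) (.inl k)
  | Sum.inr i, Sum.inl j, Sum.inr k => η (.inr i) (.inl j) (.inr k)
  | Sum.inl i, Sum.inr j, Sum.inr k => η (.inl i) (.inr j) (.inr k)
  | _, _, _ => 0

/-- the 4-tensor of `½ J ∧ J` -/
def QJ {d : ℕ} (i j k l : Idx d) : ℝ :=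
  JJ i j * JJ k l - JJ i k * JJ j l + JJ i l * JJ j k

/-- norm squared of the `(Fin 6)³`-part -/
noncomputable def E0 {d : ℕ} (η : Idx d → Idx d → Idx d → ℝ) : ℝ :=
  1 / 6 * ∑ i : Fin 6, ∑ j : Fin 6, ∑ k : Fin 6, η (.inl i) (.inl j) (.inl k) ^ 2

/-- norm squared of the part with exactly one index in `Fin d` -/
noncomputable def E1 {d : ℕ} (η : Idx d → Idx d → Idx d → ℝ) : ℝ :=
  1 / 2 * ∑ f : Fin d, ∑ j : Fin 6, ∑ k : Fin 6, η (.inr f) (.inl j) (.inl k) ^ 2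

/-- norm squared of the part with exactly two indices in `Fin d` -/
noncomputable def E2 {d : ℕ} (η : Idx d → Idx d → Idx d → ℝ) : ℝ :=
  1 / 2 * ∑ f : Fin d, ∑ g : Fin d, ∑ k : Fin 6, η (.inr f) (.inr g) (.inl k) ^ 2

/-- norm squared of the `(Fin d)³`-part -/
noncomputable def E3 {d : ℕ} (η : Idx d → Idx d → Idx d → ℝ) : ℝ :=
  1 / 6 * ∑ f : Fin d, ∑ g : Fin d, ∑ h : Fin d, η (.inr f) (.inr g) (.inr h) ^ 2

/-- the vector `Y_f` of `L` -/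
def Yv {d : ℕ} (L : Idx d → Idx d → ℝ) (f : Fin d) (i : Fin 6) : ℝ := L (.inr f) (.inl i)

/-- the bilinear form `T(e_i,e_j) = ⟨ι_{e_i} η, ι_{e_j} Om⟩` -/
noncomputable def TT {d : ℕ} (η : Idx d → Idx d → Idx d → ℝ) (i j : Fin 6) : ℝ :=
  1 / 2 * ∑ k : Fin 6, ∑ l : Fin 6, η (.inl i) (.inl k) (.inl l) * Om6 j k l

/-- contraction with `J` -/
def lam {d : ℕ} (χ : Idx d → Idx d → Idx d → ℝ) (k : Fin 6) : ℝ :=
  χ (.inl 0) (.inl 1) (.inl k) + χ (.inl 2) (.inl 3) (.inl k) + χ (.inl 4) (.inl 5) (.inl k)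

/-- the derivation action, summed over `Fin 6` only -/
def rho6 {d : ℕ} (L : Idx d → Idx d → ℝ) (χ : Idx d → Idx d → Idx d → ℝ) (i j k : Idx d) : ℝ :=
  ∑ t : Fin 6, (L i (.inl t) * χ (.inl t) j k + L j (.inl t) * χ i (.inl t) k
    + L k (.inl t) * χ i j (.inl t))

/-- the derivation action, summed over `Fin d` only -/
def rhod {d : ℕ} (L : Idx d → Idx d → ℝ) (χ : Idx d → Idx d → Idx d → ℝ) (i j k : Idx d) : ℝ :=
  ∑ t : Fin d, (L i (.inr t) * χ (.inr t) j k + L j (.inr t) * χ i (.inr t) k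
    + L k (.inr t) * χ i j (.inr t))

/-- `∑_{f,g} ⟨Y_f, Y_g⟩²` -/
def A2 {d : ℕ} (L : Idx d → Idx d → ℝ) : ℝ :=
  ∑ f : Fin d, ∑ g : Fin d, (∑ i, Yv L f i * Yv L g i) ^ 2

/-- `∑_{f,g} ⟨J Y_f, Y_g⟩²` -/
def B2 {d : ℕ} (L : Idx d → Idx d → ℝ) : ℝ :=
  ∑ f : Fin d, ∑ g : Fin d, (∑ i, (∑ t, J6 i t * Yv L f t) * Yv L g i) ^ 2

/-! ### The decomposition used for small overlap -/

/-- `(2,0)`-part of the 2-form `η(f,·,·)` -/
noncomputable def h20 {d : ℕ} (η : Idx d → Idx d → Idx d → ℝ) (f : Fin d) (j k : Fin 6) : ℝ :=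
  1 / 2 * (η (.inr f) (.inl j) (.inl k)
    - ∑ s, ∑ t, J6 j s * J6 k t * η (.inr f) (.inl s) (.inl t))

/-- the projection of `η` to `Λ^{2,0} ⊗ ℝ^d` -/
noncomputable def sg {d : ℕ} (η : Idx d → Idx d → Idx d → ℝ) : Idx d → Idx d → Idx d → ℝ
  | Sum.inr f, Sum.inl j, Sum.inl k => h20 η f j k
  | Sum.inl j, Sum.inr f, Sum.inl k => - h20 η f j k
  | Sum.inl j, Sum.inl k, Sum.inr f => h20 η f j k
  | _, _, _ => 0

/-- the projection of `η` to the span of `Om` and `Oi` -/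
noncomputable def tp {d : ℕ} (η : Idx d → Idx d → Idx d → ℝ) : Idx d → Idx d → Idx d → ℝ :=
  ip3 η Om • Om + ip3 η Oi • Oi

/-- the rest -/
noncomputable def rs {d : ℕ} (η : Idx d → Idx d → Idx d → ℝ) : Idx d → Idx d → Idx d → ℝ :=
  η - tp η - sg η

/-- mass of `η` on `Λ^{2,0} ⊗ ℝ^d` omitting plane `l` -/
noncomputable def yl {d : ℕ} (η : Idx d → Idx d → Idx d → ℝ) (l : Fin 3) : ℝ :=
  let e1 : Fin 6 := ![2, 4, 0] l
  let f1 : Fin 6 := ![3, 5, 1] l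
  let e2 : Fin 6 := ![4, 0, 2] l
  let f2 : Fin 6 := ![5, 1, 3] l
  1 / 2 * ∑ f : Fin d, ((η (.inl e1) (.inl e2) (.inr f) - η (.inl f1) (.inl f2) (.inr f)) ^ 2
    + (η (.inl e1) (.inl f2) (.inr f) + η (.inl f1) (.inl e2) (.inr f)) ^ 2)

/-! ### Normal forms of skew 2-tensors -/

/-- position of an index -/
def pos {d : ℕ} : Idx d → ℕ
  | Sum.inl i => i.val
  | Sum.inr f => 6 + f.val

/-- the skew tensor `∑ μ_k e_{2k} ∧ e_{2k+1}` -/
def nf (μ : ℕ → ℝ) (i j : ℕ) : ℝ :=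
  if j = i + 1 ∧ i % 2 = 0 then μ (i / 2)
  else if i = j + 1 ∧ j % 2 = 0 then - μ (j / 2) else 0

/-- the skew tensor `∑ μ_k e_{2k} ∧ e_{2k+1}` on `ℝ^(6+d)` -/
def nfL {d : ℕ} (μ : ℕ → ℝ) (i j : Idx d) : ℝ := nf μ (pos i) (pos j)

end Pool.Hopf3
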