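import Pool.Agent.Lib.MP_4a593f_gt.P3.Basic
import Pool.Agent.Lib.MP_4a593f_gt.P3.Frame
import Pool.Agent.Lib.MP_4a593f_gt.P3.StdA

namespace Pool.Hopf3

open Finset

variable {d : ℕ}

/-- rotation of the rows `0`, `1` -/
private noncomputable def rotP (α β : ℝ) (i a : Idx d) : ℝ :=
  if i = Sum.inl 0 then (if a = Sum.inl 0 then α else if a = Sum.inl 1 then β else 0)
  else if i = Sum.inl 1 then (if a = Sum.inl 0 then -β else if a = Sum.inl 1 then α else 0)
  else if a = i then 1 else 0

/-- evaluation on a row -/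
private noncomputable def rotE (α β : ℝ) (i : Idx d) (G : Idx d → ℝ) : ℝ :=
  if i = Sum.inl 0 then α * G (.inl 0) + β * G (.inl 1)
  else if i = Sum.inl 1 then -β * G (.inl 0) + α * G (.inl 1)
  else G i

private theorem rotE_eq (α β : ℝ) (i : Idx d) (G : Idx d → ℝ) :
    ∑ a, G a * rotP α β i a = rotE α β i G := by
  have h01 : (Sum.inl 0 : Idx d) ≠ Sum.inl 1 := by simp
  unfold rotE rotP
  by_cases h0 : i = Sum.inl 0
  · rw [if_pos h0]
    simp only [if_pos h0]
    have e : ∀ a : Idx d, G a * (if a = Sum.inl 0 then α else if a = Sum.inl 1 then β else 0) =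
        (if a = Sum.inl 0 then α * G (.inl 0) else 0) +
          (if a = Sum.inl 1 then β * G (.inl 1) else 0) := by
      intro a
      by_cases h1 : a = Sum.inl 0
      · subst h1
        simp [h01]
        ring
      · by_cases h2 : a = Sum.inl 1
        · subst h2
          simp
          ring
        · simp [h1, h2]
    rw [Finset.sum_congr rfl fun a _ => e a, Finset.sum_add_distrib, Finset.sum_ite_eq',
      Finset.sum_ite_eq']
    simp
  · rw [if_neg h0]
    simp only [if_neg h0]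
    by_cases h1 : i = Sum.inl 1
    · rw [if_pos h1]
      simp only [if_pos h1]
      have e : ∀ a : Idx d,
          G a * (if a = Sum.inl 0 then -β else if a = Sum.inl 1 then α else 0) =
          (if a = Sum.inl 0 then -β * G (.inl 0) else 0) +
            (if a = Sum.inl 1 then α * G (.inl 1) else 0) := by
        intro a
        by_cases h1 : a = Sum.inl 0
        · subst h1
          simp [h01]
          ring
        · by_cases h2 : a = Sum.inl 1
          · subst h2
            simp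
            ring
          · simp [h1, h2]
      rw [Finset.sum_congr rfl fun a _ => e a, Finset.sum_add_distrib, Finset.sum_ite_eq',
        Finset.sum_ite_eq']
      simp
    · rw [if_neg h1]
      simp only [if_neg h1]
      simp

private theorem rotE_zero (α β : ℝ) (G : Idx d → ℝ) :
    rotE α β (.inl 0) G = α * G (.inl 0) + β * G (.inl 1) := by
  simp [rotE]

private theorem rotE_one (α β : ℝ) (G : Idx d → ℝ) :
    rotE α β (.inl 1) G = -β * G (.inl 0) + α * G (.inl 1) := by
  simp [rotE]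

private theorem rotE_other (α β : ℝ) {i : Idx d} (h0 : i ≠ .inl 0) (h1 : i ≠ .inl 1)
    (G : Idx d → ℝ) : rotE α β i G = G i := by
  simp [rotE, h0, h1]

private theorem pull3_rot (α β : ℝ) (χ : Idx d → Idx d → Idx d → ℝ) (i j k : Idx d) :
    pull3 χ (rotP α β) i j k =
      rotE α β i (fun a => rotE α β j (fun b => rotE α β k (fun c => χ a b c))) := by
  unfold pull3
  rw [← rotE_eq]
  refine Finset.sum_congr rfl fun a _ => ?_
  rw [← rotE_eq, Finset.sum_mul]
  refine Finset.sum_congr rfl fun b _ => ?_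
  rw [← rotE_eq, Finset.sum_mul, Finset.sum_mul]
  refine Finset.sum_congr rfl fun c _ => ?_
  ring

private theorem pull2_rot (α β : ℝ) (L : Idx d → Idx d → ℝ) (i j : Idx d) :
    pull2 L (rotP α β) i j = rotE α β i (fun a => rotE α β j (fun b => L a b)) := by
  unfold pull2
  rw [← rotE_eq]
  refine Finset.sum_congr rfl fun a _ => ?_
  rw [← rotE_eq, Finset.sum_mul]
  refine Finset.sum_congr rfl fun b _ => ?_
  ring

private theorem rot_frame {α β : ℝ} (h : α ^ 2 + β ^ 2 = 1) : IsFrame (rotP (d := d) α β) := by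
  intro i j
  have h01 : (Sum.inl 0 : Idx d) ≠ Sum.inl 1 := by simp
  have e : ∑ a, rotP α β i a * rotP α β j a = rotE α β j (fun a => rotP α β i a) :=
    rotE_eq α β j _
  rw [e]
  by_cases j0 : j = Sum.inl 0
  · subst j0
    rw [rotE_zero]
    unfold rotP
    by_cases i0 : i = Sum.inl 0
    · subst i0
      simp
      linear_combination h
    · by_cases i1 : i = Sum.inl 1
      · subst i1
        simp
        ring
      · simp [i0, i1, Ne.symm i0, Ne.symm i1]
  · by_cases j1 : j = Sum.inl 1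
    · subst j1
      rw [rotE_one]
      unfold rotP
      by_cases i0 : i = Sum.inl 0
      · subst i0
        simp
        ring
      · by_cases i1 : i = Sum.inl 1
        · subst i1
          simp
          linear_combination h
        · simp [i0, i1, Ne.symm i0, Ne.symm i1]
    · rw [rotE_other α β j0 j1]
      unfold rotP
      by_cases i0 : i = Sum.inl 0
      · subst i0
        simp [j0, j1, Ne.symm j0]
      · by_cases i1 : i = Sum.inl 1
        · subst i1
          simp [j0, j1, Ne.symm j1]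
        · simp [i0, i1, eq_comm]

private theorem rot_Om (α β : ℝ) {χ : Idx d → Idx d → Idx d → ℝ} (hχ : Form3 χ) :
    ip3 (pull3 χ (rotP α β)) Om = α * ip3 χ Om + β * ip3 χ Oi := by
  rw [ip3_Om (pull3_form hχ _), ip3_Om hχ, ip3_Oi hχ]
  simp only [pull3_rot, rotE_zero, rotE_one]
  rw [rotE_other α β (i := .inl 2) (by simp) (by simp),
    rotE_other α β (i := .inl 2) (by simp) (by simp),
    rotE_other α β (i := .inl 2) (by simp) (by simp),
    rotE_other α β (i := .inl 2) (by simp) (by simp),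
    rotE_other α β (i := .inl 3) (by simp) (by simp),
    rotE_other α β (i := .inl 3) (by simp) (by simp),
    rotE_other α β (i := .inl 3) (by simp) (by simp),
    rotE_other α β (i := .inl 3) (by simp) (by simp)]
  simp only [rotE_other α β (i := (.inl 4 : Idx d)) (by simp) (by simp),
    rotE_other α β (i := (.inl 5 : Idx d)) (by simp) (by simp)]
  ring

private theorem rot_Oi (α β : ℝ) {χ : Idx d → Idx d → Idx d → ℝ} (hχ : Form3 χ) :
    ip3 (pull3 χ (rotP α β)) Oi = α * ip3 χ Oi - β * ip3 χ Om := by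
  rw [ip3_Oi (pull3_form hχ _), ip3_Om hχ, ip3_Oi hχ]
  simp only [pull3_rot, rotE_zero, rotE_one,
    rotE_other α β (i := (.inl 2 : Idx d)) (by simp) (by simp),
    rotE_other α β (i := (.inl 3 : Idx d)) (by simp) (by simp),
    rotE_other α β (i := (.inl 4 : Idx d)) (by simp) (by simp),
    rotE_other α β (i := (.inl 5 : Idx d)) (by simp) (by simp)]
  ring

private theorem exists_angle (p q : ℝ) : ∃ α β : ℝ, α ^ 2 + β ^ 2 = 1 ∧
    α * p + β * q = Real.sqrt (p ^ 2 + q ^ 2) ∧ α * q - β * p = 0 := by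
  by_cases h : p ^ 2 + q ^ 2 = 0
  · have hp : p = 0 := by nlinarith [sq_nonneg p, sq_nonneg q]
    have hq : q = 0 := by nlinarith [sq_nonneg p, sq_nonneg q]
    exact ⟨1, 0, by norm_num, by simp [hp, hq], by simp [hp, hq]⟩
  · have h0 : 0 < p ^ 2 + q ^ 2 := lt_of_le_of_ne (by positivity) (Ne.symm h)
    have hs : 0 < Real.sqrt (p ^ 2 + q ^ 2) := Real.sqrt_pos.2 h0
    have hs2 : Real.sqrt (p ^ 2 + q ^ 2) ^ 2 = p ^ 2 + q ^ 2 := Real.sq_sqrt h0.le
    refine ⟨p / Real.sqrt (p ^ 2 + q ^ 2), q / Real.sqrt (p ^ 2 + q ^ 2), ?_, ?_, ?_⟩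
    · rw [div_pow, div_pow, hs2, ← add_div, div_self h]
    · rw [div_mul_eq_mul_div, div_mul_eq_mul_div, ← add_div, div_eq_iff hs.ne']
      nlinarith
    · rw [div_mul_eq_mul_div, div_mul_eq_mul_div, ← sub_div]
      rw [div_eq_zero_iff]
      left
      ring

theorem rot_phase {c : ℝ} (hc : 0 ≤ c) {χ : Idx d → Idx d → Idx d → ℝ} (hχ : Form3 χ)
    (hmax : ∀ P : Idx d → Idx d → ℝ, IsFrame P → ip3 (pull3 χ P) Om ≤ c) :
    ip3 χ Om ^ 2 + ip3 χ Oi ^ 2 ≤ c ^ 2 := by
  obtain ⟨α, β, h1, h2, -⟩ := exists_angle (ip3 χ Om) (ip3 χ Oi)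
  have h3 := hmax (rotP α β) (rot_frame h1)
  rw [rot_Om α β hχ, h2] at h3
  have h4 : 0 ≤ ip3 χ Om ^ 2 + ip3 χ Oi ^ 2 := by positivity
  calc ip3 χ Om ^ 2 + ip3 χ Oi ^ 2 = Real.sqrt (ip3 χ Om ^ 2 + ip3 χ Oi ^ 2) ^ 2 :=
        (Real.sq_sqrt h4).symm
    _ ≤ c ^ 2 := pow_le_pow_left₀ (Real.sqrt_nonneg _) h3 2

private theorem rot_nfL {α β : ℝ} (h : α ^ 2 + β ^ 2 = 1) (μ : ℕ → ℝ) :
    pull2 (nfL (d := d) μ) (rotP α β) = nfL μ := by
  funext i j
  rw [pull2_rot]
  have hpos : ∀ i : Idx d, i ≠ .inl 0 → i ≠ .inl 1 → 2 ≤ pos i := by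
    intro i h0 h1
    rcases i with i | f
    · have h2 : i.val ≠ 0 := fun h => h0 (by rw [Sum.inl.injEq]; exact Fin.ext h)
      have h3 : i.val ≠ 1 := fun h => h1 (by rw [Sum.inl.injEq]; exact Fin.ext h)
      show 2 ≤ i.val
      omega
    · show 2 ≤ 6 + f.val
      omega
  have z0 : pos (.inl 0 : Idx d) = 0 := rfl
  have z1 : pos (.inl 1 : Idx d) = 1 := rfl
  have a00 : nfL (d := d) μ (.inl 0) (.inl 0) = 0 := by simp [nfL, nf, z0]
  have a01 : nfL (d := d) μ (.inl 0) (.inl 1) = μ 0 := by simp [nfL, nf, z0, z1]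
  have a10 : nfL (d := d) μ (.inl 1) (.inl 0) = - μ 0 := by simp [nfL, nf, z0, z1]
  have a11 : nfL (d := d) μ (.inl 1) (.inl 1) = 0 := by simp [nfL, nf, z1]
  have b0 : ∀ j : Idx d, j ≠ .inl 0 → j ≠ .inl 1 → nfL μ (.inl 0) j = 0 := by
    intro j h0 h1
    have := hpos j h0 h1
    unfold nfL nf
    rw [z0, if_neg (by omega), if_neg (by omega)]
  have b1 : ∀ j : Idx d, j ≠ .inl 0 → j ≠ .inl 1 → nfL μ (.inl 1) j = 0 := by
    intro j h0 h1
    have := hpos j h0 h1
    unfold nfL nf
    rw [z1, if_neg (by omega), if_neg (by omega)]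
  have c0 : ∀ j : Idx d, j ≠ .inl 0 → j ≠ .inl 1 → nfL μ j (.inl 0) = 0 := by
    intro j h0 h1
    have := hpos j h0 h1
    unfold nfL nf
    rw [z0, if_neg (by omega), if_neg (by omega)]
  have c1 : ∀ j : Idx d, j ≠ .inl 0 → j ≠ .inl 1 → nfL μ j (.inl 1) = 0 := by
    intro j h0 h1
    have := hpos j h0 h1
    unfold nfL nf
    rw [z1, if_neg (by omega), if_neg (by omega)]
  by_cases i0 : i = .inl 0
  · subst i0
    rw [rotE_zero]
    by_cases j0 : j = .inl 0
    · subst j0
      rw [rotE_zero, rotE_zero, a00, a01, a10, a11]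
      ring
    · by_cases j1 : j = .inl 1
      · subst j1
        rw [rotE_one, rotE_one, a00, a01, a10, a11]
        linear_combination μ 0 * h
      · rw [rotE_other α β j0 j1, rotE_other α β j0 j1, b0 j j0 j1, b1 j j0 j1]
        ring
  · by_cases i1 : i = .inl 1
    · subst i1
      rw [rotE_one]
      by_cases j0 : j = .inl 0
      · subst j0
        rw [rotE_zero, rotE_zero, a00, a01, a10, a11]
        linear_combination (-μ 0) * h
      · by_cases j1 : j = .inl 1
        · subst j1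
          rw [rotE_one, rotE_one, a00, a01, a10, a11]
          ring
        · rw [rotE_other α β j0 j1, rotE_other α β j0 j1, b0 j j0 j1, b1 j j0 j1]
          ring
    · rw [rotE_other α β i0 i1]
      by_cases j0 : j = .inl 0
      · subst j0
        rw [rotE_zero, c0 i i0 i1, c1 i i0 i1]
        ring
      · by_cases j1 : j = .inl 1
        · subst j1
          rw [rotE_one, c0 i i0 i1, c1 i i0 i1]
          ring
        · rw [rotE_other α β j0 j1]

/-- Rotation in the first complex coordinate makes the overlap with `Oi` vanish. -/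
theorem exists_phase {χ : Idx d → Idx d → Idx d → ℝ} (hχ : Form3 χ) (μ : ℕ → ℝ) :
    ∃ P : Idx d → Idx d → ℝ, IsFrame P ∧ pull2 (nfL μ) P = nfL μ ∧
      ip3 (pull3 χ P) Oi = 0 ∧ 0 ≤ ip3 (pull3 χ P) Om := by
  obtain ⟨α, β, h1, h2, h3⟩ := exists_angle (ip3 χ Om) (ip3 χ Oi)
  refine ⟨rotP α β, rot_frame h1, rot_nfL h1 μ, ?_, ?_⟩
  · rw [rot_Oi α β hχ, h3]
  · rw [rot_Om α β hχ, h2]
    exact Real.sqrt_nonneg _

end Pool.Hopf3
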