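import Pool.Agent.Lib.MP_4a593f_gt.P3.Basic
import Pool.Agent.Lib.MP_4a593f_gt.P3.Frame
import Pool.Agent.Lib.MP_4a593f_gt.P3.StdA

namespace Pool.Hopf3

open Finset

variable {d : ℕ}

/-- A unit vector `v` is the row `a` of a frame whose rows `i ≠ a` with `v i = 0` are standard. -/
private theorem rotB_refl {ι : Type} [Fintype ι] [DecidableEq ι] (a : ι) (v : ι → ℝ)
    (hv : ∑ x, v x ^ 2 = 1) :
    ∃ P : ι → ι → ℝ, IsFrame P ∧ (∀ x, P a x = v x) ∧
      ∀ i, i ≠ a → v i = 0 → ∀ x, P i x = if i = x then 1 else 0 := by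
  classical
  let u : ι → ℝ := fun x => (if a = x then 1 else 0) - v x
  have huu : ∑ x, u x ^ 2 = 2 * (1 - v a) := by
    have h1 : ∀ x, u x ^ 2 = (if a = x then (1 : ℝ) else 0) - 2 * ((if a = x then 1 else 0) * v x)
        + v x ^ 2 := by
      intro x
      by_cases h : a = x
      · simp only [u, h, if_true]; ring
      · simp only [u, h, if_false]; ring
    simp only [h1]
    rw [Finset.sum_add_distrib, Finset.sum_sub_distrib, ← Finset.mul_sum, hv]
    simp only [ite_mul, one_mul, zero_mul, Finset.sum_ite_eq, Finset.mem_univ, if_true]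
    ring
  by_cases hva : v a = 1
  · refine ⟨fun i x => if i = x then 1 else 0, ?_, ?_, fun i _ _ x => rfl⟩
    · intro i j
      by_cases h : i = j
      · simp [h]
      · simp [h]
    · intro x
      have h0 : ∑ x, u x ^ 2 = 0 := by rw [huu, hva]; ring
      have h1 := (Finset.sum_eq_zero_iff_of_nonneg (fun x _ => sq_nonneg (u x))).1 h0 x
        (Finset.mem_univ x)
      have h2 : u x = 0 := by simpa using h1
      simp only [u] at h2
      linarith
  · have hne : (1 - v a) ≠ 0 := fun h => hva (by linarith)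
    let k : ℝ := 1 / (1 - v a)
    have hk : k * (1 - v a) = 1 := by
      simp only [k]; field_simp
    refine ⟨fun i x => (if i = x then 1 else 0) - k * u i * u x, ?_, ?_, ?_⟩
    · intro i j
      have h1 : ∀ x, ((if i = x then (1 : ℝ) else 0) - k * u i * u x)
          * ((if j = x then 1 else 0) - k * u j * u x)
          = (if i = x then (1 : ℝ) else 0) * (if j = x then 1 else 0)
            - k * u j * ((if i = x then 1 else 0) * u x)
            - k * u i * ((if j = x then 1 else 0) * u x)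
            + k ^ 2 * u i * u j * u x ^ 2 := by
        intro x; ring
      simp only [h1]
      rw [Finset.sum_add_distrib, Finset.sum_sub_distrib, Finset.sum_sub_distrib,
        ← Finset.mul_sum, ← Finset.mul_sum, ← Finset.mul_sum, huu]
      simp only [ite_mul, one_mul, zero_mul, Finset.sum_ite_eq, Finset.mem_univ, if_true]
      have h2 : k ^ 2 * u i * u j * (2 * (1 - v a)) = 2 * k * u i * u j := by
        calc k ^ 2 * u i * u j * (2 * (1 - v a)) = (k * (1 - v a)) * (2 * k * u i * u j) := by ring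
          _ = 2 * k * u i * u j := by rw [hk, one_mul]
      rw [h2]
      by_cases h : i = j
      · subst h; simp; ring
      · have h' : ¬ j = i := fun e => h e.symm
        simp only [h, h', if_false]; ring
    · intro x
      have h3 : k * u a = 1 := by
        simp only [u, if_true]; exact hk
      show (if a = x then 1 else 0) - k * u a * u x = v x
      rw [h3]
      simp only [u]; ring
    · intro i hia hvi x
      have h3 : u i = 0 := by
        have : ¬ a = i := fun e => hia e.symm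
        simp only [u, this, if_false, hvi]; ring
      show (if i = x then 1 else 0) - k * u i * u x = _
      rw [h3]; ring

private theorem rotB_pull1 {ι : Type} [Fintype ι] [DecidableEq ι] (χ : ι → ι → ι → ℝ)
    {P : ι → ι → ℝ} {i j k : ι} (hj : ∀ x, P j x = if j = x then 1 else 0)
    (hk : ∀ x, P k x = if k = x then 1 else 0) :
    pull3 χ P i j k = ∑ x, P i x * χ x j k := by
  unfold pull3
  simp only [hj, hk, mul_ite, mul_one, mul_zero, Finset.sum_ite_eq, Finset.mem_univ, if_true]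
  exact Finset.sum_congr rfl fun x _ => mul_comm _ _

/-- The frames used. -/
private theorem rotB_frame (χ : Idx d → Idx d → Idx d → ℝ) (a : Fin 6) (v : Idx d → ℝ)
    (hv : ∑ x, v x ^ 2 = 1) (h0 : ∀ i : Fin 6, i ≠ a → v (.inl i) = 0) :
    ∃ P : Idx d → Idx d → ℝ, IsFrame P ∧
      (∀ j k : Fin 6, j ≠ a → k ≠ a →
        pull3 χ P (.inl a) (.inl j) (.inl k) = ∑ x, v x * χ x (.inl j) (.inl k)) ∧
      (∀ i j k : Fin 6, i ≠ a → j ≠ a → k ≠ a →
        pull3 χ P (.inl i) (.inl j) (.inl k) = χ (.inl i) (.inl j) (.inl k)) := by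
  obtain ⟨P, hP, h1, h2⟩ := rotB_refl (Sum.inl a : Idx d) v hv
  have h3 : ∀ i : Fin 6, i ≠ a → ∀ x, P (.inl i) x = if (Sum.inl i : Idx d) = x then 1 else 0 :=
    fun i hi => h2 (.inl i) (fun e => hi (Sum.inl.inj e)) (h0 i hi)
  refine ⟨P, hP, ?_, ?_⟩
  · intro j k hj hk
    rw [rotB_pull1 χ (h3 j hj) (h3 k hk)]
    simp only [h1]
  · intro i j k hi hj hk
    rw [rotB_pull1 χ (h3 j hj) (h3 k hk)]
    simp only [h3 i hi, ite_mul, one_mul, zero_mul, Finset.sum_ite_eq, Finset.mem_univ, if_true]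

private theorem rotB_sum (a : Fin 6) (α : ℝ) (β : Fin d → ℝ) (G : Idx d → ℝ) :
    ∑ x : Idx d, (Sum.elim (fun i : Fin 6 => if i = a then α else 0) β x) * G x
      = α * G (.inl a) + ∑ f, β f * G (.inr f) := by
  rw [Fintype.sum_sum_type]
  simp only [Sum.elim_inl, Sum.elim_inr, ite_mul, zero_mul, Finset.sum_ite_eq', Finset.mem_univ,
    if_true]

/-- The optimisation over the unit sphere. -/
private theorem rotB_opt {G : Idx d → ℝ} {a : Fin 6} {Q C : ℝ}
    (h : ∀ v : Idx d → ℝ, ∑ x, v x ^ 2 = 1 → (∀ i : Fin 6, i ≠ a → v (.inl i) = 0) →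
      ∑ x, v x * G x + Q ≤ C) :
    G (.inl a) ^ 2 + ∑ f, G (.inr f) ^ 2 ≤ (C - Q) ^ 2 := by
  have hS : 0 ≤ ∑ f, G (.inr f) ^ 2 := Finset.sum_nonneg fun f _ => sq_nonneg _
  have key : ∀ (α : ℝ) (β : Fin d → ℝ), α ^ 2 + ∑ f, β f ^ 2 = 1 →
      α * G (.inl a) + ∑ f, β f * G (.inr f) + Q ≤ C := by
    intro α β hab
    have h1 := h (Sum.elim (fun i : Fin 6 => if i = a then α else 0) β) ?_ ?_
    · rw [rotB_sum] at h1
      exact h1
    · rw [Fintype.sum_sum_type]
      simp only [Sum.elim_inl, Sum.elim_inr, ite_pow]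
      have : (∑ i : Fin 6, if i = a then α ^ 2 else (0 : ℝ) ^ 2) = α ^ 2 := by
        simp
      rw [this]
      exact hab
    · intro i hi
      simp only [Sum.elim_inl, hi, if_false]
  by_cases hN : G (.inl a) ^ 2 + ∑ f, G (.inr f) ^ 2 = 0
  · rw [hN]; exact sq_nonneg _
  · have hpos : 0 < G (.inl a) ^ 2 + ∑ f, G (.inr f) ^ 2 :=
      lt_of_le_of_ne (add_nonneg (sq_nonneg _) hS) (fun e => hN e.symm)
    set S := G (.inl a) ^ 2 + ∑ f, G (.inr f) ^ 2 with hSdef
    have hs : 0 < Real.sqrt S := Real.sqrt_pos.2 hpos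
    have hss : Real.sqrt S ^ 2 = S := Real.sq_sqrt hpos.le
    have h1 := key (G (.inl a) / Real.sqrt S) (fun f => G (.inr f) / Real.sqrt S) ?_
    · have h2 : G (.inl a) / Real.sqrt S * G (.inl a)
          + ∑ f, G (.inr f) / Real.sqrt S * G (.inr f) = Real.sqrt S := by
        have h3 : ∀ f, G (.inr f) / Real.sqrt S * G (.inr f) = G (.inr f) ^ 2 / Real.sqrt S := by
          intro f; ring
        simp only [h3]
        rw [← Finset.sum_div]
        have h4 : G (.inl a) / Real.sqrt S * G (.inl a) = G (.inl a) ^ 2 / Real.sqrt S := by ring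
        rw [h4, ← add_div, ← hSdef, div_eq_iff hs.ne', ← pow_two, hss]
      rw [h2] at h1
      have h5 : Real.sqrt S ≤ C - Q := by linarith
      calc S = Real.sqrt S ^ 2 := hss.symm
        _ ≤ (C - Q) ^ 2 := pow_le_pow_left₀ hs.le h5 2
    · simp only [div_pow]
      rw [← Finset.sum_div, ← add_div, ← hSdef, hss]
      exact div_self hpos.ne'

private theorem rotB_core {c : ℝ} {χ : Idx d → Idx d → Idx d → ℝ} (hχ : Form3 χ)
    (hmax : ∀ P : Idx d → Idx d → ℝ, IsFrame P → ip3 (pull3 χ P) Om ≤ c)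
    (a0 b0 a1 b1 a2 b2 : Fin 6)
    (h1 : b0 ≠ a0) (h2 : a1 ≠ a0) (h3 : b1 ≠ a0) (h4 : a2 ≠ a0) (h5 : b2 ≠ a0)
    (k2 : a1 ≠ b0) (k3 : b1 ≠ b0) (k4 : a2 ≠ b0) (k5 : b2 ≠ b0)
    (hOm : ∀ ζ : Idx d → Idx d → Idx d → ℝ, Form3 ζ → ip3 ζ Om = 1 / 2 *
      (ζ (.inl a0) (.inl a1) (.inl a2) - ζ (.inl a0) (.inl b1) (.inl b2)
        - ζ (.inl b0) (.inl a1) (.inl b2) - ζ (.inl b0) (.inl b1) (.inl a2))) :
    1 / 2 * ∑ f : Fin d, ((χ (.inl a1) (.inl a2) (.inr f) - χ (.inl b1) (.inl b2) (.inr f)) ^ 2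
      + (χ (.inl a1) (.inl b2) (.inr f) + χ (.inl b1) (.inl a2) (.inr f)) ^ 2)
      ≤ 4 * c * (c - ip3 χ Om) := by
  -- rotate `a0`
  have hA := rotB_opt (G := fun x => χ x (.inl a1) (.inl a2) - χ x (.inl b1) (.inl b2))
    (a := a0) (Q := - χ (.inl b0) (.inl a1) (.inl b2) - χ (.inl b0) (.inl b1) (.inl a2))
    (C := 2 * c) (by
      intro v hv hv0
      obtain ⟨P, hP, e1, e2⟩ := rotB_frame χ a0 v hv hv0
      have hm := hmax P hP
      rw [hOm _ (pull3_form hχ P), e1 a1 a2 h2 h4, e1 b1 b2 h3 h5, e2 b0 a1 b2 h1 h2 h5,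
        e2 b0 b1 a2 h1 h3 h4] at hm
      have e3 : ∑ x, v x * (χ x (.inl a1) (.inl a2) - χ x (.inl b1) (.inl b2))
          = ∑ x, v x * χ x (.inl a1) (.inl a2) - ∑ x, v x * χ x (.inl b1) (.inl b2) := by
        rw [← Finset.sum_sub_distrib]
        exact Finset.sum_congr rfl fun x _ => by ring
      rw [e3]
      linarith)
  -- rotate `b0`
  have hB := rotB_opt (G := fun x => - χ x (.inl a1) (.inl b2) - χ x (.inl b1) (.inl a2))
    (a := b0) (Q := χ (.inl a0) (.inl a1) (.inl a2) - χ (.inl a0) (.inl b1) (.inl b2))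
    (C := 2 * c) (by
      intro v hv hv0
      obtain ⟨P, hP, e1, e2⟩ := rotB_frame χ b0 v hv hv0
      have hm := hmax P hP
      rw [hOm _ (pull3_form hχ P), e1 a1 b2 k2 k5, e1 b1 a2 k3 k4, e2 a0 a1 a2 h1.symm k2 k4,
        e2 a0 b1 b2 h1.symm k3 k5] at hm
      have e3 : ∑ x, v x * (- χ x (.inl a1) (.inl b2) - χ x (.inl b1) (.inl a2))
          = - ∑ x, v x * χ x (.inl a1) (.inl b2) - ∑ x, v x * χ x (.inl b1) (.inl a2) := by
        rw [← Finset.sum_neg_distrib, ← Finset.sum_sub_distrib]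
        exact Finset.sum_congr rfl fun x _ => by ring
      rw [e3]
      linarith)
  rw [hOm χ hχ]
  have hcyc : ∀ i j k : Idx d, χ i j k = χ k i j := by
    intro i j k
    rw [hχ.s12 i k j, hχ.s23 i j k]
    ring
  have hS : ∑ f : Fin d, ((χ (.inl a1) (.inl a2) (.inr f) - χ (.inl b1) (.inl b2) (.inr f)) ^ 2
      + (χ (.inl a1) (.inl b2) (.inr f) + χ (.inl b1) (.inl a2) (.inr f)) ^ 2)
      = ∑ f : Fin d, (χ (.inr f) (.inl a1) (.inl a2) - χ (.inr f) (.inl b1) (.inl b2)) ^ 2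
        + ∑ f : Fin d, (- χ (.inr f) (.inl a1) (.inl b2) - χ (.inr f) (.inl b1) (.inl a2)) ^ 2 := by
    rw [← Finset.sum_add_distrib]
    refine Finset.sum_congr rfl fun f _ => ?_
    rw [hcyc (.inl a1) (.inl a2) (.inr f), hcyc (.inl b1) (.inl b2) (.inr f),
      hcyc (.inl a1) (.inl b2) (.inr f), hcyc (.inl b1) (.inl a2) (.inr f)]
    ring
  rw [hS]
  nlinarith [hA, hB]

theorem rot_y {c : ℝ} {χ : Idx d → Idx d → Idx d → ℝ} (hχ : Form3 χ)
    (hmax : ∀ P : Idx d → Idx d → ℝ, IsFrame P → ip3 (pull3 χ P) Om ≤ c) (l : Fin 3) :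
    yl χ l ≤ 4 * c * (c - ip3 χ Om) := by
  have hcyc : ∀ ζ : Idx d → Idx d → Idx d → ℝ, Form3 ζ → ∀ i j k : Idx d, ζ i j k = ζ k i j := by
    intro ζ hζ i j k
    rw [hζ.s12 i k j, hζ.s23 i j k]
    ring
  fin_cases l
  · refine rotB_core hχ hmax 0 1 2 3 4 5 (by decide) (by decide) (by decide) (by decide)
      (by decide) (by decide) (by decide) (by decide) (by decide) ?_
    intro ζ hζ
    exact ip3_Om hζ
  · refine rotB_core hχ hmax 2 3 4 5 0 1 (by decide) (by decide) (by decide) (by decide)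
      (by decide) (by decide) (by decide) (by decide) (by decide) ?_
    intro ζ hζ
    rw [ip3_Om hζ, hcyc ζ hζ (.inl 2) (.inl 4) (.inl 0), hcyc ζ hζ (.inl 2) (.inl 5) (.inl 1),
      hcyc ζ hζ (.inl 3) (.inl 4) (.inl 1), hcyc ζ hζ (.inl 3) (.inl 5) (.inl 0)]
    ring
  · refine rotB_core hχ hmax 4 5 0 1 2 3 (by decide) (by decide) (by decide) (by decide)
      (by decide) (by decide) (by decide) (by decide) (by decide) ?_
    intro ζ hζ
    rw [ip3_Om hζ, hcyc ζ hζ (.inl 0) (.inl 2) (.inl 4), hcyc ζ hζ (.inl 1) (.inl 2) (.inl 5),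
      hcyc ζ hζ (.inl 1) (.inl 3) (.inl 4), hcyc ζ hζ (.inl 0) (.inl 3) (.inl 5)]
    ring

end Pool.Hopf3
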