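import Pool.Agent.Lib.MP_4a593f_gt.P3.RotA
import Pool.Agent.Lib.MP_4a593f_gt.P3.RotB
import Pool.Agent.Lib.MP_4a593f_gt.P3.DecB
import Pool.Agent.Lib.MP_4a593f_gt.P3.DecC
import Pool.Agent.Lib.MP_4a593f_gt.P3.DecD
import Pool.Agent.Lib.MP_4a593f_gt.P3.Arith2

/-!
If the maximal overlap of a unit 3-form with `Om` is at most `21/25`, then
`|rho_L χ|² ≤ (5/2) |L|²`.
-/

namespace Pool.Hopf3

open Finset

variable {d : ℕ}

private theorem small_nf {χ : Idx d → Idx d → Idx d → ℝ} (hχ : Form3 χ) (h1 : ip3 χ χ = 1)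
    (hmax : ∀ P : Idx d → Idx d → ℝ, IsFrame P → ip3 (pull3 χ P) Om ≤ 21 / 25)
    {μ : ℕ → ℝ} (hμ : Antitone μ) (h0 : ∀ k, 0 ≤ μ k)
    (hz : ∀ k, 6 + d ≤ 2 * k + 1 → μ k = 0) (hoi : ip3 χ Oi = 0) (hom : 0 ≤ ip3 χ Om) :
    ip3 (rho (nfL μ) χ) (rho (nfL μ) χ)
      ≤ 5 / 2 * ip2 (nfL μ : Idx d → Idx d → ℝ) (nfL μ) := by
  by_cases hT : (μ 0 + μ 1 + μ 2) ^ 2 ≤ 5 / 2 * ip2 (nfL μ : Idx d → Idx d → ℝ) (nfL μ)
  · have h := rho_nf_le hμ h0 hχ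
    rw [h1, mul_one] at h
    exact h.trans hT
  · push Not at hT
    have hc := nf_cauchy (d := d) hz
    have hp1 : ip3 χ Om ≤ 21 / 25 := by
      have := rot_phase (by norm_num) hχ hmax
      rw [hoi] at this
      nlinarith
    have hv2 : √(3 * ip2 (nfL μ : Idx d → Idx d → ℝ) (nfL μ) - (μ 0 + μ 1 + μ 2) ^ 2) ^ 2
        = 3 * ip2 (nfL μ : Idx d → Idx d → ℝ) (nfL μ) - (μ 0 + μ 1 + μ 2) ^ 2 :=
      Real.sq_sqrt (by linarith)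
    have hv := Real.sqrt_nonneg
      (3 * ip2 (nfL μ : Idx d → Idx d → ℝ) (nfL μ) - (μ 0 + μ 1 + μ 2) ^ 2)
    have hrs := rest_rho_le (rs_form hχ) (rs_nc1 hχ) h0 hv hv2
    have hsg := sg_rho_le hχ hμ h0
    have hdec := dec_rho hχ μ
    have hn := dec_norm hχ
    rw [hoi] at hdec hn
    have key := lp_arith (hμ (by norm_num : 0 ≤ 1)) (hμ (by norm_num : 1 ≤ 2))
      (hμ (by norm_num : 2 ≤ 3)) (h0 3) (nfL_norm hz) hT.le hv hv2 hom hp1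
      (yl_nonneg χ 0) (yl_nonneg χ 1) (yl_nonneg χ 2) (ip3_self_nonneg (rs χ))
      (by rw [h1] at hn; linarith) (rot_y hχ hmax 0) (rot_y hχ hmax 1) (rot_y hχ hmax 2)
    rw [hdec]
    refine le_trans ?_ key
    linarith

theorem small_case {χ : Idx d → Idx d → Idx d → ℝ} (hχ : Form3 χ) (h1 : ip3 χ χ = 1)
    (hmax : ∀ P : Idx d → Idx d → ℝ, IsFrame P → ip3 (pull3 χ P) Om ≤ 21 / 25)
    {L : Idx d → Idx d → ℝ} (hL : Skew L) :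
    ip3 (rho L χ) (rho L χ) ≤ 5 / 2 * ip2 L L := by
  obtain ⟨O, μ, hO, hμ, h0, hz, hnf⟩ := exists_nfL L hL
  obtain ⟨P, hP, hPn, hoi, hom⟩ := exists_phase (pull3_form hχ O) μ
  have e1 : ip3 (rho L χ) (rho L χ)
      = ip3 (rho (nfL μ) (pull3 (pull3 χ O) P)) (rho (nfL μ) (pull3 (pull3 χ O) P)) := by
    have h2 : rho (nfL μ) (pull3 (pull3 χ O) P) = pull3 (rho (nfL μ) (pull3 χ O)) P := by
      conv_lhs => rw [← hPn]
      rw [rho_pull hP]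
    have h3 : rho (nfL μ) (pull3 χ O) = pull3 (rho L χ) O := by
      rw [← hnf, rho_pull hO]
    rw [h2, h3, ip3_pull hP, ip3_pull hO]
  have e2 : ip2 L L = ip2 (nfL μ : Idx d → Idx d → ℝ) (nfL μ) := by
    rw [← hnf, ip2_pull hO]
  have e3 : ip3 (pull3 (pull3 χ O) P) (pull3 (pull3 χ O) P) = 1 := by
    rw [ip3_pull hP, ip3_pull hO, h1]
  rw [e1, e2]
  refine small_nf (pull3_form (pull3_form hχ O) P) e3 (fun Q hQ => ?_) hμ h0 hz hoi hom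
  rw [pull3_comp, pull3_comp]
  exact hmax _ (hO.comp (hP.comp hQ))

end Pool.Hopf3
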