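import Pool.Agent.Lib.MP_4a593f_gt.P3.StdA

namespace Pool.Hopf3

open Finset

variable {d : ℕ}

theorem TTa_explicit {η : Idx d → Idx d → Idx d → ℝ} (hη : Form3 η) (i : Fin 6) :
    TT η i 0 = 1 / 2 * (η (.inl i) (.inl 2) (.inl 4) - η (.inl i) (.inl 3) (.inl 5)) ∧
    TT η i 1 = -(1 / 2) * (η (.inl i) (.inl 2) (.inl 5) + η (.inl i) (.inl 3) (.inl 4)) ∧
    TT η i 2 = 1 / 2 * (η (.inl i) (.inl 4) (.inl 0) - η (.inl i) (.inl 5) (.inl 1)) ∧
    TT η i 3 = -(1 / 2) * (η (.inl i) (.inl 5) (.inl 0) + η (.inl i) (.inl 4) (.inl 1)) ∧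
    TT η i 4 = 1 / 2 * (η (.inl i) (.inl 0) (.inl 2) - η (.inl i) (.inl 1) (.inl 3)) ∧
    TT η i 5 = -(1 / 2) * (η (.inl i) (.inl 0) (.inl 3) + η (.inl i) (.inl 1) (.inl 2)) := by
  have h := fun j k : Fin 6 => hη.s23 (.inl i) (.inl j) (.inl k)
  refine ⟨?_, ?_, ?_, ?_, ?_, ?_⟩
  · have h1 := h 2 4
    have h2 := h 3 5
    simp [TT, Fin.sum_univ_six, Om6, w3, kd]
    linarith
  · have h1 := h 2 5
    have h2 := h 3 4
    simp [TT, Fin.sum_univ_six, Om6, w3, kd]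
    linarith
  · have h1 := h 4 0
    have h2 := h 5 1
    simp [TT, Fin.sum_univ_six, Om6, w3, kd]
    linarith
  · have h1 := h 5 0
    have h2 := h 4 1
    simp [TT, Fin.sum_univ_six, Om6, w3, kd]
    linarith
  · have h1 := h 0 2
    have h2 := h 1 3
    simp [TT, Fin.sum_univ_six, Om6, w3, kd]
    linarith
  · have h1 := h 0 3
    have h2 := h 1 2
    simp [TT, Fin.sum_univ_six, Om6, w3, kd]
    linarith

theorem TTa_s1 {η : Idx d → Idx d → Idx d → ℝ} (hη : Form3 η) (i j k : Fin 6) (_h : j < i) :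
    η (.inl i) (.inl j) (.inl k) = - η (.inl j) (.inl i) (.inl k) := hη.s12 _ _ _

theorem TTa_s2 {η : Idx d → Idx d → Idx d → ℝ} (hη : Form3 η) (i j k : Fin 6) (_h : k < j) :
    η (.inl i) (.inl j) (.inl k) = - η (.inl i) (.inl k) (.inl j) := hη.s23 _ _ _

theorem TTa_z1 {η : Idx d → Idx d → Idx d → ℝ} (hη : Form3 η) (i k : Fin 6) :
    η (.inl i) (.inl i) (.inl k) = 0 := by
  have := hη.s12 (.inl i) (.inl i) (.inl k)
  linarith

theorem TTa_z2 {η : Idx d → Idx d → Idx d → ℝ} (hη : Form3 η) (i k : Fin 6) :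
    η (.inl i) (.inl k) (.inl k) = 0 := by
  have := hη.s23 (.inl i) (.inl k) (.inl k)
  linarith

/-- the linear relations in canonical form -/
theorem TTa_rel {η : Idx d → Idx d → Idx d → ℝ} (hη : Form3 η) (hN : NCond η) :
    η (.inl 0) (.inl 2) (.inl 4) = η (.inl 0) (.inl 3) (.inl 5)
      + η (.inl 1) (.inl 2) (.inl 5) + η (.inl 1) (.inl 3) (.inl 4) ∧
    η (.inl 1) (.inl 2) (.inl 4) = - η (.inl 0) (.inl 3) (.inl 4)
      - η (.inl 0) (.inl 2) (.inl 5) + η (.inl 1) (.inl 3) (.inl 5) ∧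
    η (.inl 0) (.inl 2) (.inl 3) = - η (.inl 0) (.inl 4) (.inl 5) ∧
    η (.inl 1) (.inl 2) (.inl 3) = - η (.inl 1) (.inl 4) (.inl 5) ∧
    η (.inl 0) (.inl 1) (.inl 2) = - η (.inl 2) (.inl 4) (.inl 5) ∧
    η (.inl 0) (.inl 1) (.inl 3) = - η (.inl 3) (.inl 4) (.inl 5) ∧
    η (.inl 0) (.inl 1) (.inl 4) = - η (.inl 2) (.inl 3) (.inl 4) ∧
    η (.inl 0) (.inl 1) (.inl 5) = - η (.inl 2) (.inl 3) (.inl 5) := by
  have hom := hN.om
  have hoi := hN.oi
  have h0 := hN.l0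
  have h1 := hN.l1
  have h2 := hN.l2
  have h3 := hN.l3
  have h4 := hN.l4
  have h5 := hN.l5
  have s1 := TTa_s1 hη
  have s2 := TTa_s2 hη
  simp only [s1 3 0 _ (by decide), s2 2 3 0 (by decide), s1 2 0 _ (by decide),
    s1 5 0 _ (by decide), s2 4 5 0 (by decide), s1 4 0 _ (by decide)] at h0
  simp only [s2 2 3 1 (by decide), s1 2 1 _ (by decide), s2 4 5 1 (by decide),
    s1 4 1 _ (by decide)] at h1
  simp only [s2 4 5 2 (by decide), s1 4 2 _ (by decide)] at h2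
  simp only [s2 4 5 3 (by decide), s1 4 3 _ (by decide)] at h3
  refine ⟨by linarith, by linarith, by linarith, by linarith, by linarith, by linarith,
    by linarith, by linarith⟩

theorem TT_anti {η : Idx d → Idx d → Idx d → ℝ} (hη : Form3 η) (hN : NCond η) (i j : Fin 6) :
    ∑ s, ∑ t, J6 i s * J6 j t * TT η s t = - TT η i j := by
  obtain ⟨r1, r2, r3, r4, r5, r6, r7, r8⟩ := TTa_rel hη hN
  have s1 := TTa_s1 hη
  have s2 := TTa_s2 hη
  have z1 := TTa_z1 hη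
  have z2 := TTa_z2 hη
  have e0 := fun i => (TTa_explicit hη i).1
  have e1 := fun i => (TTa_explicit hη i).2.1
  have e2 := fun i => (TTa_explicit hη i).2.2.1
  have e3 := fun i => (TTa_explicit hη i).2.2.2.1
  have e4 := fun i => (TTa_explicit hη i).2.2.2.2.1
  have e5 := fun i => (TTa_explicit hη i).2.2.2.2.2
  fin_cases i <;> fin_cases j <;> simp [Fin.sum_univ_six, J6, w2, kd] <;>
    simp only [e0, e1, e2, e3, e4, e5] <;>
    simp [s1, s2, z1, z2] <;> linarith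

theorem TT_norm {η : Idx d → Idx d → Idx d → ℝ} (hη : Form3 η) (hN : NCond η) :
    ∑ i, ∑ j, TT η i j ^ 2 = 1 / 2 * E0 η := by
  obtain ⟨r1, r2, r3, r4, r5, r6, r7, r8⟩ := TTa_rel hη hN
  have s1 := TTa_s1 hη
  have s2 := TTa_s2 hη
  have z1 := TTa_z1 hη
  have z2 := TTa_z2 hη
  have e0 := fun i => (TTa_explicit hη i).1
  have e1 := fun i => (TTa_explicit hη i).2.1
  have e2 := fun i => (TTa_explicit hη i).2.2.1
  have e3 := fun i => (TTa_explicit hη i).2.2.2.1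
  have e4 := fun i => (TTa_explicit hη i).2.2.2.2.1
  have e5 := fun i => (TTa_explicit hη i).2.2.2.2.2
  unfold E0
  simp only [Fin.sum_univ_six, e0, e1, e2, e3, e4, e5]
  simp [s1, s2, z1, z2]
  simp only [r1, r2, r3, r4, r5, r6, r7, r8]
  ring

end Pool.Hopf3
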