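import Pool.Agent.Lib.MP_4a593f_gt.P3.StdA
import Pool.Agent.Lib.MP_4a593f_gt.P3.TTa

namespace Pool.Hopf3

open Finset

variable {d : ℕ}

theorem lam_rho6 {η : Idx d → Idx d → Idx d → ℝ} (hη : Form3 η) (hN : NCond η)
    {L : Idx d → Idx d → ℝ} (hL : Skew L) (k : Fin 6) :
    lam (rho6 L η) k = 4 * ∑ j, TT η k j * xi L j := by
  obtain ⟨r1, r2, r3, r4, r5, r6, r7, r8⟩ := TTa_rel hη hN
  have s1 := TTa_s1 hη
  have s2 := TTa_s2 hη
  have z1 := TTa_z1 hη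
  have z2 := TTa_z2 hη
  have l1 : ∀ i j : Fin 6, j < i → L (.inl i) (.inl j) = - L (.inl j) (.inl i) :=
    fun i j _ => hL _ _
  have l0 : ∀ i : Fin 6, L (.inl i) (.inl i) = 0 := fun i => by
    have := hL (.inl i) (.inl i)
    linarith
  have e0 := fun i => (TTa_explicit hη i).1
  have e1 := fun i => (TTa_explicit hη i).2.1
  have e2 := fun i => (TTa_explicit hη i).2.2.1
  have e3 := fun i => (TTa_explicit hη i).2.2.2.1
  have e4 := fun i => (TTa_explicit hη i).2.2.2.2.1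
  have e5 := fun i => (TTa_explicit hη i).2.2.2.2.2
  have x0 : xi L 0 = 1 / 2 * (L (.inl 2) (.inl 5) + L (.inl 3) (.inl 4)) := rfl
  have x1 : xi L 1 = 1 / 2 * (L (.inl 2) (.inl 4) - L (.inl 3) (.inl 5)) := rfl
  have x2 : xi L 2 = 1 / 2 * (L (.inl 4) (.inl 1) + L (.inl 5) (.inl 0)) := rfl
  have x3 : xi L 3 = 1 / 2 * (L (.inl 4) (.inl 0) - L (.inl 5) (.inl 1)) := rfl
  have x4 : xi L 4 = 1 / 2 * (L (.inl 0) (.inl 3) + L (.inl 1) (.inl 2)) := rfl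
  have x5 : xi L 5 = 1 / 2 * (L (.inl 0) (.inl 2) - L (.inl 1) (.inl 3)) := rfl
  unfold lam rho6
  simp only [Fin.sum_univ_six, e0, e1, e2, e3, e4, e5, x0, x1, x2, x3, x4, x5]
  fin_cases k <;> simp [s1, s2, z1, z2, l1, l0] <;>
    simp only [r1, r2, r3, r4, r5, r6, r7, r8] <;> ring

end Pool.Hopf3
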