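import Pool.Agent.Lib.MP_4a593f_gt.P3.StdC
import Pool.Agent.Lib.MP_4a593f_gt.P3.TTb

namespace Pool.Hopf3

open Finset

variable {d : ℕ}

/-- `∑_f` of the pairing of `J ∧ ξ` with `Y_f ∧ h_f` -/
noncomputable def BY (L : Idx d → Idx d → ℝ) (η : Idx d → Idx d → Idx d → ℝ) : ℝ :=
  ∑ k, xi L k * lam (rhod L η) k

/-- the `Λ²(ℝ^d)` part -/
noncomputable def YY (L : Idx d → Idx d → ℝ) (η : Idx d → Idx d → Idx d → ℝ) : ℝ :=
  - ∑ f, ∑ g, ∑ k, (∑ i, ∑ j, Yv L f i * Yv L g j * Om6 i j k) * η (.inr f) (.inr g) (.inl k)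

/-! ### finite sums -/

private theorem spa_kd (a : Fin 6) (F : Fin 6 → ℝ) : ∑ j, kd a j * F j = F a := by
  simp [kd]

private theorem spa_kd2 (a b : Fin 6) (M : Fin 6 → Fin 6 → ℝ) :
    ∑ j, ∑ k, kd a j * kd b k * M j k = M a b := by
  have : ∀ j, ∑ k, kd a j * kd b k * M j k = kd a j * M j b := by
    intro j
    have h1 : ∀ k, kd a j * kd b k * M j k = kd b k * (kd a j * M j k) := fun k => by ring
    simp only [h1]
    exact spa_kd b fun k => kd a j * M j k
  simp only [this]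
  exact spa_kd a fun j => M j b

private theorem spa_w2 (a b : Fin 6) (M : Fin 6 → Fin 6 → ℝ) :
    ∑ i, ∑ j, w2 a b i j * M i j = M a b - M b a := by
  have h1 : ∀ i j, w2 a b i j * M i j = kd a i * kd b j * M i j - kd b i * kd a j * M i j := by
    intro i j
    unfold w2
    ring
  simp only [h1, Finset.sum_sub_distrib, spa_kd2]

private theorem spa_w3 (a b c : Fin 6) (y : Fin 6 → ℝ) (M : Fin 6 → Fin 6 → ℝ) :
    ∑ j, ∑ k, (∑ t, y t * w3 a b c t j k) * M j k =
      y a * (M b c - M c b) + y c * (M a b - M b a) + y b * (M c a - M a c) := by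
  have h1 : ∀ j k, ∑ t, y t * w3 a b c t j k = y a * (kd b j * kd c k) + y c * (kd a j * kd b k)
      + y b * (kd c j * kd a k) - y a * (kd c j * kd b k) - y b * (kd a j * kd c k)
      - y c * (kd b j * kd a k) := by
    intro j k
    have h2 : ∀ t, y t * w3 a b c t j k = kd a t * (y t * (kd b j * kd c k))
        + kd c t * (y t * (kd a j * kd b k)) + kd b t * (y t * (kd c j * kd a k))
        - kd a t * (y t * (kd c j * kd b k)) - kd b t * (y t * (kd a j * kd c k))
        - kd c t * (y t * (kd b j * kd a k)) := by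
      intro t
      unfold w3
      ring
    simp only [h2, Finset.sum_sub_distrib, Finset.sum_add_distrib, spa_kd]
  have h3 : ∀ j k, (∑ t, y t * w3 a b c t j k) * M j k = y a * (kd b j * kd c k * M j k)
      + y c * (kd a j * kd b k * M j k) + y b * (kd c j * kd a k * M j k)
      - y a * (kd c j * kd b k * M j k) - y b * (kd a j * kd c k * M j k)
      - y c * (kd b j * kd a k * M j k) := by
    intro j k
    rw [h1]
    ring
  simp only [h3, Finset.sum_sub_distrib, Finset.sum_add_distrib, ← Finset.mul_sum, spa_kd2]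
  ring

private theorem spa_Om (y : Fin 6 → ℝ) (M : Fin 6 → Fin 6 → ℝ) :
    ∑ j, ∑ k, (∑ t, y t * Om6 t j k) * M j k = 1 / 2 * (
      (y 0 * (M 2 4 - M 4 2) + y 4 * (M 0 2 - M 2 0) + y 2 * (M 4 0 - M 0 4))
      - (y 0 * (M 3 5 - M 5 3) + y 5 * (M 0 3 - M 3 0) + y 3 * (M 5 0 - M 0 5))
      - (y 1 * (M 2 5 - M 5 2) + y 5 * (M 1 2 - M 2 1) + y 2 * (M 5 1 - M 1 5))
      - (y 1 * (M 3 4 - M 4 3) + y 4 * (M 1 3 - M 3 1) + y 3 * (M 4 1 - M 1 4))) := by
  have h1 : ∀ j k, (∑ t, y t * Om6 t j k) * M j k = 1 / 2 * (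
      (∑ t, y t * w3 0 2 4 t j k) * M j k - (∑ t, y t * w3 0 3 5 t j k) * M j k
      - (∑ t, y t * w3 1 2 5 t j k) * M j k - (∑ t, y t * w3 1 3 4 t j k) * M j k) := by
    intro j k
    have h2 : ∑ t, y t * Om6 t j k = 1 / 2 * (∑ t, y t * w3 0 2 4 t j k
        - ∑ t, y t * w3 0 3 5 t j k - ∑ t, y t * w3 1 2 5 t j k - ∑ t, y t * w3 1 3 4 t j k) := by
      rw [← Finset.sum_sub_distrib, ← Finset.sum_sub_distrib, ← Finset.sum_sub_distrib,
        Finset.mul_sum]
      refine Finset.sum_congr rfl fun t _ => ?_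
      unfold Om6
      ring
    rw [h2]
    ring
  simp only [h1, ← Finset.mul_sum, Finset.sum_sub_distrib, spa_w3]

/-- `(2,0)` against `(1,1)` -/
private theorem spa_zero (y : Fin 6 → ℝ) {h : Fin 6 → Fin 6 → ℝ} (hh : ∀ i j, h j i = - h i j)
    (f1 : h 0 2 = h 1 3) (f2 : h 0 3 = - h 1 2) (f3 : h 2 4 = h 3 5) (f4 : h 2 5 = - h 3 4)
    (f5 : h 4 0 = h 5 1) (f6 : h 4 1 = - h 5 0) :
    ∑ j, ∑ k, (∑ t, y t * Om6 t j k) * h j k = 0 := by
  rw [spa_Om, hh 2 4, hh 0 2, hh 4 0, hh 3 5, hh 0 3, hh 5 0, hh 2 5, hh 1 2, hh 5 1, hh 3 4,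
    hh 1 3, hh 4 1, f1, f2, f3, f4, f5, f6]
  ring

private theorem spa_B3 {A : Fin 6 → Fin 6 → ℝ} (hA : ∀ i j, A j i = - A i j)
    {h : Fin 6 → Fin 6 → ℝ} (hh : ∀ i j, h j i = - h i j)
    (f1 : h 0 2 = h 1 3) (f2 : h 0 3 = - h 1 2) (f3 : h 2 4 = h 3 5) (f4 : h 2 5 = - h 3 4)
    (f5 : h 4 0 = h 5 1) (f6 : h 4 1 = - h 5 0) (y x : Fin 6 → ℝ)
    (x0 : x 0 = 1 / 2 * (A 2 5 + A 3 4)) (x1 : x 1 = 1 / 2 * (A 2 4 - A 3 5))
    (x2 : x 2 = 1 / 2 * (A 4 1 + A 5 0)) (x3 : x 3 = 1 / 2 * (A 4 0 - A 5 1))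
    (x4 : x 4 = 1 / 2 * (A 0 3 + A 1 2)) (x5 : x 5 = 1 / 2 * (A 0 2 - A 1 3)) :
    1 / 2 * ∑ j, ∑ k, (∑ t, y t * Om6 t j k) * ∑ t, (A j t * h t k + A k t * h j t) =
      ∑ k, x k * ((- y 0 * h 1 k + y 1 * h 0 k - y k * h 0 1)
        + (- y 2 * h 3 k + y 3 * h 2 k - y k * h 2 3)
        + (- y 4 * h 5 k + y 5 * h 4 k - y k * h 4 5)) := by
  have hd : ∀ i, h i i = 0 := fun i => by
    have := hh i i
    linarith
  have hAd : ∀ i, A i i = 0 := fun i => by
    have := hA i i
    linarith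
  have e10 := hh 0 1
  have e20 := hh 0 2
  have e30 := hh 0 3
  have e04 := hh 4 0
  have e05 := hh 5 0
  have e21 := hh 1 2
  have e31 := hh 1 3
  have e14 := hh 4 1
  have e15 := hh 5 1
  have e32 := hh 2 3
  have e42 := hh 2 4
  have e52 := hh 2 5
  have e43 := hh 3 4
  have e53 := hh 3 5
  have e54 := hh 4 5
  have a10 := hA 0 1
  have a20 := hA 0 2
  have a30 := hA 0 3
  have a04 := hA 4 0
  have a05 := hA 5 0
  have a21 := hA 1 2
  have a31 := hA 1 3
  have a14 := hA 4 1
  have a15 := hA 5 1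
  have a32 := hA 2 3
  have a42 := hA 2 4
  have a52 := hA 2 5
  have a43 := hA 3 4
  have a53 := hA 3 5
  have a54 := hA 4 5
  rw [spa_Om]
  simp only [Fin.sum_univ_six, x0, x1, x2, x3, x4, x5, e10, e20, e30, e04, e05, e21, e31, e14,
    e15, e32, e42, e52, e43, e53, e54, a10, a20, a30, a04, a05, a21, a31, a14, a15, a32, a42,
    a52, a43, a53, a54, hd, hAd, f1, f2, f3, f4, f5, f6]
  ring

private theorem spa_J (M : Fin 6 → Fin 6 → ℝ) (hM : ∀ i j, M j i = - M i j) :
    ∑ i, ∑ j, J6 i j * M i j = 2 * (M 0 1 + M 2 3 + M 4 5) := by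
  have h1 : ∀ i j, J6 i j * M i j = w2 0 1 i j * M i j + w2 2 3 i j * M i j
      + w2 4 5 i j * M i j := by
    intro i j
    unfold J6
    ring
  simp only [h1, Finset.sum_add_distrib, spa_w2]
  rw [hM 0 1, hM 2 3, hM 4 5]
  ring

/-- splitting of the inner product -/
private theorem spa_split {χ η : Idx d → Idx d → Idx d → ℝ} (hχ : Form3 χ) (hη : Form3 η) :
    ip3 χ η = 1 / 6 * (∑ i : Fin 6, ∑ j : Fin 6, ∑ k : Fin 6,
        χ (.inl i) (.inl j) (.inl k) * η (.inl i) (.inl j) (.inl k))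
      + 1 / 2 * (∑ f : Fin d, ∑ j : Fin 6, ∑ k : Fin 6,
        χ (.inr f) (.inl j) (.inl k) * η (.inr f) (.inl j) (.inl k))
      + 1 / 2 * (∑ f : Fin d, ∑ g : Fin d, ∑ k : Fin 6,
        χ (.inr f) (.inr g) (.inl k) * η (.inr f) (.inr g) (.inl k))
      + 1 / 6 * (∑ f : Fin d, ∑ g : Fin d, ∑ k : Fin d,
        χ (.inr f) (.inr g) (.inr k) * η (.inr f) (.inr g) (.inr k)) := by
  set P : Idx d → Idx d → Idx d → ℝ := fun x y z => χ x y z * η x y z with hP
  have p12 : ∀ x y z, P y x z = P x y z := by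
    intro x y z
    simp only [hP]
    rw [hχ.s12 x y z, hη.s12 x y z]
    ring
  have p23 : ∀ x y z, P x z y = P x y z := by
    intro x y z
    simp only [hP]
    rw [hχ.s23 x y z, hη.s23 x y z]
    ring
  have s_llr : ∑ i : Fin 6, ∑ j : Fin 6, ∑ f : Fin d, P (.inl i) (.inl j) (.inr f) =
      ∑ f : Fin d, ∑ j : Fin 6, ∑ k : Fin 6, P (.inr f) (.inl j) (.inl k) := by
    have h1 : ∀ i : Fin 6, ∑ j : Fin 6, ∑ f : Fin d, P (.inl i) (.inl j) (.inr f) =
        ∑ f : Fin d, ∑ j : Fin 6, P (.inr f) (.inl i) (.inl j) := by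
      intro i
      rw [Finset.sum_comm]
      refine Finset.sum_congr rfl fun f _ => Finset.sum_congr rfl fun j _ => ?_
      rw [p12 (.inl i) (.inr f) (.inl j), p23 (.inl i) (.inr f) (.inl j)]
    simp only [h1]
    rw [Finset.sum_comm]
  have s_lrl : ∑ i : Fin 6, ∑ f : Fin d, ∑ k : Fin 6, P (.inl i) (.inr f) (.inl k) =
      ∑ f : Fin d, ∑ j : Fin 6, ∑ k : Fin 6, P (.inr f) (.inl j) (.inl k) := by
    rw [Finset.sum_comm]
    refine Finset.sum_congr rfl fun f _ => Finset.sum_congr rfl fun j _ =>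
      Finset.sum_congr rfl fun k _ => ?_
    rw [p12 (.inl j) (.inr f) (.inl k)]
  have s_lrr : ∑ i : Fin 6, ∑ f : Fin d, ∑ g : Fin d, P (.inl i) (.inr f) (.inr g) =
      ∑ f : Fin d, ∑ g : Fin d, ∑ k : Fin 6, P (.inr f) (.inr g) (.inl k) := by
    rw [Finset.sum_comm]
    refine Finset.sum_congr rfl fun f _ => ?_
    rw [Finset.sum_comm]
    refine Finset.sum_congr rfl fun g _ => Finset.sum_congr rfl fun k _ => ?_
    rw [p23 (.inr f) (.inl k) (.inr g), p12 (.inl k) (.inr f) (.inr g)]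
  have s_rlr : ∑ f : Fin d, ∑ j : Fin 6, ∑ g : Fin d, P (.inr f) (.inl j) (.inr g) =
      ∑ f : Fin d, ∑ g : Fin d, ∑ k : Fin 6, P (.inr f) (.inr g) (.inl k) := by
    refine Finset.sum_congr rfl fun f _ => ?_
    rw [Finset.sum_comm]
    refine Finset.sum_congr rfl fun g _ => Finset.sum_congr rfl fun k _ => ?_
    rw [p23 (.inr f) (.inl k) (.inr g)]
  have htot : ∑ x, ∑ y, ∑ z, χ x y z * η x y z = ∑ x, ∑ y, ∑ z, P x y z := rfl
  unfold ip3
  rw [htot]
  simp only [Fintype.sum_sum_type, Finset.sum_add_distrib]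
  rw [s_llr, s_lrl, s_lrr, s_rlr]
  ring

/-- The pairing `⟨rho_L Om, rho_L η⟩`. -/
theorem Sp_formula {η : Idx d → Idx d → Idx d → ℝ} (hη : Form3 η) (hN : NCond η)
    {L : Idx d → Idx d → ℝ} (hL : Skew L) :
    ip3 (rho L Om) (rho L η) = 4 * (∑ i, ∑ j, TT η i j * xi L i * xi L j)
      + (∑ f, ∑ i, ∑ j, TT η i j * Yv L f i * Yv L f j) + 2 * BY L η + YY L η := by
  have hR : Form3 (rho L η) := rho_form L hη
  have hJ : ∀ i j, J6 j i = - J6 i j := by
    intro i j
    unfold J6 w2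
    ring
  -- the `(Fin 6)³` part
  have hA : 1 / 6 * (∑ i : Fin 6, ∑ j : Fin 6, ∑ k : Fin 6,
      rho L Om (.inl i) (.inl j) (.inl k) * rho L η (.inl i) (.inl j) (.inl k)) =
      4 * (∑ i, ∑ j, TT η i j * xi L i * xi L j) + BY L η := by
    set X : Fin 6 → Fin 6 → Fin 6 → ℝ := fun i j k => rho L η (.inl i) (.inl j) (.inl k) with hX
    have x12 : ∀ i j k, X j i k = - X i j k := fun i j k => hR.s12 _ _ _
    have x23 : ∀ i j k, X i k j = - X i j k := fun i j k => hR.s23 _ _ _
    have hOi : ∑ i, ∑ j, ∑ k, X i j k * Oi6 i j k = 0 := by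
      have h1 := ip3_rho_ncond_Oi hη hN hL
      rw [spa_split hR Oi_form] at h1
      simp only [Oi, mul_zero, Finset.sum_const_zero, add_zero] at h1
      linarith
    have hlam : ∀ k, ∑ i, ∑ j, J6 i j * X i j k = 2 * lam (rho L η) k := by
      intro k
      rw [spa_J (fun i j => X i j k) fun i j => x12 i j k]
      rfl
    have hs1 : ∑ i, ∑ j, ∑ k, J6 i j * xi L k * X i j k = 2 * ∑ k, xi L k * lam (rho L η) k := by
      have h1 : ∀ i, ∑ j, ∑ k, J6 i j * xi L k * X i j k =
          ∑ k, xi L k * ∑ j, J6 i j * X i j k := by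
        intro i
        rw [Finset.sum_comm]
        refine Finset.sum_congr rfl fun k _ => ?_
        rw [Finset.mul_sum]
        refine Finset.sum_congr rfl fun j _ => ?_
        ring
      simp only [h1]
      rw [Finset.sum_comm, Finset.mul_sum]
      refine Finset.sum_congr rfl fun k _ => ?_
      rw [← Finset.mul_sum, hlam]
      ring
    have hs2 : ∑ i, ∑ j, ∑ k, J6 j k * xi L i * X i j k =
        ∑ i, ∑ j, ∑ k, J6 i j * xi L k * X i j k := by
      -- rename `(i, j, k)` to `(k, i, j)`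
      have h1 : ∑ i, ∑ j, ∑ k, J6 i j * xi L k * X i j k =
          ∑ k, ∑ i, ∑ j, J6 i j * xi L k * X i j k := by
        have h2 : ∀ i, ∑ j, ∑ k, J6 i j * xi L k * X i j k =
            ∑ k, ∑ j, J6 i j * xi L k * X i j k := fun i => Finset.sum_comm
        simp only [h2]
        exact Finset.sum_comm
      rw [h1]
      refine Finset.sum_congr rfl fun k _ => Finset.sum_congr rfl fun i _ =>
        Finset.sum_congr rfl fun j _ => ?_
      rw [x12 i k j, x23 i j k]
      ring
    have hs3 : ∑ i, ∑ j, ∑ k, J6 k i * xi L j * X i j k =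
        ∑ i, ∑ j, ∑ k, J6 i j * xi L k * X i j k := by
      refine Finset.sum_congr rfl fun i _ => ?_
      rw [Finset.sum_comm]
      refine Finset.sum_congr rfl fun j _ => Finset.sum_congr rfl fun k _ => ?_
      rw [x23 i j k, hJ i j]
      ring
    have hsplit : ∑ i : Fin 6, ∑ j : Fin 6, ∑ k : Fin 6,
        rho L Om (.inl i) (.inl j) (.inl k) * rho L η (.inl i) (.inl j) (.inl k) =
        - th L * (∑ i, ∑ j, ∑ k, X i j k * Oi6 i j k)
          + ∑ i, ∑ j, ∑ k, J6 i j * xi L k * X i j k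
          + ∑ i, ∑ j, ∑ k, J6 j k * xi L i * X i j k
          + ∑ i, ∑ j, ∑ k, J6 k i * xi L j * X i j k := by
      rw [Finset.mul_sum]
      simp only [Finset.mul_sum, ← Finset.sum_add_distrib]
      refine Finset.sum_congr rfl fun i _ => Finset.sum_congr rfl fun j _ =>
        Finset.sum_congr rfl fun k _ => ?_
      rw [rho_Om_lll hL]
      simp only [hX]
      ring
    have hlam2 : ∀ k, lam (rho L η) k = lam (rho6 L η) k + lam (rhod L η) k := by
      intro k
      have h1 : ∀ a b c : Idx d, rho L η a b c = rho6 L η a b c + rhod L η a b c := by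
        intro a b c
        unfold rho rho6 rhod
        rw [Fintype.sum_sum_type]
      unfold lam
      rw [h1, h1, h1]
      ring
    rw [hsplit, hOi, hs2, hs3, hs1]
    have h9 : ∑ k, xi L k * lam (rho L η) k =
        4 * (∑ i, ∑ j, TT η i j * xi L i * xi L j) + BY L η := by
      unfold BY
      rw [Finset.mul_sum, ← Finset.sum_add_distrib]
      refine Finset.sum_congr rfl fun k _ => ?_
      rw [hlam2, lam_rho6 hη hN hL, mul_add]
      congr 1
      rw [Finset.mul_sum, Finset.mul_sum, Finset.mul_sum]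
      refine Finset.sum_congr rfl fun j _ => ?_
      ring
    rw [h9]
    ring
  -- the parts with at least two indices in `Fin d`
  have hC : ∑ f : Fin d, ∑ g : Fin d, ∑ k : Fin 6,
      rho L Om (.inr f) (.inr g) (.inl k) * rho L η (.inr f) (.inr g) (.inl k) = 0 := by
    simp only [rho_Om_rrl, zero_mul, Finset.sum_const_zero]
  have hD : ∑ f : Fin d, ∑ g : Fin d, ∑ k : Fin d,
      rho L Om (.inr f) (.inr g) (.inr k) * rho L η (.inr f) (.inr g) (.inr k) = 0 := by
    simp only [rho_Om_rrr, zero_mul, Finset.sum_const_zero]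
  -- the part with one index in `Fin d`
  set A : Fin 6 → Fin 6 → ℝ := fun i j => L (.inl i) (.inl j) with hAdef
  set h : Fin d → Fin 6 → Fin 6 → ℝ := fun f i j => η (.inr f) (.inl i) (.inl j) with hh
  have hAs : ∀ i j, A j i = - A i j := fun i j => hL _ _
  have hhs : ∀ f i j, h f j i = - h f i j := fun f i j => hη.s23 _ _ _
  have hcyc : ∀ (f : Fin d) (i j : Fin 6), η (.inl i) (.inl j) (.inr f) = h f i j := by
    intro f i j
    have h1 := hη.s23 (.inl i) (.inr f) (.inl j)
    have h2 := hη.s12 (.inr f) (.inl i) (.inl j)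
    simp only [hh]
    linarith
  have F1 : ∀ f, h f 0 2 = h f 1 3 := fun f => by rw [← hcyc, ← hcyc]; exact hN.f1 f
  have F2 : ∀ f, h f 0 3 = - h f 1 2 := fun f => by rw [← hcyc, ← hcyc]; exact hN.f2 f
  have F3 : ∀ f, h f 2 4 = h f 3 5 := fun f => by rw [← hcyc, ← hcyc]; exact hN.f3 f
  have F4 : ∀ f, h f 2 5 = - h f 3 4 := fun f => by rw [← hcyc, ← hcyc]; exact hN.f4 f
  have F5 : ∀ f, h f 4 0 = h f 5 1 := fun f => by rw [← hcyc, ← hcyc]; exact hN.f5 f
  have F6 : ∀ f, h f 4 1 = - h f 5 0 := fun f => by rw [← hcyc, ← hcyc]; exact hN.f6 f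
  have hYv : ∀ (g : Fin d) (i : Fin 6), L (.inl i) (.inr g) = - Yv L g i := fun g i => hL _ _
  have hW : ∀ (f : Fin d) (j k : Fin 6),
      ∑ t, Yv L f t * Om6 t k j = - ∑ t, Yv L f t * Om6 t j k := by
    intro f j k
    rw [← Finset.sum_neg_distrib]
    refine Finset.sum_congr rfl fun t _ => ?_
    unfold Om6 w3
    ring
  have hBf : ∀ f : Fin d, 1 / 2 * (∑ j : Fin 6, ∑ k : Fin 6,
      rho L Om (.inr f) (.inl j) (.inl k) * rho L η (.inr f) (.inl j) (.inl k)) =
      (∑ i, ∑ j, TT η i j * Yv L f i * Yv L f j)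
      + (∑ k, xi L k * ((- Yv L f 0 * h f 1 k + Yv L f 1 * h f 0 k - Yv L f k * h f 0 1)
        + (- Yv L f 2 * h f 3 k + Yv L f 3 * h f 2 k - Yv L f k * h f 2 3)
        + (- Yv L f 4 * h f 5 k + Yv L f 5 * h f 4 k - Yv L f k * h f 4 5)))
      - ∑ g, ∑ k, (∑ i, ∑ j, Yv L f i * Yv L g j * Om6 i j k)
        * η (.inr f) (.inr g) (.inl k) := by
    intro f
    set W : Fin 6 → Fin 6 → ℝ := fun j k => ∑ t, Yv L f t * Om6 t j k with hWdef
    have hsplit : ∀ j k : Fin 6, rho L η (.inr f) (.inl j) (.inl k) =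
        (∑ t, Yv L f t * η (.inl t) (.inl j) (.inl k))
        + (∑ t, (A j t * h f t k + A k t * h f j t))
        + (∑ g, L (.inr f) (.inr g) * h g j k)
        + (∑ g, (- Yv L g j * η (.inr f) (.inr g) (.inl k)
            + Yv L g k * η (.inr f) (.inr g) (.inl j))) := by
      intro j k
      unfold rho
      rw [Fintype.sum_sum_type]
      rw [← Finset.sum_add_distrib, add_assoc, ← Finset.sum_add_distrib]
      congr 1
      · refine Finset.sum_congr rfl fun t _ => ?_
        simp only [Yv, hAdef, hh]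
        ring
      · refine Finset.sum_congr rfl fun g _ => ?_
        rw [hYv g j, hYv g k, hη.s23 (.inr f) (.inr g) (.inl j)]
        ring
    have e0 : ∑ j : Fin 6, ∑ k : Fin 6,
        rho L Om (.inr f) (.inl j) (.inl k) * rho L η (.inr f) (.inl j) (.inl k) =
        (∑ j, ∑ k, W j k * (∑ t, Yv L f t * η (.inl t) (.inl j) (.inl k)))
        + (∑ j, ∑ k, W j k * (∑ t, (A j t * h f t k + A k t * h f j t)))
        + (∑ j, ∑ k, W j k * (∑ g, L (.inr f) (.inr g) * h g j k))
        + (∑ j, ∑ k, W j k * (∑ g, (- Yv L g j * η (.inr f) (.inr g) (.inl k)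
            + Yv L g k * η (.inr f) (.inr g) (.inl j)))) := by
      simp only [← Finset.sum_add_distrib]
      refine Finset.sum_congr rfl fun j _ => Finset.sum_congr rfl fun k _ => ?_
      rw [rho_Om_rll, hsplit]
      simp only [Finset.sum_add_distrib]
      ring
    have e1 : 1 / 2 * (∑ j, ∑ k, W j k * (∑ t, Yv L f t * η (.inl t) (.inl j) (.inl k))) =
        ∑ i, ∑ j, TT η i j * Yv L f i * Yv L f j := by
      have h1 : ∀ i, ∑ j, TT η i j * Yv L f i * Yv L f j =
          Yv L f i * (1 / 2 * ∑ k, ∑ l, W k l * η (.inl i) (.inl k) (.inl l)) := by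
        intro i
        have h2 : ∑ j, TT η i j * Yv L f j =
            1 / 2 * ∑ k, ∑ l, W k l * η (.inl i) (.inl k) (.inl l) := by
          have h3 : ∀ j, TT η i j * Yv L f j = 1 / 2 * ∑ k, ∑ l,
              Yv L f j * Om6 j k l * η (.inl i) (.inl k) (.inl l) := by
            intro j
            unfold TT
            rw [mul_assoc, Finset.sum_mul]
            congr 1
            refine Finset.sum_congr rfl fun k _ => ?_
            rw [Finset.sum_mul]
            refine Finset.sum_congr rfl fun l _ => ?_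
            ring
          simp only [h3]
          rw [← Finset.mul_sum]
          congr 1
          rw [Finset.sum_comm]
          refine Finset.sum_congr rfl fun k _ => ?_
          rw [Finset.sum_comm]
          refine Finset.sum_congr rfl fun l _ => ?_
          simp only [hWdef]
          rw [Finset.sum_mul]
        rw [← h2, Finset.mul_sum]
        refine Finset.sum_congr rfl fun j _ => ?_
        ring
      simp only [h1]
      have h4 : ∑ j, ∑ k, W j k * (∑ t, Yv L f t * η (.inl t) (.inl j) (.inl k)) =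
          ∑ i, Yv L f i * ∑ k, ∑ l, W k l * η (.inl i) (.inl k) (.inl l) := by
        simp only [Finset.mul_sum]
        have h5 : ∀ j, ∑ k, ∑ t, W j k * (Yv L f t * η (.inl t) (.inl j) (.inl k)) =
            ∑ t, ∑ k, Yv L f t * (W j k * η (.inl t) (.inl j) (.inl k)) := by
          intro j
          rw [Finset.sum_comm]
          refine Finset.sum_congr rfl fun t _ => Finset.sum_congr rfl fun k _ => ?_
          ring
        simp only [h5]
        exact Finset.sum_comm
      rw [h4, Finset.mul_sum]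
      refine Finset.sum_congr rfl fun i _ => ?_
      ring
    have e2 : 1 / 2 * (∑ j, ∑ k, W j k * (∑ t, (A j t * h f t k + A k t * h f j t))) =
        ∑ k, xi L k * ((- Yv L f 0 * h f 1 k + Yv L f 1 * h f 0 k - Yv L f k * h f 0 1)
        + (- Yv L f 2 * h f 3 k + Yv L f 3 * h f 2 k - Yv L f k * h f 2 3)
        + (- Yv L f 4 * h f 5 k + Yv L f 5 * h f 4 k - Yv L f k * h f 4 5)) :=
      spa_B3 hAs (hhs f) (F1 f) (F2 f) (F3 f) (F4 f) (F5 f) (F6 f) (Yv L f) (xi L)
        rfl rfl rfl rfl rfl rfl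
    have e3 : ∑ j, ∑ k, W j k * (∑ g, L (.inr f) (.inr g) * h g j k) = 0 := by
      have h1 : ∑ j, ∑ k, W j k * (∑ g, L (.inr f) (.inr g) * h g j k) =
          ∑ g, L (.inr f) (.inr g) * ∑ j, ∑ k, W j k * h g j k := by
        simp only [Finset.mul_sum]
        have h5 : ∀ j, ∑ k, ∑ g, W j k * (L (.inr f) (.inr g) * h g j k) =
            ∑ g, ∑ k, L (.inr f) (.inr g) * (W j k * h g j k) := by
          intro j
          rw [Finset.sum_comm]
          refine Finset.sum_congr rfl fun t _ => Finset.sum_congr rfl fun k _ => ?_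
          ring
        simp only [h5]
        exact Finset.sum_comm
      rw [h1]
      refine Finset.sum_eq_zero fun g _ => ?_
      have h2 : ∑ j, ∑ k, W j k * h g j k = 0 :=
        spa_zero (Yv L f) (hhs g) (F1 g) (F2 g) (F3 g) (F4 g) (F5 g) (F6 g)
      rw [h2, mul_zero]
    have e4 : 1 / 2 * (∑ j, ∑ k, W j k * (∑ g, (- Yv L g j * η (.inr f) (.inr g) (.inl k)
            + Yv L g k * η (.inr f) (.inr g) (.inl j)))) =
        - ∑ g, ∑ k, (∑ i, ∑ j, Yv L f i * Yv L g j * Om6 i j k)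
          * η (.inr f) (.inr g) (.inl k) := by
      set S : ℝ := ∑ j, ∑ k, W j k * ∑ g, Yv L g j * η (.inr f) (.inr g) (.inl k) with hS
      have h1 : ∑ j, ∑ k, W j k * (∑ g, (- Yv L g j * η (.inr f) (.inr g) (.inl k)
            + Yv L g k * η (.inr f) (.inr g) (.inl j))) =
          - S + ∑ j, ∑ k, W j k * ∑ g, Yv L g k * η (.inr f) (.inr g) (.inl j) := by
        rw [hS, ← Finset.sum_neg_distrib, ← Finset.sum_add_distrib]
        refine Finset.sum_congr rfl fun j _ => ?_
        rw [← Finset.sum_neg_distrib, ← Finset.sum_add_distrib]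
        refine Finset.sum_congr rfl fun k _ => ?_
        rw [Finset.sum_add_distrib, mul_add]
        congr 1
        rw [Finset.mul_sum, Finset.mul_sum, ← Finset.sum_neg_distrib]
        refine Finset.sum_congr rfl fun g _ => ?_
        ring
      have h2 : ∑ j, ∑ k, W j k * ∑ g, Yv L g k * η (.inr f) (.inr g) (.inl j) = - S := by
        rw [Finset.sum_comm, hS, ← Finset.sum_neg_distrib]
        refine Finset.sum_congr rfl fun j _ => ?_
        rw [← Finset.sum_neg_distrib]
        refine Finset.sum_congr rfl fun k _ => ?_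
        have h3 : W k j = - W j k := hW f j k
        rw [h3]
        ring
      have h4 : S = ∑ g, ∑ k, (∑ i, ∑ j, Yv L f i * Yv L g j * Om6 i j k)
          * η (.inr f) (.inr g) (.inl k) := by
        have h5 : ∀ (g : Fin d) (k : Fin 6), ∑ i, ∑ j, Yv L f i * Yv L g j * Om6 i j k =
            ∑ j, W j k * Yv L g j := by
          intro g k
          rw [Finset.sum_comm]
          refine Finset.sum_congr rfl fun j _ => ?_
          simp only [hWdef]
          rw [Finset.sum_mul]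
          refine Finset.sum_congr rfl fun i _ => ?_
          ring
        simp only [h5, hS]
        rw [Finset.sum_comm]
        have h6 : ∀ k, ∑ j, W j k * ∑ g, Yv L g j * η (.inr f) (.inr g) (.inl k) =
            ∑ g, (∑ j, W j k * Yv L g j) * η (.inr f) (.inr g) (.inl k) := by
          intro k
          simp only [Finset.mul_sum, Finset.sum_mul]
          rw [Finset.sum_comm]
          refine Finset.sum_congr rfl fun g _ => Finset.sum_congr rfl fun j _ => ?_
          ring
        simp only [h6]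
        exact Finset.sum_comm
      rw [h1, h2, ← h4]
      ring
    rw [e0]
    linarith
  have hBY : BY L η = ∑ f, ∑ k, xi L k *
      ((- Yv L f 0 * h f 1 k + Yv L f 1 * h f 0 k - Yv L f k * h f 0 1)
        + (- Yv L f 2 * h f 3 k + Yv L f 3 * h f 2 k - Yv L f k * h f 2 3)
        + (- Yv L f 4 * h f 5 k + Yv L f 5 * h f 4 k - Yv L f k * h f 4 5)) := by
    have h1 : ∀ a b k : Fin 6, rhod L η (.inl a) (.inl b) (.inl k) =
        ∑ f, (- Yv L f a * h f b k + Yv L f b * h f a k - Yv L f k * h f a b) := by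
      intro a b k
      unfold rhod
      refine Finset.sum_congr rfl fun g _ => ?_
      rw [hYv g a, hYv g b, hYv g k, hcyc, hη.s12 (.inr g) (.inl a) (.inl k)]
      simp only [hh]
      ring
    unfold BY
    rw [Finset.sum_comm]
    refine Finset.sum_congr rfl fun k _ => ?_
    unfold lam
    rw [h1, h1, h1, ← Finset.sum_add_distrib, ← Finset.sum_add_distrib, Finset.mul_sum]
  have hB : 1 / 2 * (∑ f : Fin d, ∑ j : Fin 6, ∑ k : Fin 6,
      rho L Om (.inr f) (.inl j) (.inl k) * rho L η (.inr f) (.inl j) (.inl k)) =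
      (∑ f, ∑ i, ∑ j, TT η i j * Yv L f i * Yv L f j) + BY L η + YY L η := by
    rw [Finset.mul_sum, hBY]
    unfold YY
    rw [← Finset.sum_neg_distrib, ← Finset.sum_add_distrib, ← Finset.sum_add_distrib]
    refine Finset.sum_congr rfl fun f _ => ?_
    rw [hBf f]
    ring
  rw [spa_split (rho_form L Om_form) hR, hA, hC, hD, hB]
  ring

end Pool.Hopf3
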