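import Pool.Agent.Lib.MP_4a593f_gt.P3.SpA

namespace Pool.Hopf3

open Finset

variable {d : ℕ}

private def SpB_C (x y : Fin 6 → ℝ) (j k : Fin 6) : ℝ :=
  (![- y 1, y 0, - y 3, y 2, - y 5, y 4] : Fin 6 → ℝ) j * x k
    - (![- y 1, y 0, - y 3, y 2, - y 5, y 4] : Fin 6 → ℝ) k * x j
    + (∑ i, x i * y i) * J6 j k

private theorem SpB_id (x y : Fin 6 → ℝ) (h : Fin 6 → Fin 6 → ℝ) (hs : ∀ i j, h j i = - h i j) :
    ∑ k, x k * (y 0 * h 1 k - y 1 * h 0 k + y k * h 0 1 + (y 2 * h 3 k - y 3 * h 2 k + y k * h 2 3)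
      + (y 4 * h 5 k - y 5 * h 4 k + y k * h 4 5))
      = 1 / 2 * ∑ j, ∑ k, SpB_C x y j k * h j k := by
  have d0 : ∀ i, h i i = 0 := fun i => by have := hs i i; linarith
  simp only [Fin.sum_univ_six, SpB_C, J6, w2, kd]
  simp [d0, hs 0 1, hs 0 2, hs 0 3, hs 0 4, hs 0 5, hs 1 2, hs 1 3, hs 1 4, hs 1 5,
    hs 2 3, hs 2 4, hs 2 5, hs 3 4, hs 3 5, hs 4 5]
  ring

private theorem SpB_norm (x y : Fin 6 → ℝ) :
    ∑ j, ∑ k, SpB_C x y j k ^ 2 ≤ 4 * (∑ i, x i ^ 2) * (∑ i, y i ^ 2) := by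
  have h1 : ∑ j, ∑ k, SpB_C x y j k ^ 2 =
      2 * ((∑ i, x i ^ 2) * (∑ i, y i ^ 2)
        - (∑ i, (![- y 1, y 0, - y 3, y 2, - y 5, y 4] : Fin 6 → ℝ) i * x i) ^ 2
        + (∑ i, x i * y i) ^ 2) := by
    simp only [Fin.sum_univ_six, SpB_C, J6, w2, kd]
    simp
    ring
  have h2 := Finset.sum_mul_sq_le_sq_mul_sq (Finset.univ : Finset (Fin 6)) x y
  rw [h1]
  nlinarith [sq_nonneg (∑ i, (![- y 1, y 0, - y 3, y 2, - y 5, y 4] : Fin 6 → ℝ) i * x i)]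

private theorem SpB_BY {η : Idx d → Idx d → Idx d → ℝ} (hη : Form3 η)
    {L : Idx d → Idx d → ℝ} (hL : Skew L) :
    BY L η = - (1 / 2 * ∑ f, ∑ j, ∑ k, SpB_C (xi L) (Yv L f) j k * η (.inr f) (.inl j) (.inl k)) := by
  have e1 : ∀ f (i k : Fin 6), η (.inl i) (.inr f) (.inl k) = - η (.inr f) (.inl i) (.inl k) :=
    fun f i k => hη.s12 _ _ _
  have e2 : ∀ f (i j : Fin 6), η (.inl i) (.inl j) (.inr f) = η (.inr f) (.inl i) (.inl j) := by
    intro f i j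
    rw [hη.s23 (.inl i) (.inr f) (.inl j), e1, neg_neg]
  have e3 : ∀ (f : Fin d) (i : Fin 6), L (.inl i) (.inr f) = - Yv L f i := fun f i => hL _ _
  have e4 : ∀ k, lam (rhod L η) k = - ∑ f,
      (Yv L f 0 * η (.inr f) (.inl 1) (.inl k) - Yv L f 1 * η (.inr f) (.inl 0) (.inl k)
        + Yv L f k * η (.inr f) (.inl 0) (.inl 1)
      + (Yv L f 2 * η (.inr f) (.inl 3) (.inl k) - Yv L f 3 * η (.inr f) (.inl 2) (.inl k)
        + Yv L f k * η (.inr f) (.inl 2) (.inl 3))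
      + (Yv L f 4 * η (.inr f) (.inl 5) (.inl k) - Yv L f 5 * η (.inr f) (.inl 4) (.inl k)
        + Yv L f k * η (.inr f) (.inl 4) (.inl 5))) := by
    intro k
    unfold lam rhod
    rw [← Finset.sum_add_distrib, ← Finset.sum_add_distrib, ← Finset.sum_neg_distrib]
    refine Finset.sum_congr rfl fun f _ => ?_
    simp only [e1, e2, e3]
    ring
  unfold BY
  simp only [e4, mul_neg, Finset.sum_neg_distrib]
  congr 1
  simp only [Finset.mul_sum]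
  rw [Finset.sum_comm]
  refine Finset.sum_congr rfl fun f _ => ?_
  have e5 := SpB_id (xi L) (Yv L f) (fun j k => η (.inr f) (.inl j) (.inl k))
    (fun i j => hη.s23 _ _ _)
  simp only [Finset.mul_sum] at e5
  exact e5

theorem BY_le {η : Idx d → Idx d → Idx d → ℝ} (hη : Form3 η)
    {L : Idx d → Idx d → ℝ} (hL : Skew L) :
    BY L η ^ 2 ≤ 2 * aL L * bL L * E1 η := by
  have h1 := Finset.sum_mul_sq_le_sq_mul_sq (Finset.univ : Finset (Fin d × Fin 6 × Fin 6))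
    (fun x => SpB_C (xi L) (Yv L x.1) x.2.1 x.2.2) (fun x => η (.inr x.1) (.inl x.2.1) (.inl x.2.2))
  simp only [Fintype.sum_prod_type] at h1
  have h2 : ∑ f, ∑ j, ∑ k, SpB_C (xi L) (Yv L f) j k ^ 2
      ≤ 4 * (∑ i, xi L i ^ 2) * ∑ f, ∑ i, Yv L f i ^ 2 := by
    rw [Finset.mul_sum]
    exact Finset.sum_le_sum fun f _ => SpB_norm _ _
  have h3 : bL L = 1 / 2 * ∑ f, ∑ i, Yv L f i ^ 2 := by
    unfold bL
    rw [Finset.sum_comm]
    congr 1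
    refine Finset.sum_congr rfl fun f _ => Finset.sum_congr rfl fun i _ => ?_
    rw [hL (.inr f) (.inl i)]
    unfold Yv
    ring
  have h4 : 0 ≤ ∑ f : Fin d, ∑ j : Fin 6, ∑ k : Fin 6, η (.inr f) (.inl j) (.inl k) ^ 2 :=
    Finset.sum_nonneg fun f _ => Finset.sum_nonneg fun i _ => Finset.sum_nonneg fun j _ =>
      sq_nonneg _
  rw [SpB_BY hη hL, h3]
  unfold aL E1
  have h5 := mul_le_mul_of_nonneg_right h2 h4
  have h6 := h1.trans h5
  rw [neg_sq, mul_pow]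
  nlinarith [h6]

end Pool.Hopf3
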