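import Pool.Agent.Lib.MP_4a593f_gt.P3.StdA

namespace Pool.Hopf3

open Finset

variable {d : ℕ}

/-! `rho L Om` for skew `L`. -/

private theorem sb_form_zero {χ : Fin 6 → Fin 6 → Fin 6 → ℝ} (h : Form3 χ)
    (h0 : ∀ i j k, i < j → j < k → χ i j k = 0) (i j k : Fin 6) : χ i j k = 0 := by
  have key : ∀ i j k, i < j → χ i j k = 0 := by
    intro i j k hij
    rcases lt_trichotomy j k with hjk | rfl | hjk
    · exact h0 i j k hij hjk
    · have := h.s23 i j j
      linarith
    · rcases lt_trichotomy i k with hik | rfl | hik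
      · have h1 := h.s23 i k j
        have h2 := h0 i k j hik hjk
        linarith
      · have h1 := h.s12 i j i
        have h2 := h.s23 j i i
        linarith
      · have h1 := h.s23 i k j
        have h2 := h.s12 k i j
        have h3 := h0 k i j hik hij
        linarith
  rcases lt_trichotomy i j with hij | rfl | hij
  · exact key i j k hij
  · have := h.s12 i i k
    linarith
  · have h1 := h.s12 j i k
    have h2 := key j i k hij
    linarith

private theorem sb_rho_Om (L : Idx d → Idx d → ℝ) (i j k : Fin 6) :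
    rho L Om (.inl i) (.inl j) (.inl k) = ∑ t : Fin 6, (L (.inl i) (.inl t) * Om6 t j k
      + L (.inl j) (.inl t) * Om6 i t k + L (.inl k) (.inl t) * Om6 i j t) := by
  simp [rho, Fintype.sum_sum_type, Om]

private theorem sb_J6 (i j : Fin 6) : J6 j i = - J6 i j := by
  unfold J6 w2
  ring

private theorem sb_Oi6 : Form3 (Oi6 : Fin 6 → Fin 6 → Fin 6 → ℝ) := by
  constructor
  · intro i j k
    unfold Oi6 w3
    ring
  · intro i j k
    unfold Oi6 w3
    ring

private theorem sb_Om6 : Form3 (Om6 : Fin 6 → Fin 6 → Fin 6 → ℝ) := by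
  constructor
  · intro i j k
    unfold Om6 w3
    ring
  · intro i j k
    unfold Om6 w3
    ring

theorem rho_Om_lll {L : Idx d → Idx d → ℝ} (hL : Skew L) (i j k : Fin 6) :
    rho L Om (.inl i) (.inl j) (.inl k) = - th L * Oi6 i j k
      + J6 i j * xi L k + J6 j k * xi L i + J6 k i * xi L j := by
  have hform : Form3 (fun i j k : Fin 6 => rho L Om (.inl i) (.inl j) (.inl k) -
      (- th L * Oi6 i j k + J6 i j * xi L k + J6 j k * xi L i + J6 k i * xi L j)) := by
    have h1 := rho_form L (Om_form (d := d))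
    constructor
    · intro i j k
      have a1 := h1.s12 (.inl i) (.inl j) (.inl k)
      have a2 := sb_Oi6.s12 i j k
      have a3 := sb_J6 i j
      have a4 := sb_J6 i k
      have a5 := sb_J6 j k
      simp only [a1, a2, a3, a4, a5]
      ring
    · intro i j k
      have a1 := h1.s23 (.inl i) (.inl j) (.inl k)
      have a2 := sb_Oi6.s23 i j k
      have a3 := sb_J6 i j
      have a4 := sb_J6 i k
      have a5 := sb_J6 j k
      simp only [a1, a2, a3, a4, a5]
      ring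
  have hz : ∀ i j k : Fin 6, i < j → j < k → rho L Om (.inl i) (.inl j) (.inl k) -
      (- th L * Oi6 i j k + J6 i j * xi L k + J6 j k * xi L i + J6 k i * xi L j) = 0 := by
    have hd : ∀ a : Fin 6, L (.inl a) (.inl a) = 0 := fun a => by
      have := hL (.inl a) (.inl a)
      linarith
    have s10 := hL (.inl 0) (.inl 1)
    have s20 := hL (.inl 0) (.inl 2)
    have s30 := hL (.inl 0) (.inl 3)
    have s40 := hL (.inl 0) (.inl 4)
    have s50 := hL (.inl 0) (.inl 5)
    have s21 := hL (.inl 1) (.inl 2)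
    have s31 := hL (.inl 1) (.inl 3)
    have s41 := hL (.inl 1) (.inl 4)
    have s51 := hL (.inl 1) (.inl 5)
    have s32 := hL (.inl 2) (.inl 3)
    have s42 := hL (.inl 2) (.inl 4)
    have s52 := hL (.inl 2) (.inl 5)
    have s43 := hL (.inl 3) (.inl 4)
    have s53 := hL (.inl 3) (.inl 5)
    have s54 := hL (.inl 4) (.inl 5)
    intro i j k hij hjk
    rw [sb_rho_Om, Fin.sum_univ_six]
    fin_cases i <;> fin_cases j <;> first
      | (exfalso; revert hij; decide)
      | (fin_cases k <;> first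
        | (exfalso; revert hjk; decide)
        | (simp [Om6, Oi6, J6, w3, w2, kd, xi, th, hd, s10, s20, s30, s40, s50, s21, s31, s41,
            s51, s32, s42, s52, s43, s53, s54]; try ring))
  have := sb_form_zero hform (fun i j k h1 h2 => hz i j k h1 h2) i j k
  linarith


theorem rho_Om_rll (L : Idx d → Idx d → ℝ) (f : Fin d) (j k : Fin 6) :
    rho L Om (.inr f) (.inl j) (.inl k) = ∑ t, Yv L f t * Om6 t j k := by
  simp [rho, Fintype.sum_sum_type, Om, Yv]

theorem rho_Om_rrl (L : Idx d → Idx d → ℝ) (f g : Fin d) (k : Fin 6) :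
    rho L Om (.inr f) (.inr g) (.inl k) = 0 := by
  simp [rho, Om]

theorem rho_Om_rrr (L : Idx d → Idx d → ℝ) (f g h : Fin d) :
    rho L Om (.inr f) (.inr g) (.inr h) = 0 := by
  simp [rho, Om]

private theorem sb_split {χ η : Idx d → Idx d → Idx d → ℝ} (hχ : Form3 χ) (hη : Form3 η)
    (h1 : ∀ (f g : Fin d) (k : Fin 6), η (.inr f) (.inr g) (.inl k) = 0)
    (h2 : ∀ f g h : Fin d, η (.inr f) (.inr g) (.inr h) = 0) :
    ip3 χ η = 1 / 6 * (∑ i : Fin 6, ∑ j : Fin 6, ∑ k : Fin 6,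
        χ (.inl i) (.inl j) (.inl k) * η (.inl i) (.inl j) (.inl k)) +
      1 / 2 * (∑ f : Fin d, ∑ j : Fin 6, ∑ k : Fin 6,
        χ (.inr f) (.inl j) (.inl k) * η (.inr f) (.inl j) (.inl k)) := by
  have e1 : ∀ (i : Fin 6) (f g : Fin d), η (.inl i) (.inr f) (.inr g) = 0 := by
    intro i f g
    have a1 := hη.s12 (.inr f) (.inl i) (.inr g)
    have a2 := hη.s23 (.inr f) (.inr g) (.inl i)
    have a3 := h1 f g i
    linarith
  have e2 : ∀ (i : Fin 6) (f g : Fin d), η (.inr f) (.inl i) (.inr g) = 0 := by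
    intro i f g
    have a2 := hη.s23 (.inr f) (.inr g) (.inl i)
    have a3 := h1 f g i
    linarith
  have e3 : ∀ (i j : Fin 6) (f : Fin d), χ (.inl i) (.inr f) (.inl j) *
      η (.inl i) (.inr f) (.inl j) = χ (.inr f) (.inl i) (.inl j) *
      η (.inr f) (.inl i) (.inl j) := by
    intro i j f
    rw [hη.s12 (.inr f) (.inl i) (.inl j), hχ.s12 (.inr f) (.inl i) (.inl j)]
    ring
  have e4 : ∀ (i j : Fin 6) (f : Fin d), χ (.inl i) (.inl j) (.inr f) *
      η (.inl i) (.inl j) (.inr f) = χ (.inr f) (.inl i) (.inl j) *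
      η (.inr f) (.inl i) (.inl j) := by
    intro i j f
    rw [hη.s23 (.inl i) (.inr f) (.inl j), hχ.s23 (.inl i) (.inr f) (.inl j), ← e3]
    ring
  have c1 : ∑ i : Fin 6, ∑ f : Fin d, ∑ j : Fin 6, χ (.inr f) (.inl i) (.inl j) *
      η (.inr f) (.inl i) (.inl j) = ∑ f : Fin d, ∑ i : Fin 6, ∑ j : Fin 6,
      χ (.inr f) (.inl i) (.inl j) * η (.inr f) (.inl i) (.inl j) := Finset.sum_comm
  have c2 : ∑ i : Fin 6, ∑ j : Fin 6, ∑ f : Fin d, χ (.inr f) (.inl i) (.inl j) *
      η (.inr f) (.inl i) (.inl j) = ∑ f : Fin d, ∑ i : Fin 6, ∑ j : Fin 6,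
      χ (.inr f) (.inl i) (.inl j) * η (.inr f) (.inl i) (.inl j) := by
    rw [← c1]
    exact Finset.sum_congr rfl fun i _ => Finset.sum_comm
  unfold ip3
  simp only [Fintype.sum_sum_type, Finset.sum_add_distrib, e1, e2, h1, h2, e3, e4, mul_zero,
    Finset.sum_const_zero, add_zero, c1, c2]
  ring

private theorem sb_sqA (s : ℝ) (x : Fin 6 → ℝ) :
    ∑ i : Fin 6, ∑ j : Fin 6, ∑ k : Fin 6, (s * Oi6 i j k + J6 i j * x k + J6 j k * x i
      + J6 k i * x j) * (s * Oi6 i j k + J6 i j * x k + J6 j k * x i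
      + J6 k i * x j) = 6 * s ^ 2 + 12 * ∑ i, x i ^ 2 := by
  simp only [Fin.sum_univ_six]
  simp [Oi6, J6, w3, w2, kd]
  ring

private theorem sb_sqB (y : Fin 6 → ℝ) :
    ∑ j : Fin 6, ∑ k : Fin 6, (∑ t, y t * Om6 t j k) * (∑ t, y t * Om6 t j k) =
      ∑ t, y t ^ 2 := by
  simp only [Fin.sum_univ_six]
  simp [Om6, w3, kd]
  ring


/-- `|rho_L Om|²` -/
theorem ip3_rho_Om {L : Idx d → Idx d → ℝ} (hL : Skew L) :
    ip3 (rho L Om) (rho L Om) = th L ^ 2 + aL L + bL L := by
  have hf := rho_form L (Om_form (d := d))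
  rw [sb_split hf hf (rho_Om_rrl L) (rho_Om_rrr L)]
  simp only [rho_Om_lll hL, rho_Om_rll]
  rw [sb_sqA]
  simp only [sb_sqB]
  have e1 : ∑ f : Fin d, ∑ t, Yv L f t ^ 2 =
      ∑ i : Fin 6, ∑ f : Fin d, L (.inl i) (.inr f) ^ 2 := by
    rw [Finset.sum_comm]
    refine Finset.sum_congr rfl fun i _ => Finset.sum_congr rfl fun f _ => ?_
    unfold Yv
    rw [hL (.inl i) (.inr f)]
    ring
  rw [e1]
  unfold aL bL
  ring

theorem ip3_rho_Om_Oi {L : Idx d → Idx d → ℝ} (hL : Skew L) :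
    ip3 (rho L Om) Oi = - th L := by
  rw [ip3_Oi (rho_form L Om_form)]
  simp only [rho_Om_lll hL]
  simp [Oi6, J6, w3, w2, kd]
  ring

private theorem sb_rho_Oi (L : Idx d → Idx d → ℝ) (i j k : Fin 6) :
    rho L Oi (.inl i) (.inl j) (.inl k) = ∑ t : Fin 6, (L (.inl i) (.inl t) * Oi6 t j k
      + L (.inl j) (.inl t) * Oi6 i t k + L (.inl k) (.inl t) * Oi6 i j t) := by
  simp [rho, Fintype.sum_sum_type, Oi]

/-- `- J ξ` -/
private noncomputable def sb_xi (L : Idx d → Idx d → ℝ) : Fin 6 → ℝ :=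
  ![- xi L 1, xi L 0, - xi L 3, xi L 2, - xi L 5, xi L 4]

private theorem rho_Oi_lll {L : Idx d → Idx d → ℝ} (hL : Skew L) (i j k : Fin 6) :
    rho L Oi (.inl i) (.inl j) (.inl k) = th L * Om6 i j k
      + J6 i j * sb_xi L k + J6 j k * sb_xi L i + J6 k i * sb_xi L j := by
  have hform : Form3 (fun i j k : Fin 6 => rho L Oi (.inl i) (.inl j) (.inl k) -
      (th L * Om6 i j k + J6 i j * sb_xi L k + J6 j k * sb_xi L i + J6 k i * sb_xi L j)) := by
    have h1 := rho_form L (Oi_form (d := d))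
    constructor
    · intro i j k
      have a1 := h1.s12 (.inl i) (.inl j) (.inl k)
      have a2 := sb_Om6.s12 i j k
      have a3 := sb_J6 i j
      have a4 := sb_J6 i k
      have a5 := sb_J6 j k
      simp only [a1, a2, a3, a4, a5]
      ring
    · intro i j k
      have a1 := h1.s23 (.inl i) (.inl j) (.inl k)
      have a2 := sb_Om6.s23 i j k
      have a3 := sb_J6 i j
      have a4 := sb_J6 i k
      have a5 := sb_J6 j k
      simp only [a1, a2, a3, a4, a5]
      ring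
  have hz : ∀ i j k : Fin 6, i < j → j < k → rho L Oi (.inl i) (.inl j) (.inl k) -
      (th L * Om6 i j k + J6 i j * sb_xi L k + J6 j k * sb_xi L i + J6 k i * sb_xi L j) = 0 := by
    have hd : ∀ a : Fin 6, L (.inl a) (.inl a) = 0 := fun a => by
      have := hL (.inl a) (.inl a)
      linarith
    have s10 := hL (.inl 0) (.inl 1)
    have s20 := hL (.inl 0) (.inl 2)
    have s30 := hL (.inl 0) (.inl 3)
    have s40 := hL (.inl 0) (.inl 4)
    have s50 := hL (.inl 0) (.inl 5)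
    have s21 := hL (.inl 1) (.inl 2)
    have s31 := hL (.inl 1) (.inl 3)
    have s41 := hL (.inl 1) (.inl 4)
    have s51 := hL (.inl 1) (.inl 5)
    have s32 := hL (.inl 2) (.inl 3)
    have s42 := hL (.inl 2) (.inl 4)
    have s52 := hL (.inl 2) (.inl 5)
    have s43 := hL (.inl 3) (.inl 4)
    have s53 := hL (.inl 3) (.inl 5)
    have s54 := hL (.inl 4) (.inl 5)
    intro i j k hij hjk
    rw [sb_rho_Oi, Fin.sum_univ_six]
    fin_cases i <;> fin_cases j <;> first
      | (exfalso; revert hij; decide)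
      | (fin_cases k <;> first
        | (exfalso; revert hjk; decide)
        | (simp [Om6, Oi6, J6, w3, w2, kd, sb_xi, xi, th, hd, s10, s20, s30, s40, s50, s21, s31,
            s41, s51, s32, s42, s52, s43, s53, s54]; try ring))
  have := sb_form_zero hform (fun i j k h1 h2 => hz i j k h1 h2) i j k
  linarith

private theorem rho_Oi_rll (L : Idx d → Idx d → ℝ) (f : Fin d) (j k : Fin 6) :
    rho L Oi (.inr f) (.inl j) (.inl k) = ∑ t, Yv L f t * Oi6 t j k := by
  simp [rho, Fintype.sum_sum_type, Oi, Yv]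

private theorem rho_Oi_rrl (L : Idx d → Idx d → ℝ) (f g : Fin d) (k : Fin 6) :
    rho L Oi (.inr f) (.inr g) (.inl k) = 0 := by
  simp [rho, Oi]

private theorem rho_Oi_rrr (L : Idx d → Idx d → ℝ) (f g h : Fin d) :
    rho L Oi (.inr f) (.inr g) (.inr h) = 0 := by
  simp [rho, Oi]

/-- pairing with `J ∧ x` -/
private theorem sb_pairJ {η : Idx d → Idx d → Idx d → ℝ} (hη : Form3 η) (hN : NCond η)
    (x : Fin 6 → ℝ) : ∑ i : Fin 6, ∑ j : Fin 6, ∑ k : Fin 6, η (.inl i) (.inl j) (.inl k) *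
      (J6 i j * x k + J6 j k * x i + J6 k i * x j) = 0 := by
  have hk : ∀ k : Fin 6, ∑ i : Fin 6, ∑ j : Fin 6, η (.inl i) (.inl j) (.inl k) * J6 i j = 0 := by
    intro k
    have e : ∑ i : Fin 6, ∑ j : Fin 6, η (.inl i) (.inl j) (.inl k) * J6 i j =
        2 * (η (.inl 0) (.inl 1) (.inl k) + η (.inl 2) (.inl 3) (.inl k) +
          η (.inl 4) (.inl 5) (.inl k)) := by
      have a1 := hη.s12 (.inl 0) (.inl 1) (.inl k)
      have a2 := hη.s12 (.inl 2) (.inl 3) (.inl k)
      have a3 := hη.s12 (.inl 4) (.inl 5) (.inl k)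
      simp only [Fin.sum_univ_six]
      simp [J6, w2, kd, a1, a2, a3]
      ring
    rw [e]
    have z : ∀ a b : Fin 6, η (.inl a) (.inl b) (.inl b) = 0 := fun a b => by
      have := hη.s23 (.inl a) (.inl b) (.inl b)
      linarith
    have z' : ∀ a b : Fin 6, η (.inl a) (.inl b) (.inl a) = 0 := fun a b => by
      have h1 := hη.s12 (.inl b) (.inl a) (.inl a)
      have h2 := z b a
      linarith
    have b0 := hN.l0
    have b1 := hN.l1
    have b2 := hN.l2
    have b3 := hN.l3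
    have b4 := hN.l4
    have b5 := hN.l5
    fin_cases k
    · simp only [Fin.zero_eta, z']
      linarith
    · simp only [Fin.mk_one, z]
      linarith
    · simp only [Fin.reduceFinMk, z']
      linarith
    · simp only [Fin.reduceFinMk, z]
      linarith
    · simp only [Fin.reduceFinMk, z']
      linarith
    · simp only [Fin.reduceFinMk, z]
      linarith
  have e0 : ∑ k : Fin 6, ∑ i : Fin 6, ∑ j : Fin 6, η (.inl i) (.inl j) (.inl k) *
      (J6 i j * x k) = 0 := by
    refine Finset.sum_eq_zero fun k _ => ?_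
    have : ∑ i : Fin 6, ∑ j : Fin 6, η (.inl i) (.inl j) (.inl k) * (J6 i j * x k) =
        (∑ i : Fin 6, ∑ j : Fin 6, η (.inl i) (.inl j) (.inl k) * J6 i j) * x k := by
      rw [Finset.sum_mul]
      refine Finset.sum_congr rfl fun i _ => ?_
      rw [Finset.sum_mul]
      exact Finset.sum_congr rfl fun j _ => by ring
    rw [this, hk, zero_mul]
  have e1 : ∑ i : Fin 6, ∑ j : Fin 6, ∑ k : Fin 6, η (.inl i) (.inl j) (.inl k) *
      (J6 i j * x k) = 0 := by
    rw [← e0]
    have : ∀ i : Fin 6, ∑ j : Fin 6, ∑ k : Fin 6, η (.inl i) (.inl j) (.inl k) *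
      (J6 i j * x k) = ∑ k : Fin 6, ∑ j : Fin 6, η (.inl i) (.inl j) (.inl k) *
      (J6 i j * x k) := fun i => Finset.sum_comm
    simp only [this]
    exact Finset.sum_comm
  have cyc : ∀ i j k : Fin 6, η (.inl i) (.inl j) (.inl k) = η (.inl j) (.inl k) (.inl i) := by
    intro i j k
    have h1 := hη.s12 (.inl i) (.inl j) (.inl k)
    have h2 := hη.s23 (.inl j) (.inl i) (.inl k)
    linarith
  have e2 : ∑ i : Fin 6, ∑ j : Fin 6, ∑ k : Fin 6, η (.inl i) (.inl j) (.inl k) *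
      (J6 j k * x i) = 0 := by
    have : ∑ i : Fin 6, ∑ j : Fin 6, ∑ k : Fin 6, η (.inl i) (.inl j) (.inl k) *
      (J6 j k * x i) = ∑ i : Fin 6, ∑ j : Fin 6, ∑ k : Fin 6,
        η (.inl j) (.inl k) (.inl i) * (J6 j k * x i) := by
      refine Finset.sum_congr rfl fun i _ => Finset.sum_congr rfl fun j _ =>
        Finset.sum_congr rfl fun k _ => ?_
      rw [cyc i j k]
    rw [this]
    exact e0
  have e3 : ∑ i : Fin 6, ∑ j : Fin 6, ∑ k : Fin 6, η (.inl i) (.inl j) (.inl k) *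
      (J6 k i * x j) = 0 := by
    have : ∑ i : Fin 6, ∑ j : Fin 6, ∑ k : Fin 6, η (.inl i) (.inl j) (.inl k) *
      (J6 k i * x j) = ∑ i : Fin 6, ∑ j : Fin 6, ∑ k : Fin 6,
        η (.inl j) (.inl k) (.inl i) * (J6 k i * x j) := by
      refine Finset.sum_congr rfl fun i _ => Finset.sum_congr rfl fun j _ =>
        Finset.sum_congr rfl fun k _ => ?_
      rw [cyc i j k]
    rw [this]
    rw [Finset.sum_comm]
    rw [← e2]
    refine Finset.sum_congr rfl fun j _ => ?_
    rw [Finset.sum_comm]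
  have : ∑ i : Fin 6, ∑ j : Fin 6, ∑ k : Fin 6, η (.inl i) (.inl j) (.inl k) *
      (J6 i j * x k + J6 j k * x i + J6 k i * x j) =
      ∑ i : Fin 6, ∑ j : Fin 6, ∑ k : Fin 6, η (.inl i) (.inl j) (.inl k) * (J6 i j * x k) +
      ∑ i : Fin 6, ∑ j : Fin 6, ∑ k : Fin 6, η (.inl i) (.inl j) (.inl k) * (J6 j k * x i) +
      ∑ i : Fin 6, ∑ j : Fin 6, ∑ k : Fin 6, η (.inl i) (.inl j) (.inl k) * (J6 k i * x j) := by
    simp only [mul_add, Finset.sum_add_distrib]
  rw [this, e1, e2, e3]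
  ring

private theorem sb_pair_Oi6 {η : Idx d → Idx d → Idx d → ℝ} (hη : Form3 η) (hN : NC1 η) :
    ∑ i : Fin 6, ∑ j : Fin 6, ∑ k : Fin 6, η (.inl i) (.inl j) (.inl k) * Oi6 i j k = 0 := by
  have h1 := ip3_Oi hη
  rw [hN.oi, mul_zero] at h1
  unfold ip3 at h1
  simp only [Fintype.sum_sum_type, Oi, mul_zero, Finset.sum_const_zero, add_zero] at h1
  linarith

private theorem sb_pair_Om6 {η : Idx d → Idx d → Idx d → ℝ} (hη : Form3 η) (hN : NC1 η) :
    ∑ i : Fin 6, ∑ j : Fin 6, ∑ k : Fin 6, η (.inl i) (.inl j) (.inl k) * Om6 i j k = 0 := by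
  have h1 := ip3_Om hη
  rw [hN.om, mul_zero] at h1
  unfold ip3 at h1
  simp only [Fintype.sum_sum_type, Om, mul_zero, Finset.sum_const_zero, add_zero] at h1
  linarith

private theorem sb_cyc {η : Idx d → Idx d → Idx d → ℝ} (hη : Form3 η) (f : Fin d)
    (j k : Fin 6) : η (.inr f) (.inl j) (.inl k) = η (.inl j) (.inl k) (.inr f) := by
  have h1 := hη.s12 (.inr f) (.inl j) (.inl k)
  have h2 := hη.s23 (.inl j) (.inr f) (.inl k)
  linarith

private theorem sb_pair_mixed {η : Idx d → Idx d → Idx d → ℝ} (hη : Form3 η) (hN : NC1 η)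
    (f : Fin d) (y : Fin 6 → ℝ) :
    ∑ j : Fin 6, ∑ k : Fin 6, η (.inr f) (.inl j) (.inl k) * (∑ t, y t * Om6 t j k) = 0 ∧
    ∑ j : Fin 6, ∑ k : Fin 6, η (.inr f) (.inl j) (.inl k) * (∑ t, y t * Oi6 t j k) = 0 := by
  have f1 := hN.f1 f
  have f2 := hN.f2 f
  have f3 := hN.f3 f
  have f4 := hN.f4 f
  have f5 := hN.f5 f
  have f6 := hN.f6 f
  have s : ∀ a b : Fin 6, η (.inl b) (.inl a) (.inr f) = - η (.inl a) (.inl b) (.inr f) :=
    fun a b => hη.s12 _ _ _
  have s20 := s 0 2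
  have s30 := s 0 3
  have s40 := s 4 0
  have s50 := s 5 0
  have s21 := s 1 2
  have s31 := s 1 3
  have s41 := s 4 1
  have s51 := s 5 1
  have s42 := s 2 4
  have s52 := s 2 5
  have s43 := s 3 4
  have s53 := s 3 5
  constructor
  · simp only [sb_cyc hη, Fin.sum_univ_six]
    simp [Om6, w3, kd]
    rw [s20, s30, s40, s50, s21, s31, s41, s51, s42, s52, s43, s53, f1, f2, f3, f4, f5, f6]
    ring
  · simp only [sb_cyc hη, Fin.sum_univ_six]
    simp [Oi6, w3, kd]
    rw [s20, s30, s40, s50, s21, s31, s41, s51, s42, s52, s43, s53, f1, f2, f3, f4, f5, f6]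
    ring

/-- tangency: `NCond` forms are orthogonal to `rho L Om` -/
theorem ip3_ncond_Om {η : Idx d → Idx d → Idx d → ℝ} (hη : Form3 η) (hN : NCond η)
    {L : Idx d → Idx d → ℝ} (hL : Skew L) : ip3 η (rho L Om) = 0 := by
  rw [sb_split hη (rho_form L Om_form) (rho_Om_rrl L) (rho_Om_rrr L)]
  simp only [rho_Om_lll hL, rho_Om_rll, (sb_pair_mixed hη hN.toNC1 _ _).1]
  have h1 := sb_pairJ hη hN (xi L)
  have h2 := sb_pair_Oi6 hη hN.toNC1
  have e : ∑ i : Fin 6, ∑ j : Fin 6, ∑ k : Fin 6, η (.inl i) (.inl j) (.inl k) *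
      (- th L * Oi6 i j k + J6 i j * xi L k + J6 j k * xi L i + J6 k i * xi L j) =
      - th L * (∑ i : Fin 6, ∑ j : Fin 6, ∑ k : Fin 6,
        η (.inl i) (.inl j) (.inl k) * Oi6 i j k) +
      ∑ i : Fin 6, ∑ j : Fin 6, ∑ k : Fin 6, η (.inl i) (.inl j) (.inl k) *
      (J6 i j * xi L k + J6 j k * xi L i + J6 k i * xi L j) := by
    simp only [Finset.mul_sum, ← Finset.sum_add_distrib]
    refine Finset.sum_congr rfl fun i _ => Finset.sum_congr rfl fun j _ =>
      Finset.sum_congr rfl fun k _ => ?_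
    ring
  rw [e, h1, h2]
  simp

/-- and to `rho L Oi` -/
theorem ip3_ncond_Oi {η : Idx d → Idx d → Idx d → ℝ} (hη : Form3 η) (hN : NCond η)
    {L : Idx d → Idx d → ℝ} (hL : Skew L) : ip3 η (rho L Oi) = 0 := by
  rw [sb_split hη (rho_form L Oi_form) (rho_Oi_rrl L) (rho_Oi_rrr L)]
  simp only [rho_Oi_lll hL, rho_Oi_rll, (sb_pair_mixed hη hN.toNC1 _ _).2]
  have h1 := sb_pairJ hη hN (sb_xi L)
  have h2 := sb_pair_Om6 hη hN.toNC1
  have e : ∑ i : Fin 6, ∑ j : Fin 6, ∑ k : Fin 6, η (.inl i) (.inl j) (.inl k) *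
      (th L * Om6 i j k + J6 i j * sb_xi L k + J6 j k * sb_xi L i + J6 k i * sb_xi L j) =
      th L * (∑ i : Fin 6, ∑ j : Fin 6, ∑ k : Fin 6,
        η (.inl i) (.inl j) (.inl k) * Om6 i j k) +
      ∑ i : Fin 6, ∑ j : Fin 6, ∑ k : Fin 6, η (.inl i) (.inl j) (.inl k) *
      (J6 i j * sb_xi L k + J6 j k * sb_xi L i + J6 k i * sb_xi L j) := by
    simp only [Finset.mul_sum, ← Finset.sum_add_distrib]
    refine Finset.sum_congr rfl fun i _ => Finset.sum_congr rfl fun j _ =>
      Finset.sum_congr rfl fun k _ => ?_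
    ring
  rw [e, h1, h2]
  simp

end Pool.Hopf3
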